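import Pool.Agent.H606R2.FF.Base
import Pool.Agent.H24R2.U.Spec

/-!
# The algorithm

An instance is the table of a plane graph: for every dart the next dart counterclockwise, the
reverse dart and the length; and a dart with the outer face on its right.
-/

namespace Pool.Agent.H606R2.FF

open Pool.Agent.H24U

/-- tables -/
abbrev Tab : Type := List (ℕ × ℕ × ℕ) × ℕ

/-- the table of a plane graph -/
def table {n : ℕ} (G : PlaneGraph (Fin n)) : Tab :=
  ((List.finRange n).map fun d => ((G.rot d : ℕ), (G.rev d : ℕ), G.len d), (G.out : ℕ))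

def rotT (G : Tab) (d : ℕ) : ℕ := (G.1.getD d (0, 0, 0)).1
def revT (G : Tab) (d : ℕ) : ℕ := (G.1.getD d (0, 0, 0)).2.1
def lenT (G : Tab) (d : ℕ) : ℕ := (G.1.getD d (0, 0, 0)).2.2
def faceT (G : Tab) (d : ℕ) : ℕ := rotT G (revT G d)

/-! ### Linear programs -/

/-- the homogeneous system for the constraints `lo ≤ ∑_{i ∈ I} (1 - 2 y_i) ≤ hi`, `(I, lo, hi)` in
the list `Cs`; the variables are `h` (the denominator), `y_0, …, y_{n-1}`, slack variables -/
def feasCols (n : ℕ) (Cs : List (List ℕ × ℤ × ℤ)) : List (List ℤ) :=
  (Cs.flatMap fun c => [(c.1.length : ℤ) - c.2.1, c.2.2 - (c.1.length : ℤ)]) ::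
  (((List.range n).map fun b => Cs.flatMap fun c =>
      [-(2 * (c.1.count b : ℤ)), 2 * (c.1.count b : ℤ)]) ++
    (List.range (2 * Cs.length)).map fun k => (List.range (2 * Cs.length)).map fun i =>
      if i = k then (-1 : ℤ) else 0)

/-- feasibility of the constraints `lo ≤ ∑_{i ∈ I} (1 - 2 y_i) ≤ hi`, `y ≥ 0` -/
def feas (n : ℕ) (Cs : List (List ℕ × ℤ × ℤ)) : Bool := (posMask (feasCols n Cs)).getD 0 false

/-! ### Positions -/

/-- `[x, s]` if the position `x` of the tail and the direction `s = ±1` of the dart `d` are known,
`[]` otherwise -/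
def pget (S : List (List ℤ)) (d : ℕ) : List ℤ := S.getD d []

/-- one round of propagation for the dart `d` -/
def pnew (G : Tab) (S : List (List ℤ)) (d : ℕ) : List ℤ :=
  if pget S d ≠ [] then pget S d
  else if pget S (rotT G d) ≠ [] then pget S (rotT G d)
  else if pget S (revT G d) ≠ [] then
    [(pget S (revT G d)).getD 0 0 + (pget S (revT G d)).getD 1 0 * (lenT G d : ℤ),
      -(pget S (revT G d)).getD 1 0]
  else []

/-- one round of propagation -/
def pround (G : Tab) (S : List (List ℤ)) : List (List ℤ) :=
  (List.range G.1.length).map (pnew G S)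

/-- only the dart `0` is known -/
def pinit (G : Tab) : List (List ℤ) :=
  (List.range G.1.length).map fun d => if d = 0 then [0, 1] else []

/-- the positions and directions of all darts -/
def ppos (G : Tab) : List (List ℤ) := (pround G)^[G.1.length] (pinit G)

/-- the position of the tail of the dart `d` -/
def xT (G : Tab) (d : ℕ) : ℤ := (pget (ppos G) d).getD 0 0

/-- the positions are correct -/
def posOK (G : Tab) : Bool :=
  (List.range G.1.length).all fun d =>
    decide (pget (ppos G) (rotT G d) = pget (ppos G) d) &&
    decide (pget (ppos G) (revT G d) =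
      [(pget (ppos G) d).getD 0 0 + (pget (ppos G) d).getD 1 0 * (lenT G d : ℤ),
        -(pget (ppos G) d).getD 1 0])

/-! ### Tables of plane graphs -/

/-- the orbit of `d` (with repetitions) -/
def orb (f : ℕ → ℕ) (n d : ℕ) : List ℕ := (List.range n).map fun i => f^[i] d

/-- the number of orbits -/
def cnt (f : ℕ → ℕ) (n : ℕ) : ℕ :=
  ((List.range n).filter fun d => (orb f n d).all fun x => decide (d ≤ x)).length

/-- is this the table of a plane graph? -/
def validT (G : Tab) : Bool :=
  let n := G.1.length
  decide (G.2 < n) &&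
  ((List.range n).all fun d => decide (rotT G d < n) && decide (revT G d < n) &&
    decide (revT G (revT G d) = d) && decide (revT G d ≠ d) && decide (0 < lenT G d) &&
    decide (lenT G (revT G d) = lenT G d) &&
    ((List.range n).all fun e => decide (rotT G d = rotT G e → d = e))) &&
  ((List.range n).all fun d => decide (pget (ppos G) d ≠ [])) &&
  decide (cnt (rotT G) n + cnt (faceT G) n = cnt (revT G) n + 2) &&
  ((List.range n).all fun d => decide (revT G d ∉ orb (rotT G) n d)) &&
  ((List.range n).all fun d => (List.range n).all fun e =>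
    decide (e ∈ orb (rotT G) n d → revT G e ∈ orb (rotT G) n (revT G d) → d = e))

/-! ### The constraints -/

/-- the constraints of the interval of the face of `d` with the `t` angles after `d` -/
def stripT (G : Tab) (d t : ℕ) : List (List ℕ × ℤ × ℤ) :=
  let I := (List.range t).map fun i => (faceT G)^[i + 1] d
  let x := xT G d
  let y := xT G ((faceT G)^[t + 1] d)
  (if (I.all fun a => decide (xT G a < x)) && (I.all fun a => decide (xT G a < y))
    then [(I, -1, 1)] else []) ++
  (if (I.all fun a => decide (x < xT G a)) && (I.all fun a => decide (y < xT G a))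
    then [(I, -1, 1)] else []) ++
  (if (I.all fun a => decide (xT G a < x)) && (I.all fun a => decide (y < xT G a))
    then [(I, 0, 0)] else []) ++
  (if (I.all fun a => decide (x < xT G a)) && (I.all fun a => decide (xT G a < y))
    then [(I, 0, 0)] else [])

/-- the set of the elements of an orbit -/
def orbSet (f : ℕ → ℕ) (n d : ℕ) : List ℕ := (List.range n).filter fun x => decide (x ∈ orb f n d)

/-- all constraints -/
def csT (G : Tab) : List (List ℕ × ℤ × ℤ) :=
  let n := G.1.length
  ((List.range n).map fun d => ([d], -1, 1)) ++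
  ((List.range n).map fun d => (orbSet (rotT G) n d,
    ((orbSet (rotT G) n d).length : ℤ) - 2, ((orbSet (rotT G) n d).length : ℤ) - 2)) ++
  ((List.range n).map fun d => (orbSet (faceT G) n d,
    if G.2 ∈ orb (faceT G) n d then (-2 : ℤ) else 2,
    if G.2 ∈ orb (faceT G) n d then (-2 : ℤ) else 2)) ++
  (List.range n).flatMap fun d => (List.range n).flatMap fun t => stripT G d (t + 1)

/-- the algorithm -/
def decideT (G : Tab) : Bool := validT G && (posOK G && feas G.1.length (csT G))

end Pool.Agent.H606R2.FF
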