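import Pool.Agent.H606R2.FF.Defs

/-!
# Statements used in several files
-/

namespace Pool.Agent.H606R2.FF

open Equiv.Perm

variable {D : Type}

/-! ### Weights -/

/-- The weight of an angle: `-1` for mountains and `1` for valleys. -/
noncomputable def tau (M : Set D) (a : D) : ℤ := by
  classical exact if a ∈ M then -1 else 1

/-- Positions of the vertices on the line. -/
structure Positions (G : PlaneGraph D) (X : D → ℤ) : Prop where
  X_rot : ∀ d, X (G.rot d) = X d
  X_len : ∀ d, |X (G.rev d) - X d| = G.len d
  same_side : ∀ d, X d < X (G.rev d) ↔ X (G.rot d) < X (G.rev (G.rot d))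

/-- Fractional solutions: the weight `w = 1 - 2 y` where `y` is the fractional indicator of the
mountains. -/
structure Fractional (G : PlaneGraph D) (X : D → ℤ) (w : D → ℝ) : Prop where
  box : ∀ a, |w a| ≤ 1
  vertex : ∀ d, cycSum G.rot w d = (Nat.card {a | G.rot.SameCycle d a} : ℝ) - 2
  total : ∀ d, (G.face.SameCycle d G.out → cycSum G.face w d = -2) ∧
    (¬ G.face.SameCycle d G.out → cycSum G.face w d = 2)
  strips : ∀ d, Strips G.face X w d

/-! ### Closed walks as lists -/

/-- In the cyclic list `l`, `b` follows `a`. -/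
def Adj (l : List D) (a b : D) : Prop := ∃ K, l ~r a :: b :: K

/-- The strip conditions for a cyclic list. -/
def LStrips (X : D → ℤ) (w : D → ℝ) (l : List D) : Prop :=
  ∀ (I J : List D) (_ : I ≠ []) (hJ : J ≠ []), l ~r I ++ J →
    ArcOK X w (J.getLast hJ) I (J.head hJ)

/-- The positions turn back at every step. -/
def LZig (X : D → ℤ) (l : List D) : Prop :=
  ∀ a b c, Adj l a b → Adj l b c → (X a < X b ∧ X c < X b) ∨ (X b < X a ∧ X b < X c)

/-- `R` is a maximal run of shortest edges (of length `m`) in the cyclic list `R ++ J`: at least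
two angles, and the edges before and after `R` are longer. -/
structure Run (X : D → ℤ) (m : ℤ) (R J : List D) : Prop where
  two : 2 ≤ R.length
  ne : J ≠ []
  even : Even (R.length + J.length)
  nodup : (R ++ J).Nodup
  zig : LZig X (R ++ J)
  pos : 0 < m
  chain : ∀ a b K K', R = K ++ a :: b :: K' → |X a - X b| = m
  before : ∀ a b K K', J = K ++ [a] → R = b :: K' → m < |X a - X b|
  after : ∀ a b K K', R = K ++ [a] → J = b :: K' → m < |X a - X b|

/-! ### The pairing of the layers -/

/-- Chains in the nested structure of the layers at one side of a point of the line. -/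
inductive Reach {E : Type} (up : Option E → Option E) (g : E → E) (C M : Set E) :
    Option E → Option E → Prop
  | base {p q : Option E} : up p = q → Reach up g C M p q
  | step {p q : Option E} {x : E} : x ∈ C → x ∈ M → up p = some (g x) →
      Reach up g C M (some x) q → Reach up g C M p q

/-- The lowest element of a set of darts. -/
noncomputable def lowest (h : D → ℚ) (P : Set D) : Option D := by
  classical exact if H : ∃ p ∈ P, ∀ q ∈ P, h p ≤ h q then some H.choose else none

/-- The edge directly above the dart `a` (a dart to the left, which has the region above it on its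
right) in the face of `a`, among the darts to the right in the set `P`; for `none` the lowest edge
of the outer face. Edges are represented by their darts to the left. -/
noncomputable def upOf (G : PlaneGraph D) (h : D → ℚ) (P : Set D) : Option D → Option D
  | some a => (lowest h {p | G.face.SameCycle a p ∧ p ∈ P ∧ h a < h p}).map G.rev
  | none => (lowest h {p | G.face.SameCycle G.out p ∧ p ∈ P}).map G.rev

/-- the darts to the right over the interval `(s, s+1)` -/
def rightAt (G : PlaneGraph D) (X : D → ℤ) (s : ℤ) : Set D := {p | X p ≤ s ∧ s < X (G.rev p)}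

/-- the darts to the right over the point `c` -/
def rightOver (G : PlaneGraph D) (X : D → ℤ) (c : ℤ) : Set D := {p | X p < c ∧ c < X (G.rev p)}

/-- the darts to the left over the point `c` -/
def leftOver (G : PlaneGraph D) (X : D → ℤ) (c : ℤ) : Set D := {p | c < X p ∧ X (G.rev p) < c}

/-- the darts to the left over the interval `(s, s+1)` -/
def leftAt (G : PlaneGraph D) (X : D → ℤ) (s : ℤ) : Set D := {p | X (G.rev p) ≤ s ∧ s < X p}

/-- Layers for all faces. -/
structure Layers (G : PlaneGraph D) (X : D → ℤ) (M : Set D) (h : D → ℚ) : Prop where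
  pos : Positions G X
  one_mountain : ∀ d, ∃! b, G.rot.SameCycle d b ∧ b ∈ M
  outer : ∀ d, G.face.SameCycle d G.out → FaceFold G.face X (tau M) d (-2) h
  inner : ∀ d, ¬ G.face.SameCycle d G.out → FaceFold G.face X (tau M) d 2 h

/-! ### Sums over pairs of layers -/

/-- direction of the edge `i` over the interval `(s, s+1)` -/
def fl (x : ℕ → ℤ) (i : ℕ) (s : ℤ) : ℤ :=
  (if x i ≤ s then 1 else 0) - (if x (i + 1) ≤ s then 1 else 0)

/-- the sum over the pairs of edges over the interval `(s, s+1)` -/
def Wf (x : ℕ → ℤ) (S : ℕ → ℕ → ℤ) (m : ℕ) (s : ℤ) : ℤ :=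
  ∑ j ∈ Finset.range (m + 1), ∑ i ∈ Finset.range j, fl x i s * fl x j s * S i j

/-- The strand of the dart `a` is above the strand of the dart `b`; the strand of a dart is drawn
slightly to the right of the dart, so that the strand of a dart to the left is above the strand of
its reverse. -/
def PlaneGraph.FoldedState.sAbove {G : PlaneGraph D} (F : G.FoldedState) (a b : D) : Prop :=
  (a ≠ G.rev b ∧ F.above a b) ∨ (a = G.rev b ∧ F.X b < F.X a)

/-- `1` if the strand of `a` is above the strand of `b`, and `-1` otherwise -/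
noncomputable def PlaneGraph.FoldedState.sg {G : PlaneGraph D} (F : G.FoldedState) (a b : D) : ℤ := by
  classical exact if F.sAbove a b then 1 else -1

/-- the signs of the pairs of darts of the walk through `z` (symmetric) -/
noncomputable def PlaneGraph.FoldedState.sgS {G : PlaneGraph D} (F : G.FoldedState) (z : D)
    (i j : ℕ) : ℤ :=
  if i < j then F.sg ((G.face ^ j) z) ((G.face ^ i) z)
  else if j < i then F.sg ((G.face ^ i) z) ((G.face ^ j) z) else 0

/-! ### Layers of cyclic lists -/

/-- the pairs `(a, b)` where `b` follows `a` in the cyclic list -/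
def pairsOf (l : List D) : List (D × D) := l.zip (l.rotate 1)

/-- over the interval `(s, s+1)` -/
def ovr (X : D → ℤ) (s : ℤ) (p : D × D) : Prop := min (X p.1) (X p.2) ≤ s ∧ s < max (X p.1) (X p.2)

/-- Layers for the cyclic list `l` (as `FaceFold`). The edge from `a` to the next element has the
layer `h a`. -/
structure LFold (X : D → ℤ) (τ : D → ℤ) (l : List D) (T : ℤ) (h : D → ℚ) : Prop where
  inj : ∀ a ∈ l, ∀ b ∈ l, h a = h b → a = b
  cross : ∀ p ∈ pairsOf l, ∀ q ∈ pairsOf l, min (X q.1) (X q.2) < X p.2 →
    X p.2 < max (X q.1) (X q.2) → (h q.1 < h p.1 ↔ h q.1 < h p.2)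
  pair : ∀ p ∈ pairsOf l, ∀ q ∈ pairsOf l, p.1 ≠ q.1 → X p.2 = X q.2 →
    (X p.1 < X p.2 ↔ X q.1 < X q.2) →
    ((min (h p.1) (h p.2) < h q.1 ∧ h q.1 < max (h p.1) (h p.2)) ↔
      (min (h p.1) (h p.2) < h q.2 ∧ h q.2 < max (h p.1) (h p.2)))
  type : ∀ p ∈ pairsOf l, (τ p.2 = 1 ↔ if X p.1 < X p.2 then h p.2 < h p.1 else h p.1 < h p.2)
  wind : ∀ s : ℤ, ∀ p ∈ pairsOf l, ovr X s p →
    (((pairsOf l).filter fun q => @decide (ovr X s q ∧ h q.1 ≤ h p.1) (Classical.dec _)).map
      fun q => if X q.1 < X q.2 then (-1 : ℤ) else 1).sum =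
    (if X p.1 < X p.2 then 0 else 1) + (if T = 2 then 0 else -1)

/-- Laminar families. -/
def Laminar (L : Finset (Finset D)) : Prop :=
  ∀ S ∈ L, ∀ S' ∈ L, S ⊆ S' ∨ S' ⊆ S ∨ Disjoint S S'

end Pool.Agent.H606R2.FF
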