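import Mathlib
import Pool.Agent.NPC.Classes

/-!
# Flat folding plane graphs with free mountain-valley angles: definitions

A plane graph is given by its rotation system. A *dart* is an edge together with one of its two
directions; `rot d` is the next dart counterclockwise around the tail of `d`, and `rev d` is the
reverse of `d`. The darts with the same tail are a cycle of `rot`. The next dart on the boundary of
the face to the right of `d` is `rot (rev d)`, so that the faces are the cycles of `rot * rev`. The
angle named `d` is the angle swept counterclockwise from `rot⁻¹ d` to `d`; it belongs to the face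
to the right of `d`.
-/

namespace Pool.Agent.H606R2.FF

open Equiv.Perm

/-- The number of cycles of a permutation (fixed points included). -/
noncomputable def orbits {D : Type} (f : Equiv.Perm D) : ℕ :=
  Nat.card (Quotient (SameCycle.setoid f))

/-- A connected simple plane graph with at least one edge and with prescribed edge lengths, given
by its rotation system and its outer face. -/
structure PlaneGraph (D : Type) where
  /-- the next dart counterclockwise around the tail -/
  rot : Equiv.Perm D
  /-- the reverse dart -/
  rev : Equiv.Perm D
  /-- the length of the edge -/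
  len : D → ℕ
  /-- a dart which has the outer face on its right -/
  out : D
  rev_rev : ∀ d, rev (rev d) = d
  rev_ne : ∀ d, rev d ≠ d
  len_pos : ∀ d, 0 < len d
  len_rev : ∀ d, len (rev d) = len d
  /-- the graph is connected -/
  connected : ∀ a b, Relation.ReflTransGen (fun x y => y = rot x ∨ y = rev x) a b
  /-- Euler's formula: the rotation system is that of a plane graph -/
  euler : orbits rot + orbits (rot * rev) = orbits rev + 2
  /-- no loops -/
  loopless : ∀ d, ¬ rot.SameCycle d (rev d)
  /-- no parallel edges -/
  simple : ∀ d e, rot.SameCycle d e → rot.SameCycle (rev d) (rev e) → d = e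

namespace PlaneGraph

variable {D : Type}

/-- The faces are the cycles of this permutation: it maps a dart to the next dart on the boundary
of the face to its right. -/
def face (G : PlaneGraph D) : Equiv.Perm D := G.rot * G.rev

/-- A flat folded state without flat angles, as a layer order. The line is `ℝ`, drawn horizontally,
and above and below refer to the (infinitesimal) direction orthogonal to it. -/
structure FoldedState (G : PlaneGraph D) where
  /-- the position on the line of the tail of a dart -/
  X : D → ℤ
  /-- `above a b`: the edge of `a` lies above the edge of `b` (where they overlap) -/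
  above : D → D → Prop
  /-- the mountains: the angles of 360 degrees (the other angles have 0 degrees) -/
  M : Set D
  X_rot : ∀ d, X (G.rot d) = X d
  /-- every edge has its length -/
  X_len : ∀ d, |X (G.rev d) - X d| = G.len d
  /-- no angle is flat: the edges at a vertex leave it to the same side -/
  same_side : ∀ d, X d < X (G.rev d) ↔ X (G.rot d) < X (G.rev (G.rot d))
  /-- the order is an order of the edges -/
  above_rev : ∀ a b, above a (G.rev b) ↔ above a b
  rev_above : ∀ a b, above (G.rev a) b ↔ above a b
  /-- of two different edges which overlap, exactly one is above the other one -/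
  total : ∀ a b, a ≠ b → a ≠ G.rev b →
    max (min (X a) (X (G.rev a))) (min (X b) (X (G.rev b))) <
      min (max (X a) (X (G.rev a))) (max (X b) (X (G.rev b))) → (above a b ↔ ¬ above b a)
  /-- the order is transitive over every point of the line -/
  trans : ∀ a b c, ∀ s : ℤ, (∀ d ∈ [a, b, c], min (X d) (X (G.rev d)) ≤ s ∧
    s < max (X d) (X (G.rev d))) → above a b → above b c → above a c
  /-- an edge which passes over a vertex is above all the edges at this vertex or below all of
  them -/
  cross : ∀ a b c, G.rot.SameCycle a b → min (X c) (X (G.rev c)) < X a →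
    X a < max (X c) (X (G.rev c)) → (above c a ↔ above c b)
  /-- the edges at two vertices which are at the same position, to the same side, are not
  interleaved -/
  nest : ∀ a b c d, G.rot.SameCycle a b → G.rot.SameCycle c d → ¬ G.rot.SameCycle a c →
    X a = X c → (X a < X (G.rev a) ↔ X c < X (G.rev c)) →
    ¬ (above c a ∧ above b c ∧ above d b)
  /-- exactly one angle at every vertex is a mountain -/
  one_mountain : ∀ d, ∃! b, G.rot.SameCycle d b ∧ b ∈ M
  /-- the order of the edges at a vertex is given by the rotation system and the mountain -/
  order : ∀ d, G.rot d ∉ M →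
    if X d < X (G.rev d) then above (G.rot d) d else above d (G.rot d)
  /-- the region above the topmost edges is the outer face -/
  outer : ∀ d, ∀ s : ℤ, X (G.rev d) ≤ s → s < X d →
    (∀ e, min (X e) (X (G.rev e)) ≤ s → s < max (X e) (X (G.rev e)) → e ≠ d → e ≠ G.rev d →
      above d e) → G.face.SameCycle d G.out

/-- The plane graph has a flat folded state in which no angle is flat. -/
def FlatFoldable (G : PlaneGraph D) : Prop := Nonempty G.FoldedState

/-- The code of a plane graph: the list of its darts, each with the next dart counterclockwise
around its tail, its reverse and its length (in binary), and a dart with the outer face on its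
right. -/
def code {n : ℕ} (G : PlaneGraph (Fin n)) : List Bool :=
  NPC.bits ((List.finRange n).map fun d => ((G.rot d : ℕ), (G.rev d : ℕ), G.len d), (G.out : ℕ))

end PlaneGraph

/-- The decision problem: flat foldability of plane graphs, without flat angles, and with free
mountains and valleys. -/
def FlatFolding : Set (List Bool) :=
  {x | ∃ (n : ℕ) (G : PlaneGraph (Fin n)), G.code = x ∧ G.FlatFoldable}

/-! ### Strips -/

section

variable {D : Type}

/-- The angles `φ d, φ² d, …, φ^t d`. -/
def inner (φ : Equiv.Perm D) (d : D) (t : ℕ) : List D :=
  (List.range t).map fun i => (φ ^ (i + 1)) d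

/-- The condition for the angles `I` between the angles `u` and `v`: if `u` and `v` lie outside the
strip spanned by `I`, to the same side of it, then the sum of the weights of `I` is between `-1`
and `1`; if they lie on different sides, then the sum is `0`. -/
def ArcOK (X : D → ℤ) (w : D → ℝ) (u : D) (I : List D) (v : D) : Prop :=
  ((∀ a ∈ I, X a < X u) → (∀ a ∈ I, X a < X v) → |(I.map w).sum| ≤ 1) ∧
  ((∀ a ∈ I, X u < X a) → (∀ a ∈ I, X v < X a) → |(I.map w).sum| ≤ 1) ∧
  ((∀ a ∈ I, X a < X u) → (∀ a ∈ I, X v < X a) → (I.map w).sum = 0) ∧
  ((∀ a ∈ I, X u < X a) → (∀ a ∈ I, X a < X v) → (I.map w).sum = 0)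

/-- The strip conditions for the closed walk through `d`. -/
def Strips (φ : Equiv.Perm D) (X : D → ℤ) (w : D → ℝ) (d : D) : Prop :=
  ∀ e, φ.SameCycle d e → ∀ t : ℕ, 1 ≤ t → ArcOK X w e (inner φ e t) ((φ ^ (t + 1)) e)

/-- The positions `X` of the closed walk through `d` turn back at every step. -/
def Zigzag (φ : Equiv.Perm D) (X : D → ℤ) (d : D) : Prop :=
  ∀ a, φ.SameCycle d a → (X a < X (φ a) ∧ X (φ (φ a)) < X (φ a)) ∨
    (X (φ a) < X a ∧ X (φ a) < X (φ (φ a)))

/-- The sum of the weights on a cycle. -/
noncomputable def cycSum (φ : Equiv.Perm D) (w : D → ℝ) (d : D) : ℝ :=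
  ∑ᶠ a ∈ {a | φ.SameCycle d a}, w a

/-- Layers `h` for the closed walk through `d`, which fold it flat. The angle `φ a` is between the
darts `a` and `φ a`; its weight is `1` (valley) or `-1` (mountain). The total weight is `T`. -/
structure FaceFold (φ : Equiv.Perm D) (X : D → ℤ) (τ : D → ℤ) (d : D) (T : ℤ) (h : D → ℚ) :
    Prop where
  inj : ∀ a b, φ.SameCycle d a → φ.SameCycle d b → h a = h b → a = b
  cross : ∀ a c, φ.SameCycle d a → φ.SameCycle d c → min (X c) (X (φ c)) < X (φ a) →
    X (φ a) < max (X c) (X (φ c)) → (h c < h a ↔ h c < h (φ a))
  pair : ∀ a c, φ.SameCycle d a → φ.SameCycle d c → a ≠ c → X (φ a) = X (φ c) →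
    (X a < X (φ a) ↔ X c < X (φ c)) →
    ((min (h a) (h (φ a)) < h c ∧ h c < max (h a) (h (φ a))) ↔
      (min (h a) (h (φ a)) < h (φ c) ∧ h (φ c) < max (h a) (h (φ a))))
  type : ∀ a, φ.SameCycle d a →
    (τ (φ a) = 1 ↔ if X a < X (φ a) then h (φ a) < h a else h a < h (φ a))
  wind : ∀ s : ℤ, ∀ a, φ.SameCycle d a → min (X a) (X (φ a)) ≤ s → s < max (X a) (X (φ a)) →
    ∑ᶠ c ∈ {c | φ.SameCycle d c ∧ min (X c) (X (φ c)) ≤ s ∧ s < max (X c) (X (φ c)) ∧
      h c ≤ h a}, (if X c < X (φ c) then (-1 : ℤ) else 1) =
    (if X a < X (φ a) then 0 else 1) + (if T = 2 then 0 else -1)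

end

end Pool.Agent.H606R2.FF
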