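import Pool.Agent.H606R2.FF.Base

/-!
# Task CC: crimping preserves the strip conditions (helper263)
-/

namespace Pool.Agent.H606R2.FF

variable {D : Type}

theorem cc_rot {K I J : List D} (hI : I ≠ []) (_ : J ≠ []) (h : K ~r I ++ J) :
    (∃ B A, B ≠ [] ∧ A ≠ [] ∧ I = B ++ A ∧ K = A ++ J ++ B) ∨
    (∃ A C, A ≠ [] ∧ C ≠ [] ∧ J = C ++ A ∧ K = A ++ I ++ C) ∨
    K = I ++ J ∨ K = J ++ I := by
  obtain ⟨k, hk⟩ := h.symm
  have h1 : ∃ P Q, I ++ J = P ++ Q ∧ K = Q ++ P := by
    refine ⟨(I ++ J).take (k % (I ++ J).length), (I ++ J).drop (k % (I ++ J).length),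
      (List.take_append_drop _ _).symm, ?_⟩
    rw [← hk, ← List.rotate_mod, List.rotate_eq_drop_append_take]
    exact (Nat.mod_lt _ (List.length_pos_iff.2 (by simp [hI]))).le
  obtain ⟨P, Q, hPQ, hK⟩ := h1
  rcases List.append_eq_append_iff.1 hPQ with ⟨c, hc1, hc2⟩ | ⟨c, hc1, hc2⟩
  · -- P = I ++ c, J = c ++ Q
    by_cases hc : c = []
    · subst hc
      right; right; right
      simp at hc1 hc2
      rw [hK, hc1, hc2]
    by_cases hQ : Q = []
    · subst hQ
      right; right; left
      simp at hc2
      rw [hK, hc1, hc2]; simp
    · right; left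
      exact ⟨Q, c, hQ, hc, hc2, by rw [hK, hc1]; simp⟩
  · -- I = P ++ c, Q = c ++ J
    by_cases hc : c = []
    · subst hc
      right; right; right
      simp at hc1 hc2
      rw [hK, hc1, hc2]
    by_cases hP : P = []
    · subst hP
      right; right; left
      simp at hc1
      rw [hK, hc1, hc2]; simp
    · left
      exact ⟨P, c, hP, hc, hc1, by rw [hK, hc2]⟩

theorem cc_rot' {P Q : List D} : P ++ Q ~r Q ++ P := List.isRotated_append

theorem cc_adj {i j n p : D} {K : List D} (hK : 2 ≤ K.length) (hn : ∃ K', K = n :: K')
    (hp : ∃ K', K = K' ++ [p]) {a b : D} (h : Adj K a b) :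
    Adj (i :: j :: K) a b ∨ (a = p ∧ b = n) := by
  obtain ⟨K1, h⟩ := h
  have h' : K ~r [a] ++ (b :: K1) := h
  rcases cc_rot (by simp) (by simp) h' with ⟨B, A, hB, hA, h1, -⟩ | ⟨A, C, hA, hC, h1, h2⟩ | h1 | h1
  · exfalso
    have := congrArg List.length h1
    simp at this
    have h3 := List.length_pos_iff.2 hB
    have h4 := List.length_pos_iff.2 hA
    omega
  · left
    obtain ⟨c, C, rfl⟩ := List.exists_cons_of_ne_nil hC
    simp only [List.cons_append, List.cons.injEq] at h1
    obtain ⟨rfl, -⟩ := h1
    refine ⟨C ++ (i :: j :: A), ?_⟩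
    have e1 : i :: j :: K = (i :: j :: A) ++ (a :: b :: C) := by rw [h2]; simp
    rw [e1]
    exact cc_rot'
  · left
    refine ⟨K1 ++ [i, j], ?_⟩
    have e1 : i :: j :: K = [i, j] ++ (a :: b :: K1) := by rw [h1]; simp
    rw [e1]
    exact cc_rot'
  · right
    obtain ⟨K', hn⟩ := hn
    obtain ⟨K'', hp⟩ := hp
    constructor
    · have : K.getLast? = some p := by rw [hp]; simp
      have h2 : K.getLast? = some a := by rw [h1, List.getLast?_append_of_ne_nil _ (by simp)]; simp
      rw [this] at h2
      exact (Option.some.inj h2).symm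
    · have : K.head? = some n := by rw [hn]; simp
      have h2 : K.head? = some b := by rw [h1]; simp
      rw [this] at h2
      exact (Option.some.inj h2).symm

theorem cc_arc_neg {X : D → ℤ} {w : D → ℝ} {u v : D} {I : List D} (h : ArcOK X w u I v) :
    ArcOK (fun a => - X a) w u I v := by
  obtain ⟨h1, h2, h3, h4⟩ := h
  simp only [ArcOK, neg_lt_neg_iff]
  exact ⟨h2, h1, h4, h3⟩

theorem cc_strips_neg {X : D → ℤ} {w : D → ℝ} {l : List D} (h : LStrips X w l) :
    LStrips (fun a => - X a) w l :=
  fun I J hI hJ hr => cc_arc_neg (h I J hI hJ hr)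

theorem cc_strips_neg' {X : D → ℤ} {w : D → ℝ} {l : List D} (h : LStrips (fun a => - X a) w l) :
    LStrips X w l := by
  have := cc_strips_neg h
  simpa using this

theorem cc_zig_neg {X : D → ℤ} {l : List D} (h : LZig X l) : LZig (fun a => - X a) l := by
  intro a b c h1 h2
  rcases h a b c h1 h2 with ⟨h3, h4⟩ | ⟨h3, h4⟩
  · right; constructor <;> simp only [neg_lt_neg_iff] <;> assumption
  · left; constructor <;> simp only [neg_lt_neg_iff] <;> assumption

theorem cc_zig_neg' {X : D → ℤ} {l : List D} (h : LZig (fun a => - X a) l) : LZig X l := by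
  have := cc_zig_neg h
  simpa using this

/-- the case where `i` is a local minimum -/
theorem cc_main (X : D → ℤ) (w : D → ℝ) (i j n p : D) (K : List D)
    (hK : 2 ≤ K.length) (hz : LZig X (i :: j :: K)) (hs : LStrips X w (i :: j :: K))
    (hw : w i + w j = 0) (hn : ∃ K', K = n :: K') (hp : ∃ K', K = K' ++ [p])
    (h1 : X n ≤ X i) (h2 : X i < X j) (h3 : X j ≤ X p) :
    LZig X K ∧ LStrips X w K := by
  have aji : Adj (i :: j :: K) j n := by
    obtain ⟨K', rfl⟩ := hn
    refine ⟨K' ++ [i], ?_⟩
    have : i :: j :: n :: K' = [i] ++ (j :: n :: K') := rfl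
    rw [this]
    exact cc_rot'
  have api : Adj (i :: j :: K) p i := by
    obtain ⟨K', rfl⟩ := hp
    refine ⟨j :: K', ?_⟩
    have : i :: j :: (K' ++ [p]) = (i :: j :: K') ++ [p] := by simp
    rw [this]
    exact cc_rot'
  constructor
  · intro a b c hab hbc
    rcases cc_adj (i := i) (j := j) hK hn hp hab with g1 | ⟨rfl, rfl⟩
    · rcases cc_adj (i := i) (j := j) hK hn hp hbc with g2 | ⟨rfl, rfl⟩
      · exact hz a b c g1 g2
      · rcases hz a b i g1 api with g3 | g3
        · left; exact ⟨g3.1, by omega⟩
        · omega
    · rcases cc_adj (i := i) (j := j) hK hn hp hbc with g2 | ⟨rfl, rfl⟩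
      · rcases hz j b c aji g2 with g3 | g3
        · omega
        · right; exact ⟨by omega, g3.2⟩
      · omega
  · intro I J hI hJ hr
    rcases cc_rot hI hJ hr with ⟨B, A, hB, hA, e1, e2⟩ | ⟨A, C, hA, hC, e1, e2⟩ | e1 | e1
    · -- the junction is inside `I`
      have hrot : i :: j :: K ~r (B ++ i :: j :: A) ++ J := by
        have : i :: j :: K = (i :: j :: A ++ J) ++ B := by rw [e2]; simp
        rw [this]
        have h5 : (B ++ i :: j :: A) ++ J = B ++ (i :: j :: A ++ J) := by simp
        rw [h5]
        exact cc_rot'
      have key := hs (B ++ i :: j :: A) J (by simp) hJ hrot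
      have hpB : p ∈ B := by
        obtain ⟨K', hp⟩ := hp
        have h5 : K.getLast? = some p := by rw [hp]; simp
        rw [e2, List.getLast?_append_of_ne_nil _ hB] at h5
        exact List.mem_of_getLast? h5
      have hnA : n ∈ A := by
        obtain ⟨K', hn⟩ := hn
        have h5 : K.head? = some n := by rw [hn]; simp
        obtain ⟨c, C, rfl⟩ := List.exists_cons_of_ne_nil hA
        rw [e2] at h5
        simp at h5
        simp [h5]
      have hsum : ((B ++ i :: j :: A).map w).sum = (I.map w).sum := by
        rw [e1]
        simp only [List.map_append, List.map_cons, List.sum_append, List.sum_cons]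
        linarith
      have up : ∀ x : D, (∀ a ∈ I, X a < X x) → ∀ a ∈ B ++ i :: j :: A, X a < X x := by
        intro x hx a ha
        have hpx := hx p (by rw [e1]; simp [hpB])
        simp only [List.mem_append, List.mem_cons] at ha
        rcases ha with ha | rfl | rfl | ha
        · exact hx a (by rw [e1]; simp [ha])
        · omega
        · omega
        · exact hx a (by rw [e1]; simp [ha])
      have dn : ∀ x : D, (∀ a ∈ I, X x < X a) → ∀ a ∈ B ++ i :: j :: A, X x < X a := by
        intro x hx a ha
        have hpx := hx n (by rw [e1]; simp [hnA])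
        simp only [List.mem_append, List.mem_cons] at ha
        rcases ha with ha | rfl | rfl | ha
        · exact hx a (by rw [e1]; simp [ha])
        · omega
        · omega
        · exact hx a (by rw [e1]; simp [ha])
      obtain ⟨k1, k2, k3, k4⟩ := key
      rw [hsum] at k1 k2 k3 k4
      exact ⟨fun a b => k1 (up _ a) (up _ b), fun a b => k2 (dn _ a) (dn _ b),
        fun a b => k3 (up _ a) (dn _ b), fun a b => k4 (dn _ a) (up _ b)⟩
    · -- the junction is inside `J`
      have hrot : i :: j :: K ~r I ++ (C ++ i :: j :: A) := by
        have : i :: j :: K = (i :: j :: A) ++ (I ++ C) := by rw [e2]; simp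
        rw [this]
        have h5 : I ++ (C ++ i :: j :: A) = (I ++ C) ++ (i :: j :: A) := by simp
        rw [h5]
        exact cc_rot'
      have key := hs I (C ++ i :: j :: A) hI (by simp) hrot
      obtain ⟨a0, A', hA'⟩ : ∃ a0 A', A = A' ++ [a0] := by
        refine ⟨A.getLast hA, A.dropLast, ?_⟩
        exact (List.dropLast_append_getLast hA).symm
      obtain ⟨c0, C', hC'⟩ := List.exists_cons_of_ne_nil hC
      subst hA' hC' e1
      have q1 : (c0 :: C' ++ i :: j :: (A' ++ [a0])).getLast (by simp) = a0 := by
        have : c0 :: C' ++ i :: j :: (A' ++ [a0]) = (c0 :: C' ++ i :: j :: A') ++ [a0] := by simp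
        simp only [this, List.getLast_append_singleton]
      have q2 : (c0 :: C' ++ (A' ++ [a0])).getLast (by simp) = a0 := by
        have : c0 :: C' ++ (A' ++ [a0]) = (c0 :: C' ++ A') ++ [a0] := by simp
        simp only [this, List.getLast_append_singleton]
      rw [q1] at key
      rw [q2]
      exact key
    · -- `K = I ++ J`
      have hp' : J.getLast hJ = p := by
        obtain ⟨K', hp⟩ := hp
        have h5 : K.getLast? = some p := by rw [hp]; simp
        rw [e1, List.getLast?_append_of_ne_nil _ hJ, List.getLast?_eq_getLast_of_ne_nil hJ] at h5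
        exact Option.some.inj h5
      have hn' : n ∈ I := by
        obtain ⟨K', hn⟩ := hn
        have h5 : K.head? = some n := by rw [hn]; simp
        obtain ⟨c, C, rfl⟩ := List.exists_cons_of_ne_nil hI
        rw [e1] at h5
        simp at h5
        simp [h5]
      have r1 : i :: j :: K ~r I ++ (J ++ [i, j]) := by
        have : i :: j :: K = [i, j] ++ (I ++ J) := by rw [e1]; simp
        rw [this]
        have h5 : I ++ (J ++ [i, j]) = (I ++ J) ++ [i, j] := by simp
        rw [h5]
        exact cc_rot'
      have k1 := hs I (J ++ [i, j]) hI (by simp) r1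
      have r2 : i :: j :: K ~r (i :: j :: I) ++ J := by
        have : i :: j :: K = (i :: j :: I) ++ J := by rw [e1]; simp
        rw [this]
      have k2 := hs (i :: j :: I) J (by simp) hJ r2
      have hh : (J ++ [i, j]).head (by simp) = J.head hJ := by
        rw [List.head_append_of_ne_nil]
      have hl : (J ++ [i, j]).getLast (by simp) = j := by simp
      rw [hh, hl] at k1
      have hsum : ((i :: j :: I).map w).sum = (I.map w).sum := by
        simp only [List.map_cons, List.sum_cons]
        linarith
      rw [hp'] at k2 ⊢
      obtain ⟨a1, a2, a3, a4⟩ := k1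
      obtain ⟨b1, b2, b3, b4⟩ := k2
      rw [hsum] at b1 b2 b3 b4
      have hnp : X n < X p := by omega
      by_cases hc : ∀ a ∈ I, X a < X j
      · refine ⟨fun _ g => a1 hc g, fun g _ => ?_, fun _ g => a3 hc g, fun g _ => ?_⟩
        · have := g n hn'; omega
        · have := g n hn'; omega
      · push Not at hc
        obtain ⟨a0, ha0, ha0'⟩ := hc
        refine ⟨fun g g' => b1 ?_ ?_, fun g _ => ?_, fun g g' => b3 ?_ ?_, fun g _ => ?_⟩
        · intro a ha
          simp only [List.mem_cons] at ha
          have := g a0 ha0
          rcases ha with rfl | rfl | ha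
          · omega
          · omega
          · exact g a ha
        · intro a ha
          simp only [List.mem_cons] at ha
          have := g' a0 ha0
          rcases ha with rfl | rfl | ha
          · omega
          · omega
          · exact g' a ha
        · have := g n hn'; omega
        · intro a ha
          simp only [List.mem_cons] at ha
          have := g a0 ha0
          rcases ha with rfl | rfl | ha
          · omega
          · omega
          · exact g a ha
        · intro a ha
          simp only [List.mem_cons] at ha
          have := g' n hn'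
          rcases ha with rfl | rfl | ha
          · omega
          · omega
          · exact g' a ha
        · have := g n hn'; omega
    · -- `K = J ++ I`
      have hp' : p ∈ I := by
        obtain ⟨K', hp⟩ := hp
        have h5 : K.getLast? = some p := by rw [hp]; simp
        rw [e1, List.getLast?_append_of_ne_nil _ hI] at h5
        exact List.mem_of_getLast? h5
      have hn' : J.head hJ = n := by
        obtain ⟨K', hn⟩ := hn
        have h5 : K.head? = some n := by rw [hn]; simp
        obtain ⟨c, C, rfl⟩ := List.exists_cons_of_ne_nil hJ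
        rw [e1] at h5
        simp at h5
        simp [h5]
      have r1 : i :: j :: K ~r I ++ (i :: j :: J) := by
        have : i :: j :: K = (i :: j :: J) ++ I := by rw [e1]; simp
        rw [this]
        exact cc_rot'
      have k1 := hs I (i :: j :: J) hI (by simp) r1
      have r2 : i :: j :: K ~r (I ++ [i, j]) ++ J := by
        have : i :: j :: K = ([i, j] ++ J) ++ I := by rw [e1]; simp
        rw [this]
        have h5 : (I ++ [i, j]) ++ J = I ++ ([i, j] ++ J) := by simp
        rw [h5]
        exact cc_rot'
      have k2 := hs (I ++ [i, j]) J (by simp) hJ r2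
      have hl : (i :: j :: J).getLast (by simp) = J.getLast hJ := by
        rw [List.getLast_cons (by simp), List.getLast_cons hJ]
      have hh : (i :: j :: J).head (by simp) = i := by simp
      rw [hh, hl] at k1
      have hsum : ((I ++ [i, j]).map w).sum = (I.map w).sum := by
        simp only [List.map_append, List.map_cons, List.sum_append, List.sum_cons, List.map_nil,
          List.sum_nil]
        linarith
      rw [hn'] at k2 ⊢
      obtain ⟨a1, a2, a3, a4⟩ := k1
      obtain ⟨b1, b2, b3, b4⟩ := k2
      rw [hsum] at b1 b2 b3 b4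
      have hnp : X n < X p := by omega
      by_cases hc : ∀ a ∈ I, X i < X a
      · refine ⟨fun _ g => ?_, fun g _ => a2 g hc, fun g _ => a3 g hc, fun _ g => ?_⟩
        · have := g p hp'; omega
        · have := g p hp'; omega
      · push Not at hc
        obtain ⟨a0, ha0, ha0'⟩ := hc
        refine ⟨fun _ g => ?_, fun g g' => b2 ?_ ?_, fun g g' => b3 ?_ ?_, fun _ g => ?_⟩
        · have := g p hp'; omega
        · intro a ha
          simp only [List.mem_append, List.mem_cons, List.not_mem_nil, or_false] at ha
          have := g a0 ha0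
          rcases ha with ha | rfl | rfl
          · exact g a ha
          · omega
          · omega
        · intro a ha
          simp only [List.mem_append, List.mem_cons, List.not_mem_nil, or_false] at ha
          have := g' a0 ha0
          rcases ha with ha | rfl | rfl
          · exact g' a ha
          · omega
          · omega
        · intro a ha
          simp only [List.mem_append, List.mem_cons, List.not_mem_nil, or_false] at ha
          have := g p hp'
          rcases ha with ha | rfl | rfl
          · exact g a ha
          · omega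
          · omega
        · intro a ha
          simp only [List.mem_append, List.mem_cons, List.not_mem_nil, or_false] at ha
          have := g' a0 ha0
          rcases ha with ha | rfl | rfl
          · exact g' a ha
          · omega
          · omega
        · have := g p hp'; omega

/-- CC: crimping -/
theorem crimp (X : D → ℤ) (w : D → ℝ) (i j : D) (K : List D) (hnd : (i :: j :: K).Nodup)
    (hK : 2 ≤ K.length) (hz : LZig X (i :: j :: K)) (hs : LStrips X w (i :: j :: K))
    (hw : w i + w j = 0) (h1 : ∀ a K', K = K' ++ [a] → |X i - X j| ≤ |X a - X i|)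
    (h2 : ∀ a K', K = a :: K' → |X i - X j| ≤ |X j - X a|) :
    LZig X K ∧ LStrips X w K := by
  have hK0 : K ≠ [] := by intro h; simp [h] at hK
  obtain ⟨n, K1, hn⟩ := List.exists_cons_of_ne_nil hK0
  obtain ⟨p, K2, hp⟩ : ∃ p K', K = K' ++ [p] :=
    ⟨K.getLast hK0, K.dropLast, (List.dropLast_append_getLast hK0).symm⟩
  have g1 := h1 p K2 hp
  have g2 := h2 n K1 hn
  have apn : Adj (i :: j :: K) p i := by
    refine ⟨j :: K2, ?_⟩
    have : i :: j :: K = (i :: j :: K2) ++ [p] := by rw [hp]; simp
    rw [this]
    exact cc_rot'
  have aij : Adj (i :: j :: K) i j := ⟨K, List.IsRotated.refl _⟩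
  have ajn : Adj (i :: j :: K) j n := by
    refine ⟨K1 ++ [i], ?_⟩
    have : i :: j :: K = [i] ++ (j :: n :: K1) := by rw [hn]; simp
    rw [this]
    exact cc_rot'
  rcases hz p i j apn aij with ⟨f1, f2⟩ | ⟨f1, f2⟩
  · -- `i` is a local maximum
    have f3 : X j < X n := by
      rcases hz i j n aij ajn with f3 | f3
      · omega
      · exact f3.2
    have f4 : X i ≤ X n := by
      rw [abs_of_pos (by omega), abs_of_neg (by omega)] at g2
      omega
    have f5 : X p ≤ X j := by
      rw [abs_of_pos (by omega), abs_of_neg (by omega)] at g1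
      omega
    have := cc_main (fun a => - X a) w i j n p K hK (cc_zig_neg hz) (cc_strips_neg hs) hw
      ⟨K1, hn⟩ ⟨K2, hp⟩ (by simpa using f4) (by simpa using f2) (by simpa using f5)
    exact ⟨cc_zig_neg' this.1, cc_strips_neg' this.2⟩
  · -- `i` is a local minimum
    have f3 : X n < X j := by
      rcases hz i j n aij ajn with f3 | f3
      · exact f3.2
      · omega
    have f4 : X n ≤ X i := by
      rw [abs_of_neg (by omega), abs_of_pos (by omega)] at g2
      omega
    have f5 : X j ≤ X p := by
      rw [abs_of_neg (by omega), abs_of_pos (by omega)] at g1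
      omega
    exact cc_main X w i j n p K hK hz hs hw ⟨K1, hn⟩ ⟨K2, hp⟩ f4 f2 f5

end Pool.Agent.H606R2.FF
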