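import Pool.Agent.H606R2.FF.Base

/-!
# CR: existence of a maximal run of shortest edges
-/

set_option autoImplicit false

namespace Pool.Agent.H606R2.FF

variable {D : Type}

namespace TCR

/-- the elements of the list read cyclically -/
def g (l : List D) (h : 2 ≤ l.length) (i : ℕ) : D :=
  l[i % l.length]'(Nat.mod_lt _ (by omega))

variable {l : List D} (h2 : 2 ≤ l.length)

theorem g_add (i : ℕ) : g l h2 (i + l.length) = g l h2 i := by
  unfold g
  simp only [Nat.add_mod_right]

theorem g_add_mul (i k : ℕ) : g l h2 (i + l.length * k) = g l h2 i := by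
  unfold g
  simp only [Nat.add_mul_mod_self_left]

theorem rotate_get (s i : ℕ) (hi : i < l.length) :
    (l.rotate s)[i]? = some (g l h2 (s + i)) := by
  rw [List.getElem?_eq_getElem (by rw [List.length_rotate]; exact hi), List.getElem_rotate]
  simp only [g, add_comm]

theorem adj_g (i : ℕ) : Adj l (g l h2 i) (g l h2 (i + 1)) := by
  have h0 := rotate_get h2 i 0 (by omega)
  have h1 := rotate_get h2 i 1 (by omega)
  rcases hl : l.rotate i with _ | ⟨x, _ | ⟨y, K⟩⟩
  · rw [hl] at h0; simp at h0
  · rw [hl] at h1; simp at h1
  · rw [hl] at h0 h1
    simp only [List.getElem?_cons_zero, List.getElem?_cons_succ, Option.some.injEq] at h0 h1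
    rw [add_zero] at h0
    rw [← h0, ← h1]
    exact ⟨K, i, hl⟩

theorem exists_g {a b : D} (h : Adj l a b) : ∃ i, a = g l h2 i ∧ b = g l h2 (i + 1) := by
  obtain ⟨K, s, hs⟩ := h
  have h0 := rotate_get h2 s 0 (by omega)
  have h1 := rotate_get h2 s 1 (by omega)
  rw [hs] at h0 h1
  simp only [List.getElem?_cons_zero, List.getElem?_cons_succ, Option.some.injEq] at h0 h1
  exact ⟨s, h0, h1⟩

theorem get_mid {L K T : List D} {a : D} (h : L = K ++ a :: T) : L[K.length]? = some a := by
  subst h
  rw [List.getElem?_append_right (le_refl _)]
  simp

end TCR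

open TCR

/-- CR: existence of a run of shortest edges -/
theorem exists_run (X : D → ℤ) (l : List D) (hnd : l.Nodup) (hz : LZig X l)
    (heven : Even l.length) (h2 : 2 ≤ l.length) :
    (∃ m > 0, ∀ a b, Adj l a b → |X a - X b| = m) ∨
      ∃ m R J, l ~r R ++ J ∧ Run X m R J ∧ ∀ a b, Adj l a b → m ≤ |X a - X b| := by
  set n := l.length with hn
  set c : ℕ → D := g l h2 with hc
  set E : ℕ → ℤ := fun i => |X (c i) - X (c (i + 1))| with hE
  have hzig : ∀ i, (X (c i) < X (c (i + 1)) ∧ X (c (i + 2)) < X (c (i + 1))) ∨
      (X (c (i + 1)) < X (c i) ∧ X (c (i + 1)) < X (c (i + 2))) := fun i =>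
    hz _ _ _ (adj_g h2 i) (adj_g h2 (i + 1))
  have hpos : ∀ i, 0 < E i := by
    intro i
    have hi := hzig i
    simp only [hE]
    rw [abs_pos]
    rcases hi with hi | hi
    · have := hi.1; omega
    · have := hi.1; omega
  have hper : ∀ i k, E (i + n * k) = E i := by
    intro i k
    simp only [hE, hc, hn]
    rw [g_add_mul, show i + l.length * k + 1 = (i + 1) + l.length * k by ring, g_add_mul]
  have hper1 : ∀ i, E (i + n) = E i := by
    intro i
    have := hper i 1
    rwa [mul_one] at this
  obtain ⟨i0, hi0⟩ : ∃ i0, ∀ i, E i0 ≤ E i := by
    refine ⟨Function.argmin (fun i => (E i).toNat), fun i => ?_⟩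
    have h1 := Function.argmin_le (fun i => (E i).toNat) i
    have h3 := hpos i
    have h4 := hpos (Function.argmin (fun i => (E i).toNat))
    omega
  by_cases hall : ∀ i, E i = E i0
  · left
    refine ⟨E i0, hpos i0, fun a b hab => ?_⟩
    obtain ⟨i, rfl, rfl⟩ := exists_g h2 hab
    exact hall i
  · right
    push Not at hall
    obtain ⟨q, hq⟩ := hall
    set m := E i0 with hm
    have hqlt : m < E q := lt_of_le_of_ne (hi0 q) (Ne.symm hq)
    have hex : ∃ k, E (q + k) = m := by
      refine ⟨i0 + n * q - q, ?_⟩
      have : q ≤ i0 + n * q := by nlinarith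
      rw [Nat.add_sub_cancel' this, hper]
    classical
    have hk := Nat.find_spec hex
    have hkmin : ∀ k, k < Nat.find hex → E (q + k) ≠ m := fun k hk => Nat.find_min hex hk
    have hk0 : 0 < Nat.find hex := by
      rcases Nat.eq_zero_or_pos (Nat.find hex) with h | h
      · rw [h, add_zero] at hk
        exact absurd hk hq
      · exact h
    obtain ⟨s, hs⟩ : ∃ s, s + 1 = q + Nat.find hex := ⟨q + Nat.find hex - 1, by omega⟩
    have hs1 : E (s + 1) = m := by rw [hs]; exact hk
    have hs0 : m < E s := by
      refine lt_of_le_of_ne (hi0 s) (Ne.symm ?_)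
      have : s = q + (Nat.find hex - 1) := by omega
      rw [this]
      exact hkmin _ (by omega)
    clear hk hkmin hk0 hs hex
    -- the first longer edge
    have hex : ∃ j, E (s + 1 + j) ≠ m := by
      refine ⟨n - 1, ?_⟩
      have : s + 1 + (n - 1) = s + n := by omega
      rw [this, hper1]
      exact hs0.ne'
    set j := Nat.find hex with hj
    have hj1 : E (s + 1 + j) ≠ m := Nat.find_spec hex
    have hjmin : ∀ i, i < j → E (s + 1 + i) = m := fun i hi => by
      by_contra hcon
      exact Nat.find_min hex hi hcon
    have hjn : j ≤ n - 1 := by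
      refine Nat.find_min' hex ?_
      have : s + 1 + (n - 1) = s + n := by omega
      rw [this, hper1]
      exact hs0.ne'
    have hj0 : 1 ≤ j := by
      rcases Nat.eq_zero_or_pos j with h | h
      · rw [h, add_zero] at hj1
        exact absurd hs1 hj1
      · exact h
    have hjlt : j < n - 1 := by
      rcases lt_or_eq_of_le hjn with h | h
      · exact h
      · exfalso
        -- the positions alternate
        have key : ∀ i, 2 * i + 1 ≤ j → X (c (s + 1 + (2 * i + 1))) = X (c (s + 1 + 1)) ∧
            X (c (s + 1 + 2 * i)) = X (c (s + 1)) := by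
          intro i
          induction i with
          | zero => intro _; exact ⟨rfl, rfl⟩
          | succ i ih =>
            intro hi
            have h0 := ih (by omega)
            have e0 := hjmin (2 * i) (by omega)
            have e1 := hjmin (2 * i + 1) (by omega)
            have e2 := hjmin (2 * i + 2) (by omega)
            have z0 := hzig (s + 1 + 2 * i)
            have z1 := hzig (s + 1 + (2 * i + 1))
            simp only [hE] at e0 e1 e2
            have a1 : s + 1 + 2 * i + 1 = s + 1 + (2 * i + 1) := by ring
            have a2 : s + 1 + 2 * i + 2 = s + 1 + (2 * i + 2) := by ring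
            have a3 : s + 1 + (2 * i + 1) + 1 = s + 1 + (2 * i + 2) := by ring
            have a4 : s + 1 + (2 * i + 1) + 2 = s + 1 + (2 * i + 3) := by ring
            have a5 : s + 1 + (2 * i + 2) + 1 = s + 1 + (2 * i + 3) := by ring
            have a6 : 2 * (i + 1) = 2 * i + 2 := by ring
            have a7 : 2 * (i + 1) + 1 = 2 * i + 3 := by ring
            rw [a1, a2] at z0
            rw [a3, a4] at z1
            rw [a1] at e0
            rw [a3] at e1
            rw [a5] at e2
            rw [a7, a6]
            rcases abs_cases (X (c (s + 1 + 2 * i)) - X (c (s + 1 + (2 * i + 1)))) with h1 | h1 <;>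
            rcases abs_cases (X (c (s + 1 + (2 * i + 1))) - X (c (s + 1 + (2 * i + 2))))
              with h3 | h3 <;>
            rcases abs_cases (X (c (s + 1 + (2 * i + 2))) - X (c (s + 1 + (2 * i + 3))))
              with h4 | h4 <;> omega
        obtain ⟨r, hr⟩ := heven
        have hj' : j = 2 * (r - 1) + 1 := by omega
        have h3 := (key (r - 1) (by omega)).1
        rw [← hj'] at h3
        apply hj1
        have h4 : c (s + 1 + j + 1) = c (s + 1) := by
          have : s + 1 + j + 1 = (s + 1) + l.length := by omega
          rw [this]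
          exact g_add h2 _
        have h5 : E (s + 1) = |X (c (s + 1)) - X (c (s + 1 + 1))| := rfl
        have h6 : E (s + 1 + j) = |X (c (s + 1 + j)) - X (c (s + 1 + j + 1))| := rfl
        rw [h6, h3, h4, abs_sub_comm, ← h5, hs1]
    set l' := l.rotate (s + 1) with hl'
    have hrot : l ~r l' := ⟨s + 1, rfl⟩
    have hget : ∀ i, i < n → l'[i]? = some (c (s + 1 + i)) := fun i hi =>
      rotate_get h2 (s + 1) i hi
    have hlen : l'.length = n := by rw [hl', List.length_rotate]
    have htd : l'.take (j + 1) ++ l'.drop (j + 1) = l' := List.take_append_drop _ _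
    have hRlen : (l'.take (j + 1)).length = j + 1 := by
      rw [List.length_take, hlen]; omega
    have hJlen : (l'.drop (j + 1)).length = n - (j + 1) := by
      rw [List.length_drop, hlen]
    refine ⟨m, l'.take (j + 1), l'.drop (j + 1), by rw [htd]; exact hrot, ?_, ?_⟩
    · refine ⟨by omega, ?_, ?_, ?_, ?_, hpos i0, ?_, ?_, ?_⟩
      · intro h
        rw [h] at hJlen
        simp only [List.length_nil] at hJlen
        omega
      · rw [hRlen, hJlen]
        have : j + 1 + (n - (j + 1)) = n := by omega
        rw [this]
        exact heven
      · rw [htd]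
        exact (List.IsRotated.nodup_iff hrot).1 hnd
      · rw [htd]
        intro a b d ⟨K, hK⟩ ⟨K', hK'⟩
        exact hz a b d ⟨K, hrot.trans hK⟩ ⟨K', hrot.trans hK'⟩
      · intro a b K K' hR
        have hKlen : K.length + 2 ≤ j + 1 := by
          rw [← hRlen, hR]
          simp only [List.length_append, List.length_cons]
          omega
        have e1 : l' = K ++ a :: (b :: (K' ++ l'.drop (j + 1))) := by
          conv_lhs => rw [← htd, hR]
          simp
        have e2 : l' = (K ++ [a]) ++ b :: (K' ++ l'.drop (j + 1)) := by
          rw [List.append_assoc]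
          exact e1
        have g1 := get_mid e1
        have g2 := get_mid e2
        rw [List.length_append, List.length_singleton] at g2
        rw [hget _ (by omega)] at g1 g2
        simp only [Option.some.injEq] at g1 g2
        rw [← g1, ← g2]
        exact hjmin K.length (by omega)
      · intro a b K K' hJ hR
        have e1 : l' = b :: (K' ++ l'.drop (j + 1)) := by
          conv_lhs => rw [← htd, hR]
          simp
        have e2 : l' = (l'.take (j + 1) ++ K) ++ a :: [] := by
          conv_lhs => rw [← htd, hJ]
          rw [List.append_assoc]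
        have g1 := get_mid (K := []) e1
        have g2 := get_mid e2
        have hKlen : (l'.take (j + 1) ++ K).length = n - 1 := by
          have h3 := congrArg List.length e2
          rw [List.length_append, hlen, List.length_singleton] at h3
          omega
        rw [hKlen, hget _ (by omega)] at g2
        rw [List.length_nil, hget _ (by omega)] at g1
        simp only [Option.some.injEq, add_zero] at g1 g2
        have h3 : s + 1 + (n - 1) = s + l.length := by omega
        have h4 : c (s + 1 + (n - 1)) = c s := by rw [h3]; exact g_add h2 _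
        rw [← g1, ← g2, h4]
        exact hs0
      · intro a b K K' hR hJ
        have hKlen : K.length = j := by
          have h3 := congrArg List.length hR
          rw [hRlen, List.length_append, List.length_singleton] at h3
          omega
        have e1 : l' = K ++ a :: (b :: K') := by
          conv_lhs => rw [← htd, hR, hJ]
          simp
        have e2 : l' = (K ++ [a]) ++ b :: K' := by
          rw [List.append_assoc]
          exact e1
        have g1 := get_mid e1
        have g2 := get_mid e2
        rw [List.length_append, List.length_singleton] at g2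
        rw [hKlen, hget _ (by omega)] at g1 g2
        simp only [Option.some.injEq] at g1 g2
        rw [← g1, ← g2]
        exact lt_of_le_of_ne (hi0 _) (Ne.symm hj1)
    · intro a b hab
      obtain ⟨i, rfl, rfl⟩ := exists_g h2 hab
      exact hi0 i

end Pool.Agent.H606R2.FF
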