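import Pool.Agent.H606R2.FF.Base

/-!
# Layers after crimping
-/

namespace Pool.Agent.H606R2.FF

variable {D : Type}

namespace HS

theorem sum_filter {α : Type} (l : List α) (p : α → Bool) (f : α → ℤ) :
    ((l.filter p).map f).sum = (l.map fun q => if p q = true then f q else 0).sum := by
  induction l with
  | nil => simp
  | cons a l ih =>
    by_cases h : p a = true
    · simp [h, ih]
    · simp [h, ih]

/-- the contribution of a pair -/
noncomputable def W (X : D → ℤ) (h : D → ℚ) (s : ℤ) (y : ℚ) (q : D × D) : ℤ := by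
  classical exact if ovr X s q ∧ h q.1 ≤ y then (if X q.1 < X q.2 then -1 else 1) else 0

theorem wind_eq (X : D → ℤ) (h : D → ℚ) (s : ℤ) (y : ℚ) (l : List (D × D)) :
    ((l.filter fun q => @decide (ovr X s q ∧ h q.1 ≤ y) (Classical.dec _)).map
      fun q => if X q.1 < X q.2 then (-1 : ℤ) else 1).sum = (l.map (W X h s y)).sum := by
  classical
  rw [sum_filter]
  congr 1
  apply List.map_congr_left
  intro q _
  unfold W
  by_cases hq : ovr X s q ∧ h q.1 ≤ y
  · simp [hq]
  · simp [hq]

theorem W_congr (X : D → ℤ) (h : D → ℚ) (s : ℤ) (y y' : ℚ) (l : List (D × D))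
    (hl : ∀ q ∈ l, (h q.1 ≤ y ↔ h q.1 ≤ y')) :
    (l.map (W X h s y)).sum = (l.map (W X h s y')).sum := by
  congr 1
  apply List.map_congr_left
  intro q hq
  have := hl q hq
  unfold W
  congr 1
  rw [this]

theorem W_congr' (X : D → ℤ) (h h' : D → ℚ) (s : ℤ) (y : ℚ) (l : List (D × D))
    (hl : ∀ q ∈ l, h q.1 = h' q.1) :
    (l.map (W X h s y)).sum = (l.map (W X h' s y)).sum := by
  congr 1
  apply List.map_congr_left
  intro q hq
  have := hl q hq
  unfold W
  congr 1
  rw [this]

/-- the pairs without the last one -/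
theorem pairs_old (n : D) (L : List D) (hL : (n :: L) ≠ []) :
    pairsOf (n :: L) = (n :: L).zip L ++ [((n :: L).getLast hL, n)] := by
  have key : ∀ (L : List D) (m x : D), (m :: L).zip (L ++ [x]) =
      (m :: L).zip L ++ [((m :: L).getLast (by simp), x)] := by
    intro L
    induction L with
    | nil => intro m x; simp
    | cons b L ih =>
      intro m x
      have := ih b x
      simp only [List.cons_append, List.zip_cons_cons, List.getLast_cons_cons] at this ⊢
      rw [this]
  unfold pairsOf
  simp only [List.rotate_cons_succ, List.rotate_zero]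
  exact key L n n

theorem pairs_new (i j n : D) (L : List D) (hL : (n :: L) ≠ []) :
    pairsOf (i :: j :: n :: L) = (i, j) :: (j, n) :: ((n :: L).zip L ++
      [((n :: L).getLast hL, i)]) := by
  have key : ∀ (L : List D) (m x : D), (m :: L).zip (L ++ [x]) =
      (m :: L).zip L ++ [((m :: L).getLast (by simp), x)] := by
    intro L
    induction L with
    | nil => intro m x; simp
    | cons b L ih =>
      intro m x
      have := ih b x
      simp only [List.cons_append, List.zip_cons_cons, List.getLast_cons_cons] at this ⊢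
      rw [this]
  unfold pairsOf
  simp only [List.rotate_cons_succ, List.rotate_zero, List.cons_append, List.zip_cons_cons]
  rw [key L n i]

theorem zip_facts (n : D) (L : List D) (hL : (n :: L) ≠ []) (hnd : (n :: L).Nodup) :
    ∀ q ∈ (n :: L).zip L, q.1 ∈ n :: L ∧ q.2 ∈ n :: L ∧ q.1 ≠ (n :: L).getLast hL ∧ q.2 ≠ n := by
  have key : ∀ (L : List D) (m : D), (m :: L).Nodup → ∀ q ∈ (m :: L).zip L,
      q.1 ∈ m :: L ∧ q.2 ∈ L ∧ q.1 ≠ (m :: L).getLast (by simp) := by
    intro L
    induction L with
    | nil => intro m _ q hq; simp at hq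
    | cons b L ih =>
      intro m hm q hq
      rw [List.zip_cons_cons, List.mem_cons] at hq
      rw [List.getLast_cons_cons]
      rcases hq with rfl | hq
      · refine ⟨by simp, by simp, ?_⟩
        intro h
        have : (b :: L).getLast (by simp) ∈ b :: L := List.getLast_mem _
        simp only at h
        rw [← h] at this
        exact (List.nodup_cons.1 hm).1 this
      · obtain ⟨h1, h2, h3⟩ := ih b (List.nodup_cons.1 hm).2 q hq
        exact ⟨List.mem_cons_of_mem _ h1, List.mem_cons_of_mem _ h2, h3⟩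
  intro q hq
  obtain ⟨h1, h2, h3⟩ := key L n hnd q hq
  refine ⟨h1, List.mem_cons_of_mem _ h2, h3, ?_⟩
  rintro rfl
  exact (List.nodup_cons.1 hnd).1 h2


/-- The main step, for layers `h` which are already defined on the new angles `i` and `j`. -/
theorem core (X τ : D → ℤ) (T : ℤ) (i j p n : D) (K : List D) (P : List (D × D))
    (hpK : p ∈ K) (hnK : n ∈ K) (hpn : p ≠ n) (hiK : i ∉ K) (hjK : j ∉ K) (hij : i ≠ j)
    (hP : ∀ q ∈ P, q.1 ∈ K ∧ q.2 ∈ K ∧ q.1 ≠ p ∧ q.2 ≠ n)
    (hold : pairsOf K = P ++ [(p, n)])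
    (hnew : pairsOf (i :: j :: K) = (i, j) :: (j, n) :: (P ++ [(p, i)]))
    (hord : (X n ≤ X i ∧ X i < X j ∧ X j ≤ X p) ∨ (X p ≤ X j ∧ X j < X i ∧ X i ≤ X n))
    (h : D → ℚ) (hh : LFold X τ K T h)
    (ki1 : ∀ c ∈ K, c ≠ p → (h c < h i ↔ h c < h p))
    (ki2 : ∀ c ∈ K, c ≠ p → (h i < h c ↔ h p < h c))
    (kj1 : ∀ c ∈ K, c ≠ p → (h c < h j ↔ h c < h p))
    (kj2 : ∀ c ∈ K, c ≠ p → (h j < h c ↔ h p < h c))
    (kn : ∀ c ∈ K, c ≠ p → h c ≠ h i ∧ h c ≠ h j)
    (hτ : ∀ a, τ a = 1 ∨ τ a = -1) (hw : τ i + τ j = 0)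
    (mono : ((τ i = 1 ↔ X i < X j) ∧ h p < h i ∧ h i < h j) ∨
      (¬ (τ i = 1 ↔ X i < X j) ∧ h j < h i ∧ h i < h p)) :
    LFold X τ (i :: j :: K) T h := by
  have mem_new : ∀ q, q ∈ pairsOf (i :: j :: K) → q = (i, j) ∨ q = (j, n) ∨ q ∈ P ∨ q = (p, i) := by
    intro q hq
    rw [hnew] at hq
    simpa using hq
  have oldE : (p, n) ∈ pairsOf K := by rw [hold]; simp
  have oldP : ∀ q ∈ P, q ∈ pairsOf K := by intro q hq; rw [hold]; simp [hq]
  have hpi : p ≠ i := fun e => hiK (e ▸ hpK)
  have hpj : p ≠ j := fun e => hjK (e ▸ hpK)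
  have btw : ∀ a b x : ℚ, (min a b < x ∧ x < max a b) ↔
      ((a < x ∨ b < x) ∧ (x < a ∨ x < b)) := by
    intro a b x; rw [min_lt_iff, lt_max_iff]
  have hnp : n ≠ p := fun e => hpn e.symm
  refine ⟨?_, ?_, ?_, ?_, ?_⟩
  · -- injectivity
    have a1 : ∀ c ∈ K, h c ≠ h i := by
      intro c hc
      by_cases hcp : c = p
      · subst hcp
        rcases mono with ⟨_, m1, m2⟩ | ⟨_, m1, m2⟩ <;> intro e <;> linarith
      · exact (kn c hc hcp).1
    have a2 : ∀ c ∈ K, h c ≠ h j := by
      intro c hc
      by_cases hcp : c = p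
      · subst hcp
        rcases mono with ⟨_, m1, m2⟩ | ⟨_, m1, m2⟩ <;> intro e <;> linarith
      · exact (kn c hc hcp).2
    have a3 : h i ≠ h j := by
      rcases mono with ⟨_, m1, m2⟩ | ⟨_, m1, m2⟩ <;> intro e <;> linarith
    intro a ha b hb e
    simp only [List.mem_cons] at ha hb
    rcases ha with rfl | rfl | ha <;> rcases hb with rfl | rfl | hb
    · rfl
    · exact absurd e a3
    · exact absurd e.symm (a1 b hb)
    · exact absurd e.symm a3
    · rfl
    · exact absurd e.symm (a2 b hb)
    · exact absurd e (a1 a ha)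
    · exact absurd e (a2 a ha)
    · exact hh.inj a ha b hb e
  · -- crossing
    intro c hc q hq
    rcases mem_new c hc with rfl | rfl | hcP | rfl <;> rcases mem_new q hq with rfl | rfl | hqP | rfl
      <;> (try simp only) <;> intro l1 l2
    · exfalso; omega
    · exfalso; omega
    · obtain ⟨q1, q2, q3, q4⟩ := hP q hqP
      rw [ki1 _ q1 q3, kj1 _ q1 q3]
    · rcases mono with ⟨_, m1, m2⟩ | ⟨_, m1, m2⟩ <;> constructor <;> intro _ <;> linarith
    · exfalso; omega
    · exfalso; omega
    · obtain ⟨q1, q2, q3, q4⟩ := hP q hqP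
      rw [kj1 _ q1 q3]
      exact hh.cross (p, n) oldE q (oldP q hqP) l1 l2
    · exfalso; omega
    · obtain ⟨c1, c2, c3, c4⟩ := hP c hcP
      have c5 : c.2 ≠ p := by rintro e; rw [e] at l1 l2; omega
      rw [ki2 _ c1 c3, ki2 _ c2 c5]
      exact hh.cross c (oldP c hcP) (p, n) oldE (by simp only; omega) (by simp only; omega)
    · obtain ⟨c1, c2, c3, c4⟩ := hP c hcP
      have c5 : c.2 ≠ p := by rintro e; rw [e] at l1 l2; omega
      rw [kj2 _ c1 c3, kj2 _ c2 c5]
      exact hh.cross c (oldP c hcP) (p, n) oldE (by simp only; omega) (by simp only; omega)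
    · exact hh.cross c (oldP c hcP) q (oldP q hqP) l1 l2
    · exact hh.cross c (oldP c hcP) (p, n) oldE (by simp only; omega) (by simp only; omega)
    · exfalso; omega
    · rcases mono with ⟨_, m1, m2⟩ | ⟨_, m1, m2⟩ <;> constructor <;> intro _ <;> linarith
    · obtain ⟨q1, q2, q3, q4⟩ := hP q hqP
      rw [ki1 _ q1 q3]
    · exfalso; omega
  · -- pairs
    intro c hc q hq
    rcases mem_new c hc with rfl | rfl | hcP | rfl <;> rcases mem_new q hq with rfl | rfl | hqP | rfl
      <;> (try simp only) <;> intro l0 l1 l2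
    · exact absurd rfl l0
    · exfalso; omega
    · obtain ⟨q1, q2, q3, q4⟩ := hP q hqP
      rw [btw, btw, ki1 _ q1 q3, ki2 _ q1 q3, kj1 _ q1 q3, kj2 _ q1 q3]
      by_cases e : q.2 = p
      · rw [e]
        rcases mono with ⟨_, m1, m2⟩ | ⟨_, m1, m2⟩ <;> constructor <;> rintro ⟨h1 | h1, h2 | h2⟩ <;>
          exfalso <;> linarith
      · rw [ki1 _ q2 e, ki2 _ q2 e, kj1 _ q2 e, kj2 _ q2 e]
        constructor <;> rintro ⟨h1 | h1, h2 | h2⟩ <;> exfalso <;> linarith
    · exfalso; omega
    · exfalso; omega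
    · exact absurd rfl l0
    · obtain ⟨q1, q2, q3, q4⟩ := hP q hqP
      have e : q.2 ≠ p := by rintro e; rw [e] at l1; omega
      rw [btw, btw, kj1 _ q1 q3, kj2 _ q1 q3, kj1 _ q2 e, kj2 _ q2 e, ← btw, ← btw]
      exact hh.pair (p, n) oldE q (oldP q hqP) (fun e => q3 e.symm) l1 (by simp only; omega)
    · rw [btw, btw, ki1 _ hnK hnp, ki2 _ hnK hnp]
      rcases mono with ⟨_, m1, m2⟩ | ⟨_, m1, m2⟩
      · have b1 : ¬ (h j < h p) := by linarith
        have b2 : h p < h j := by linarith
        have b3 : ¬ (h j < h i) := by linarith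
        simp only [b1, b2, b3, m2, false_or, true_or]
      · have b1 : ¬ (h p < h j) := by linarith
        have b2 : h j < h p := by linarith
        have b3 : ¬ (h i < h j) := by linarith
        simp only [b1, b2, b3, m1, false_or, true_or]
    · obtain ⟨c1, c2, c3, c4⟩ := hP c hcP
      rw [btw, btw, ki1 _ c1 c3, ki2 _ c1 c3, kj1 _ c1 c3, kj2 _ c1 c3]
      by_cases e : c.2 = p
      · rw [e]
        rcases mono with ⟨_, m1, m2⟩ | ⟨_, m1, m2⟩
        · have b1 : ¬ (h i < h p) := by linarith
          have b2 : ¬ (h j < h p) := by linarith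
          have b3 : h p < h j := by linarith
          simp only [b1, b2, b3, m1, or_true, or_false]
        · have b1 : ¬ (h p < h i) := by linarith
          have b2 : ¬ (h p < h j) := by linarith
          have b3 : h j < h p := by linarith
          simp only [b1, b2, b3, m2, or_true, or_false]
      · rw [ki1 _ c2 e, ki2 _ c2 e, kj1 _ c2 e, kj2 _ c2 e]
    · obtain ⟨c1, c2, c3, c4⟩ := hP c hcP
      have e : c.2 ≠ p := by rintro e; rw [e] at l1; omega
      rw [btw, kj1 _ c1 c3, kj2 _ c1 c3, kj1 _ c2 e, kj2 _ c2 e, ← btw]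
      exact hh.pair c (oldP c hcP) (p, n) oldE c3 l1 (by simp only; omega)
    · exact hh.pair c (oldP c hcP) q (oldP q hqP) l0 l1 l2
    · obtain ⟨c1, c2, c3, c4⟩ := hP c hcP
      have e : c.2 ≠ p := by rintro e; rw [e] at l1; omega
      rw [btw, btw, ki1 _ c1 c3, ki2 _ c1 c3, ki1 _ c2 e, ki2 _ c2 e]
    · exfalso; omega
    · rw [btw, btw, ki1 _ hnK hnp, ki2 _ hnK hnp]
      rcases mono with ⟨_, m1, m2⟩ | ⟨_, m1, m2⟩ <;> constructor <;> rintro ⟨h1 | h1, h2 | h2⟩ <;>
          exfalso <;> linarith
    · obtain ⟨q1, q2, q3, q4⟩ := hP q hqP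
      rw [btw, btw, ki1 _ q1 q3, ki2 _ q1 q3]
      by_cases e : q.2 = p
      · rw [e]
        rcases mono with ⟨_, m1, m2⟩ | ⟨_, m1, m2⟩ <;> constructor <;> rintro ⟨h1 | h1, h2 | h2⟩ <;>
          exfalso <;> linarith
      · rw [ki1 _ q2 e, ki2 _ q2 e]
        constructor <;> rintro ⟨h1 | h1, h2 | h2⟩ <;> exfalso <;> linarith
    · exact absurd rfl l0
  · -- types
    intro c hc
    rcases mem_new c hc with rfl | rfl | hcP | rfl
    · simp only
      have t1 := hτ i
      have t2 := hτ j
      have t3 : τ j = 1 ↔ ¬ (τ i = 1) := by omega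
      rw [t3]
      rcases mono with ⟨m0, m1, m2⟩ | ⟨m0, m1, m2⟩
      · rw [m0]
        by_cases g : X i < X j
        · simp only [g, not_true_eq_false, if_true, false_iff]; linarith
        · simp only [g, not_false_eq_true, if_false, true_iff]; linarith
      · by_cases g : X i < X j
        · have : ¬ (τ i = 1) := fun e => m0 ⟨fun _ => g, fun _ => e⟩
          simp only [g, this, not_false_eq_true, if_true, true_iff]; linarith
        · have : τ i = 1 := by
            by_contra e
            exact m0 ⟨fun e' => absurd e' e, fun e' => absurd e' g⟩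
          simp only [g, this, not_true_eq_false, if_false, false_iff]; linarith
    · simp only
      have := hh.type (p, n) oldE
      simp only at this
      rw [this, kj1 _ hnK hnp, kj2 _ hnK hnp]
      have g : X p < X n ↔ X j < X n := by omega
      simp only [g]
    · exact hh.type c (oldP c hcP)
    · simp only
      rcases mono with ⟨m0, m1, m2⟩ | ⟨m0, m1, m2⟩
      · rw [m0]
        by_cases g : X i < X j
        · have g' : ¬ (X p < X i) := by omega
          simp only [g, g', if_false, true_iff]; linarith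
        · have g' : X p < X i := by omega
          simp only [g, g', if_true, false_iff]; linarith
      · by_cases g : X i < X j
        · have : ¬ (τ i = 1) := fun e => m0 ⟨fun _ => g, fun _ => e⟩
          have g' : ¬ (X p < X i) := by omega
          simp only [g', this, if_false, false_iff]; linarith
        · have : τ i = 1 := by
            by_contra e
            exact m0 ⟨fun e' => absurd e' e, fun e' => absurd e' g⟩
          have g' : X p < X i := by omega
          simp only [g', this, if_true, true_iff]; linarith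
  · -- winding
    classical
    intro s c hc hov
    rw [wind_eq, hnew]
    simp only [List.map_cons, List.sum_cons, List.map_append, List.sum_append, List.map_nil,
      List.sum_nil, add_zero]
    have old : ∀ c ∈ pairsOf K, ovr X s c → (P.map (W X h s (h c.1))).sum +
        W X h s (h c.1) (p, n) = (if X c.1 < X c.2 then 0 else 1) + (if T = 2 then 0 else -1) := by
      intro c hc hov
      have := hh.wind s c hc hov
      rw [wind_eq, hold] at this
      simpa only [List.map_cons, List.sum_cons, List.map_append, List.sum_append, List.map_nil,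
        List.sum_nil, add_zero] using this
    have Si : (P.map (W X h s (h i))).sum = (P.map (W X h s (h p))).sum := by
      apply W_congr
      intro q hq
      obtain ⟨q1, q2, q3, q4⟩ := hP q hq
      rw [← not_lt, ki2 _ q1 q3, not_lt]
    have Sj : (P.map (W X h s (h j))).sum = (P.map (W X h s (h p))).sum := by
      apply W_congr
      intro q hq
      obtain ⟨q1, q2, q3, q4⟩ := hP q hq
      rw [← not_lt, kj2 _ q1 q3, not_lt]
    have oE := old (p, n) oldE
    simp only at oE
    have hA : ovr X s (i, j) ↔ (ovr X s (j, n) ∧ ovr X s (p, i)) := by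
      unfold ovr; simp only; omega
    have hE : ovr X s (p, n) ↔ (ovr X s (j, n) ∨ ovr X s (p, i)) := by
      unfold ovr; simp only; omega
    obtain ⟨σ, s1, s2, s3, s4, s5, s6, s7⟩ : ∃ σ : ℤ, (if X j < X n then (-1 : ℤ) else 1) = σ ∧
        (if X p < X i then (-1 : ℤ) else 1) = σ ∧ (if X p < X n then (-1 : ℤ) else 1) = σ ∧
        (if X i < X j then (-1 : ℤ) else 1) = -σ ∧
        (if X i < X j then (0 : ℤ) else 1) = (if X p < X n then (0 : ℤ) else 1) - σ ∧
        (if X j < X n then (0 : ℤ) else 1) = (if X p < X n then (0 : ℤ) else 1) ∧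
        (if X p < X i then (0 : ℤ) else 1) = (if X p < X n then (0 : ℤ) else 1) := by
      rcases hord with ⟨o1, o2, o3⟩ | ⟨o1, o2, o3⟩
      · refine ⟨1, ?_, ?_, ?_, ?_, ?_, ?_, ?_⟩ <;> split_ifs <;> omega
      · refine ⟨-1, ?_, ?_, ?_, ?_, ?_, ?_, ?_⟩ <;> split_ifs <;> omega
    have w1 : ∀ y, W X h s y (i, j) = if (ovr X s (j, n) ∧ ovr X s (p, i)) ∧ h i ≤ y then -σ
        else 0 := by
      intro y; unfold W; simp only [hA, s4]
    have w2 : ∀ y, W X h s y (j, n) = if ovr X s (j, n) ∧ h j ≤ y then σ else 0 := by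
      intro y; unfold W; simp only [s1]
    have w3 : ∀ y, W X h s y (p, i) = if ovr X s (p, i) ∧ h p ≤ y then σ else 0 := by
      intro y; unfold W; simp only [s2]
    have w4 : ∀ y, W X h s y (p, n) = if (ovr X s (j, n) ∨ ovr X s (p, i)) ∧ h p ≤ y then σ
        else 0 := by
      intro y; unfold W; simp only [hE, s3]
    rw [w1, w2, w3]
    rw [w4] at oE
    rw [hE] at oE
    rcases mem_new c hc with rfl | rfl | hcP | rfl
    · simp only at hov ⊢
      obtain ⟨hB, hC⟩ := hA.1 hov
      simp only [hB, hC, true_or, and_self, true_and, le_refl, if_true] at oE ⊢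
      have oE := oE trivial
      rw [s5, Si]
      rcases mono with ⟨m0, m1, m2⟩ | ⟨m0, m1, m2⟩
      · have b1 : ¬ (h j ≤ h i) := by linarith
        have b2 : h p ≤ h i := by linarith
        simp only [b1, b2, if_true, if_false]
        linarith
      · have b1 : h j ≤ h i := by linarith
        have b2 : ¬ (h p ≤ h i) := by linarith
        simp only [b1, b2, if_true, if_false]
        linarith
    · simp only at hov ⊢
      simp only [hov, true_or, true_and, le_refl, if_true] at oE ⊢
      have oE := oE trivial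
      rw [s6, Sj]
      by_cases hC : ovr X s (p, i)
      · simp only [hC, true_and]
        rcases mono with ⟨m0, m1, m2⟩ | ⟨m0, m1, m2⟩
        · have b1 : h i ≤ h j := by linarith
          have b2 : h p ≤ h j := by linarith
          simp only [b1, b2, if_true]
          linarith
        · have b1 : ¬ (h i ≤ h j) := by linarith
          have b2 : ¬ (h p ≤ h j) := by linarith
          simp only [b1, b2, if_false]
          linarith
      · simp only [hC, false_and, if_false]
        linarith
    · have := old c (oldP c hcP) hov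
      obtain ⟨c1, c2, c3, c4⟩ := hP c hcP
      rw [w4] at this
      have e1 : h i ≤ h c.1 ↔ h p ≤ h c.1 := by rw [← not_lt, ki1 _ c1 c3, not_lt]
      have e2 : h j ≤ h c.1 ↔ h p ≤ h c.1 := by rw [← not_lt, kj1 _ c1 c3, not_lt]
      rw [← this]
      simp only [e1, e2]
      by_cases hB : ovr X s (j, n) <;> by_cases hC : ovr X s (p, i) <;>
        by_cases hl : h p ≤ h c.1 <;> simp only [hB, hC, hl, true_or, or_true, or_self, and_self,
          true_and, false_and, and_false, if_true, if_false] <;> ring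
    · simp only at hov ⊢
      simp only [hov, or_true, and_true, le_refl, if_true] at oE ⊢
      have oE := oE trivial
      rw [s7]
      by_cases hC : ovr X s (j, n)
      · simp only [hC, true_and]
        rcases mono with ⟨m0, m1, m2⟩ | ⟨m0, m1, m2⟩
        · have b1 : ¬ (h i ≤ h p) := by linarith
          have b2 : ¬ (h j ≤ h p) := by linarith
          simp only [b1, b2, if_false]
          linarith
        · have b1 : h i ≤ h p := by linarith
          have b2 : h j ≤ h p := by linarith
          simp only [b1, b2, if_true]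
          linarith
      · simp only [hC, false_and, if_false]
        linarith

theorem mem_pairs {l : List D} {q : D × D} (hq : q ∈ pairsOf l) : q.1 ∈ l ∧ q.2 ∈ l := by
  unfold pairsOf at hq
  have := List.of_mem_zip (a := q.1) (b := q.2) hq
  exact ⟨this.1, List.mem_rotate.1 this.2⟩

theorem fold_congr {X τ : D → ℤ} {T : ℤ} {K : List D} {h h' : D → ℚ}
    (e : ∀ c ∈ K, h' c = h c) (hh : LFold X τ K T h) : LFold X τ K T h' := by
  refine ⟨?_, ?_, ?_, ?_, ?_⟩
  · intro a ha b hb hab
    rw [e a ha, e b hb] at hab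
    exact hh.inj a ha b hb hab
  · intro p hp q hq
    rw [e _ (mem_pairs hp).1, e _ (mem_pairs hp).2, e _ (mem_pairs hq).1]
    exact hh.cross p hp q hq
  · intro p hp q hq
    rw [e _ (mem_pairs hp).1, e _ (mem_pairs hp).2, e _ (mem_pairs hq).1, e _ (mem_pairs hq).2]
    exact hh.pair p hp q hq
  · intro p hp
    rw [e _ (mem_pairs hp).1, e _ (mem_pairs hp).2]
    exact hh.type p hp
  · intro s p hp hov
    rw [wind_eq, e _ (mem_pairs hp).1,
      W_congr' X h' h s (h p.1) (pairsOf K) (fun q hq => e _ (mem_pairs hq).1), ← wind_eq]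
    exact hh.wind s p hp hov

theorem exists_delta (l : List ℚ) (hl : ∀ x ∈ l, x ≠ 0) : ∃ δ : ℚ, 0 < δ ∧ ∀ x ∈ l, 3 * δ < |x| := by
  induction l with
  | nil => exact ⟨1, one_pos, by simp⟩
  | cons a l ih =>
    obtain ⟨δ, h0, h1⟩ := ih (fun x hx => hl x (List.mem_cons_of_mem _ hx))
    have ha : 0 < |a| := abs_pos.2 (hl a (by simp))
    refine ⟨min δ (|a| / 4), lt_min h0 (by linarith), ?_⟩
    intro x hx
    have m1 := min_le_left δ (|a| / 4)
    have m2 := min_le_right δ (|a| / 4)
    rcases List.mem_cons.1 hx with rfl | hx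
    · linarith
    · have := h1 x hx
      linarith

end HS

/-- HS: layers after crimping -/
theorem fold_step (X τ : D → ℤ) (T : ℤ) (i j : D) (K : List D) (hnd : (i :: j :: K).Nodup)
    (hK : 2 ≤ K.length) (hz : LZig X (i :: j :: K)) (hτ : ∀ a, τ a = 1 ∨ τ a = -1)
    (hw : τ i + τ j = 0) (h1 : ∀ a K', K = K' ++ [a] → |X i - X j| ≤ |X a - X i|)
    (h2 : ∀ a K', K = a :: K' → |X i - X j| ≤ |X j - X a|)
    (h : D → ℚ) (hh : LFold X τ K T h) : ∃ h' : D → ℚ, LFold X τ (i :: j :: K) T h' := by
  classical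
  obtain ⟨n, L, rfl⟩ : ∃ n L, K = n :: L := by
    cases K with
    | nil => simp at hK
    | cons n L => exact ⟨n, L, rfl⟩
  have hne : n :: L ≠ [] := by simp
  obtain ⟨p, hp⟩ : ∃ p, p = (n :: L).getLast hne := ⟨_, rfl⟩
  have hlast : n :: L = (n :: L).dropLast ++ [p] := by
    rw [hp]; exact (List.dropLast_append_getLast hne).symm
  have hnd' : (n :: L).Nodup := (List.nodup_cons.1 (List.nodup_cons.1 hnd).2).2
  have hjK : j ∉ n :: L := (List.nodup_cons.1 (List.nodup_cons.1 hnd).2).1
  have hiK' : i ∉ j :: n :: L := (List.nodup_cons.1 hnd).1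
  have hij : i ≠ j := fun e => hiK' (by rw [e]; simp)
  have hiK : i ∉ n :: L := fun e => hiK' (List.mem_cons_of_mem _ e)
  have hpK : p ∈ n :: L := by rw [hp]; exact List.getLast_mem _
  have hnK : n ∈ n :: L := by simp
  have hpn : p ≠ n := by
    intro e
    have hL : L ≠ [] := by
      rintro rfl
      simp at hK
    have : p ∈ L := by
      rw [hp, List.getLast_cons hL]
      exact List.getLast_mem _
    rw [e] at this
    exact (List.nodup_cons.1 hnd').1 this
  have g1 := h1 p _ hlast
  have g2 := h2 n L rfl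
  have A1 : Adj (i :: j :: n :: L) i j := ⟨n :: L, List.IsRotated.refl _⟩
  have A2 : Adj (i :: j :: n :: L) j n := by
    refine ⟨L ++ [i], ?_⟩
    have := List.isRotated_append (l := [i]) (l' := j :: n :: L)
    simpa using this
  have A3 : Adj (i :: j :: n :: L) p i := by
    refine ⟨j :: (n :: L).dropLast, ?_⟩
    have := List.isRotated_append (l := i :: j :: (n :: L).dropLast) (l' := [p])
    rw [List.cons_append, List.cons_append, ← hlast] at this
    simpa using this
  have z1 := hz _ _ _ A3 A1
  have z2 := hz _ _ _ A1 A2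
  have hord : (X n ≤ X i ∧ X i < X j ∧ X j ≤ X p) ∨ (X p ≤ X j ∧ X j < X i ∧ X i ≤ X n) := by
    have e1 := abs_cases (X i - X j)
    have e2 := abs_cases (X p - X i)
    have e3 := abs_cases (X j - X n)
    omega
  have inj' : ∀ c ∈ n :: L, c ≠ p → h c - h p ≠ 0 := by
    intro c hc hcp e
    exact hcp (hh.inj c hc p hpK (by linarith))
  obtain ⟨δ, d0, d1⟩ := HS.exists_delta (((n :: L).filter fun c => c ≠ p).map fun c => h c - h p) (by
    intro x hx
    simp only [List.mem_map, List.mem_filter] at hx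
    obtain ⟨c, ⟨hc, hcp⟩, rfl⟩ := hx
    exact inj' c hc (by simpa using hcp))
  have d2 : ∀ c ∈ n :: L, c ≠ p → h c < h p - 3 * δ ∨ h p + 3 * δ < h c := by
    intro c hc hcp
    have := d1 (h c - h p) (by
      simp only [List.mem_map, List.mem_filter]
      exact ⟨c, ⟨hc, by simpa using hcp⟩, rfl⟩)
    rcases lt_abs.1 this with h | h
    · right; linarith
    · left; linarith
  obtain ⟨e, he, hup⟩ : ∃ e : ℚ, (e = δ ∨ e = -δ) ∧
      (((τ i = 1 ↔ X i < X j) ∧ 0 < e) ∨ (¬ (τ i = 1 ↔ X i < X j) ∧ e < 0)) := by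
    by_cases g : (τ i = 1 ↔ X i < X j)
    · exact ⟨δ, Or.inl rfl, Or.inl ⟨g, d0⟩⟩
    · exact ⟨-δ, Or.inr rfl, Or.inr ⟨g, by linarith⟩⟩
  let h' : D → ℚ := fun c => if c = i then h p + e else if c = j then h p + 2 * e else h c
  have hi' : h' i = h p + e := by simp [h']
  have hj' : h' j = h p + 2 * e := by simp [h', hij.symm]
  have hc' : ∀ c ∈ n :: L, h' c = h c := by
    intro c hc
    have c1 : c ≠ i := fun e => hiK (e ▸ hc)
    have c2 : c ≠ j := fun e => hjK (e ▸ hc)
    simp [h', c1, c2]
  refine ⟨h', ?_⟩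
  have old := HS.pairs_old n L hne
  have new := HS.pairs_new i j n L hne
  rw [← hp] at old new
  have zf := HS.zip_facts n L hne hnd'
  rw [← hp] at zf
  refine HS.core X τ T i j p n (n :: L) ((n :: L).zip L) hpK hnK hpn hiK hjK hij zf old new hord h'
    (HS.fold_congr hc' hh) ?_ ?_ ?_ ?_ ?_ hτ hw ?_
  · intro c hc hcp
    rw [hc' c hc, hc' p hpK, hi']
    rcases d2 c hc hcp with g | g <;> rcases he with rfl | rfl <;> constructor <;> intro _ <;>
      linarith
  · intro c hc hcp
    rw [hc' c hc, hc' p hpK, hi']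
    rcases d2 c hc hcp with g | g <;> rcases he with rfl | rfl <;> constructor <;> intro _ <;>
      linarith
  · intro c hc hcp
    rw [hc' c hc, hc' p hpK, hj']
    rcases d2 c hc hcp with g | g <;> rcases he with rfl | rfl <;> constructor <;> intro _ <;>
      linarith
  · intro c hc hcp
    rw [hc' c hc, hc' p hpK, hj']
    rcases d2 c hc hcp with g | g <;> rcases he with rfl | rfl <;> constructor <;> intro _ <;>
      linarith
  · intro c hc hcp
    rw [hc' c hc, hi', hj']
    constructor <;> intro e' <;> rcases d2 c hc hcp with g | g <;> rcases he with rfl | rfl <;>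
      linarith
  · rw [hc' p hpK, hi', hj']
    rcases hup with ⟨g, g'⟩ | ⟨g, g'⟩
    · exact Or.inl ⟨g, by linarith, by linarith⟩
    · exact Or.inr ⟨g, by linarith, by linarith⟩

end Pool.Agent.H606R2.FF
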