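import Pool.Agent.H606R2.FF.TCB
import Pool.Agent.H606R2.FF.TCC
import Pool.Agent.H606R2.FF.TCR
import Pool.Agent.H606R2.FF.THS

/-!
# Task HM: layers of a face from the strip conditions
-/

namespace Pool.Agent.H606R2.FF

open Equiv.Perm

variable {D : Type}

namespace HM

/-! ### Rotations -/

theorem adj_rot {l l' : List D} (h : l ~r l') {a b : D} (hab : Adj l a b) : Adj l' a b := by
  obtain ⟨K, hK⟩ := hab
  exact ⟨K, h.symm.trans hK⟩

theorem lzig_rot {X : D → ℤ} {l l' : List D} (h : l ~r l') (hz : LZig X l) : LZig X l' :=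
  fun a b c hab hbc => hz a b c (adj_rot h.symm hab) (adj_rot h.symm hbc)

theorem lstrips_rot {X : D → ℤ} {w : D → ℝ} {l l' : List D} (h : l ~r l') (hs : LStrips X w l) :
    LStrips X w l' :=
  fun I J hI hJ hl => hs I J hI hJ (h.trans hl)

theorem pairsOf_rotate (l : List D) (n : ℕ) : pairsOf (l.rotate n) = (pairsOf l).rotate n := by
  unfold pairsOf
  change List.zipWith Prod.mk (l.rotate n) ((l.rotate n).rotate 1)
    = (List.zipWith Prod.mk l (l.rotate 1)).rotate n
  rw [List.zipWith_rotate_distrib _ _ _ _ (by simp), List.rotate_rotate, List.rotate_rotate,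
    add_comm]

theorem pairsOf_rot {l l' : List D} (h : l ~r l') : pairsOf l ~r pairsOf l' := by
  obtain ⟨n, rfl⟩ := h
  exact ⟨n, (pairsOf_rotate l n).symm⟩

theorem lfold_rot {X τ : D → ℤ} {T : ℤ} {h : D → ℚ} {l l' : List D} (hl : l ~r l')
    (hf : LFold X τ l T h) : LFold X τ l' T h := by
  have hp := pairsOf_rot hl
  have hm : ∀ p, p ∈ pairsOf l' ↔ p ∈ pairsOf l := fun p => hp.perm.symm.mem_iff
  refine ⟨?_, ?_, ?_, ?_, ?_⟩
  · intro a ha b hb
    exact hf.inj a (hl.perm.symm.mem_iff.1 ha) b (hl.perm.symm.mem_iff.1 hb)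
  · intro p hp' q hq'
    exact hf.cross p ((hm p).1 hp') q ((hm q).1 hq')
  · intro p hp' q hq'
    exact hf.pair p ((hm p).1 hp') q ((hm q).1 hq')
  · intro p hp'
    exact hf.type p ((hm p).1 hp')
  · intro s p hp' hs
    rw [← hf.wind s p ((hm p).1 hp') hs]
    exact ((hp.perm.symm.filter _).map _).sum_eq

/-! ### Adjacent opposite signs -/

theorem opp_pair (τ : D → ℤ) (hτ : ∀ a, τ a = 1 ∨ τ a = -1) (R : List D)
    (h1 : ∃ a ∈ R, τ a = 1) (h2 : ∃ a ∈ R, τ a = -1) :
    ∃ K i j K', R = K ++ i :: j :: K' ∧ τ i + τ j = 0 := by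
  induction R with
  | nil => simp at h1
  | cons a R ih =>
    cases R with
    | nil =>
      obtain ⟨x, hx, hx1⟩ := h1
      obtain ⟨y, hy, hy1⟩ := h2
      simp only [List.mem_singleton] at hx hy
      subst hx; subst hy
      omega
    | cons b R =>
      by_cases hab : τ a + τ b = 0
      · exact ⟨[], a, b, R, rfl, hab⟩
      · have heq : τ a = τ b := by
          rcases hτ a with h | h <;> rcases hτ b with h' | h' <;> omega
        have h1' : ∃ x ∈ b :: R, τ x = 1 := by
          obtain ⟨x, hx, hx1⟩ := h1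
          rcases List.mem_cons.1 hx with rfl | hx
          · exact ⟨b, by simp, by rw [← heq]; exact hx1⟩
          · exact ⟨x, hx, hx1⟩
        have h2' : ∃ x ∈ b :: R, τ x = -1 := by
          obtain ⟨x, hx, hx1⟩ := h2
          rcases List.mem_cons.1 hx with rfl | hx
          · exact ⟨b, by simp, by rw [← heq]; exact hx1⟩
          · exact ⟨x, hx, hx1⟩
        obtain ⟨K, i, j, K', hK, hij⟩ := ih h1' h2'
        exact ⟨a :: K, i, j, K', by rw [hK]; rfl, hij⟩

theorem both_signs (τ : D → ℤ) (hτ : ∀ a, τ a = 1 ∨ τ a = -1) (R : List D)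
    (h : |(R.map τ).sum| < R.length) : (∃ a ∈ R, τ a = 1) ∧ (∃ a ∈ R, τ a = -1) := by
  constructor
  · by_contra hc
    push Not at hc
    have h1 : R.map τ = R.map (fun _ => (-1 : ℤ)) :=
      List.map_congr_left (fun a ha => (hτ a).resolve_left (hc a ha))
    rw [h1] at h
    simp at h
  · by_contra hc
    push Not at hc
    have h1 : R.map τ = R.map (fun _ => (1 : ℤ)) :=
      List.map_congr_left (fun a ha => (hτ a).resolve_right (hc a ha))
    rw [h1] at h
    simp at h

theorem adj_of_append {l K K' : List D} {i j : D} (h : l ~r K ++ i :: j :: K') : Adj l i j := by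
  refine ⟨K' ++ K, h.trans ?_⟩
  have := List.isRotated_append (l := K) (l' := i :: j :: K')
  simpa using this

/-! ### The case of two angles -/

theorem base (X τ : D → ℤ) (T : ℤ) (hT : T = 2 ∨ T = -2) (hτ : ∀ a, τ a = 1 ∨ τ a = -1)
    (a b : D) (hab : X a < X b) (hs : τ a + τ b = T) : ∃ h : D → ℚ, LFold X τ [a, b] T h := by
  classical
  have hne : a ≠ b := by rintro rfl; exact lt_irrefl _ hab
  have hne' : b ≠ a := fun h => hne h.symm
  have hpo : pairsOf [a, b] = [(a, b), (b, a)] := by simp [pairsOf, List.rotate]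
  have hmin : min (X a) (X b) = X a := min_eq_left hab.le
  have hmax : max (X a) (X b) = X b := max_eq_right hab.le
  have hmin' : min (X b) (X a) = X a := min_eq_right hab.le
  have hmax' : max (X b) (X a) = X b := max_eq_left hab.le
  refine ⟨fun x => if x = a then (if T = 2 then 1 else 0) else (if T = 2 then 0 else 1), ?_⟩
  refine ⟨?_, ?_, ?_, ?_, ?_⟩
  · intro x hx y hy hxy
    simp only [List.mem_cons, List.not_mem_nil, or_false] at hx hy
    rcases hx with rfl | rfl <;> rcases hy with rfl | rfl
    · rfl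
    · exfalso
      by_cases hT2 : T = 2 <;> simp [hT2, hne'] at hxy
    · exfalso
      by_cases hT2 : T = 2 <;> simp [hT2, hne'] at hxy
    · rfl
  · intro p hp q hq h1 h2
    exfalso
    rw [hpo] at hp hq
    simp only [List.mem_cons, List.not_mem_nil, or_false] at hp hq
    rcases hp with rfl | rfl <;> rcases hq with rfl | rfl <;>
      simp only [hmin, hmax, hmin', hmax'] at h1 h2 <;> omega
  · intro p hp q hq h1 h2
    exfalso
    rw [hpo] at hp hq
    simp only [List.mem_cons, List.not_mem_nil, or_false] at hp hq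
    rcases hp with rfl | rfl <;> rcases hq with rfl | rfl
    · exact h1 rfl
    · simp only at h2; omega
    · simp only at h2; omega
    · exact h1 rfl
  · intro p hp
    rw [hpo] at hp
    simp only [List.mem_cons, List.not_mem_nil, or_false] at hp
    have hnba : ¬ X b < X a := by omega
    rcases hT with rfl | rfl
    · have ha : τ a = 1 := by rcases hτ a with h | h <;> rcases hτ b with h' | h' <;> omega
      have hb : τ b = 1 := by omega
      rcases hp with rfl | rfl
      · simp [hab, hb, hne']
      · simp [hnba, ha, hne']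
    · have ha : τ a = -1 := by rcases hτ a with h | h <;> rcases hτ b with h' | h' <;> omega
      have hb : τ b = -1 := by omega
      rcases hp with rfl | rfl
      · simp [hab, hb, hne']
      · simp [hnba, ha, hne']
  · intro s p hp hs'
    rw [hpo] at hp ⊢
    simp only [List.mem_cons, List.not_mem_nil, or_false] at hp
    have hnba : ¬ X b < X a := by omega
    have ho : X a ≤ s ∧ s < X b := by
      rcases hp with rfl | rfl <;> simp only [ovr, hmin, hmax, hmin', hmax'] at hs' <;> exact hs'
    have o1 : ovr X s (a, b) := by simp only [ovr, hmin, hmax]; exact ho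
    have o2 : ovr X s (b, a) := by simp only [ovr, hmin', hmax']; exact ho
    rcases hT with rfl | rfl
    · rcases hp with rfl | rfl
      · simp [List.filter_cons, o1, o2, hne', hab, hnba]
      · simp [List.filter_cons, o1, o2, hne', hab, hnba]
    · rcases hp with rfl | rfl
      · simp [List.filter_cons, o1, o2, hne', hab, hnba]
      · simp [List.filter_cons, o1, o2, hne', hab, hnba]

/-! ### Runs -/

/-- all positions of a run are the first or the second one -/
theorem run_pos {X : D → ℤ} {m : ℤ} {J : List D} :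
    ∀ (R : List D) (a b : D), LZig X (a :: b :: R ++ J) →
      (∀ x y K K', a :: b :: R = K ++ x :: y :: K' → |X x - X y| = m) →
      ∀ c ∈ a :: b :: R, X c = X a ∨ X c = X b := by
  intro R a b hz hch
  -- positions alternate
  have key : ∀ (n : ℕ) (R1 R2 : List D) (x y : D), R1.length = n →
      a :: b :: R = R1 ++ x :: y :: R2 → (X x = X a ∧ X y = X b) ∨ (X x = X b ∧ X y = X a) := by
    intro n
    induction n with
    | zero =>
      intro R1 R2 x y hn h
      have : R1 = [] := List.length_eq_zero_iff.1 hn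
      subst this
      simp only [List.nil_append, List.cons.injEq] at h
      obtain ⟨rfl, rfl, -⟩ := h
      exact Or.inl ⟨rfl, rfl⟩
    | succ n ih =>
      intro R1 R2 x y hn h
      have hR1 : R1 ≠ [] := by rintro rfl; simp at hn
      obtain ⟨R3, z, rfl⟩ : ∃ R3 z, R1 = R3 ++ [z] :=
        ⟨R1.dropLast, R1.getLast hR1, (List.dropLast_append_getLast hR1).symm⟩
      have h' : a :: b :: R = R3 ++ z :: x :: (y :: R2) := by
        rw [h]; simp
      have h3 := ih R3 (y :: R2) z x (by simpa using hn) h'
      have hzx : |X z - X x| = m := hch z x R3 (y :: R2) h'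
      have hxy : |X x - X y| = m := hch x y (R3 ++ [z]) R2 h
      have hadj1 : Adj (a :: b :: R ++ J) z x := by
        apply adj_of_append (K := R3) (K' := y :: R2 ++ J)
        have : a :: b :: R ++ J = R3 ++ z :: x :: (y :: R2 ++ J) := by
          rw [h']; simp
        rw [this]
      have hadj2 : Adj (a :: b :: R ++ J) x y := by
        apply adj_of_append (K := R3 ++ [z]) (K' := R2 ++ J)
        have : a :: b :: R ++ J = (R3 ++ [z]) ++ x :: y :: (R2 ++ J) := by
          rw [h]; simp
        rw [this]
      have hzig := hz z x y hadj1 hadj2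
      have hyz : X y = X z := by
        rcases hzig with ⟨h1, h2⟩ | ⟨h1, h2⟩
        · rw [abs_of_neg (by omega)] at hzx
          rw [abs_of_pos (by omega)] at hxy
          omega
        · rw [abs_of_pos (by omega)] at hzx
          rw [abs_of_neg (by omega)] at hxy
          omega
      rcases h3 with ⟨h1, h2⟩ | ⟨h1, h2⟩
      · right; exact ⟨h2, by rw [hyz, h1]⟩
      · left; exact ⟨h2, by rw [hyz, h1]⟩
  intro c hc
  rcases List.mem_cons.1 hc with rfl | hc'
  · exact Or.inl rfl
  · obtain ⟨R1, R2, hR⟩ := List.append_of_mem hc'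
    -- a :: (b :: R) = a :: R1 ++ c :: R2; predecessor of c
    have h0 : a :: b :: R = (a :: R1) ++ c :: R2 := by rw [List.cons_append, ← hR]
    have hne : (a :: R1) ≠ [] := by simp
    obtain ⟨R3, z, h3⟩ : ∃ R3 z, a :: R1 = R3 ++ [z] :=
      ⟨(a :: R1).dropLast, (a :: R1).getLast hne, (List.dropLast_append_getLast hne).symm⟩
    have h4 : a :: b :: R = R3 ++ z :: c :: R2 := by
      rw [h0, h3]; simp
    rcases key R3.length R3 R2 z c rfl h4 with ⟨-, h⟩ | ⟨-, h⟩
    · exact Or.inr h
    · exact Or.inl h

/-- a neighbour of a run is strictly outside of its strip -/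
theorem outside {X : D → ℤ} {m : ℤ} {u a b : D} {R : List D} (hm : |X a - X b| = m)
    (hu : m < |X u - X a|)
    (hz : (X u < X a ∧ X b < X a) ∨ (X a < X u ∧ X a < X b))
    (hR : ∀ c ∈ R, X c = X a ∨ X c = X b) :
    (∀ c ∈ R, X c < X u) ∨ (∀ c ∈ R, X u < X c) := by
  rcases hz with ⟨h1, h2⟩ | ⟨h1, h2⟩
  · right
    intro c hc
    rw [abs_of_pos (by omega)] at hm
    rw [abs_of_neg (by omega)] at hu
    rcases hR c hc with h | h <;> omega
  · left
    intro c hc
    rw [abs_of_neg (by omega)] at hm
    rw [abs_of_pos (by omega)] at hu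
    rcases hR c hc with h | h <;> omega

theorem run_sum {X : D → ℤ} {w : D → ℝ} {m : ℤ} {R J : List D} (hR : Run X m R J)
    (hs : LStrips X w (R ++ J)) : |(R.map w).sum| ≤ 1 := by
  have hJ := hR.ne
  have hRne : R ≠ [] := by
    intro h; have := hR.two; rw [h] at this; simp at this
  have harc := hs R J hRne hJ (List.IsRotated.refl _)
  -- first two elements of R
  obtain ⟨a, b, R', hR'⟩ : ∃ a b R', R = a :: b :: R' := by
    match R, hR.two with
    | [], h => simp at h
    | [_], h => simp at h
    | a :: b :: R', _ => exact ⟨a, b, R', rfl⟩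
  obtain ⟨R'', y, z, hR''⟩ : ∃ R'' y z, R = R'' ++ [y, z] := by
    have h2 := hR.two
    have hne2 : R.dropLast ≠ [] := by
      intro h
      have := congrArg List.length h
      simp at this
      omega
    refine ⟨R.dropLast.dropLast, R.dropLast.getLast hne2, R.getLast hRne, ?_⟩
    conv_lhs => rw [← List.dropLast_append_getLast hRne, ← List.dropLast_append_getLast hne2]
    simp
  have hpos1 : ∀ c ∈ R, X c = X a ∨ X c = X b := by
    rw [hR']
    exact run_pos (m := m) (J := J) R' a b (by rw [← hR']; exact hR.zig)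
      (fun x y K K' h => hR.chain x y K K' (by rw [hR']; exact h))
  have hpos2 : ∀ c ∈ R, X c = X z ∨ X c = X y := by
    have hyz : X y ≠ X z := by
      have := hR.chain y z R'' [] (by rw [hR''])
      intro h
      rw [h] at this
      simp at this
      have := hR.pos
      omega
    have hy := hpos1 y (by rw [hR'']; simp)
    have hz := hpos1 z (by rw [hR'']; simp)
    intro c hc
    have := hpos1 c hc
    rcases hy with h | h <;> rcases hz with h' | h' <;> rcases this with h'' | h'' <;> omega
  -- u
  set u := J.getLast hJ with hu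
  set v := J.head hJ with hv
  have hou : (∀ c ∈ R, X c < X u) ∨ (∀ c ∈ R, X u < X c) := by
    refine outside (m := m) (a := a) (b := b) ?_ ?_ ?_ hpos1
    · exact hR.chain a b [] R' (by rw [hR']; rfl)
    · exact hR.before u a J.dropLast (b :: R') (List.dropLast_append_getLast hJ).symm hR'
    · apply hR.zig u a b
      · apply adj_rot (l := J ++ R) List.isRotated_append
        apply adj_of_append (K := J.dropLast) (K' := b :: R')
        have : J ++ R = J.dropLast ++ u :: a :: (b :: R') := by
          conv_lhs => rw [← List.dropLast_append_getLast hJ, hR']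
          simp [hu]
        rw [this]
      · apply adj_of_append (K := []) (K' := R' ++ J)
        rw [hR']; simp
        first | done | exact List.IsRotated.refl _
  have hov : (∀ c ∈ R, X c < X v) ∨ (∀ c ∈ R, X v < X c) := by
    have hch := hR.chain y z R'' [] (by rw [hR''])
    refine outside (m := m) (a := z) (b := y) ?_ ?_ ?_ hpos2
    · rw [abs_sub_comm]; exact hch
    · rw [abs_sub_comm]
      exact hR.after z v (R'' ++ [y]) J.tail (by rw [hR'']; simp)
        (List.cons_head_tail hJ).symm
    · have := hR.zig y z v ?_ ?_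
      · rcases this with ⟨h1, h2⟩ | ⟨h1, h2⟩
        · left; exact ⟨h2, h1⟩
        · right; exact ⟨h2, h1⟩
      · apply adj_of_append (K := R'') (K' := J)
        rw [hR'']; simp
        first | done | exact List.IsRotated.refl _
      · apply adj_of_append (K := R'' ++ [y]) (K' := J.tail)
        have : R ++ J = (R'' ++ [y]) ++ z :: v :: J.tail := by
          rw [hR'', hv, List.cons_head_tail hJ]; simp
        rw [this]
  obtain ⟨h1, h2, h3, h4⟩ := harc
  rcases hou with hou | hou <;> rcases hov with hov | hov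
  · exact h1 hou hov
  · rw [h3 hou hov]; simp
  · rw [h4 hou hov]; simp
  · exact h2 hou hov

theorem find_pair (X τ : D → ℤ) (T : ℤ) (hT : T = 2 ∨ T = -2) (hτ : ∀ a, τ a = 1 ∨ τ a = -1)
    (l : List D) (hnd : l.Nodup) (heven : Even l.length) (h2 : 2 < l.length) (hz : LZig X l)
    (hs : LStrips X (fun a => (τ a : ℝ)) l) (ht : (l.map τ).sum = T) :
    ∃ i j K, l ~r i :: j :: K ∧ τ i + τ j = 0 ∧
      ∀ a b, Adj l a b → |X i - X j| ≤ |X a - X b| := by
  rcases exists_run X l hnd hz heven h2.le with ⟨m, hm, hall⟩ | ⟨m, R, J, hrot, hrun, hmin⟩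
  · have hb := both_signs τ hτ l (by
      rw [ht]
      rcases hT with rfl | rfl <;> norm_num <;> omega)
    obtain ⟨K, i, j, K', hK, hij⟩ := opp_pair τ hτ l hb.1 hb.2
    have hadj : Adj l i j := adj_of_append (K := K) (K' := K') (by rw [hK])
    obtain ⟨K2, hK2⟩ := hadj
    refine ⟨i, j, K2, hK2, hij, fun a b hab => ?_⟩
    rw [hall a b hab, hall i j ⟨K2, hK2⟩]
  · have hsum := run_sum hrun (lstrips_rot hrot hs)
    have hsum' : |(R.map τ).sum| ≤ 1 := by
      have : (R.map (fun a => (τ a : ℝ))).sum = (((R.map τ).sum : ℤ) : ℝ) := by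
        rw [Int.cast_list_sum, List.map_map]; rfl
      rw [this] at hsum
      exact_mod_cast hsum
    have hb := both_signs τ hτ R (by
      have := hrun.two
      omega)
    obtain ⟨K, i, j, K', hK, hij⟩ := opp_pair τ hτ R hb.1 hb.2
    have hadj : Adj l i j := by
      apply adj_of_append (K := K) (K' := K' ++ J)
      refine hrot.trans ?_
      rw [hK]; simp
      first | done | exact List.IsRotated.refl _
    obtain ⟨K2, hK2⟩ := hadj
    refine ⟨i, j, K2, hK2, hij, fun a b hab => ?_⟩
    rw [hrun.chain i j K K' hK]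
    exact hmin a b hab

/-- the list version -/
theorem list_layers (X τ : D → ℤ) (T : ℤ) (hT : T = 2 ∨ T = -2) (hτ : ∀ a, τ a = 1 ∨ τ a = -1)
    (n : ℕ) : ∀ l : List D, l.length = n → l.Nodup → Even l.length → 2 ≤ l.length → LZig X l →
      LStrips X (fun a => (τ a : ℝ)) l → (l.map τ).sum = T → ∃ h : D → ℚ, LFold X τ l T h := by
  induction n using Nat.strong_induction_on with
  | _ n ih =>
  intro l hn hnd heven h2 hz hs ht
  rcases Nat.eq_or_lt_of_le h2 with h2' | h2'
  · -- two angles
    obtain ⟨a, b, rfl⟩ : ∃ a b, l = [a, b] := by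
      match l, h2'.symm with
      | [a, b], _ => exact ⟨a, b, rfl⟩
    have hab1 : Adj [a, b] a b := ⟨[], List.IsRotated.refl _⟩
    have hab2 : Adj [a, b] b a := ⟨[], ⟨1, by simp⟩⟩
    have ht' : τ a + τ b = T := by simpa using ht
    rcases hz a b a hab1 hab2 with ⟨h, -⟩ | ⟨h, -⟩
    · exact base X τ T hT hτ a b h ht'
    · obtain ⟨f, hf⟩ := base X τ T hT hτ b a h (by omega)
      exact ⟨f, lfold_rot (l := [b, a]) ⟨1, by simp⟩ hf⟩
  · obtain ⟨i, j, K, hrot, hij, hmin⟩ := find_pair X τ T hT hτ l hnd heven h2' hz hs ht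
    have hnd' : (i :: j :: K).Nodup := hrot.nodup_iff.1 hnd
    have hlen : l.length = K.length + 2 := by
      have := hrot.perm.length_eq
      simpa using this
    have hK : 2 ≤ K.length := by
      obtain ⟨k, hk⟩ := heven
      omega
    have h1 : ∀ a K', K = K' ++ [a] → |X i - X j| ≤ |X a - X i| := by
      intro a K' hKa
      apply hmin
      apply adj_rot hrot.symm
      refine ⟨j :: K', ⟨K'.length + 2, ?_⟩⟩
      subst hKa
      have : i :: j :: (K' ++ [a]) = (i :: j :: K') ++ [a] := by simp
      rw [this, show K'.length + 2 = (i :: j :: K').length by simp, List.rotate_append_length_eq]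
      simp
    have h2 : ∀ a K', K = a :: K' → |X i - X j| ≤ |X j - X a| := by
      intro a K' hKa
      apply hmin
      apply adj_rot hrot.symm
      refine adj_of_append (K := [i]) (K' := K') ?_
      subst hKa
      exact List.IsRotated.refl _
    have hz' := lzig_rot hrot hz
    have hs' := lstrips_rot hrot hs
    have hc := crimp X (fun a => (τ a : ℝ)) i j K hnd' hK hz' hs'
      (by have : ((τ i + τ j : ℤ) : ℝ) = 0 := by rw [hij]; simp
          push_cast at this; exact this) h1 h2
    have htK : (K.map τ).sum = T := by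
      have h3 : (l.map τ).sum = ((i :: j :: K).map τ).sum := (hrot.perm.map τ).sum_eq
      rw [ht] at h3
      simp only [List.map_cons, List.sum_cons] at h3
      omega
    obtain ⟨h, hh⟩ := ih K.length (by omega) K rfl
      ((List.nodup_cons.1 (List.nodup_cons.1 hnd').2).2)
      (by obtain ⟨k, hk⟩ := heven; exact ⟨k - 1, by omega⟩) hK hc.1 hc.2 htK
    obtain ⟨h', hh'⟩ := fold_step X τ T i j K hnd' hK hz' hτ hij h1 h2 h hh
    exact ⟨h', lfold_rot hrot.symm hh'⟩

end HM

/-- HM (uses CB, CC, CR, HS) -/
theorem exists_layers [Fintype D] (φ : Equiv.Perm D) (X τ : D → ℤ) (d : D) (T : ℤ)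
    (hT : T = 2 ∨ T = -2) (hz : Zigzag φ X d) (hτ : ∀ a, τ a = 1 ∨ τ a = -1)
    (hs : Strips φ X (fun a => (τ a : ℝ)) d) (ht : cycSum φ (fun a => (τ a : ℝ)) d = T) :
    ∃ h : D → ℚ, FaceFold φ X τ d T h := by
  classical
  obtain ⟨l, hnd, h2, heven, hmem, hadj, hpairs, hzl, hw⟩ := exists_list φ X d hz
  have hsl : LStrips X (fun a => (τ a : ℝ)) l := (hw _).1.1 hs
  have htl : (l.map τ).sum = T := by
    have h3 := (hw (fun a => (τ a : ℝ))).2
    rw [ht] at h3
    have : (l.map (fun a => (τ a : ℝ))).sum = (((l.map τ).sum : ℤ) : ℝ) := by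
      rw [Int.cast_list_sum, List.map_map]; rfl
    rw [this] at h3
    exact_mod_cast h3.symm
  obtain ⟨h, hf⟩ := HM.list_layers X τ T hT hτ l.length l rfl hnd heven h2 hzl hsl htl
  have hp : ∀ a, φ.SameCycle d a → (a, φ a) ∈ pairsOf l := fun a ha =>
    (hpairs (a, φ a)).2 ⟨(hmem a).2 ha, rfl⟩
  have hpe : pairsOf l = l.map (fun c => (c, φ c)) := by
    have h1 : (pairsOf l).map Prod.fst = l := by
      unfold pairsOf
      rw [List.map_fst_zip]
      simp
    conv_rhs => rw [← h1]
    rw [List.map_map]
    conv_lhs => rw [← List.map_id (pairsOf l)]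
    apply List.map_congr_left
    intro p hp'
    have := ((hpairs p).1 hp').2
    simp only [id, Function.comp]
    rw [← this]
  refine ⟨h, ?_, ?_, ?_, ?_, ?_⟩
  · intro a b ha hb hab
    exact hf.inj a ((hmem a).2 ha) b ((hmem b).2 hb) hab
  · intro a c ha hc h1 h2
    exact hf.cross _ (hp a ha) _ (hp c hc) h1 h2
  · intro a c ha hc h1 h2 h3
    exact hf.pair _ (hp a ha) _ (hp c hc) h1 h2 h3
  · intro a ha
    exact hf.type _ (hp a ha)
  · intro s a ha h1 h2
    have h3 := hf.wind s _ (hp a ha) ⟨h1, h2⟩
    rw [← h3, hpe]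
    set P : D → Prop := fun c => ovr X s (c, φ c) ∧ h c ≤ h a with hP
    have h4 : ((l.map (fun c => (c, φ c))).filter
        fun q => @decide (ovr X s q ∧ h q.1 ≤ h (a, φ a).1) (Classical.dec _)) =
        (l.filter (fun c => decide (P c))).map (fun c => (c, φ c)) := by
      rw [List.filter_map]
      congr 1
      apply List.filter_congr
      intro c _
      simp only [Function.comp, hP, decide_eq_decide]
    rw [h4, List.map_map]
    have h5 : {c | φ.SameCycle d c ∧ min (X c) (X (φ c)) ≤ s ∧ s < max (X c) (X (φ c)) ∧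
        h c ≤ h a} = ((l.filter (fun c => decide (P c))).toFinset : Set D) := by
      ext c
      simp only [Set.mem_setOf_eq, List.coe_toFinset, List.mem_filter, decide_eq_true_eq, hP, ovr,
        hmem c]
      tauto
    rw [h5, finsum_mem_coe_finset]
    rw [List.sum_toFinset _ (hnd.filter _)]
    rfl

end Pool.Agent.H606R2.FF
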