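import Pool.Agent.H606R2.FF.Base

/-!
# Removing an even run, contracting an odd run (tasks CE and CO)
-/

namespace Pool.Agent.H606R2.FF

namespace TCE

variable {D : Type}

/-- `ArcOK` in terms of the positions of the two neighbours -/
def AO (X : D → ℤ) (w : D → ℝ) (x : ℤ) (I : List D) (y : ℤ) : Prop :=
  ((∀ a ∈ I, X a < x) → (∀ a ∈ I, X a < y) → |(I.map w).sum| ≤ 1) ∧
  ((∀ a ∈ I, x < X a) → (∀ a ∈ I, y < X a) → |(I.map w).sum| ≤ 1) ∧
  ((∀ a ∈ I, X a < x) → (∀ a ∈ I, y < X a) → (I.map w).sum = 0) ∧
  ((∀ a ∈ I, x < X a) → (∀ a ∈ I, X a < y) → (I.map w).sum = 0)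

theorem AO_tr {X : D → ℤ} {w w' : D → ℝ} {x y x' y' : ℤ} {I I' : List D}
    (h : AO X w' x' I' y') (hsum : (I.map w).sum = (I'.map w').sum)
    (h1 : (∀ a ∈ I, X a < x) → ∀ a ∈ I', X a < x')
    (h2 : (∀ a ∈ I, x < X a) → ∀ a ∈ I', x' < X a)
    (h3 : (∀ a ∈ I, X a < y) → ∀ a ∈ I', X a < y')
    (h4 : (∀ a ∈ I, y < X a) → ∀ a ∈ I', y' < X a) : AO X w x I y := by
  obtain ⟨g1, g2, g3, g4⟩ := h
  refine ⟨fun a b => ?_, fun a b => ?_, fun a b => ?_, fun a b => ?_⟩ <;> rw [hsum]
  · exact g1 (h1 a) (h3 b)
  · exact g2 (h2 a) (h4 b)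
  · exact g3 (h1 a) (h4 b)
  · exact g4 (h2 a) (h3 b)

theorem AO_sup {X : D → ℤ} {w w' : D → ℝ} {x y : ℤ} {I I' : List D}
    (h : AO X w' x I' y) (hsum : (I.map w).sum = (I'.map w').sum)
    (hs : ∀ a ∈ I', a ∈ I) : AO X w x I y :=
  AO_tr h hsum (fun g a ha => g a (hs a ha)) (fun g a ha => g a (hs a ha))
    (fun g a ha => g a (hs a ha)) (fun g a ha => g a (hs a ha))

theorem AO_left {X : D → ℤ} {w : D → ℝ} {x y : ℤ} {I : List D}
    (h1 : ∃ a ∈ I, X a ≤ x) (h2 : ∃ a ∈ I, x ≤ X a) : AO X w x I y := by
  obtain ⟨a, ha, hax⟩ := h1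
  obtain ⟨b, hb, hbx⟩ := h2
  refine ⟨fun g _ => ?_, fun g _ => ?_, fun g _ => ?_, fun g _ => ?_⟩
  · have := g b hb; omega
  · have := g a ha; omega
  · have := g b hb; omega
  · have := g a ha; omega

theorem AO_right {X : D → ℤ} {w : D → ℝ} {x y : ℤ} {I : List D}
    (h1 : ∃ a ∈ I, X a ≤ y) (h2 : ∃ a ∈ I, y ≤ X a) : AO X w x I y := by
  obtain ⟨a, ha, hax⟩ := h1
  obtain ⟨b, hb, hbx⟩ := h2
  refine ⟨fun _ g => ?_, fun _ g => ?_, fun _ g => ?_, fun _ g => ?_⟩
  · have := g b hb; omega
  · have := g a ha; omega
  · have := g a ha; omega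
  · have := g b hb; omega

theorem AO_zero {X : D → ℤ} {w : D → ℝ} {x y : ℤ} {I : List D} (h : (I.map w).sum = 0) :
    AO X w x I y := by
  refine ⟨fun _ _ => ?_, fun _ _ => ?_, fun _ _ => h, fun _ _ => h⟩ <;> rw [h] <;> simp

/-! ### The strip conditions in linear form -/

theorem strips_T1 {X : D → ℤ} {w : D → ℝ} {l : List D} (h : LStrips X w l)
    {A I B : List D} {u v : D} (hI : I ≠ []) (hl : l = A ++ (I ++ B))
    (hu : A.getLast? = some u) (hv : B.head? = some v) : AO X w (X u) I (X v) := by
  have hBA : B ++ A ≠ [] := by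
    intro h0
    rw [List.append_eq_nil_iff] at h0
    rw [h0.1] at hv
    exact absurd hv (by simp)
  have h1 := h I (B ++ A) hI hBA (by
    rw [hl, ← List.append_assoc I B A]
    exact List.isRotated_append)
  have h2 : (B ++ A).getLast hBA = u := by
    have : (B ++ A).getLast? = some u := by rw [List.getLast?_append, hu]; rfl
    rw [List.getLast?_eq_some_getLast hBA] at this
    exact Option.some.inj this
  have h3 : (B ++ A).head hBA = v := by
    have : (B ++ A).head? = some v := by rw [List.head?_append, hv]; rfl
    rw [List.head?_eq_some_head hBA] at this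
    exact Option.some.inj this
  rw [h2, h3] at h1
  exact h1

theorem strips_T2 {X : D → ℤ} {w : D → ℝ} {l : List D} (h : LStrips X w l)
    {A K B : List D} {u v : D} (hI : B ++ A ≠ []) (hl : l = A ++ (K ++ B))
    (hu : K.getLast? = some u) (hv : K.head? = some v) : AO X w (X u) (B ++ A) (X v) := by
  have hK : K ≠ [] := by
    rintro rfl
    exact absurd hv (by simp)
  have h1 := h (B ++ A) K hI hK (by
    rw [hl, ← List.append_assoc A K B]
    have h2 : (A ++ K) ++ B ~r B ++ (A ++ K) := List.isRotated_append
    rwa [← List.append_assoc B A K] at h2)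
  have h2 : K.getLast hK = u := by
    rw [List.getLast?_eq_some_getLast hK] at hu
    exact Option.some.inj hu
  have h3 : K.head hK = v := by
    rw [List.head?_eq_some_head hK] at hv
    exact Option.some.inj hv
  rw [h2, h3] at h1
  exact h1

theorem rot_split {l l' : List D} (h : l ~r l') : ∃ P Q, l = P ++ Q ∧ l' = Q ++ P := by
  obtain ⟨n, hn, h⟩ := List.isRotated_iff_mod.1 h
  refine ⟨l.take n, l.drop n, (List.take_append_drop n l).symm, ?_⟩
  rw [← h, List.rotate_eq_drop_append_take hn]

theorem single_ok {X : D → ℤ} {w : D → ℝ} {l K : List D} {r u v : D} (hz : LZig X l)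
    (hw : |w r| ≤ 1) (h : l ~r [r] ++ K) (hu : K.getLast? = some u) (hv : K.head? = some v) :
    AO X w (X u) [r] (X v) := by
  have h1 : Adj l r v := by
    cases K with
    | nil => exact absurd hv (by simp)
    | cons b K' =>
      have : b = v := by simpa using hv
      subst this
      exact ⟨K', h⟩
  have h2 : Adj l u r := by
    have hK : K ≠ [] := by
      rintro rfl
      exact absurd hv (by simp)
    have hu' : K.getLast hK = u := by
      rw [List.getLast?_eq_some_getLast hK] at hu
      exact Option.some.inj hu
    have hK' : K = K.dropLast ++ [u] := by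
      rw [← hu']; exact (List.dropLast_append_getLast hK).symm
    refine ⟨K.dropLast, h.trans ?_⟩
    conv_lhs => rw [hK']
    rw [← List.append_assoc]
    have : ([r] ++ K.dropLast) ++ [u] ~r [u] ++ ([r] ++ K.dropLast) := List.isRotated_append
    exact this
  have hs : ([r].map w).sum = w r := by simp
  rcases hz u r v h2 h1 with ⟨g1, g2⟩ | ⟨g1, g2⟩
  · refine ⟨fun _ _ => by rw [hs]; exact hw, fun _ _ => by rw [hs]; exact hw,
      fun a _ => ?_, fun _ b => ?_⟩
    · have := a r (by simp); omega
    · have := b r (by simp); omega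
  · refine ⟨fun _ _ => by rw [hs]; exact hw, fun _ _ => by rw [hs]; exact hw,
      fun _ b => ?_, fun a _ => ?_⟩
    · have := b r (by simp); omega
    · have := a r (by simp); omega

theorem strips_of {X : D → ℤ} {w : D → ℝ} {l : List D}
    (h1 : ∀ (A I B : List D) (u v : D), I ≠ [] → l = A ++ (I ++ B) →
      A.getLast? = some u → B.head? = some v → AO X w (X u) I (X v))
    (h2 : ∀ (A K B : List D) (u v : D), B ++ A ≠ [] → l = A ++ (K ++ B) →
      K.getLast? = some u → K.head? = some v → AO X w (X u) (B ++ A) (X v)) :
    LStrips X w l := by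
  intro I K hI hK hIK
  have hu : K.getLast? = some (K.getLast hK) := List.getLast?_eq_some_getLast hK
  have hv : K.head? = some (K.head hK) := List.head?_eq_some_head hK
  change AO X w (X (K.getLast hK)) I (X (K.head hK))
  generalize K.getLast hK = u at hu ⊢
  generalize K.head hK = v at hv ⊢
  obtain ⟨P, Q, hl, hPQ⟩ := rot_split hIK
  rcases List.append_eq_append_iff.1 hPQ with ⟨a', h3, h4⟩ | ⟨c', h3, h4⟩
  · -- Q = I ++ a', K = a' ++ P
    rcases List.eq_nil_or_concat P with hP | ⟨P', p, hP⟩
    · have := h2 I K [] _ _ (by simpa using hI) (by rw [hl, hP, h4, hP, h3]; simp) hu hv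
      simpa using this
    · cases a' with
      | nil =>
        have := h2 [] K I _ _ (by simpa using hI) (by rw [hl, h4, h3]; simp) hu hv
        simpa using this
      | cons b a' =>
        refine h1 P I (b :: a') _ _ hI (by rw [hl, h3]) ?_ ?_
        · rw [h4, List.getLast?_append, hP] at hu
          rw [hP]
          simpa using hu
        · rw [h4] at hv
          simpa using hv
  · -- I = Q ++ c', P = c' ++ K
    have := h2 c' K Q _ _ (by rw [← h3]; exact hI) (by rw [hl, h4, List.append_assoc]) hu hv
    rwa [← h3] at this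

theorem strips_of' {X : D → ℤ} {w : D → ℝ} {l : List D} (hz : LZig X l)
    (hw : ∀ a ∈ l, |w a| ≤ 1)
    (h1 : ∀ (A I B : List D) (u v : D), 2 ≤ I.length → l = A ++ (I ++ B) →
      A.getLast? = some u → B.head? = some v → AO X w (X u) I (X v))
    (h2 : ∀ (A K B : List D) (u v : D), 2 ≤ (B ++ A).length → l = A ++ (K ++ B) →
      K.getLast? = some u → K.head? = some v → AO X w (X u) (B ++ A) (X v)) :
    LStrips X w l := by
  have hlen : ∀ I : List D, I ≠ [] → 2 ≤ I.length ∨ ∃ r, I = [r] := by
    intro I hI
    cases I with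
    | nil => exact absurd rfl hI
    | cons a I =>
      cases I with
      | nil => exact Or.inr ⟨a, rfl⟩
      | cons b I => left; simp
  apply strips_of
  · intro A I B u v hI hl hu hv
    rcases hlen I hI with h | ⟨r, rfl⟩
    · exact h1 A I B u v h hl hu hv
    · refine single_ok (l := l) (K := B ++ A) hz (hw r (by rw [hl]; simp)) ?_ ?_ ?_
      · rw [hl, ← List.append_assoc [r] B A]
        exact List.isRotated_append
      · rw [List.getLast?_append, hu]; rfl
      · rw [List.head?_append, hv]; rfl
  · intro A K B u v hI hl hu hv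
    rcases hlen _ hI with h | ⟨r, hr⟩
    · exact h2 A K B u v h hl hu hv
    · rw [hr]
      refine single_ok (l := l) (K := K) hz (hw r ?_) ?_ hu hv
      · have : r ∈ B ++ A := by rw [hr]; simp
        rw [hl]
        simp only [List.mem_append] at this ⊢
        tauto
      · rw [← hr, hl, ← List.append_assoc A K B]
        have h3 : (A ++ K) ++ B ~r B ++ (A ++ K) := List.isRotated_append
        rwa [← List.append_assoc B A K] at h3

/-! ### Alternating lists -/

/-- the positions alternate between `p` and `q`, beginning with `p` -/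
def Alt (X : D → ℤ) : ℤ → ℤ → List D → Prop
  | _, _, [] => True
  | p, q, a :: l => X a = p ∧ Alt X q p l

theorem Alt_append {X : D → ℤ} : ∀ (A B : List D) (p q : ℤ), Alt X p q (A ++ B) →
    Alt X p q A ∧ (Alt X p q B ∧ Even A.length ∨ Alt X q p B ∧ ¬ Even A.length) := by
  intro A
  induction A with
  | nil => intro B p q h; exact ⟨trivial, Or.inl ⟨h, by simp⟩⟩
  | cons a A ih =>
    intro B p q h
    obtain ⟨h1, h2⟩ := h
    obtain ⟨h3, h4⟩ := ih B q p h2
    refine ⟨⟨h1, h3⟩, ?_⟩
    rw [List.length_cons, Nat.even_add_one]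
    rcases h4 with ⟨h5, h6⟩ | ⟨h5, h6⟩
    · exact Or.inr ⟨h5, by simpa using h6⟩
    · exact Or.inl ⟨h5, h6⟩

theorem Alt_mem {X : D → ℤ} : ∀ (A : List D) (p q : ℤ), Alt X p q A → ∀ a ∈ A,
    X a = p ∨ X a = q := by
  intro A
  induction A with
  | nil => intro p q _ a ha; exact absurd ha (by simp)
  | cons b A ih =>
    intro p q h a ha
    rcases List.mem_cons.1 ha with rfl | h'
    · exact Or.inl h.1
    · exact (ih q p h.2 a h').symm

theorem Alt_two {X : D → ℤ} {p q : ℤ} {I : List D} (h : Alt X p q I) (h2 : 2 ≤ I.length) :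
    (∃ a ∈ I, X a = p) ∧ (∃ a ∈ I, X a = q) := by
  cases I with
  | nil => simp at h2
  | cons a I =>
    cases I with
    | nil => simp at h2
    | cons b I => exact ⟨⟨a, by simp, h.1⟩, ⟨b, by simp, h.2.1⟩⟩

theorem Alt_mid {X : D → ℤ} {p q : ℤ} {A I C : List D} (h : Alt X p q (A ++ (I ++ C)))
    (h2 : 2 ≤ I.length) : (∃ a ∈ I, X a = p) ∧ (∃ a ∈ I, X a = q) := by
  obtain ⟨-, h3⟩ := Alt_append _ _ _ _ h
  rcases h3 with ⟨h4, -⟩ | ⟨h4, -⟩
  · exact Alt_two (Alt_append _ _ _ _ h4).1 h2
  · exact (Alt_two (Alt_append _ _ _ _ h4).1 h2).symm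

theorem Alt_of {X : D → ℤ} {m : ℤ} : ∀ (l : List D) (a b : D) (p q : ℤ),
    (∀ x y K K', a :: b :: l = K ++ x :: y :: K' → |X x - X y| = m) →
    (∀ x y z K K', a :: b :: l = K ++ x :: y :: z :: K' →
      (X x < X y ∧ X z < X y) ∨ (X y < X x ∧ X y < X z)) →
    X a = p → X b = q → Alt X p q (a :: b :: l) := by
  intro l
  induction l with
  | nil => intro a b p q _ _ ha hb; exact ⟨ha, hb, trivial⟩
  | cons c l ih =>
    intro a b p q h1 h2 ha hb
    have h3 := h1 a b [] (c :: l) rfl
    have h4 := h1 b c [a] l rfl
    have h5 := h2 a b c [] l rfl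
    have hc : X c = p := by
      rw [← ha]
      rcases h5 with ⟨h6, h7⟩ | ⟨h6, h7⟩
      · rw [abs_of_neg (by omega)] at h3
        rw [abs_of_pos (by omega)] at h4
        omega
      · rw [abs_of_pos (by omega)] at h3
        rw [abs_of_neg (by omega)] at h4
        omega
    refine ⟨ha, ih b c q p ?_ ?_ hb hc⟩
    · intro x y K K' h
      exact h1 x y (a :: K) K' (by rw [h]; rfl)
    · intro x y z K K' h
      exact h2 x y z (a :: K) K' (by rw [h]; rfl)

theorem Adj_of {l K K' : List D} {x y : D} (h : l = K ++ x :: y :: K') : Adj l x y :=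
  ⟨K' ++ K, by rw [h]; exact List.isRotated_append⟩

theorem Adj_junction {l K : List D} {x y : D} (h : l = y :: (K ++ [x])) : Adj l x y :=
  ⟨K, by
    rw [h]
    have : (y :: K) ++ [x] ~r [x] ++ (y :: K) := List.isRotated_append
    exact this⟩

/-- the pairs of consecutive elements of a cyclic list -/
theorem Adj_cases {l : List D} {x y : D} (h : Adj l x y) :
    (∃ K K', l = K ++ x :: y :: K') ∨ (∃ K, l = y :: (K ++ [x])) := by
  obtain ⟨K, hK⟩ := h
  obtain ⟨P, Q, hl, hPQ⟩ := rot_split hK
  cases Q with
  | nil =>
    left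
    refine ⟨[], K, ?_⟩
    rw [hl, List.append_nil, List.nil_append]
    rw [List.nil_append] at hPQ
    exact hPQ.symm
  | cons c Q =>
    rw [List.cons_append, List.cons.injEq] at hPQ
    obtain ⟨rfl, hPQ⟩ := hPQ
    cases Q with
    | nil =>
      right
      rw [List.nil_append] at hPQ
      exact ⟨K, by rw [hl, ← hPQ]; rfl⟩
    | cons d Q =>
      left
      rw [List.cons_append, List.cons.injEq] at hPQ
      obtain ⟨rfl, hPQ⟩ := hPQ
      exact ⟨P, Q, hl⟩

/-! ### Even runs -/

theorem last_mem {l : List D} {u : D} (h : l.getLast? = some u) : u ∈ l := by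
  cases l with
  | nil => exact absurd h (by simp)
  | cons a l =>
    rw [List.getLast?_eq_some_getLast (List.cons_ne_nil a l)] at h
    rw [← Option.some.inj h]
    exact List.getLast_mem _

theorem head_mem {l : List D} {u : D} (h : l.head? = some u) : u ∈ l := by
  cases l with
  | nil => exact absurd h (by simp)
  | cons a l =>
    have : a = u := by simpa using h
    rw [this]; simp

theorem exists_last {l : List D} (h : l ≠ []) : ∃ u, l.getLast? = some u :=
  ⟨_, List.getLast?_eq_some_getLast h⟩

theorem exists_head {l : List D} (h : l ≠ []) : ∃ u, l.head? = some u :=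
  ⟨_, List.head?_eq_some_head h⟩

/-- the facts about an even run -/
structure EvF (X : D → ℤ) (p q : ℤ) (R J : List D) : Prop where
  lt : p < q
  alt : Alt X p q R
  r1 : ∃ r, R.head? = some r ∧ X r = p
  r2 : ∃ r, R.getLast? = some r ∧ X r = q
  u0 : ∃ u, J.getLast? = some u ∧ q < X u
  v0 : ∃ v, J.head? = some v ∧ X v < p

theorem last_append {A B : List D} {u : D} (h : B.getLast? = some u) :
    (A ++ B).getLast? = some u := by rw [List.getLast?_append, h]; rfl

theorem head_append {A B : List D} {u : D} (h : A.head? = some u) :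
    (A ++ B).head? = some u := by rw [List.head?_append, h]; rfl

theorem last_append' {A B : List D} {u : D} (h : (A ++ B).getLast? = some u) (hB : B ≠ []) :
    B.getLast? = some u := by
  obtain ⟨b, hb⟩ := exists_last hB
  rw [last_append hb] at h
  rw [← h, hb]

theorem head_append' {A B : List D} {u : D} (h : (A ++ B).head? = some u) (hA : A ≠ []) :
    A.head? = some u := by
  obtain ⟨b, hb⟩ := exists_head hA
  rw [head_append hb] at h
  rw [← h, hb]

theorem sum_app {w : D → ℝ} (A B : List D) : ((A ++ B).map w).sum = (A.map w).sum + (B.map w).sum := by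
  rw [List.map_append, List.sum_append]

theorem even_fwd {X : D → ℤ} {p q : ℤ} {R J : List D} (F : EvF X p q R J) {w : D → ℝ}
    (h : LStrips X w (R ++ J)) : (R.map w).sum = 0 ∧ LStrips X w J := by
  have hlt := F.lt
  have hR := Alt_mem R p q F.alt
  obtain ⟨r1, hr1, hr1p⟩ := F.r1
  obtain ⟨r2, hr2, hr2q⟩ := F.r2
  obtain ⟨u0, hu0, hu0q⟩ := F.u0
  obtain ⟨v0, hv0, hv0p⟩ := F.v0
  have hRne : R ≠ [] := by rintro rfl; exact absurd hr1 (by simp)
  have hRs : (R.map w).sum = 0 := by
    have h1 := strips_T2 (X := X) (w := w) (A := []) (K := J) (B := R) (u := u0) (v := v0) (l := J ++ R) ?_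
      (by simpa using hRne) (by simp) hu0 hv0
    · rw [List.append_nil] at h1
      refine h1.2.2.1 (fun a ha => ?_) (fun a ha => ?_)
      · rcases hR a ha with h2 | h2 <;> omega
      · rcases hR a ha with h2 | h2 <;> omega
    · intro I K hI hK hIK
      exact h I K hI hK (List.isRotated_append.trans hIK)
  refine ⟨hRs, strips_of ?_ ?_⟩
  · intro A I B u v hI hl hu hv
    exact strips_T1 h (A := R ++ A) (I := I) (B := B) hI (by rw [hl]; simp) (last_append hu) hv
  · intro A K B u v hI hl hu hv
    have hKne : K ≠ [] := by rintro rfl; exact absurd hv (by simp)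
    rcases List.eq_nil_or_concat A with hA | ⟨A', a', hA⟩
    · -- the interval is the end of J
      subst hA
      rw [List.append_nil] at hI ⊢
      rw [List.nil_append] at hl
      have hvv : v = v0 := by
        rw [hl, head_append hv] at hv0
        exact Option.some.inj hv0
      have huB : B.getLast? = some u0 := last_append' (by rw [← hl]; exact hu0) hI
      have hu0B := last_mem huB
      rw [hvv]
      by_cases hc : ∀ a ∈ B, p < X a
      · have h1 := strips_T2 h (A := []) (K := R ++ K) (B := B) (u := u) (v := r1)
          (by simpa using hI) (by rw [hl]; simp) (last_append hu) (head_append hr1)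
        rw [List.append_nil] at h1
        refine AO_tr h1 rfl (fun g => g) (fun g => g) (fun g => ?_) (fun g => ?_)
        · have := g u0 hu0B; omega
        · rw [hr1p]; exact hc
      · push Not at hc
        obtain ⟨a0, ha0, ha0p⟩ := hc
        have h1 := strips_T2 h (A := R) (K := K) (B := B) (u := u) (v := v0)
          (by simp [hRne]) (by rw [hl]) hu (by rw [← hvv]; exact hv)
        refine AO_tr h1 (by rw [sum_app, hRs, add_zero]) (fun g a ha => ?_) (fun g a ha => ?_)
          (fun g => ?_) (fun g a ha => ?_)
        · rcases List.mem_append.1 ha with h2 | h2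
          · exact g a h2
          · have := g u0 hu0B
            rcases hR a h2 with h3 | h3 <;> omega
        · rcases List.mem_append.1 ha with h2 | h2
          · exact g a h2
          · have := g a0 ha0
            rcases hR a h2 with h3 | h3 <;> omega
        · have := g u0 hu0B; omega
        · rcases List.mem_append.1 ha with h2 | h2
          · exact g a h2
          · rcases hR a h2 with h3 | h3 <;> omega
    · have hAne : A ≠ [] := by rw [hA]; simp
      have hvA : A.head? = some v0 := head_append' (by rw [← hl]; exact hv0) hAne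
      have hv0A := head_mem hvA
      cases B with
      | nil =>
        -- the interval is the beginning of J
        rw [List.append_nil] at hl
        rw [List.nil_append] at hI ⊢
        have huu : u = u0 := by
          rw [hl, last_append hu] at hu0
          exact Option.some.inj hu0
        rw [huu]
        by_cases hc : ∀ a ∈ A, X a < q
        · have h1 := strips_T1 h (A := R) (I := A) (B := K) (u := r2) (v := v) hI
            (by rw [hl]) hr2 hv
          refine AO_tr h1 rfl (fun g => ?_) (fun g => ?_) (fun g => g) (fun g => g)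
          · rw [hr2q]; exact hc
          · have := g v0 hv0A; omega
        · push Not at hc
          obtain ⟨a0, ha0, ha0q⟩ := hc
          have h1 := strips_T2 h (A := R ++ A) (K := K) (B := []) (u := u0) (v := v)
            (by simp [hRne]) (by rw [hl]; simp) (by rw [← huu]; exact hu) hv
          rw [List.nil_append] at h1
          refine AO_tr h1 (by rw [sum_app, hRs, zero_add]) (fun g a ha => ?_) (fun g => ?_)
            (fun g a ha => ?_) (fun g a ha => ?_)
          · rcases List.mem_append.1 ha with h2 | h2
            · rcases hR a h2 with h3 | h3 <;> omega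
            · exact g a h2
          · have := g v0 hv0A; omega
          · rcases List.mem_append.1 ha with h2 | h2
            · have := g a0 ha0
              rcases hR a h2 with h3 | h3 <;> omega
            · exact g a h2
          · rcases List.mem_append.1 ha with h2 | h2
            · have := g v0 hv0A
              rcases hR a h2 with h3 | h3 <;> omega
            · exact g a h2
      | cons b B =>
        have huB : (b :: B).getLast? = some u0 :=
          last_append' (A := A ++ K) (by rw [List.append_assoc, ← hl]; exact hu0) (by simp)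
        have hu0B := last_mem huB
        have h1 := strips_T2 h (A := R ++ A) (K := K) (B := b :: B) (u := u) (v := v)
          (by simp) (by rw [hl]; simp) hu hv
        have hsub : ∀ a ∈ (b :: B) ++ (R ++ A), a ∈ (b :: B) ++ A ∨ a ∈ R := by
          intro a ha
          simp only [List.mem_append] at ha ⊢
          tauto
        have hu0' : u0 ∈ (b :: B) ++ A := List.mem_append_left _ hu0B
        have hv0' : v0 ∈ (b :: B) ++ A := List.mem_append_right _ hv0A
        refine AO_tr h1 (by rw [sum_app, sum_app, sum_app, hRs, zero_add])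
          (fun g a ha => ?_) (fun g a ha => ?_) (fun g a ha => ?_) (fun g a ha => ?_)
        · rcases hsub a ha with h2 | h2
          · exact g a h2
          · have := g u0 hu0'
            rcases hR a h2 with h3 | h3 <;> omega
        · rcases hsub a ha with h2 | h2
          · exact g a h2
          · have := g v0 hv0'
            rcases hR a h2 with h3 | h3 <;> omega
        · rcases hsub a ha with h2 | h2
          · exact g a h2
          · have := g u0 hu0'
            rcases hR a h2 with h3 | h3 <;> omega
        · rcases hsub a ha with h2 | h2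
          · exact g a h2
          · have := g v0 hv0'
            rcases hR a h2 with h3 | h3 <;> omega

theorem even_bwd {X : D → ℤ} {p q : ℤ} {R J : List D} (F : EvF X p q R J) {w : D → ℝ}
    (hz : LZig X (R ++ J)) (hw : ∀ a ∈ R ++ J, |w a| ≤ 1)
    (hRs : (R.map w).sum = 0) (h : LStrips X w J) : LStrips X w (R ++ J) := by
  have hlt := F.lt
  have hR := Alt_mem R p q F.alt
  obtain ⟨r1, hr1, hr1p⟩ := F.r1
  obtain ⟨r2, hr2, hr2q⟩ := F.r2
  obtain ⟨u0, hu0, hu0q⟩ := F.u0
  obtain ⟨v0, hv0, hv0p⟩ := F.v0
  have hRne : R ≠ [] := by rintro rfl; exact absurd hr1 (by simp)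
  have hJne : J ≠ [] := by rintro rfl; exact absurd hv0 (by simp)
  have hu0J := last_mem hu0
  have hv0J := head_mem hv0
  refine strips_of' hz hw ?_ ?_
  · intro A I B u v h2 hl hu hv
    have hIne : I ≠ [] := by rintro rfl; simp at h2
    have key : R = A → J = I ++ B → AO X w (X u) I (X v) := by
      intro h3 h4
      subst h3
      have huu : X u = q := by
        rw [hr2] at hu
        rw [← Option.some.inj hu]; exact hr2q
      have hBne : B ≠ [] := by rintro rfl; exact absurd hv (by simp)
      have hvI : v0 ∈ I := head_mem (head_append' (by rw [← h4]; exact hv0) hIne)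
      have huB : B.getLast? = some u0 := last_append' (by rw [← h4]; exact hu0) hBne
      have h5 := strips_T2 h (A := I) (K := B) (B := []) (u := u0) (v := v) (by simpa using hIne)
        (by rw [h4]; simp) huB hv
      rw [List.nil_append] at h5
      refine AO_tr h5 rfl (fun g a ha => ?_) (fun g => ?_) (fun g => g) (fun g => g)
      · have := g a ha; omega
      · have := g v0 hvI; omega
    rcases List.append_eq_append_iff.1 hl with ⟨A2, h3, h4⟩ | ⟨C, h3, h4⟩
    · -- A = R ++ A2, J = A2 ++ (I ++ B)
      rcases List.eq_nil_or_concat A2 with hA2 | ⟨A2', a2, hA2⟩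
      · subst hA2
        rw [List.append_nil] at h3
        rw [List.nil_append] at h4
        exact key h3.symm h4
      · have hA2ne : A2 ≠ [] := by rw [hA2]; simp
        exact strips_T1 h hIne h4 (last_append' (by rw [← h3]; exact hu) hA2ne) hv
    · -- R = A ++ C, I ++ B = C ++ J
      have huA := last_mem hu
      have huR : X u = p ∨ X u = q := hR u (by rw [h3]; exact List.mem_append_left _ huA)
      rcases List.append_eq_append_iff.1 h4 with ⟨C2, h5, h6⟩ | ⟨I2, h5, h6⟩
      · -- C = I ++ C2
        have h7 := F.alt
        rw [h3, h5] at h7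
        obtain ⟨⟨a, ha, hap⟩, ⟨b, hb, hbq⟩⟩ := Alt_mid h7 h2
        exact AO_left ⟨a, ha, by omega⟩ ⟨b, hb, by omega⟩
      · -- I = C ++ I2, J = I2 ++ B
        cases C with
        | nil =>
          rw [List.append_nil] at h3
          rw [List.nil_append] at h5
          exact key h3 (by rw [h6, h5])
        | cons c C =>
          have hr2C : r2 ∈ c :: C :=
            last_mem (last_append' (by rw [← h3]; exact hr2) (List.cons_ne_nil c C))
          cases I2 with
          | nil =>
            rw [List.append_nil] at h5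
            have h7 := F.alt
            rw [h3, ← h5] at h7
            have h8 : Alt X p q (A ++ (I ++ [])) := by rw [List.append_nil]; exact h7
            obtain ⟨⟨a, ha, hap⟩, ⟨b, hb, hbq⟩⟩ := Alt_mid h8 h2
            exact AO_left ⟨a, ha, by omega⟩ ⟨b, hb, by omega⟩
          | cons i I2 =>
            have hv0I : v0 ∈ i :: I2 :=
              head_mem (head_append' (by rw [← h6]; exact hv0) (List.cons_ne_nil i I2))
            exact AO_left ⟨v0, by rw [h5]; exact List.mem_append_right _ hv0I, by omega⟩
              ⟨r2, by rw [h5]; exact List.mem_append_left _ hr2C, by omega⟩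
  · intro A K B u v h2 hl hu hv
    have hKne : K ≠ [] := by rintro rfl; exact absurd hv (by simp)
    have hIne : B ++ A ≠ [] := by intro h0; rw [h0] at h2; simp at h2
    rcases List.append_eq_append_iff.1 hl with ⟨A2, h3, h4⟩ | ⟨C, h3, h4⟩
    · -- A = R ++ A2, J = A2 ++ (K ++ B)
      rw [h3]
      by_cases h5 : B ++ A2 = []
      · rw [List.append_eq_nil_iff] at h5
        rw [h5.1, h5.2]
        exact AO_zero (by simpa using hRs)
      · refine AO_sup (strips_T2 h h5 h4 hu hv) ?_ ?_
        · rw [sum_app, sum_app, sum_app, hRs, zero_add]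
        · intro a ha
          simp only [List.mem_append] at ha ⊢
          tauto
    · -- R = A ++ C, K ++ B = C ++ J
      rcases List.append_eq_append_iff.1 h4 with ⟨C2, h5, h6⟩ | ⟨K2, h5, h6⟩
      · -- C = K ++ C2, B = C2 ++ J
        have huR : X u = p ∨ X u = q := hR u (by
          rw [h3, h5]
          exact List.mem_append_right _ (List.mem_append_left _ (last_mem hu)))
        rw [h6]
        exact AO_left ⟨v0, by simp [hv0J], by omega⟩ ⟨u0, by simp [hu0J], by omega⟩
      · -- K = C ++ K2, J = K2 ++ B
        cases C with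
        | nil =>
          rw [List.append_nil] at h3
          rw [List.nil_append] at h5
          subst h3 h5
          by_cases hB : B = []
          · rw [hB, List.nil_append]
            exact AO_zero hRs
          · refine AO_sup (strips_T2 h (A := []) (K := K) (B := B) (by simpa using hB)
              (by rw [h6]; simp) hu hv) ?_ ?_
            · rw [sum_app, sum_app, hRs]; simp
            · intro a ha
              simp only [List.append_nil] at ha
              exact List.mem_append_left _ ha
        | cons c C =>
          have hvv : (c :: C).head? = some v := head_append' (by rw [← h5]; exact hv)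
            (List.cons_ne_nil c C)
          have hvC : v ∈ c :: C := head_mem hvv
          have hvR : X v = p ∨ X v = q := hR v (by rw [h3]; exact List.mem_append_right _ hvC)
          by_cases hA : A = []
          · subst hA
            rw [List.append_nil] at hIne h2 ⊢
            rw [List.nil_append] at h3
            have hvp : X v = p := by
              rw [h3, hvv] at hr1
              rw [Option.some.inj hr1]; exact hr1p
            have hu0B : u0 ∈ B := last_mem (last_append' (by rw [← h6]; exact hu0) hIne)
            cases K2 with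
            | nil =>
              -- K = R, B = J
              rw [List.nil_append] at h6
              rw [List.append_nil] at h5
              have huR : X u = p ∨ X u = q := hR u (by rw [h3, ← h5]; exact last_mem hu)
              rw [← h6]
              exact AO_left ⟨v0, hv0J, by omega⟩ ⟨u0, hu0J, by omega⟩
            | cons k K2 =>
              have h7 := strips_T2 h (A := []) (K := k :: K2) (B := B) (u := u) (v := v0)
                (by simpa using hIne) (by rw [h6]; simp)
                (last_append' (by rw [← h5]; exact hu) (List.cons_ne_nil k K2))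
                (head_append' (by rw [← h6]; exact hv0) (List.cons_ne_nil k K2))
              rw [List.append_nil] at h7
              refine AO_tr h7 rfl (fun g => g) (fun g => g) (fun g => ?_) (fun g a ha => ?_)
              · have := g u0 hu0B; omega
              · have := g a ha; omega
          · have hr1A : r1 ∈ A := head_mem (head_append' (by rw [← h3]; exact hr1) hA)
            by_cases hB : B = []
            · subst hB
              rw [List.nil_append] at h2 ⊢
              have h7 := F.alt
              rw [h3] at h7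
              have h8 : Alt X p q ([] ++ (A ++ (c :: C))) := h7
              obtain ⟨⟨a, ha, hap⟩, ⟨b, hb, hbq⟩⟩ := Alt_mid h8 h2
              exact AO_right ⟨a, ha, by omega⟩ ⟨b, hb, by omega⟩
            · have hu0B : u0 ∈ B := last_mem (last_append' (by rw [← h6]; exact hu0) hB)
              exact AO_right ⟨r1, List.mem_append_right _ hr1A, by omega⟩
                ⟨u0, List.mem_append_left _ hu0B, by omega⟩

/-! ### Odd runs -/

/-- the facts about an odd run -/
structure OdF (X : D → ℤ) (p q : ℤ) (a : D) (R J : List D) : Prop where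
  lt : p < q
  alt : Alt X p q R
  r1 : R.head? = some a
  ap : X a = p
  r2 : ∃ r, R.getLast? = some r ∧ X r = p
  u0 : ∃ u, J.getLast? = some u ∧ q < X u
  v0 : ∃ v, J.head? = some v ∧ q < X v

theorem sum_cgr {w w' : D → ℝ} {J : List D} (h : ∀ b ∈ J, w' b = w b) {I : List D}
    (hI : ∀ b ∈ I, b ∈ J) : (I.map w').sum = (I.map w).sum := by
  congr 1
  exact List.map_congr_left fun b hb => h b (hI b hb)

theorem sum_cons {w : D → ℝ} (a : D) (A : List D) : ((a :: A).map w).sum = w a + (A.map w).sum := by
  simp

theorem odd_fwd {X : D → ℤ} {p q : ℤ} {a : D} {R J : List D} (F : OdF X p q a R J) {w w' : D → ℝ}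
    (hwa : w' a = (R.map w).sum) (hwJ : ∀ b ∈ J, w' b = w b)
    (h : LStrips X w (R ++ J)) : |(R.map w).sum| ≤ 1 ∧ LStrips X w' (a :: J) := by
  have hlt := F.lt
  have hR := Alt_mem R p q F.alt
  have hr1 := F.r1
  have hap := F.ap
  obtain ⟨r2, hr2, hr2p⟩ := F.r2
  obtain ⟨u0, hu0, hu0q⟩ := F.u0
  obtain ⟨v0, hv0, hv0q⟩ := F.v0
  have hRne : R ≠ [] := by rintro rfl; exact absurd hr1 (by simp)
  have hRs : |(R.map w).sum| ≤ 1 := by
    have h1 := strips_T2 (X := X) (w := w) (A := []) (K := J) (B := R) (u := u0) (v := v0)
      (l := J ++ R) ?_ (by simpa using hRne) (by simp) hu0 hv0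
    · rw [List.append_nil] at h1
      refine h1.1 (fun b hb => ?_) (fun b hb => ?_)
      · rcases hR b hb with h2 | h2 <;> omega
      · rcases hR b hb with h2 | h2 <;> omega
    · intro I K hI hK hIK
      exact h I K hI hK (List.isRotated_append.trans hIK)
  refine ⟨hRs, strips_of ?_ ?_⟩
  · intro A I B u v hI hl hu hv
    cases A with
    | nil => exact absurd hu (by simp)
    | cons a' A2 =>
      rw [List.cons_append, List.cons.injEq] at hl
      obtain ⟨rfl, hl⟩ := hl
      have hIJ : ∀ b ∈ I, b ∈ J := by
        intro b hb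
        rw [hl]
        exact List.mem_append_right _ (List.mem_append_left _ hb)
      cases A2 with
      | nil =>
        have hua : a = u := by simpa using hu
        rw [List.nil_append] at hl
        have h1 := strips_T1 h (A := R) (I := I) (B := B) hI (by rw [hl]) hr2 hv
        rw [← hua, hap]
        rw [hr2p] at h1
        exact AO_sup h1 (sum_cgr hwJ hIJ) (fun b hb => hb)
      | cons b A2 =>
        have hub : (b :: A2).getLast? = some u := by simpa using hu
        have h1 := strips_T1 h (A := R ++ b :: A2) (I := I) (B := B) hI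
          (by rw [hl, List.append_assoc]) (last_append hub) hv
        exact AO_sup h1 (sum_cgr hwJ hIJ) (fun b hb => hb)
  · intro A K B u v hI hl hu hv
    have hKne : K ≠ [] := by rintro rfl; exact absurd hv (by simp)
    cases A with
    | nil =>
      rw [List.append_nil] at hI ⊢
      rw [List.nil_append] at hl
      cases K with
      | nil => exact absurd rfl hKne
      | cons a' K2 =>
        rw [List.cons_append, List.cons.injEq] at hl
        obtain ⟨rfl, hl⟩ := hl
        have hva : a = v := by simpa using hv
        have hBJ : ∀ b ∈ B, b ∈ J := by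
          intro b hb
          rw [hl]
          exact List.mem_append_right _ hb
        cases K2 with
        | nil =>
          have hua : a = u := by simpa using hu
          rw [List.nil_append] at hl
          have h1 := strips_T2 h (A := []) (K := R) (B := B) (u := r2) (v := a)
            (by simpa using hI) (by rw [hl]; rfl) hr2 hr1
          rw [List.append_nil, hr2p, hap] at h1
          rw [← hua, ← hva, hap]
          exact AO_sup h1 (sum_cgr hwJ hBJ) (fun b hb => hb)
        | cons b K2 =>
          have hub : (b :: K2).getLast? = some u := by simpa using hu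
          have h1 := strips_T2 h (A := []) (K := R ++ b :: K2) (B := B) (u := u) (v := a)
            (by simpa using hI) (by rw [hl, List.nil_append, List.append_assoc]) (last_append hub)
            (head_append hr1)
          rw [List.append_nil] at h1
          rw [← hva]
          exact AO_sup h1 (sum_cgr hwJ hBJ) (fun b hb => hb)
    | cons a' A2 =>
      rw [List.cons_append, List.cons.injEq] at hl
      obtain ⟨rfl, hl⟩ := hl
      have h1 := strips_T2 h (A := R ++ A2) (K := K) (B := B) (u := u) (v := v)
        (by simp [hRne]) (by rw [hl, List.append_assoc]) hu hv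
      have haI : a ∈ B ++ a :: A2 := by simp
      have hsub : ∀ b ∈ B ++ (R ++ A2), b ∈ B ++ a :: A2 ∨ b ∈ R := by
        intro b hb
        simp only [List.mem_append, List.mem_cons] at hb ⊢
        tauto
      have huq : (∀ b ∈ B ++ a :: A2, X b < X u) → q < X u := by
        intro g
        by_cases hB : B = []
        · rw [hB, List.append_nil] at hl
          rw [hl, last_append hu] at hu0
          rw [Option.some.inj hu0]; exact hu0q
        · have hu0B : u0 ∈ B := last_mem (last_append' (A := A2 ++ K)
            (by rw [List.append_assoc, ← hl]; exact hu0) hB)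
          have := g u0 (List.mem_append_left _ hu0B)
          omega
      have hvq : (∀ b ∈ B ++ a :: A2, X b < X v) → q < X v := by
        intro g
        cases A2 with
        | nil =>
          rw [List.nil_append] at hl
          rw [hl, head_append hv] at hv0
          rw [Option.some.inj hv0]; exact hv0q
        | cons b A2 =>
          have hv0A : v0 ∈ b :: A2 := head_mem (head_append' (by rw [← hl]; exact hv0)
            (List.cons_ne_nil b A2))
          have := g v0 (List.mem_append_right _ (List.mem_cons_of_mem _ hv0A))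
          omega
      refine AO_tr h1 ?_ (fun g b hb => ?_) (fun g b hb => ?_) (fun g b hb => ?_)
        (fun g b hb => ?_)
      · rw [sum_app, sum_app, sum_app, sum_cons, hwa, sum_cgr hwJ (I := B), sum_cgr hwJ (I := A2)]
        · intro b hb; rw [hl]; simp [hb]
        · intro b hb; rw [hl]; simp [hb]
      · rcases hsub b hb with h2 | h2
        · exact g b h2
        · have := huq g
          rcases hR b h2 with h3 | h3 <;> omega
      · rcases hsub b hb with h2 | h2
        · exact g b h2
        · have := g a haI
          rcases hR b h2 with h3 | h3 <;> omega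
      · rcases hsub b hb with h2 | h2
        · exact g b h2
        · have := hvq g
          rcases hR b h2 with h3 | h3 <;> omega
      · rcases hsub b hb with h2 | h2
        · exact g b h2
        · have := g a haI
          rcases hR b h2 with h3 | h3 <;> omega

theorem odd_bwd {X : D → ℤ} {p q : ℤ} {a : D} {R J : List D} (F : OdF X p q a R J) {w w' : D → ℝ}
    (hwa : w' a = (R.map w).sum) (hwJ : ∀ b ∈ J, w' b = w b)
    (hz : LZig X (R ++ J)) (hw : ∀ b ∈ R ++ J, |w b| ≤ 1)
    (hRs : |(R.map w).sum| ≤ 1) (h : LStrips X w' (a :: J)) : LStrips X w (R ++ J) := by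
  have hlt := F.lt
  have hR := Alt_mem R p q F.alt
  have hr1 := F.r1
  have hap := F.ap
  obtain ⟨r2, hr2, hr2p⟩ := F.r2
  obtain ⟨u0, hu0, hu0q⟩ := F.u0
  obtain ⟨v0, hv0, hv0q⟩ := F.v0
  have hRne : R ≠ [] := by rintro rfl; exact absurd hr1 (by simp)
  have hu0J := last_mem hu0
  have hv0J := head_mem hv0
  refine strips_of' hz hw ?_ ?_
  · intro A I B u v h2 hl hu hv
    have hIne : I ≠ [] := by rintro rfl; simp at h2
    have key : ∀ A2, A = R ++ A2 → J = A2 ++ (I ++ B) → AO X w (X u) I (X v) := by
      intro A2 h3 h4
      have hIJ : ∀ b ∈ I, b ∈ J := by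
        intro b hb
        rw [h4]
        exact List.mem_append_right _ (List.mem_append_left _ hb)
      cases A2 with
      | nil =>
        rw [List.append_nil] at h3
        rw [List.nil_append] at h4
        have h5 := strips_T1 h (A := [a]) (I := I) (B := B) (u := a) hIne (by rw [h4]; rfl) rfl hv
        have hur : r2 = u := by
          rw [h3, hr2] at hu
          exact Option.some.inj hu
        rw [← hur, hr2p]
        rw [hap] at h5
        exact AO_sup h5 (sum_cgr hwJ hIJ).symm (fun b hb => hb)
      | cons b A2 =>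
        have hub : (b :: A2).getLast? = some u := last_append' (by rw [← h3]; exact hu)
          (List.cons_ne_nil b A2)
        have h5 := strips_T1 h (A := a :: b :: A2) (I := I) (B := B) (u := u) hIne (by rw [h4]; rfl)
          (last_append (A := [a]) hub) hv
        exact AO_sup h5 (sum_cgr hwJ hIJ).symm (fun b hb => hb)
    rcases List.append_eq_append_iff.1 hl with ⟨A2, h3, h4⟩ | ⟨C, h3, h4⟩
    · exact key A2 h3 h4
    · have huA := last_mem hu
      have huR : X u = p ∨ X u = q := hR u (by rw [h3]; exact List.mem_append_left _ huA)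
      rcases List.append_eq_append_iff.1 h4 with ⟨C2, h5, h6⟩ | ⟨I2, h5, h6⟩
      · have h7 := F.alt
        rw [h3, h5] at h7
        obtain ⟨⟨a1, ha, hap⟩, ⟨b, hb, hbq⟩⟩ := Alt_mid h7 h2
        exact AO_left ⟨a1, ha, by omega⟩ ⟨b, hb, by omega⟩
      · cases C with
        | nil =>
          rw [List.append_nil] at h3
          rw [List.nil_append] at h5
          exact key [] (by rw [h3, List.append_nil]) (by rw [h6, h5]; rfl)
        | cons c C =>
          have hr2C : r2 ∈ c :: C :=
            last_mem (last_append' (by rw [← h3]; exact hr2) (List.cons_ne_nil c C))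
          cases I2 with
          | nil =>
            rw [List.append_nil] at h5
            have h7 := F.alt
            rw [h3, ← h5] at h7
            have h8 : Alt X p q (A ++ (I ++ [])) := by rw [List.append_nil]; exact h7
            obtain ⟨⟨a1, ha, hap⟩, ⟨b, hb, hbq⟩⟩ := Alt_mid h8 h2
            exact AO_left ⟨a1, ha, by omega⟩ ⟨b, hb, by omega⟩
          | cons i I2 =>
            have hv0I : v0 ∈ i :: I2 :=
              head_mem (head_append' (by rw [← h6]; exact hv0) (List.cons_ne_nil i I2))
            exact AO_left ⟨r2, by rw [h5]; exact List.mem_append_left _ hr2C, by omega⟩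
              ⟨v0, by rw [h5]; exact List.mem_append_right _ hv0I, by omega⟩
  · intro A K B u v h2 hl hu hv
    have hKne : K ≠ [] := by rintro rfl; exact absurd hv (by simp)
    have hIne : B ++ A ≠ [] := by intro h0; rw [h0] at h2; simp at h2
    have key : ∀ A2, A = R ++ A2 → J = A2 ++ (K ++ B) → AO X w (X u) (B ++ A) (X v) := by
      intro A2 h3 h4
      have h5 := strips_T2 h (A := a :: A2) (K := K) (B := B) (u := u) (v := v) (by simp)
        (by rw [h4]; rfl) hu hv
      rw [h3]
      refine AO_sup h5 ?_ ?_
      · rw [sum_app, sum_app, sum_app, sum_cons, hwa, sum_cgr hwJ (I := B), sum_cgr hwJ (I := A2)]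
        · intro b hb; rw [h4]; simp [hb]
        · intro b hb; rw [h4]; simp [hb]
      · intro b hb
        simp only [List.mem_append, List.mem_cons] at hb ⊢
        rcases hb with hb | rfl | hb
        · exact Or.inl hb
        · exact Or.inr (Or.inl (head_mem hr1))
        · exact Or.inr (Or.inr hb)
    have key2 : K = R → A = [] → B = J → AO X w (X u) (B ++ A) (X v) := by
      rintro rfl rfl rfl
      have h5 := strips_T2 h (A := []) (K := [a]) (B := B) (u := a) (v := a)
        (by simpa using hIne) rfl rfl rfl
      have h6 : r2 = u := by rw [hr2] at hu; exact Option.some.inj hu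
      have h7 : a = v := by rw [hr1] at hv; exact Option.some.inj hv
      rw [← h6, ← h7, hr2p]
      rw [hap] at h5 ⊢
      refine AO_sup h5 ?_ (fun b hb => hb)
      exact (sum_cgr hwJ (by intro b hb; simpa using hb)).symm
    rcases List.append_eq_append_iff.1 hl with ⟨A2, h3, h4⟩ | ⟨C, h3, h4⟩
    · exact key A2 h3 h4
    · rcases List.append_eq_append_iff.1 h4 with ⟨C2, h5, h6⟩ | ⟨K2, h5, h6⟩
      · -- C = K ++ C2, B = C2 ++ J
        have huR : X u = p ∨ X u = q := hR u (by
          rw [h3, h5]
          exact List.mem_append_right _ (List.mem_append_left _ (last_mem hu)))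
        have hu0I : u0 ∈ B ++ A := by rw [h6]; simp [hu0J]
        by_cases hA : A = []
        · by_cases hC2 : C2 = []
          · exact key2 (by rw [h3, h5, hA, hC2]; simp) hA (by rw [h6, hC2]; rfl)
          · have hr2C : r2 ∈ C2 := last_mem (last_append' (A := A ++ K)
              (by rw [List.append_assoc, ← h5, ← h3]; exact hr2) hC2)
            exact AO_left ⟨r2, by rw [h6]; simp [hr2C], by omega⟩ ⟨u0, hu0I, by omega⟩
        · have haA : a ∈ A := head_mem (head_append' (by rw [← h3]; exact hr1) hA)
          exact AO_left ⟨a, List.mem_append_right _ haA, by omega⟩ ⟨u0, hu0I, by omega⟩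
      · -- K = C ++ K2, J = K2 ++ B
        cases C with
        | nil =>
          rw [List.append_nil] at h3
          rw [List.nil_append] at h5
          exact key [] (by rw [h3, List.append_nil]) (by rw [h6, h5]; rfl)
        | cons c C =>
          have hvv : (c :: C).head? = some v := head_append' (by rw [← h5]; exact hv)
            (List.cons_ne_nil c C)
          have hvC : v ∈ c :: C := head_mem hvv
          have hvR : X v = p ∨ X v = q := hR v (by rw [h3]; exact List.mem_append_right _ hvC)
          by_cases hA : A = []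
          · have hRC : R = c :: C := by rw [h3, hA]; rfl
            cases K2 with
            | nil =>
              rw [List.append_nil] at h5
              rw [List.nil_append] at h6
              exact key2 (by rw [h5, hRC]) hA h6.symm
            | cons k K2 =>
              subst hA
              rw [List.append_nil] at hIne h2 ⊢
              have hva : a = v := by
                rw [← hRC, hr1] at hvv
                exact Option.some.inj hvv
              have huk : (k :: K2).getLast? = some u :=
                last_append' (by rw [← h5]; exact hu) (List.cons_ne_nil k K2)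
              have h7 := strips_T2 h (A := []) (K := a :: k :: K2) (B := B) (u := u) (v := a)
                (by simpa using hIne) (by rw [h6]; rfl) (last_append (A := [a]) huk) rfl
              rw [List.append_nil] at h7
              rw [← hva]
              refine AO_sup h7 (sum_cgr hwJ ?_).symm (fun b hb => hb)
              intro b hb
              rw [h6]
              exact List.mem_append_right _ hb
          · have haA : a ∈ A := head_mem (head_append' (by rw [← h3]; exact hr1) hA)
            by_cases hB : B = []
            · subst hB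
              rw [List.nil_append] at h2 ⊢
              have h7 := F.alt
              rw [h3] at h7
              have h8 : Alt X p q ([] ++ (A ++ (c :: C))) := h7
              obtain ⟨⟨a1, ha, hap⟩, ⟨b, hb, hbq⟩⟩ := Alt_mid h8 h2
              exact AO_right ⟨a1, ha, by omega⟩ ⟨b, hb, by omega⟩
            · have hu0B : u0 ∈ B := last_mem (last_append' (by rw [← h6]; exact hu0) hB)
              exact AO_right ⟨a, List.mem_append_right _ haA, by omega⟩
                ⟨u0, List.mem_append_left _ hu0B, by omega⟩

/-! ### The facts follow from `Run` -/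

/-- the negative of `X` -/
def ng (X : D → ℤ) : D → ℤ := fun d => - X d

theorem ArcOK_ng {X : D → ℤ} {w : D → ℝ} {u v : D} {I : List D} (h : ArcOK X w u I v) :
    ArcOK (ng X) w u I v := by
  obtain ⟨h1, h2, h3, h4⟩ := h
  have e : ∀ {x y : D}, ng X x < ng X y ↔ X y < X x := by
    intro x y; unfold ng; omega
  unfold ArcOK
  simp only [e]
  exact ⟨h2, h1, h4, h3⟩

theorem ng_ng (X : D → ℤ) : ng (ng X) = X := by
  funext d; unfold ng; omega

theorem LStrips_ng {X : D → ℤ} {w : D → ℝ} {l : List D} (h : LStrips X w l) :
    LStrips (ng X) w l := fun I J hI hJ hIJ => ArcOK_ng (h I J hI hJ hIJ)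

theorem LStrips_ng_iff {X : D → ℤ} {w : D → ℝ} {l : List D} :
    LStrips (ng X) w l ↔ LStrips X w l := by
  constructor
  · intro h
    have := LStrips_ng h
    rwa [ng_ng] at this
  · exact LStrips_ng

theorem LZig_ng {X : D → ℤ} {l : List D} (h : LZig X l) : LZig (ng X) l := by
  intro a b c h1 h2
  have := h a b c h1 h2
  unfold ng
  omega

theorem LZig_ng' {X : D → ℤ} {l : List D} (h : LZig (ng X) l) : LZig X l := by
  have := LZig_ng h
  rwa [ng_ng] at this

theorem Run_ng {X : D → ℤ} {m : ℤ} {R J : List D} (h : Run X m R J) : Run (ng X) m R J := by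
  have e : ∀ x y : D, |ng X x - ng X y| = |X x - X y| := by
    intro x y
    unfold ng
    rw [← abs_neg]
    congr 1
    ring
  refine ⟨h.two, h.ne, h.even, h.nodup, LZig_ng h.zig, h.pos, ?_, ?_, ?_⟩
  · intro a b K K' hR; rw [e]; exact h.chain a b K K' hR
  · intro a b K K' hJ hR; rw [e]; exact h.before a b K K' hJ hR
  · intro a b K K' hR hJ; rw [e]; exact h.after a b K K' hR hJ

/-- the last two elements -/
theorem last_two {R : List D} (h : 2 ≤ R.length) : ∃ A x z, R = A ++ [x, z] := by
  rcases List.eq_nil_or_concat R with rfl | ⟨R', z, rfl⟩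
  · simp at h
  · rcases List.eq_nil_or_concat R' with rfl | ⟨A, x, rfl⟩
    · simp at h
    · exact ⟨A, x, z, by simp⟩

/-- common facts -/
theorem run_facts {X : D → ℤ} {m : ℤ} {R J : List D} (hR : Run X m R J) {a b : D} {R' : List D}
    (hRe : R = a :: b :: R') (hab : X a < X b) :
    Alt X (X a) (X b) R ∧ (∃ u, J.getLast? = some u ∧ X b < X u) ∧
    (∃ A x z v, R = A ++ [x, z] ∧ J.head? = some v ∧ Adj (R ++ J) z v ∧
      ((Even R.length ∧ X x = X a ∧ X z = X b ∧ X v < X a) ∨
      (¬ Even R.length ∧ X x = X b ∧ X z = X a ∧ X b < X v))) := by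
  have hm : X b - X a = m := by
    have := hR.chain a b [] R' hRe
    rw [abs_of_neg (by omega)] at this
    omega
  have halt : Alt X (X a) (X b) R := by
    rw [hRe]
    apply Alt_of (m := m)
    · intro x y K K' h
      exact hR.chain x y K K' (by rw [hRe, h])
    · intro x y z K K' h
      refine hR.zig x y z ?_ ?_
      · exact Adj_of (K := K) (K' := z :: K' ++ J) (by rw [hRe, h]; simp)
      · exact Adj_of (K := K ++ [x]) (K' := K' ++ J) (by rw [hRe, h]; simp)
    · rfl
    · rfl
  refine ⟨halt, ?_, ?_⟩
  · obtain ⟨u, hu⟩ := exists_last hR.ne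
    have hJu : ∃ K, J = K ++ [u] := by
      have hu' := hu
      rw [List.getLast?_eq_some_getLast hR.ne] at hu'
      refine ⟨J.dropLast, ?_⟩
      rw [← Option.some.inj hu']
      exact (List.dropLast_append_getLast hR.ne).symm
    obtain ⟨K, hK⟩ := hJu
    refine ⟨u, hu, ?_⟩
    have h1 : Adj (R ++ J) u a := Adj_junction (K := b :: R' ++ K) (by rw [hRe, hK]; simp)
    have h2 : Adj (R ++ J) a b := Adj_of (K := []) (K' := R' ++ J) (by rw [hRe]; simp)
    have h3 := hR.zig u a b h1 h2
    have h4 := hR.before u a K (b :: R') hK hRe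
    rcases h3 with ⟨h5, h6⟩ | ⟨h5, h6⟩
    · omega
    · rw [abs_of_pos (by omega)] at h4
      omega
  · obtain ⟨A, x, z, hA⟩ := last_two hR.two
    obtain ⟨v, hv⟩ := exists_head hR.ne
    have hJv : ∃ K, J = v :: K := by
      cases hJ : J with
      | nil => exact absurd hJ hR.ne
      | cons c K =>
        rw [hJ] at hv
        have : c = v := by simpa using hv
        exact ⟨K, by rw [this]⟩
    obtain ⟨K, hK⟩ := hJv
    have h1 : Adj (R ++ J) x z := Adj_of (K := A) (K' := J) (by rw [hA]; simp)
    have h2 : Adj (R ++ J) z v := Adj_of (K := A ++ [x]) (K' := K) (by rw [hA, hK]; simp)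
    have h3 := hR.zig x z v h1 h2
    have h4 := hR.after z v (A ++ [x]) K (by rw [hA]; simp) hK
    refine ⟨A, x, z, v, hA, hv, h2, ?_⟩
    have h5 := halt
    rw [hA] at h5
    have hev : Even R.length ↔ Even A.length := by
      rw [hA, List.length_append]
      simp [Nat.even_add]
    rw [hev]
    rcases (Alt_append _ _ _ _ h5).2 with ⟨⟨h6, h7, -⟩, h8⟩ | ⟨⟨h6, h7, -⟩, h8⟩
    · refine Or.inl ⟨h8, h6, h7, ?_⟩
      rcases h3 with ⟨h9, h10⟩ | ⟨h9, h10⟩
      · rw [abs_of_pos (by omega)] at h4
        omega
      · omega
    · refine Or.inr ⟨h8, h6, h7, ?_⟩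
      rcases h3 with ⟨h9, h10⟩ | ⟨h9, h10⟩
      · omega
      · rw [abs_of_neg (by omega)] at h4
        omega

theorem Adj_left {K J : List D} {x y : D} (R : List D) (h : ∃ K', J = K ++ x :: y :: K') :
    Adj (R ++ J) x y := by
  obtain ⟨K', h⟩ := h
  exact Adj_of (K := R ++ K) (K' := K') (by rw [h]; simp)

theorem last_eq {J K : List D} {x u : D} (h : J = K ++ [x]) (hu : J.getLast? = some u) : u = x := by
  rw [h, List.getLast?_append] at hu
  have : x = u := by simpa using hu
  exact this.symm

theorem run_even_pos {X : D → ℤ} {m : ℤ} {R J : List D} (hR : Run X m R J) (he : Even R.length)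
    {a b : D} {R' : List D} (hRe : R = a :: b :: R') (hab : X a < X b) :
    LZig X J ∧ ∀ w : D → ℝ, (∀ a ∈ R ++ J, |w a| ≤ 1) →
      (LStrips X w (R ++ J) ↔ (R.map w).sum = 0 ∧ LStrips X w J) := by
  obtain ⟨halt, ⟨u, hu, hub⟩, A, x, z, v, hA, hv, hzv, hcase⟩ := run_facts hR hRe hab
  rcases hcase with ⟨-, hx, hz, hva⟩ | ⟨h, -⟩
  swap
  · exact absurd he h
  have hzl : R.getLast? = some z := by rw [hA, List.getLast?_append]; rfl
  have F : EvF X (X a) (X b) R J := ⟨hab, halt, ⟨a, by rw [hRe]; rfl, rfl⟩, ⟨z, hzl, hz⟩,
    ⟨u, hu, hub⟩, ⟨v, hv, hva⟩⟩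
  refine ⟨?_, fun w hw => ⟨fun h => even_fwd F h, fun h => even_bwd F hR.zig hw h.1 h.2⟩⟩
  intro x1 y1 z1 h1 h2
  rcases Adj_cases h1 with ⟨K, K', hK⟩ | ⟨K, hK⟩
  · have g1 : Adj (R ++ J) x1 y1 := Adj_left R ⟨K', hK⟩
    rcases Adj_cases h2 with ⟨L, L', hL⟩ | ⟨L, hL⟩
    · exact hR.zig x1 y1 z1 g1 (Adj_left R ⟨L', hL⟩)
    · have hz1 : v = z1 := by rw [hL] at hv; simpa using hv.symm
      have hy1 : u = y1 := last_eq (K := z1 :: L) (by rw [hL]; rfl) hu
      subst hz1 hy1
      have g2 : Adj (R ++ J) u a := Adj_junction (K := b :: R' ++ (v :: L))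
        (by rw [hRe, hL]; simp)
      rcases hR.zig x1 u a g1 g2 with ⟨g3, g4⟩ | ⟨g3, g4⟩
      · left; omega
      · omega
  · have hy1 : v = y1 := by rw [hK] at hv; simpa using hv.symm
    have hx1 : u = x1 := last_eq (K := y1 :: K) (by rw [hK]; rfl) hu
    subst hy1 hx1
    rcases Adj_cases h2 with ⟨L, L', hL⟩ | ⟨L, hL⟩
    · have g1 : Adj (R ++ J) v z1 := Adj_left R ⟨L', hL⟩
      rcases hR.zig z v z1 hzv g1 with ⟨g3, g4⟩ | ⟨g3, g4⟩
      · omega
      · right; omega
    · have hy1 : u = v := last_eq (K := z1 :: L) (by rw [hL]; rfl) hu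
      rw [hy1] at hub
      omega

theorem run_odd_pos [DecidableEq D] {X : D → ℤ} {m : ℤ} {a : D} {R J : List D}
    (hR : Run X m (a :: R) J) (he : Even R.length) {b : D} {R' : List D} (hRe : R = b :: R')
    (hab : X a < X b) :
    LZig X (a :: J) ∧ ∀ w : D → ℝ, (∀ b ∈ a :: R ++ J, |w b| ≤ 1) →
      (LStrips X w (a :: R ++ J) ↔ |((a :: R).map w).sum| ≤ 1 ∧
        LStrips X (Function.update w a ((a :: R).map w).sum) (a :: J)) := by
  have hRe' : a :: R = a :: b :: R' := by rw [hRe]
  obtain ⟨halt, ⟨u, hu, hub⟩, A, x, z, v, hA, hv, hzv, hcase⟩ := run_facts hR hRe' hab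
  rcases hcase with ⟨h, -⟩ | ⟨-, hx, hz, hva⟩
  · rw [List.length_cons, Nat.even_add_one] at h
    exact absurd he h
  have hzl : (a :: R).getLast? = some z := by rw [hA, List.getLast?_append]; rfl
  have F : OdF X (X a) (X b) a (a :: R) J := ⟨hab, halt, rfl, rfl, ⟨z, hzl, hz⟩,
    ⟨u, hu, hub⟩, ⟨v, hv, hva⟩⟩
  have haJ : a ∉ J := by
    have h1 := hR.nodup
    rw [List.cons_append, List.nodup_cons] at h1
    intro h2
    exact h1.1 (List.mem_append_right _ h2)
  constructor
  · -- the zigzag condition
    have hcl : ∀ x1 y1, Adj (a :: J) x1 y1 →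
        (x1 = a ∧ J.head? = some y1) ∨ (∃ K K', J = K ++ x1 :: y1 :: K') ∨
        (y1 = a ∧ J.getLast? = some x1) := by
      intro x1 y1 h1
      rcases Adj_cases h1 with ⟨K, K', hK⟩ | ⟨K, hK⟩
      · cases K with
        | nil =>
          rw [List.nil_append, List.cons.injEq] at hK
          left
          exact ⟨hK.1.symm, by rw [hK.2]; rfl⟩
        | cons c K =>
          rw [List.cons_append, List.cons.injEq] at hK
          exact Or.inr (Or.inl ⟨K, K', hK.2⟩)
      · rw [List.cons.injEq] at hK
        right; right
        refine ⟨hK.1.symm, ?_⟩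
        rw [hK.2, List.getLast?_append]; rfl
    intro x1 y1 z1 h1 h2
    have hmem : ∀ {K K' : List D} {x y : D}, J = K ++ x :: y :: K' → x ∈ J ∧ y ∈ J := by
      intro K K' x y h
      rw [h]
      simp
    have ga : ∀ w1, J.getLast? = some w1 → Adj (a :: R ++ J) w1 a := by
      intro w1 hw1
      rw [hu] at hw1
      have : u = w1 := Option.some.inj hw1
      subst this
      have hJu : ∃ K, J = K ++ [u] := by
        have hu' := hu
        rw [List.getLast?_eq_some_getLast hR.ne] at hu'
        refine ⟨J.dropLast, ?_⟩
        rw [← Option.some.inj hu']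
        exact (List.dropLast_append_getLast hR.ne).symm
      obtain ⟨K, hK⟩ := hJu
      exact Adj_junction (K := R ++ K) (by rw [hK]; simp)
    have hsnd : y1 ≠ a → Adj (a :: R ++ J) y1 z1 := by
      intro hya
      rcases hcl y1 z1 h2 with ⟨g1, g2⟩ | ⟨K, K', g1⟩ | ⟨g1, g2⟩
      · exact absurd g1 hya
      · exact Adj_left (a :: R) ⟨K', g1⟩
      · rw [g1]; exact ga y1 g2
    rcases hcl x1 y1 h1 with ⟨g1, g2⟩ | ⟨K, K', g1⟩ | ⟨g1, g2⟩
    · have hyv : v = y1 := by rw [hv] at g2; exact Option.some.inj g2
      have hya : y1 ≠ a := fun h => haJ (h ▸ head_mem g2)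
      rw [← hyv] at hya hsnd ⊢
      have g3 := hR.zig z v z1 hzv (hsnd hya)
      rw [g1]
      omega
    · have hya : y1 ≠ a := fun h => haJ (h ▸ (hmem g1).2)
      exact hR.zig x1 y1 z1 (Adj_left (a :: R) ⟨K', g1⟩) (hsnd hya)
    · have hux : u = x1 := by rw [hu] at g2; exact Option.some.inj g2
      rcases hcl y1 z1 h2 with ⟨g3, g4⟩ | ⟨K, K', g3⟩ | ⟨g3, g4⟩
      · have hvz : v = z1 := by rw [hv] at g4; exact Option.some.inj g4
        right
        rw [← hux, ← hvz, g1]
        omega
      · exact absurd (g1 ▸ (hmem g3).1) haJ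
      · exact absurd (g1 ▸ last_mem g4) haJ
  · intro w hw
    have hwa : Function.update w a ((a :: R).map w).sum a = ((a :: R).map w).sum := by simp
    have hwJ : ∀ b ∈ J, Function.update w a ((a :: R).map w).sum b = w b := by
      intro b hb
      rw [Function.update_of_ne]
      rintro rfl
      exact haJ hb
    exact ⟨fun h => odd_fwd F hwa hwJ h, fun h => odd_bwd F hwa hwJ hR.zig hw h.1 h.2⟩

end TCE

open TCE

/-- CE: removing a run of even length -/
theorem run_even {D : Type} (X : D → ℤ) (m : ℤ) (R J : List D) (hR : Run X m R J) (he : Even R.length) :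
    LZig X J ∧ ∀ w : D → ℝ, (∀ a ∈ R ++ J, |w a| ≤ 1) →
      (LStrips X w (R ++ J) ↔ (R.map w).sum = 0 ∧ LStrips X w J) := by
  obtain ⟨a, b, R', hRe⟩ : ∃ a b R', R = a :: b :: R' := by
    have := hR.two
    cases R with
    | nil => simp at this
    | cons a R =>
      cases R with
      | nil => simp at this
      | cons b R => exact ⟨a, b, R, rfl⟩
  have hm := hR.chain a b [] R' hRe
  have hpos := hR.pos
  rcases lt_trichotomy (X a) (X b) with h | h | h
  · exact run_even_pos hR he hRe h
  · rw [h, sub_self, abs_zero] at hm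
    omega
  · obtain ⟨h1, h2⟩ := run_even_pos (Run_ng hR) he hRe (by unfold ng; omega)
    refine ⟨LZig_ng' h1, fun w hw => ?_⟩
    have := h2 w hw
    rw [LStrips_ng_iff, LStrips_ng_iff] at this
    exact this

/-- CO: contracting a run of odd length -/
theorem run_odd {D : Type} [DecidableEq D] (X : D → ℤ) (m : ℤ) (a : D) (R J : List D)
    (hR : Run X m (a :: R) J) (he : Even R.length) :
    LZig X (a :: J) ∧ ∀ w : D → ℝ, (∀ b ∈ a :: R ++ J, |w b| ≤ 1) →
      (LStrips X w (a :: R ++ J) ↔ |((a :: R).map w).sum| ≤ 1 ∧
        LStrips X (Function.update w a ((a :: R).map w).sum) (a :: J)) := by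
  obtain ⟨b, R', hRe⟩ : ∃ b R', R = b :: R' := by
    have := hR.two
    cases R with
    | nil => simp at this
    | cons b R => exact ⟨b, R, rfl⟩
  have hm := hR.chain a b [] R' (by rw [hRe]; rfl)
  have hpos := hR.pos
  rcases lt_trichotomy (X a) (X b) with h | h | h
  · exact run_odd_pos hR he hRe h
  · rw [h, sub_self, abs_zero] at hm
    omega
  · obtain ⟨h1, h2⟩ := run_odd_pos (Run_ng hR) he hRe (by unfold ng; omega)
    refine ⟨LZig_ng' h1, fun w hw => ?_⟩
    have := h2 w hw
    rw [LStrips_ng_iff, LStrips_ng_iff] at this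
    exact this

end Pool.Agent.H606R2.FF
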