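import Pool.Agent.H606R2.FF.TCE

/-! Task CO (`run_odd`) is proved in `Pool.Agent.H606R2.FF.TCE`. -/
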