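import Pool.Agent.H606R2.FF.TCR
import Pool.Agent.H606R2.FF.TCE
import Pool.Agent.H606R2.FF.TCO

/-!
# Task CL: the constraints of one face form a laminar family
-/

namespace Pool.Agent.H606R2.FF

open Equiv.Perm

variable {D : Type}

namespace CL

theorem adj_congr {l l' : List D} (h : l ~r l') (a b : D) : Adj l a b ↔ Adj l' a b := by
  constructor
  · rintro ⟨K, hK⟩
    exact ⟨K, h.symm.trans hK⟩
  · rintro ⟨K, hK⟩
    exact ⟨K, h.trans hK⟩

theorem lzig_congr {X : D → ℤ} {l l' : List D} (h : l ~r l') : LZig X l ↔ LZig X l' := by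
  unfold LZig
  constructor
  · intro H a b c h1 h2
    exact H a b c ((adj_congr h a b).2 h1) ((adj_congr h b c).2 h2)
  · intro H a b c h1 h2
    exact H a b c ((adj_congr h a b).1 h1) ((adj_congr h b c).1 h2)

theorem lstrips_congr {X : D → ℤ} {w : D → ℝ} {l l' : List D} (h : l ~r l') :
    LStrips X w l ↔ LStrips X w l' := by
  unfold LStrips
  constructor
  · intro H I J hI hJ h1
    exact H I J hI hJ (h.trans h1)
  · intro H I J hI hJ h1
    exact H I J hI hJ (h.symm.trans h1)

theorem adj_append (K K' : List D) (a b : D) : Adj (K ++ a :: b :: K') a b := by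
  refine ⟨K' ++ K, ?_⟩
  have := List.isRotated_append (l := K) (l' := a :: b :: K')
  simpa using this

theorem adj_get (l : List D) (i : ℕ) (h : i + 1 < l.length) :
    Adj l (l[i]'(by omega)) l[i + 1] := by
  have h1 : l = l.take i ++ (l[i]'(by omega) :: l[i + 1] :: l.drop (i + 2)) := by
    have h2 : l.drop i = l[i]'(by omega) :: l.drop (i + 1) := List.drop_eq_getElem_cons (by omega)
    have h3 : l.drop (i + 1) = l[i + 1] :: l.drop (i + 2) := List.drop_eq_getElem_cons h
    rw [← h3, ← h2, List.take_append_drop]
  have h4 := adj_append (l.take i) (l.drop (i + 2)) (l[i]'(by omega)) l[i + 1]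
  rw [← h1] at h4
  exact h4

/-- the cyclic constraints as a list of triples -/
def Good [DecidableEq D] (X : D → ℤ) (T : ℤ) (l : List D) : Prop :=
  ∃ C : List (Finset D × ℤ × ℤ),
    (∀ c ∈ C, ∀ c' ∈ C, c.1 ⊆ c'.1 ∨ c'.1 ⊆ c.1 ∨ Disjoint c.1 c'.1) ∧
    (∀ c ∈ C, c.1 ⊆ l.toFinset ∧ c.1.Nonempty) ∧
    ∀ y : D → ℝ, (∀ a ∈ l, 0 ≤ y a ∧ y a ≤ 1) →
      ((LStrips X (fun a => 1 - 2 * y a) l ∧ (l.map fun a => 1 - 2 * y a).sum = T) ↔
        ∀ c ∈ C, (c.2.1 : ℝ) ≤ ∑ a ∈ c.1, y a ∧ ∑ a ∈ c.1, y a ≤ c.2.2)

theorem good_congr [DecidableEq D] {X : D → ℤ} {T : ℤ} {l l' : List D} (h : l ~r l')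
    (hg : Good X T l') : Good X T l := by
  obtain ⟨C, h1, h2, h3⟩ := hg
  refine ⟨C, h1, ?_, ?_⟩
  · intro c hc
    rw [List.toFinset_eq_of_perm _ _ h.perm]
    exact h2 c hc
  · intro y hy
    rw [lstrips_congr h, (h.perm.map _).sum_eq]
    exact h3 y fun a ha => hy a (h.mem_iff.2 ha)

theorem exists_of_good [DecidableEq D] {X : D → ℤ} {T : ℤ} {l : List D} (hg : Good X T l) :
    ∃ (L : Finset (Finset D)) (lo hi : Finset D → ℤ), Laminar L ∧
      (∀ S ∈ L, S ⊆ l.toFinset ∧ S.Nonempty) ∧
      ∀ y : D → ℝ, (∀ a ∈ l, 0 ≤ y a ∧ y a ≤ 1) →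
        ((LStrips X (fun a => 1 - 2 * y a) l ∧ (l.map fun a => 1 - 2 * y a).sum = T) ↔
          ∀ S ∈ L, (lo S : ℝ) ≤ ∑ a ∈ S, y a ∧ ∑ a ∈ S, y a ≤ hi S) := by
  classical
  obtain ⟨C, h1, h2, h3⟩ := hg
  let E : Finset D → Finset (Finset D × ℤ × ℤ) := fun S => C.toFinset.filter (fun c => c.1 = S)
  let lo : Finset D → ℤ := fun S =>
    if h : (E S).Nonempty then (E S).sup' h (fun c => c.2.1) else 0
  let hi : Finset D → ℤ := fun S =>
    if h : (E S).Nonempty then (E S).inf' h (fun c => c.2.2) else 0
  refine ⟨(C.map Prod.fst).toFinset, lo, hi, ?_, ?_, ?_⟩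
  · intro S hS S' hS'
    simp only [List.mem_toFinset, List.mem_map] at hS hS'
    obtain ⟨c, hc, rfl⟩ := hS
    obtain ⟨c', hc', rfl⟩ := hS'
    exact h1 c hc c' hc'
  · intro S hS
    simp only [List.mem_toFinset, List.mem_map] at hS
    obtain ⟨c, hc, rfl⟩ := hS
    exact h2 c hc
  · intro y hy
    rw [h3 y hy]
    constructor
    · intro H S hS
      simp only [List.mem_toFinset, List.mem_map] at hS
      obtain ⟨c, hc, rfl⟩ := hS
      have hne : (E c.1).Nonempty := ⟨c, by simp [E, hc]⟩
      constructor
      · obtain ⟨b, hb, hb'⟩ := (E c.1).exists_mem_eq_sup' hne (fun c => c.2.1)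
        have hb1 : b ∈ C ∧ b.1 = c.1 := by simpa [E] using hb
        have : lo c.1 = b.2.1 := by simp only [lo, dif_pos hne]; exact hb'
        rw [this, ← hb1.2]
        exact (H b hb1.1).1
      · obtain ⟨b, hb, hb'⟩ := (E c.1).exists_mem_eq_inf' hne (fun c => c.2.2)
        have hb1 : b ∈ C ∧ b.1 = c.1 := by simpa [E] using hb
        have : hi c.1 = b.2.2 := by simp only [hi, dif_pos hne]; exact hb'
        rw [this, ← hb1.2]
        exact (H b hb1.1).2
    · intro H c hc
      have hcE : c ∈ E c.1 := by simp [E, hc]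
      have hne : (E c.1).Nonempty := ⟨c, hcE⟩
      have hS : c.1 ∈ (C.map Prod.fst).toFinset := by
        simp only [List.mem_toFinset, List.mem_map]
        exact ⟨c, hc, rfl⟩
      obtain ⟨H1, H2⟩ := H c.1 hS
      constructor
      · refine le_trans ?_ H1
        have : c.2.1 ≤ lo c.1 := by
          simp only [lo, dif_pos hne]
          exact Finset.le_sup' (fun c : Finset D × ℤ × ℤ => c.2.1) hcE
        exact_mod_cast this
      · refine le_trans H2 ?_
        have : hi c.1 ≤ c.2.2 := by
          simp only [hi, dif_pos hne]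
          exact Finset.inf'_le (fun c : Finset D × ℤ × ℤ => c.2.2) hcE
        exact_mod_cast this

theorem sum_map_w (l : List D) (y : D → ℝ) :
    (l.map fun a => 1 - 2 * y a).sum = l.length - 2 * (l.map y).sum := by
  induction l with
  | nil => simp
  | cons a l ih => simp only [List.map_cons, List.sum_cons, ih, List.length_cons]; push_cast; ring

theorem sum_toFinset_eq [DecidableEq D] (l : List D) (h : l.Nodup) (y : D → ℝ) :
    ∑ a ∈ l.toFinset, y a = (l.map y).sum := List.sum_toFinset y h

/-- positions alternate if all edges have the same length -/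
theorem alternate_of_equal {X : D → ℤ} {l : List D} (hz : LZig X l)
    {m : ℤ} (hm : ∀ a b, Adj l a b → |X a - X b| = m) (h2 : 2 ≤ l.length) (i : ℕ)
    (hi : i < l.length) : X l[i] = if i % 2 = 0 then X (l[0]'(by omega)) else
      X (l[1]'(by omega)) := by
  induction i using Nat.strong_induction_on with
  | _ i ih =>
    rcases Nat.lt_or_ge i 2 with h | h
    · interval_cases i <;> simp
    · obtain ⟨j, rfl⟩ : ∃ j, i = j + 2 := ⟨i - 2, by omega⟩
      have h1 := adj_get l j (by omega)
      have h3 := adj_get l (j + 1) hi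
      have h4 := hz _ _ _ h1 h3
      have h5 := hm _ _ h1
      have h6 := hm _ _ h3
      have h7 : X l[j + 2] = X (l[j]'(by omega)) := by
        have h8 : X (l[j + 1 + 1]'hi) = X (l[j + 2]'hi) := rfl
        rcases h4 with ⟨h4, h4'⟩ | ⟨h4, h4'⟩
        · rw [abs_of_nonpos (by linarith)] at h5
          rw [abs_of_nonneg (by linarith)] at h6
          linarith
        · rw [abs_of_nonneg (by linarith)] at h5
          rw [abs_of_nonpos (by linarith)] at h6
          linarith
      rw [h7, ih j (by omega) (by omega)]
      congr 1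
      simp

theorem lstrips_of_equal {X : D → ℤ} {l : List D} (hz : LZig X l)
    {m : ℤ} (hm : ∀ a b, Adj l a b → |X a - X b| = m) (w : D → ℝ) (hw : ∀ a ∈ l, |w a| ≤ 1) : LStrips X w l := by
  intro I J hI hJ hIJ
  have hz' : LZig X (I ++ J) := (lzig_congr hIJ).1 hz
  have hm' : ∀ a b, Adj (I ++ J) a b → |X a - X b| = m := fun a b h =>
    hm a b ((adj_congr hIJ a b).2 h)
  have hlen : (I ++ J).length = l.length := hIJ.perm.length_eq.symm
  have hmem : ∀ a ∈ I ++ J, a ∈ l := fun a ha => hIJ.mem_iff.2 ha
  match I, hI with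
  | [a], _ =>
    have hu : Adj ([a] ++ J) (J.getLast hJ) a := by
      obtain ⟨J', hJ'⟩ : ∃ J', J = J' ++ [J.getLast hJ] := ⟨J.dropLast, (List.dropLast_append_getLast hJ).symm⟩
      refine ⟨J', ?_⟩
      have h1 : ([a] ++ J) ~r J ++ [a] := List.isRotated_append
      refine h1.trans ?_
      have h3 : J ++ [a] = J' ++ [J.getLast hJ, a] := by
        conv_lhs => rw [hJ']
        simp
      rw [h3]
      have h4 := List.isRotated_append (l := J') (l' := [J.getLast hJ, a])
      simpa using h4
    have hv : Adj ([a] ++ J) a (J.head hJ) := by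
      obtain ⟨v, J', rfl⟩ := List.exists_cons_of_ne_nil hJ
      exact ⟨J', List.IsRotated.refl _⟩
    have h4 := hz' _ _ _ hu hv
    have h5 := hw a (hmem a (by simp))
    refine ⟨fun _ _ => by simpa using h5, fun _ _ => by simpa using h5, ?_, ?_⟩
    · intro h6 h7
      have h6 := h6 a (by simp)
      have h7 := h7 a (by simp)
      exfalso
      rcases h4 with ⟨h4, h4'⟩ | ⟨h4, h4'⟩ <;> linarith
    · intro h6 h7
      have h6 := h6 a (by simp)
      have h7 := h7 a (by simp)
      exfalso
      rcases h4 with ⟨h4, h4'⟩ | ⟨h4, h4'⟩ <;> linarith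
  | a :: b :: I, _ =>
    -- the position of the last element of `J` is that of `a` or `b`
    have h3 : X (J.getLast hJ) = X a ∨ X (J.getLast hJ) = X b := by
      have hmemJ : J.getLast hJ ∈ (a :: b :: I) ++ J :=
        List.mem_append_right _ (List.getLast_mem hJ)
      obtain ⟨i, hi, hi'⟩ := List.getElem_of_mem hmemJ
      have h4 := alternate_of_equal hz' hm' (by simp) i hi
      rw [← hi', h4]
      split_ifs
      · left; simp
      · right; simp
    refine ⟨?_, ?_, ?_, ?_⟩
    all_goals
      intro h6 _
      have h7 := h6 a (by simp)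
      have h8 := h6 b (by simp)
      exfalso
      rcases h3 with h3 | h3 <;> linarith

theorem good_equal [DecidableEq D] {X : D → ℤ} {T : ℤ} (hT : T = 2 ∨ T = -2) {l : List D}
    (hnd : l.Nodup) (hz : LZig X l) (heven : Even l.length) (h2 : 2 ≤ l.length)
    {m : ℤ} (hm : ∀ a b, Adj l a b → |X a - X b| = m) : Good X T l := by
  have hTe : Even T := by rcases hT with rfl | rfl <;> decide
  obtain ⟨n, hn⟩ := heven
  obtain ⟨t, ht⟩ := hTe
  refine ⟨[(l.toFinset, (n : ℤ) - t, (n : ℤ) - t)], ?_, ?_, ?_⟩
  · intro c hc c' hc'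
    simp only [List.mem_singleton] at hc hc'
    subst hc hc'
    left; exact subset_rfl
  · intro c hc
    simp only [List.mem_singleton] at hc
    subst hc
    refine ⟨subset_rfl, ?_⟩
    have : l ≠ [] := by
      rintro rfl
      simp at h2
    exact List.toFinset_nonempty_iff _ |>.2 this
  · intro y hy
    have h3 : LStrips X (fun a => 1 - 2 * y a) l := by
      refine lstrips_of_equal hz hm _ ?_
      intro a ha
      have := hy a ha
      rw [abs_le]
      constructor <;> linarith
    simp only [List.mem_singleton, forall_eq, h3, true_and]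
    rw [sum_map_w, sum_toFinset_eq _ hnd]
    have hn' : (l.length : ℝ) = n + n := by exact_mod_cast hn
    have ht' : (T : ℝ) = t + t := by exact_mod_cast ht
    rw [hn', ht']
    push_cast
    constructor
    · intro h; constructor <;> linarith
    · rintro ⟨h, h'⟩; linarith

theorem good_even [DecidableEq D] {X : D → ℤ} {T : ℤ} {m : ℤ} {R J : List D}
    (hR : Run X m R J) (he : Even R.length) (hg : Good X T J) : Good X T (R ++ J) := by
  obtain ⟨-, hrun⟩ := run_even X m R J hR he
  obtain ⟨C, h1, h2, h3⟩ := hg
  obtain ⟨n, hn⟩ := he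
  have hnd := hR.nodup
  have hndR : R.Nodup := hnd.of_append_left
  have hdisj : ∀ S ⊆ J.toFinset, Disjoint R.toFinset S := by
    intro S hS
    have : Disjoint R.toFinset J.toFinset := by
      rw [List.disjoint_toFinset_iff_disjoint]
      exact List.disjoint_of_nodup_append hnd
    exact Finset.disjoint_of_subset_right hS this
  refine ⟨(R.toFinset, (n : ℤ), (n : ℤ)) :: C, ?_, ?_, ?_⟩
  · intro c hc c' hc'
    rw [List.mem_cons] at hc hc'
    rcases hc with rfl | hc
    · rcases hc' with rfl | hc'
      · left; exact subset_rfl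
      · right; right; exact hdisj _ (h2 c' hc').1
    · rcases hc' with rfl | hc'
      · right; right; exact (hdisj _ (h2 c hc).1).symm
      · exact h1 c hc c' hc'
  · intro c hc
    rw [List.mem_cons] at hc
    rcases hc with rfl | hc
    · refine ⟨?_, ?_⟩
      · intro a ha
        simp only [List.mem_toFinset] at ha ⊢
        exact List.mem_append_left _ ha
      · refine (List.toFinset_nonempty_iff _).2 ?_
        rintro rfl
        have := hR.two
        simp at this
    · refine ⟨?_, (h2 c hc).2⟩
      intro a ha
      have := (h2 c hc).1 ha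
      simp only [List.mem_toFinset] at this ⊢
      exact List.mem_append_right _ this
  · intro y hy
    have hw : ∀ a ∈ R ++ J, |(fun a => 1 - 2 * y a) a| ≤ 1 := by
      intro a ha
      have := hy a ha
      rw [abs_le]
      constructor <;> simp only [] <;> linarith
    rw [hrun _ hw, List.map_append, List.sum_append]
    have h4 := h3 y fun a ha => hy a (List.mem_append_right _ ha)
    rw [List.forall_mem_cons, ← h4]
    have h5 : (R.map fun a => 1 - 2 * y a).sum = 0 ↔
        ((n : ℤ) : ℝ) ≤ ∑ a ∈ R.toFinset, y a ∧ ∑ a ∈ R.toFinset, y a ≤ ((n : ℤ) : ℝ) := by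
      rw [sum_map_w, sum_toFinset_eq _ hndR]
      have hn' : (R.length : ℝ) = n + n := by exact_mod_cast hn
      rw [hn']
      push_cast
      constructor
      · intro h; constructor <;> linarith
      · rintro ⟨h, h'⟩; linarith
    rw [← h5]
    constructor
    · rintro ⟨⟨h6, h7⟩, h8⟩
      rw [h6, zero_add] at h8
      exact ⟨h6, h7, h8⟩
    · rintro ⟨h6, h7, h8⟩
      refine ⟨⟨h6, h7⟩, ?_⟩
      rw [h6, zero_add]
      exact h8

theorem good_odd [DecidableEq D] {X : D → ℤ} {T : ℤ} {m : ℤ} {a : D} {R J : List D}
    (hR : Run X m (a :: R) J) (he : Even R.length) (hg : Good X T (a :: J)) :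
    Good X T (a :: R ++ J) := by
  obtain ⟨-, hrun⟩ := run_odd X m a R J hR he
  obtain ⟨C, h1, h2, h3⟩ := hg
  obtain ⟨n, hn⟩ := he
  have hnd := hR.nodup
  have hndR : (a :: R).Nodup := hnd.of_append_left
  have hdisj0 : Disjoint (a :: R).toFinset J.toFinset := by
    rw [List.disjoint_toFinset_iff_disjoint]
    exact List.disjoint_of_nodup_append hnd
  have haJ : a ∉ J := by
    intro h
    exact List.disjoint_of_nodup_append hnd (List.mem_cons_self) h
  have hndJ : J.Nodup := hnd.of_append_right
  set P : Finset D := (a :: R).toFinset with hP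
  have haP : a ∈ P := by simp [hP]
  -- a constraint set without `a` is disjoint from `P`
  have hdis : ∀ c ∈ C, a ∉ c.1 → Disjoint P c.1 := by
    intro c hc hac
    refine Finset.disjoint_of_subset_right ?_ hdisj0
    intro b hb
    have h5 := (h2 c hc).1 hb
    simp only [List.toFinset_cons, Finset.mem_insert] at h5
    rcases h5 with rfl | h5
    · exact absurd hb hac
    · exact h5
  let f : Finset D × ℤ × ℤ → Finset D × ℤ × ℤ := fun c =>
    if a ∈ c.1 then (c.1 ∪ P, c.2.1 + n, c.2.2 + n) else c
  have hf1 : ∀ c, a ∈ c.1 → f c = (c.1 ∪ P, c.2.1 + n, c.2.2 + n) := fun c h => if_pos h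
  have hf2 : ∀ c, a ∉ c.1 → f c = c := fun c h => if_neg h
  -- the new set against `P`
  have hPf : ∀ c ∈ C, P ⊆ (f c).1 ∨ Disjoint P (f c).1 := by
    intro c hc
    by_cases hac : a ∈ c.1
    · left; rw [hf1 c hac]; exact Finset.subset_union_right
    · right; rw [hf2 c hac]; exact hdis c hc hac
  refine ⟨(P, (n : ℤ), (n : ℤ) + 1) :: C.map f, ?_, ?_, ?_⟩
  · intro c hc c' hc'
    rw [List.mem_cons, List.mem_map] at hc hc'
    rcases hc with rfl | ⟨c, hc, rfl⟩
    · rcases hc' with rfl | ⟨c', hc', rfl⟩
      · left; exact subset_rfl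
      · rcases hPf c' hc' with h | h
        · left; exact h
        · right; right; exact h
    · rcases hc' with rfl | ⟨c', hc', rfl⟩
      · rcases hPf c hc with h | h
        · right; left; exact h
        · right; right; exact h.symm
      · by_cases hac : a ∈ c.1
        · by_cases hac' : a ∈ c'.1
          · rw [hf1 c hac, hf1 c' hac']
            rcases h1 c hc c' hc' with h | h | h
            · left; exact Finset.union_subset_union_left h
            · right; left; exact Finset.union_subset_union_left h
            · exact absurd hac' (Finset.disjoint_left.1 h hac)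
          · rw [hf1 c hac, hf2 c' hac']
            rcases h1 c hc c' hc' with h | h | h
            · exact absurd (h hac) hac'
            · right; left; exact h.trans Finset.subset_union_left
            · right; right
              exact Finset.disjoint_union_left.2 ⟨h, hdis c' hc' hac'⟩
        · by_cases hac' : a ∈ c'.1
          · rw [hf2 c hac, hf1 c' hac']
            rcases h1 c hc c' hc' with h | h | h
            · left; exact h.trans Finset.subset_union_left
            · exact absurd (h hac') hac
            · right; right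
              exact Finset.disjoint_union_right.2 ⟨h, (hdis c hc hac).symm⟩
          · rw [hf2 c hac, hf2 c' hac']
            exact h1 c hc c' hc'
  · have hPsub : P ⊆ (a :: R ++ J).toFinset := by
      intro b hb
      simp only [hP, List.mem_toFinset] at hb ⊢
      exact List.mem_append_left _ hb
    have hcsub : ∀ c ∈ C, c.1 ⊆ (a :: R ++ J).toFinset := by
      intro c hc b hb
      have h5 := (h2 c hc).1 hb
      simp only [List.mem_toFinset, List.mem_cons, List.cons_append, List.mem_append] at h5 ⊢
      rcases h5 with rfl | h5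
      · left; rfl
      · right; right; exact h5
    intro c hc
    rw [List.mem_cons, List.mem_map] at hc
    rcases hc with rfl | ⟨c, hc, rfl⟩
    · exact ⟨hPsub, ⟨a, haP⟩⟩
    · by_cases hac : a ∈ c.1
      · rw [hf1 c hac]
        exact ⟨Finset.union_subset (hcsub c hc) hPsub, ⟨a, Finset.mem_union_right _ haP⟩⟩
      · rw [hf2 c hac]
        exact ⟨hcsub c hc, (h2 c hc).2⟩
  · intro y hy
    have hw : ∀ b ∈ a :: R ++ J, |(fun b => 1 - 2 * y b) b| ≤ 1 := by
      intro b hb
      have := hy b hb
      rw [abs_le]
      constructor <;> simp only [] <;> linarith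
    rw [hrun _ hw, List.map_append, List.sum_append]
    -- sums
    have hsR : ((a :: R).map fun b => 1 - 2 * y b).sum = 2 * n + 1 - 2 * ∑ b ∈ P, y b := by
      rw [sum_map_w, hP, sum_toFinset_eq _ hndR]
      have hn' : ((a :: R).length : ℝ) = 2 * n + 1 := by
        rw [List.length_cons, hn]; push_cast; ring
      rw [hn']
    set sR : ℝ := ((a :: R).map fun b => 1 - 2 * y b).sum with hsRdef
    let y' : D → ℝ := Function.update y a ((1 - sR) / 2)
    have hy'a : y' a = (1 - sR) / 2 := Function.update_self ..
    have hy'n : ∀ b, b ≠ a → y' b = y b := fun b hb => Function.update_of_ne hb ..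
    have hupd : Function.update (fun b => 1 - 2 * y b) a sR = fun b => 1 - 2 * y' b := by
      funext b
      by_cases hb : b = a
      · subst hb
        rw [Function.update_self, hy'a]; ring
      · rw [Function.update_of_ne hb, hy'n b hb]
    rw [hupd]
    have hsumJ : ((a :: J).map fun b => 1 - 2 * y' b).sum =
        sR + (J.map fun b => 1 - 2 * y b).sum := by
      rw [List.map_cons, List.sum_cons, hy'a]
      have : (J.map fun b => 1 - 2 * y' b) = J.map fun b => 1 - 2 * y b := by
        refine List.map_congr_left ?_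
        intro b hb
        rw [hy'n b (by rintro rfl; exact haJ hb)]
      rw [this]; ring
    rw [← hsumJ]
    have hbox : |sR| ≤ 1 ↔ ((n : ℤ) : ℝ) ≤ ∑ b ∈ P, y b ∧ ∑ b ∈ P, y b ≤ (((n : ℤ) + 1 : ℤ) : ℝ) := by
      rw [abs_le, hsR]
      push_cast
      constructor
      · rintro ⟨h, h'⟩; constructor <;> linarith
      · rintro ⟨h, h'⟩; constructor <;> linarith
    rw [List.forall_mem_cons, List.forall_mem_map, hbox, and_assoc]
    refine and_congr_right ?_
    intro h5
    have h5' := abs_le.1 (hbox.2 h5)
    have hy' : ∀ b ∈ a :: J, 0 ≤ y' b ∧ y' b ≤ 1 := by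
      intro b hb
      by_cases hba : b = a
      · subst hba
        rw [hy'a]
        constructor <;> linarith [h5'.1, h5'.2]
      · rw [hy'n b hba]
        refine hy b ?_
        simp only [List.mem_cons, List.cons_append, List.mem_append] at hb ⊢
        rcases hb with hb | hb
        · exact absurd hb hba
        · right; right; exact hb
    rw [h3 y' hy']
    refine forall₂_congr ?_
    intro c hc
    by_cases hac : a ∈ c.1
    · rw [hf1 c hac]
      have hsum : ∑ b ∈ c.1, y' b = ∑ b ∈ c.1 ∪ P, y b - n := by
        have h6 : ∑ b ∈ c.1, y' b = y' a + ∑ b ∈ c.1.erase a, y' b :=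
          (Finset.add_sum_erase _ _ hac).symm
        have h7 : ∑ b ∈ c.1.erase a, y' b = ∑ b ∈ c.1.erase a, y b := by
          refine Finset.sum_congr rfl ?_
          intro b hb
          exact hy'n b (Finset.ne_of_mem_erase hb)
        have h8 : c.1 ∪ P = c.1.erase a ∪ P := by
          ext b
          simp only [Finset.mem_union, Finset.mem_erase]
          constructor
          · rintro (h | h)
            · by_cases hb : b = a
              · right; rw [hb]; exact haP
              · left; exact ⟨hb, h⟩
            · right; exact h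
          · rintro (h | h)
            · left; exact h.2
            · right; exact h
        have h9 : Disjoint (c.1.erase a) P := by
          rw [Finset.disjoint_left]
          intro b hb hbP
          have h10 := (h2 c hc).1 (Finset.mem_of_mem_erase hb)
          simp only [List.toFinset_cons, Finset.mem_insert] at h10
          rcases h10 with h10 | h10
          · exact Finset.ne_of_mem_erase hb h10
          · exact Finset.disjoint_left.1 hdisj0 hbP h10
        rw [h6, h7, h8, Finset.sum_union h9, hy'a, hsR]
        ring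
      rw [hsum]
      push_cast
      constructor
      · rintro ⟨h, h'⟩; constructor <;> linarith
      · rintro ⟨h, h'⟩; constructor <;> linarith
    · rw [hf2 c hac]
      have hsum : ∑ b ∈ c.1, y' b = ∑ b ∈ c.1, y b := by
        refine Finset.sum_congr rfl ?_
        intro b hb
        exact hy'n b (by rintro rfl; exact hac hb)
      rw [hsum]

theorem good_all [DecidableEq D] (X : D → ℤ) (T : ℤ) (hT : T = 2 ∨ T = -2) (k : ℕ) :
    ∀ l : List D, l.length = k → l.Nodup → LZig X l → Even l.length → 2 ≤ l.length →
      Good X T l := by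
  induction k using Nat.strong_induction_on with
  | _ k ih =>
    intro l hk hnd hz heven h2
    rcases exists_run X l hnd hz heven h2 with ⟨m, -, hm⟩ | ⟨m, R, J, hl, hR, -⟩
    · exact good_equal hT hnd hz heven h2 hm
    · refine good_congr hl ?_
      have hlen : l.length = R.length + J.length := by
        rw [hl.perm.length_eq, List.length_append]
      have hJpos : 0 < J.length := List.length_pos_iff.2 hR.ne
      have hndRJ := hR.nodup
      have hndJ : J.Nodup := hndRJ.of_append_right
      have h2R := hR.two
      have hev := hR.even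
      rcases Nat.even_or_odd R.length with he | ho
      · have hJe : Even J.length := by
          rw [Nat.even_add] at hev
          exact hev.1 he
        refine good_even hR he ?_
        refine ih J.length (by omega) J rfl hndJ (run_even X m R J hR he).1 hJe ?_
        obtain ⟨j, hj⟩ := hJe
        omega
      · obtain ⟨a, R', rfl⟩ := List.exists_cons_of_ne_nil
          (show R ≠ [] by rintro rfl; simp at h2R)
        have he : Even R'.length := by
          rw [List.length_cons, Nat.odd_add_one] at ho
          simpa using ho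
        refine good_odd hR he ?_
        have hJo : Even (a :: J).length := by
          rw [List.length_cons] at hev ⊢
          obtain ⟨r, hr⟩ := he
          obtain ⟨s, hs⟩ := hev
          exact ⟨s - r, by omega⟩
        have hndaJ : (a :: J).Nodup := by
          rw [List.nodup_cons]
          refine ⟨?_, hndJ⟩
          intro h
          exact List.disjoint_of_nodup_append hndRJ (List.mem_cons_self) h
        refine ih (a :: J).length ?_ (a :: J) rfl hndaJ (run_odd X m a R' J hR he).1 hJo ?_
        · simp only [List.length_cons] at hlen h2R ⊢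
          omega
        · simp only [List.length_cons]
          omega

end CL

/-- CL: laminar families (uses CR, CE, CO) -/
theorem exists_laminar [DecidableEq D] (X : D → ℤ) (l : List D) (hnd : l.Nodup) (hz : LZig X l)
    (heven : Even l.length) (h2 : 2 ≤ l.length) (T : ℤ) (hT : T = 2 ∨ T = -2) :
    ∃ (L : Finset (Finset D)) (lo hi : Finset D → ℤ), Laminar L ∧
      (∀ S ∈ L, S ⊆ l.toFinset ∧ S.Nonempty) ∧
      ∀ y : D → ℝ, (∀ a ∈ l, 0 ≤ y a ∧ y a ≤ 1) →
        ((LStrips X (fun a => 1 - 2 * y a) l ∧ (l.map fun a => 1 - 2 * y a).sum = T) ↔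
          ∀ S ∈ L, (lo S : ℝ) ≤ ∑ a ∈ S, y a ∧ ∑ a ∈ S, y a ≤ hi S) :=
  CL.exists_of_good (CL.good_all X T hT _ l rfl hnd hz heven h2)

end Pool.Agent.H606R2.FF
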