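import Mathlib
import Pool.Agent.H606R2.FF.Base

/-!
# Task L: integrality for two laminar families
-/

set_option autoImplicit false

namespace Pool.Agent.H606R2.FF

open Finset

variable {D : Type}

/-- few constraints: there is a nonzero solution supported on `F` -/
theorem tl_kernel [DecidableEq D] (F : Finset D) (T : Finset (Finset D)) (h : T.card < F.card) :
    ∃ δ : D → ℝ, (∃ a, δ a ≠ 0) ∧ (∀ a, a ∉ F → δ a = 0) ∧ ∀ C ∈ T, ∑ a ∈ C, δ a = 0 := by
  classical
  let ext : (F → ℝ) →ₗ[ℝ] (D → ℝ) :=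
    { toFun := fun δ a => if h : a ∈ F then δ ⟨a, h⟩ else 0
      map_add' := by
        intro x y
        funext a
        by_cases h : a ∈ F <;> simp [h]
      map_smul' := by
        intro c x
        funext a
        by_cases h : a ∈ F <;> simp [h] }
  let sm : (D → ℝ) →ₗ[ℝ] (T → ℝ) :=
    { toFun := fun δ C => ∑ a ∈ C.1, δ a
      map_add' := by
        intro x y
        funext C
        simp [Finset.sum_add_distrib]
      map_smul' := by
        intro c x
        funext C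
        simp [Finset.mul_sum] }
  have hker : LinearMap.ker (sm.comp ext) ≠ ⊥ := by
    apply LinearMap.ker_ne_bot_of_finrank_lt
    simpa using h
  obtain ⟨x, hx, hx0⟩ := Submodule.exists_mem_ne_zero_of_ne_bot hker
  refine ⟨ext x, ?_, ?_, ?_⟩
  · by_contra hcon
    push Not at hcon
    apply hx0
    funext a
    have := hcon a.1
    simpa [ext, a.2] using this
  · intro a ha
    simp [ext, ha]
  · intro C hC
    have h1 := congrFun (LinearMap.mem_ker.1 hx) ⟨C, hC⟩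
    simpa [sm] using h1

/-- a real number is an integer -/
def TLInt (x : ℝ) : Prop := ∃ n : ℤ, (n : ℝ) = x

theorem TLInt.add {x y : ℝ} (hx : TLInt x) (hy : TLInt y) : TLInt (x + y) := by
  obtain ⟨m, rfl⟩ := hx
  obtain ⟨n, rfl⟩ := hy
  exact ⟨m + n, by push_cast; ring⟩

theorem TLInt.sub {x y : ℝ} (hx : TLInt x) (hy : TLInt y) : TLInt (x - y) := by
  obtain ⟨m, rfl⟩ := hx
  obtain ⟨n, rfl⟩ := hy
  exact ⟨m - n, by push_cast; ring⟩

theorem TLInt.sum {ι : Type} (s : Finset ι) (g : ι → ℝ) (h : ∀ i ∈ s, TLInt (g i)) :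
    TLInt (∑ i ∈ s, g i) := by
  classical
  induction s using Finset.induction_on with
  | empty => exact ⟨0, by simp⟩
  | insert a s ha ih =>
    rw [Finset.sum_insert ha]
    exact (h a (Finset.mem_insert_self a s)).add
      (ih (fun i hi => h i (Finset.mem_insert_of_mem hi)))

/-- the classes of a laminar family -/
theorem tl_classes [Fintype D] [DecidableEq D] (A : Finset (Finset D)) (hA : Laminar A)
    (y : D → ℝ) (F : Finset D) (hF : ∀ a, a ∈ F ↔ ¬ TLInt (y a)) :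
    ∃ K : Finset (Finset D), (K : Set (Finset D)).PairwiseDisjoint id ∧ (∀ C ∈ K, C ⊆ F) ∧
      (∀ C ∈ K, 2 ≤ C.card) ∧ ∀ δ : D → ℝ, (∀ a, a ∉ F → δ a = 0) →
        (∀ C ∈ K, ∑ a ∈ C, δ a = 0) → ∀ S ∈ A, TLInt (∑ a ∈ S, y a) → ∑ a ∈ S, δ a = 0 := by
  classical
  -- integral sets
  set I : Finset (Finset D) := A.filter (fun S => TLInt (∑ a ∈ S, y a)) with hI
  -- the top set of an element
  have htop : ∀ a : D, (∃ S ∈ I, a ∈ S) → ∃ S ∈ I, a ∈ S ∧ ∀ S' ∈ I, a ∈ S' → S ⊆ S' := by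
    intro a ⟨S0, hS0, haS0⟩
    obtain ⟨S, hS, hmin⟩ := Finset.exists_min_image (I.filter (fun S => a ∈ S)) Finset.card
      ⟨S0, Finset.mem_filter.2 ⟨hS0, haS0⟩⟩
    rw [Finset.mem_filter] at hS
    refine ⟨S, hS.1, hS.2, fun S' hS' haS' => ?_⟩
    have hcard := hmin S' (Finset.mem_filter.2 ⟨hS', haS'⟩)
    have hSA : S ∈ A := (Finset.mem_filter.1 hS.1).1
    have hSA' : S' ∈ A := (Finset.mem_filter.1 hS').1
    rcases hA S hSA S' hSA' with h | h | h
    · exact h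
    · rw [Finset.eq_of_subset_of_card_le h hcard]
    · exact absurd haS' (Finset.disjoint_left.1 h hS.2)
  let top : D → Finset D := fun a => if h : ∃ S ∈ I, a ∈ S then (htop a h).choose else ∅
  have top_spec : ∀ a S, S ∈ I → a ∈ S → top a ∈ I ∧ a ∈ top a ∧ top a ⊆ S := by
    intro a S hS haS
    have h : ∃ S ∈ I, a ∈ S := ⟨S, hS, haS⟩
    have hs := (htop a h).choose_spec
    simp only [top, h, dite_true]
    exact ⟨hs.1, hs.2.1, hs.2.2 S hS haS⟩
  -- classes
  let cl : Finset D → Finset D := fun k => F.filter (fun a => a ∈ k ∧ top a = k)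
  set K : Finset (Finset D) := (I.image cl).filter (fun C => C.Nonempty) with hK
  -- decomposition of the sum over an integral set
  have hdec : ∀ (g : D → ℝ) (S : Finset D), S ∈ I → ∑ a ∈ S, g a =
      (∑ a ∈ S.filter (fun a => a ∉ F), g a) + ∑ k ∈ I.filter (fun k => k ⊆ S), ∑ a ∈ cl k, g a := by
    intro g S hS
    have h1 := Finset.sum_filter_add_sum_filter_not S (fun a => a ∉ F) g
    rw [← h1]
    congr 1
    have h2 : ∀ a ∈ S.filter (fun a => ¬ a ∉ F), top a ∈ I.filter (fun k => k ⊆ S) := by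
      intro a ha
      rw [Finset.mem_filter] at ha
      obtain ⟨t1, t2, t3⟩ := top_spec a S hS ha.1
      exact Finset.mem_filter.2 ⟨t1, t3⟩
    rw [← Finset.sum_fiberwise_of_maps_to h2 g]
    refine Finset.sum_congr rfl (fun k hk => ?_)
    rw [Finset.mem_filter] at hk
    refine Finset.sum_congr ?_ (fun _ _ => rfl)
    ext a
    simp only [Finset.mem_filter, cl, not_not]
    constructor
    · rintro ⟨⟨haS, haF⟩, hak⟩
      obtain ⟨t1, t2, t3⟩ := top_spec a S hS haS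
      exact ⟨haF, hak ▸ t2, hak⟩
    · rintro ⟨haF, hak, htk⟩
      exact ⟨⟨hk.2 hak, haF⟩, htk⟩
  -- class sums are integral
  have hclint : ∀ n : ℕ, ∀ k ∈ I, k.card = n → TLInt (∑ a ∈ cl k, y a) := by
    intro n
    induction n using Nat.strong_induction_on with
    | _ n ih =>
      intro k hk hn
      have h1 := hdec y k hk
      have hint : TLInt (∑ a ∈ k, y a) := (Finset.mem_filter.1 hk).2
      have hkk : k ∈ I.filter (fun k' => k' ⊆ k) := Finset.mem_filter.2 ⟨hk, Finset.Subset.refl k⟩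
      rw [← Finset.add_sum_erase _ _ hkk] at h1
      have h2 : TLInt (∑ a ∈ k.filter (fun a => a ∉ F), y a) := by
        refine TLInt.sum _ _ (fun a ha => ?_)
        rw [Finset.mem_filter, hF] at ha
        exact not_not.1 ha.2
      have h3 : TLInt (∑ k' ∈ (I.filter (fun k' => k' ⊆ k)).erase k, ∑ a ∈ cl k', y a) := by
        refine TLInt.sum _ _ (fun k' hk' => ?_)
        rw [Finset.mem_erase, Finset.mem_filter] at hk'
        refine ih k'.card ?_ k' hk'.2.1 rfl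
        rw [← hn]
        exact Finset.card_lt_card (Finset.ssubset_iff_subset_ne.2 ⟨hk'.2.2, hk'.1⟩)
      have h4 : ∑ a ∈ cl k, y a = (∑ a ∈ k, y a - ∑ a ∈ k.filter (fun a => a ∉ F), y a) -
          ∑ k' ∈ (I.filter (fun k' => k' ⊆ k)).erase k, ∑ a ∈ cl k', y a := by
        rw [h1]
        ring
      rw [h4]
      exact (hint.sub h2).sub h3
  refine ⟨K, ?_, ?_, ?_, ?_⟩
  · intro C1 hC1 C2 hC2 hne
    rw [hK, Finset.coe_filter] at hC1 hC2
    obtain ⟨hC1, hn1⟩ := hC1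
    obtain ⟨hC2, hn2⟩ := hC2
    rw [Finset.mem_image] at hC1 hC2
    obtain ⟨k1, hk1, rfl⟩ := hC1
    obtain ⟨k2, hk2, rfl⟩ := hC2
    simp only [Function.onFun, id]
    rw [Finset.disjoint_left]
    intro a ha1 ha2
    simp only [cl, Finset.mem_filter] at ha1 ha2
    apply hne
    have : k1 = k2 := by rw [← ha1.2.2, ← ha2.2.2]
    rw [this]
  · intro C hC
    rw [hK, Finset.mem_filter, Finset.mem_image] at hC
    obtain ⟨⟨k, hk, rfl⟩, _⟩ := hC
    exact Finset.filter_subset _ _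
  · intro C hC
    rw [hK, Finset.mem_filter, Finset.mem_image] at hC
    obtain ⟨⟨k, hk, rfl⟩, hne⟩ := hC
    by_contra hcard
    have hc1 : (cl k).card = 1 := by
      have := hne.card_pos
      omega
    obtain ⟨a, ha⟩ := Finset.card_eq_one.1 hc1
    have hi := hclint k.card k hk rfl
    rw [ha, Finset.sum_singleton] at hi
    have haF : a ∈ F := by
      have : a ∈ cl k := by rw [ha]; exact Finset.mem_singleton_self a
      exact (Finset.mem_filter.1 this).1
    exact (hF a).1 haF hi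
  · intro δ hδF hδK S hS hSint
    have hSI : S ∈ I := Finset.mem_filter.2 ⟨hS, hSint⟩
    rw [hdec δ S hSI]
    have h1 : ∑ a ∈ S.filter (fun a => a ∉ F), δ a = 0 :=
      Finset.sum_eq_zero (fun a ha => hδF a (Finset.mem_filter.1 ha).2)
    have h2 : ∑ k ∈ I.filter (fun k => k ⊆ S), ∑ a ∈ cl k, δ a = 0 := by
      refine Finset.sum_eq_zero (fun k hk => ?_)
      rcases (cl k).eq_empty_or_nonempty with he | hne
      · rw [he, Finset.sum_empty]
      · refine hδK (cl k) ?_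
        rw [hK, Finset.mem_filter, Finset.mem_image]
        exact ⟨⟨k, (Finset.mem_filter.1 hk).1, rfl⟩, hne⟩
    rw [h1, h2, add_zero]

/-- two systems of disjoint classes with at least two elements have a common nonzero solution -/
theorem tl_two [DecidableEq D] (F : Finset D) (hF : F.Nonempty) (K1 K2 : Finset (Finset D))
    (hd1 : (K1 : Set (Finset D)).PairwiseDisjoint id) (hd2 : (K2 : Set (Finset D)).PairwiseDisjoint id)
    (hs1 : ∀ C ∈ K1, C ⊆ F) (hs2 : ∀ C ∈ K2, C ⊆ F) (hc1 : ∀ C ∈ K1, 2 ≤ C.card)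
    (hc2 : ∀ C ∈ K2, 2 ≤ C.card) :
    ∃ δ : D → ℝ, (∃ a, δ a ≠ 0) ∧ (∀ a, a ∉ F → δ a = 0) ∧ (∀ C ∈ K1, ∑ a ∈ C, δ a = 0) ∧
      ∀ C ∈ K2, ∑ a ∈ C, δ a = 0 := by
  classical
  have hFpos : 0 < F.card := hF.card_pos
  have key : ∀ K : Finset (Finset D), (K : Set (Finset D)).PairwiseDisjoint id →
      (∀ C ∈ K, C ⊆ F) → (∀ C ∈ K, 2 ≤ C.card) →
      2 * K.card ≤ (K.biUnion id).card ∧ K.biUnion id ⊆ F := by
    intro K hd hs hc
    constructor
    · rw [Finset.card_biUnion (fun x hx y hy hxy => hd hx hy hxy)]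
      have := Finset.card_nsmul_le_sum K (fun C => (id C).card) 2 (fun C hC => hc C hC)
      simpa [mul_comm] using this
    · intro a ha
      rw [Finset.mem_biUnion] at ha
      obtain ⟨C, hC, haC⟩ := ha
      exact hs C hC haC
  obtain ⟨h1, h1'⟩ := key K1 hd1 hs1 hc1
  obtain ⟨h2, h2'⟩ := key K2 hd2 hs2 hc2
  have h3 := Finset.card_le_card h1'
  have h4 := Finset.card_le_card h2'
  by_cases hlt : K1.card + K2.card < F.card
  · obtain ⟨δ, hδ, hδF, hδT⟩ := tl_kernel F (K1 ∪ K2)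
      (lt_of_le_of_lt (Finset.card_union_le _ _) hlt)
    exact ⟨δ, hδ, hδF, fun C hC => hδT C (Finset.mem_union_left _ hC),
      fun C hC => hδT C (Finset.mem_union_right _ hC)⟩
  · have e1 : K1.biUnion id = F := Finset.eq_of_subset_of_card_le h1' (by omega)
    have e2 : K2.biUnion id = F := Finset.eq_of_subset_of_card_le h2' (by omega)
    have hK2 : K2.Nonempty := by
      rw [← Finset.card_pos]
      omega
    obtain ⟨C0, hC0⟩ := hK2
    have hcard : (K1 ∪ K2.erase C0).card < F.card := by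
      refine lt_of_le_of_lt (Finset.card_union_le _ _) ?_
      rw [Finset.card_erase_of_mem hC0]
      have : 0 < K2.card := Finset.card_pos.2 ⟨C0, hC0⟩
      omega
    obtain ⟨δ, hδ, hδF, hδT⟩ := tl_kernel F _ hcard
    have hz1 : ∀ C ∈ K1, ∑ a ∈ C, δ a = 0 := fun C hC => hδT C (Finset.mem_union_left _ hC)
    have hz2 : ∀ C ∈ K2.erase C0, ∑ a ∈ C, δ a = 0 :=
      fun C hC => hδT C (Finset.mem_union_right _ hC)
    have hsum1 : ∑ a ∈ F, δ a = 0 := by
      rw [← e1, Finset.sum_biUnion hd1]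
      exact Finset.sum_eq_zero (fun C hC => hz1 C hC)
    have hsum2 : ∑ a ∈ F, δ a = ∑ a ∈ C0, δ a := by
      rw [← e2, Finset.sum_biUnion hd2, ← Finset.add_sum_erase _ _ hC0]
      have : ∑ C ∈ K2.erase C0, ∑ a ∈ id C, δ a = 0 := Finset.sum_eq_zero (fun C hC => hz2 C hC)
      rw [this, add_zero]
      rfl
    refine ⟨δ, hδ, hδF, hz1, fun C hC => ?_⟩
    by_cases hCC : C = C0
    · rw [hCC, ← hsum2, hsum1]
    · exact hz2 C (Finset.mem_erase.2 ⟨hCC, hC⟩)

/-- moving along a direction until a new quantity becomes integral -/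
theorem tl_move [DecidableEq D] (Q : Finset (Finset D)) (y δ : D → ℝ)
    (h0 : ∀ S ∈ Q, TLInt (∑ a ∈ S, y a) → ∑ a ∈ S, δ a = 0)
    (h1 : ∃ S ∈ Q, ∑ a ∈ S, δ a ≠ 0) :
    ∃ y' : D → ℝ, (∀ S ∈ Q, (⌊∑ a ∈ S, y a⌋ : ℝ) ≤ ∑ a ∈ S, y' a ∧
      ∑ a ∈ S, y' a ≤ (⌈∑ a ∈ S, y a⌉ : ℝ)) ∧
      (∀ S ∈ Q, TLInt (∑ a ∈ S, y a) → TLInt (∑ a ∈ S, y' a)) ∧
      ∃ S ∈ Q, ¬ TLInt (∑ a ∈ S, y a) ∧ TLInt (∑ a ∈ S, y' a) := by
  classical
  set q : Finset D → ℝ := fun S => ∑ a ∈ S, y a with hq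
  set e : Finset D → ℝ := fun S => ∑ a ∈ S, δ a with he
  let τ : Finset D → ℝ := fun S => if 0 < e S then (⌈q S⌉ - q S) / e S else (⌊q S⌋ - q S) / e S
  obtain ⟨S0, hS0, hS0e⟩ := h1
  obtain ⟨S1, hS1, hmin⟩ := Finset.exists_min_image (Q.filter (fun S => e S ≠ 0)) τ
    ⟨S0, Finset.mem_filter.2 ⟨hS0, hS0e⟩⟩
  rw [Finset.mem_filter] at hS1
  have hnint : ∀ S ∈ Q, e S ≠ 0 → ¬ TLInt (q S) := fun S hS hne hi => hne (h0 S hS hi)
  have hpos : ∀ S ∈ Q, e S ≠ 0 → 0 < τ S := by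
    intro S hS hne
    have hn := hnint S hS hne
    have hfl : (⌊q S⌋ : ℝ) < q S := lt_of_le_of_ne (Int.floor_le _) (fun h => hn ⟨_, h⟩)
    have hce : q S < (⌈q S⌉ : ℝ) := lt_of_le_of_ne (Int.le_ceil _) (fun h => hn ⟨_, h.symm⟩)
    simp only [τ]
    split_ifs with hp
    · exact div_pos (by linarith) hp
    · have hneg : e S < 0 := lt_of_le_of_ne (not_lt.1 hp) hne
      exact div_pos_of_neg_of_neg (by linarith) hneg
  have hval : ∀ S : Finset D, ∑ a ∈ S, (y a + τ S1 * δ a) = q S + τ S1 * e S := by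
    intro S
    rw [Finset.sum_add_distrib, ← Finset.mul_sum]
  refine ⟨fun a => y a + τ S1 * δ a, ?_, ?_, ?_⟩
  · intro S hS
    rw [hval]
    have hfl : (⌊q S⌋ : ℝ) ≤ q S := Int.floor_le _
    have hce : q S ≤ (⌈q S⌉ : ℝ) := Int.le_ceil _
    have ht1 := hpos S1 hS1.1 hS1.2
    by_cases hne : e S = 0
    · rw [hne, mul_zero, add_zero]
      exact ⟨hfl, hce⟩
    · have hle := hmin S (Finset.mem_filter.2 ⟨hS, hne⟩)
      by_cases hp : 0 < e S
      · have hτ : τ S = (⌈q S⌉ - q S) / e S := by simp only [τ, if_pos hp]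
        rw [hτ, le_div_iff₀ hp] at hle
        have : 0 < τ S1 * e S := mul_pos ht1 hp
        constructor <;> linarith
      · have hneg : e S < 0 := lt_of_le_of_ne (not_lt.1 hp) hne
        have hτ : τ S = (⌊q S⌋ - q S) / e S := by simp only [τ, if_neg hp]
        rw [hτ, le_div_iff_of_neg hneg] at hle
        have : τ S1 * e S < 0 := mul_neg_of_pos_of_neg ht1 hneg
        constructor <;> linarith
  · intro S hS hi
    rw [hval]
    have : e S = 0 := h0 S hS hi
    rw [this, mul_zero, add_zero]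
    exact hi
  · refine ⟨S1, hS1.1, hnint S1 hS1.1 hS1.2, ?_⟩
    rw [hval]
    by_cases hp : 0 < e S1
    · have hτ : τ S1 = (⌈q S1⌉ - q S1) / e S1 := by simp only [τ, if_pos hp]
      refine ⟨⌈q S1⌉, ?_⟩
      rw [hτ, div_mul_cancel₀ _ hS1.2]
      ring
    · have hτ : τ S1 = (⌊q S1⌋ - q S1) / e S1 := by simp only [τ, if_neg hp]
      refine ⟨⌊q S1⌋, ?_⟩
      rw [hτ, div_mul_cancel₀ _ hS1.2]
      ring

/-- simultaneous rounding -/
theorem tl_round [Fintype D] [DecidableEq D] (A B : Finset (Finset D)) (hA : Laminar A)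
    (hB : Laminar B) : ∀ (n : ℕ) (y : D → ℝ),
    (open scoped Classical in
    (((A ∪ B) ∪ (Finset.univ.image (fun a : D => ({a} : Finset D)))).filter
      (fun S => ¬ TLInt (∑ a ∈ S, y a))).card) = n →
    ∃ z : D → ℤ, ∀ S ∈ (A ∪ B) ∪ (Finset.univ.image (fun a : D => ({a} : Finset D))),
      ⌊∑ a ∈ S, y a⌋ ≤ ∑ a ∈ S, z a ∧ ∑ a ∈ S, z a ≤ ⌈∑ a ∈ S, y a⌉ := by
  classical
  set Q : Finset (Finset D) := (A ∪ B) ∪ (Finset.univ.image (fun a : D => ({a} : Finset D))) with hQ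
  intro n
  induction n using Nat.strong_induction_on with
  | _ n ih =>
    intro y hn
    set F : Finset D := Finset.univ.filter (fun a => ¬ TLInt (y a)) with hF
    have hFmem : ∀ a, a ∈ F ↔ ¬ TLInt (y a) := by
      intro a
      simp [hF]
    rcases F.eq_empty_or_nonempty with hFe | hFn
    · -- everything is integral
      have hall : ∀ a, TLInt (y a) := by
        intro a
        by_contra h
        have := (hFmem a).2 h
        rw [hFe] at this
        exact absurd this (Finset.notMem_empty a)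
      choose z hz using hall
      refine ⟨z, fun S _ => ?_⟩
      have : ∑ a ∈ S, y a = ((∑ a ∈ S, z a : ℤ) : ℝ) := by
        push_cast
        exact Finset.sum_congr rfl (fun a _ => (hz a).symm)
      rw [this, Int.floor_intCast, Int.ceil_intCast]
      exact ⟨le_refl _, le_refl _⟩
    · obtain ⟨K1, hd1, hs1, hc1, hk1⟩ := tl_classes A hA y F hFmem
      obtain ⟨K2, hd2, hs2, hc2, hk2⟩ := tl_classes B hB y F hFmem
      obtain ⟨δ, ⟨a0, ha0⟩, hδF, hz1, hz2⟩ := tl_two F hFn K1 K2 hd1 hd2 hs1 hs2 hc1 hc2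
      have h0 : ∀ S ∈ Q, TLInt (∑ a ∈ S, y a) → ∑ a ∈ S, δ a = 0 := by
        intro S hS hi
        rw [hQ, Finset.mem_union, Finset.mem_union, Finset.mem_image] at hS
        rcases hS with (hS | hS) | ⟨a, _, rfl⟩
        · exact hk1 δ hδF hz1 S hS hi
        · exact hk2 δ hδF hz2 S hS hi
        · rw [Finset.sum_singleton] at hi ⊢
          exact hδF a (fun haF => (hFmem a).1 haF hi)
      have h1 : ∃ S ∈ Q, ∑ a ∈ S, δ a ≠ 0 := by
        refine ⟨{a0}, ?_, ?_⟩
        · rw [hQ, Finset.mem_union, Finset.mem_image]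
          exact Or.inr ⟨a0, Finset.mem_univ _, rfl⟩
        · rw [Finset.sum_singleton]
          exact ha0
      obtain ⟨y', hb, hi, S1, hS1, hn1, hi1⟩ := tl_move Q y δ h0 h1
      have hlt : (Q.filter (fun S => ¬ TLInt (∑ a ∈ S, y' a))).card < n := by
        rw [← hn]
        refine Finset.card_lt_card (Finset.ssubset_iff_subset_ne.2 ⟨?_, ?_⟩)
        · intro S hS
          rw [Finset.mem_filter] at hS ⊢
          exact ⟨hS.1, fun h => hS.2 (hi S hS.1 h)⟩
        · intro heq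
          have : S1 ∈ Q.filter (fun S => ¬ TLInt (∑ a ∈ S, y a)) :=
            Finset.mem_filter.2 ⟨hS1, hn1⟩
          rw [← heq, Finset.mem_filter] at this
          exact this.2 hi1
      obtain ⟨z, hz⟩ := ih _ hlt y' rfl
      refine ⟨z, fun S hS => ?_⟩
      obtain ⟨hz1, hz2⟩ := hz S hS
      obtain ⟨hb1, hb2⟩ := hb S hS
      exact ⟨le_trans (Int.le_floor.2 hb1) hz1, le_trans hz2 (Int.ceil_le.2 hb2)⟩

/-- L -/
theorem two_laminar [Fintype D] [DecidableEq D] (A B : Finset (Finset D)) (hA : Laminar A)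
    (hB : Laminar B) (la ha lb hb : Finset D → ℤ) (y : D → ℝ) (hy : ∀ a, 0 ≤ y a ∧ y a ≤ 1)
    (hyA : ∀ S ∈ A, (la S : ℝ) ≤ ∑ a ∈ S, y a ∧ ∑ a ∈ S, y a ≤ ha S)
    (hyB : ∀ S ∈ B, (lb S : ℝ) ≤ ∑ a ∈ S, y a ∧ ∑ a ∈ S, y a ≤ hb S) :
    ∃ z : D → ℤ, (∀ a, z a = 0 ∨ z a = 1) ∧
      (∀ S ∈ A, la S ≤ ∑ a ∈ S, z a ∧ ∑ a ∈ S, z a ≤ ha S) ∧
      (∀ S ∈ B, lb S ≤ ∑ a ∈ S, z a ∧ ∑ a ∈ S, z a ≤ hb S) := by
  classical
  obtain ⟨z, hz⟩ := tl_round A B hA hB _ y rfl
  refine ⟨z, fun a => ?_, fun S hS => ?_, fun S hS => ?_⟩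
  · have h1 := hz {a} (Finset.mem_union_right _ (Finset.mem_image.2 ⟨a, Finset.mem_univ _, rfl⟩))
    rw [Finset.sum_singleton, Finset.sum_singleton] at h1
    have h2 : (0 : ℤ) ≤ ⌊y a⌋ := Int.le_floor.2 (by exact_mod_cast (hy a).1)
    have h3 : ⌈y a⌉ ≤ (1 : ℤ) := Int.ceil_le.2 (by exact_mod_cast (hy a).2)
    omega
  · obtain ⟨h1, h2⟩ := hz S (Finset.mem_union_left _ (Finset.mem_union_left _ hS))
    exact ⟨le_trans (Int.le_floor.2 (hyA S hS).1) h1, le_trans h2 (Int.ceil_le.2 (hyA S hS).2)⟩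
  · obtain ⟨h1, h2⟩ := hz S (Finset.mem_union_left _ (Finset.mem_union_right _ hS))
    exact ⟨le_trans (Int.le_floor.2 (hyB S hS).1) h1, le_trans h2 (Int.ceil_le.2 (hyB S hS).2)⟩

end Pool.Agent.H606R2.FF
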