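import Pool.Agent.H606R2.FF.TCB
import Pool.Agent.H606R2.FF.TCL
import Pool.Agent.H606R2.FF.TL

/-!
# Task LI: an integral solution for a plane graph
-/

namespace Pool.Agent.H606R2.FF

open Equiv.Perm

variable {D : Type}

namespace LIaux

/-- The sum on a cycle as a sum over a finset. -/
theorem cycSum_eq [Fintype D] (φ : Equiv.Perm D) (w : D → ℝ) (d : D) (s : Finset D)
    (hs : ∀ a, a ∈ s ↔ φ.SameCycle d a) : cycSum φ w d = ∑ a ∈ s, w a := by
  unfold cycSum
  rw [← finsum_mem_coe_finset]
  apply finsum_mem_congr
  · ext a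
    simp [hs a]
  · intro _ _
    rfl

theorem cycSum_congr_cycle (φ : Equiv.Perm D) (w : D → ℝ) {d e : D} (h : φ.SameCycle d e) :
    cycSum φ w d = cycSum φ w e := by
  unfold cycSum
  apply finsum_mem_congr
  · ext a
    exact ⟨fun ha => h.symm.trans ha, fun ha => h.trans ha⟩
  · intro _ _
    rfl

theorem strips_congr_cycle (φ : Equiv.Perm D) (X : D → ℤ) (w : D → ℝ) {d e : D}
    (h : φ.SameCycle d e) (hs : Strips φ X w e) : Strips φ X w d :=
  fun a ha t ht => hs a (h.symm.trans ha) t ht

theorem zigzag_of_positions (G : PlaneGraph D) (X : D → ℤ) (hX : Positions G X) (d : D) :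
    Zigzag G.face X d := by
  have hne : ∀ a, X (G.rev a) ≠ X a := by
    intro a h
    have h1 := hX.X_len a
    have h2 := G.len_pos a
    rw [h, sub_self, abs_zero] at h1
    omega
  have hf : ∀ a, X (G.face a) = X (G.rev a) := fun a => hX.X_rot (G.rev a)
  intro a _
  have h1 := hX.same_side (G.rev a)
  rw [G.rev_rev, hX.X_rot] at h1
  have h2 : X (G.rev (G.rot (G.rev a))) = X (G.face (G.face a)) := by
    rw [hf (G.face a)]; rfl
  rw [h2] at h1
  have h3 := hne a
  have h4 : X (G.face (G.face a)) ≠ X (G.face a) := by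
    rw [hf (G.face a)]
    exact hne _
  rw [hf a] at h4 ⊢
  rcases lt_trichotomy (X (G.rev a)) (X a) with h | h | h
  · right
    exact ⟨h, h1.1 h⟩
  · exact absurd h h3
  · left
    refine ⟨h, ?_⟩
    have h5 : ¬ X (G.rev a) < X (G.face (G.face a)) := fun h6 => by
      have := h1.2 h6
      omega
    omega

/-- A function with the values `0` and `1` and the sum `1` takes the value `1` exactly once. -/
theorem exists_unique_of_sum (s : Finset D) (z : D → ℤ) (hz : ∀ a, z a = 0 ∨ z a = 1)
    (h : ∑ a ∈ s, z a = 1) : ∃! b, b ∈ s ∧ z b = 1 := by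
  classical
  have h1 : ∑ a ∈ s, z a = ((s.filter fun a => z a = 1).card : ℤ) := by
    rw [Finset.card_filter]
    push_cast
    apply Finset.sum_congr rfl
    intro a _
    rcases hz a with h | h <;> simp [h]
  rw [h] at h1
  have h2 : (s.filter fun a => z a = 1).card = 1 := by exact_mod_cast h1.symm
  obtain ⟨b, hb⟩ := Finset.card_eq_one.1 h2
  refine ⟨b, ?_, ?_⟩
  · have : b ∈ s.filter fun a => z a = 1 := by rw [hb]; exact Finset.mem_singleton_self b
    simpa using this
  · intro c hc
    have : c ∈ s.filter fun a => z a = 1 := by simpa using hc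
    rw [hb] at this
    exact Finset.mem_singleton.1 this

end LIaux

open LIaux in
/-- LI (uses CB, CL, L) -/
theorem exists_integral [Fintype D] (G : PlaneGraph D) (X : D → ℤ) (hX : Positions G X)
    (w : D → ℝ) (hw : Fractional G X w) :
    ∃ M : Set D, (∀ d, ∃! b, G.rot.SameCycle d b ∧ b ∈ M) ∧
      Fractional G X (fun a => (tau M a : ℝ)) := by
  classical
  -- one dart for every face
  obtain ⟨rep, hrep, hrep'⟩ : ∃ rep : D → D, (∀ d, G.face.SameCycle d (rep d)) ∧
      ∀ d e, G.face.SameCycle d e → rep d = rep e := by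
    refine ⟨fun d => (Quotient.mk (SameCycle.setoid G.face) d).out, ?_, ?_⟩
    · intro d
      exact (Quotient.exact (Quotient.out_eq (Quotient.mk (SameCycle.setoid G.face) d))).symm
    · intro d e h
      have : Quotient.mk (SameCycle.setoid G.face) d = Quotient.mk (SameCycle.setoid G.face) e :=
        Quotient.sound h
      show (Quotient.mk (SameCycle.setoid G.face) d).out = (Quotient.mk (SameCycle.setoid G.face) e).out
      rw [this]
  -- the lists
  choose l hnd h2 heven hmem hadj hpairs hzig hl using
    fun d => exists_list G.face X d (zigzag_of_positions G X hX d)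
  set T : D → ℤ := fun d => if G.face.SameCycle d G.out then -2 else 2 with hTdef
  have hT : ∀ d, T d = 2 ∨ T d = -2 := by
    intro d
    simp only [hTdef]
    split_ifs <;> simp
  choose Lam lo hi hlam hsub heq using
    fun d => exists_laminar X (l d) (hnd d) (hzig d) (heven d) (h2 d) (T d) (hT d)
  -- the total weights
  have htot : ∀ w' : D → ℝ, ((∀ d, (G.face.SameCycle d G.out → cycSum G.face w' d = -2) ∧
      (¬ G.face.SameCycle d G.out → cycSum G.face w' d = 2)) ↔
      ∀ d, cycSum G.face w' d = T d) := by
    intro w'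
    constructor
    · intro h d
      simp only [hTdef]
      by_cases hd : G.face.SameCycle d G.out
      · rw [if_pos hd, (h d).1 hd]; norm_num
      · rw [if_neg hd, (h d).2 hd]; norm_num
    · intro h d
      have h1 := h d
      simp only [hTdef] at h1
      constructor
      · intro hd
        rw [if_pos hd] at h1
        rw [h1]; norm_num
      · intro hd
        rw [if_neg hd] at h1
        rw [h1]; norm_num
  have hTrep : ∀ d, T (rep d) = T d := by
    intro d
    simp only [hTdef]
    have : G.face.SameCycle (rep d) G.out ↔ G.face.SameCycle d G.out :=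
      ⟨fun h => (hrep d).trans h, fun h => (hrep d).symm.trans h⟩
    simp only [this]
  -- the solution
  set y : D → ℝ := fun a => (1 - w a) / 2 with hy
  have hyw : (fun a => 1 - 2 * y a) = w := by
    funext a
    simp only [hy]
    ring
  have hybox : ∀ a, 0 ≤ y a ∧ y a ≤ 1 := by
    intro a
    have := abs_le.1 (hw.box a)
    simp only [hy]
    constructor <;> linarith [this.1, this.2]
  have hyface : ∀ d, ∀ S ∈ Lam d, (lo d S : ℝ) ≤ ∑ a ∈ S, y a ∧ ∑ a ∈ S, y a ≤ hi d S := by
    intro d
    apply (heq d y (fun a _ => hybox a)).1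
    rw [hyw]
    refine ⟨((hl d w).1).1 (hw.strips d), ?_⟩
    rw [← (hl d w).2]
    exact ((htot w).1 hw.total) d
  -- the vertices
  set V : D → Finset D := fun d => Finset.univ.filter fun a => G.rot.SameCycle d a with hV
  have hVmem : ∀ d a, a ∈ V d ↔ G.rot.SameCycle d a := by
    intro d a
    simp [hV]
  have hVcard : ∀ d, Nat.card {a | G.rot.SameCycle d a} = (V d).card := by
    intro d
    rw [Nat.card_coe_set_eq, ← Set.ncard_coe_finset]
    congr 1
    ext a
    simp [hVmem]
  have hVsum : ∀ d, ∑ a ∈ V d, y a = 1 := by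
    intro d
    have h1 := hw.vertex d
    rw [cycSum_eq G.rot w d (V d) (hVmem d), hVcard d] at h1
    simp only [hy]
    rw [← Finset.sum_div, Finset.sum_sub_distrib, h1]
    simp
  set A : Finset (Finset D) := Finset.univ.image V with hA
  have hlamA : Laminar A := by
    intro S hS S' hS'
    obtain ⟨d, -, rfl⟩ := Finset.mem_image.1 hS
    obtain ⟨e, -, rfl⟩ := Finset.mem_image.1 hS'
    by_cases hde : G.rot.SameCycle d e
    · left
      intro a ha
      rw [hVmem] at ha ⊢
      exact hde.symm.trans ha
    · right; right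
      rw [Finset.disjoint_left]
      intro a ha ha'
      rw [hVmem] at ha ha'
      exact hde (ha.trans ha'.symm)
  -- the faces
  set B : Finset (Finset D) := Finset.univ.biUnion fun d => Lam (rep d) with hB
  set el : Finset D → D := fun S => if h : S.Nonempty then h.choose else G.out with hel
  have helrep : ∀ d, ∀ S ∈ Lam (rep d), rep (el S) = rep d := by
    intro d S hS
    have hne := (hsub (rep d) S hS).2
    have h1 : el S ∈ S := by
      simp only [hel]
      rw [dif_pos hne]
      exact hne.choose_spec
    have h3 : G.face.SameCycle (rep d) (el S) := by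
      have := (hsub (rep d) S hS).1 h1
      rw [List.mem_toFinset] at this
      exact (hmem (rep d) (el S)).1 this
    exact (hrep' d (el S) ((hrep d).trans h3)).symm
  have hlamB : Laminar B := by
    intro S hS S' hS'
    obtain ⟨d, -, hd⟩ := Finset.mem_biUnion.1 hS
    obtain ⟨e, -, he⟩ := Finset.mem_biUnion.1 hS'
    by_cases hde : rep d = rep e
    · exact hlam (rep d) S hd S' (hde ▸ he)
    · right; right
      rw [Finset.disjoint_left]
      intro a ha ha'
      apply hde
      have h1 := (hsub (rep d) S hd).1 ha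
      have h3 := (hsub (rep e) S' he).1 ha'
      rw [List.mem_toFinset, hmem] at h1 h3
      exact hrep' d e (((hrep d).trans h1).trans (((hrep e).trans h3).symm))
  -- the integral solution
  obtain ⟨z, hz01, hzA, hzB⟩ := two_laminar A B hlamA hlamB (fun _ => 1) (fun _ => 1)
    (fun S => lo (rep (el S)) S) (fun S => hi (rep (el S)) S) y hybox
    (by
      intro S hS
      obtain ⟨d, -, rfl⟩ := Finset.mem_image.1 hS
      rw [hVsum d]
      norm_num)
    (by
      intro S hS
      obtain ⟨d, -, hd⟩ := Finset.mem_biUnion.1 hS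
      show (lo (rep (el S)) S : ℝ) ≤ _ ∧ _ ≤ (hi (rep (el S)) S : ℝ)
      rw [helrep d S hd]
      exact hyface (rep d) S hd)
  have hzV : ∀ d, ∑ a ∈ V d, z a = 1 := by
    intro d
    have := hzA (V d) (Finset.mem_image.2 ⟨d, Finset.mem_univ d, rfl⟩)
    exact le_antisymm this.2 this.1
  have htau : ∀ a, (tau {a | z a = 1} a : ℝ) = 1 - 2 * (z a : ℝ) := by
    intro a
    unfold tau
    rcases hz01 a with h | h
    · rw [if_neg (by simp [h]), h]; norm_num
    · rw [if_pos (by simp [h]), h]; norm_num
  have htau' : (fun a => (tau {a | z a = 1} a : ℝ)) = fun a => 1 - 2 * (z a : ℝ) := funext htau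
  refine ⟨{a | z a = 1}, ?_, ?_⟩
  · intro d
    obtain ⟨b, hb, hb'⟩ := exists_unique_of_sum (V d) z hz01 (hzV d)
    refine ⟨b, ⟨(hVmem d b).1 hb.1, hb.2⟩, ?_⟩
    intro c hc
    exact hb' c ⟨(hVmem d c).2 hc.1, hc.2⟩
  · rw [htau']
    have hz0 : ∀ a, 0 ≤ (z a : ℝ) ∧ (z a : ℝ) ≤ 1 := by
      intro a
      rcases hz01 a with h | h <;> rw [h] <;> norm_num
    have hface : ∀ d, LStrips X (fun a => 1 - 2 * (z a : ℝ)) (l (rep d)) ∧
        ((l (rep d)).map fun a => 1 - 2 * (z a : ℝ)).sum = T (rep d) := by
      intro d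
      apply (heq (rep d) (fun a => (z a : ℝ)) (fun a _ => hz0 a)).2
      intro S hS
      have h1 := hzB S (Finset.mem_biUnion.2 ⟨d, Finset.mem_univ d, hS⟩)
      simp only [helrep d S hS] at h1
      constructor
      · have := h1.1
        exact_mod_cast this
      · have := h1.2
        exact_mod_cast this
    refine ⟨?_, ?_, ?_, ?_⟩
    · intro a
      rcases hz01 a with h | h <;> simp only [h] <;> norm_num
    · intro d
      rw [cycSum_eq G.rot _ d (V d) (hVmem d), hVcard d, Finset.sum_sub_distrib,
        ← Finset.mul_sum]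
      have : (∑ a ∈ V d, (z a : ℝ)) = 1 := by exact_mod_cast hzV d
      rw [this]
      simp
    · apply (htot _).2
      intro d
      rw [cycSum_congr_cycle G.face _ (hrep d), (hl (rep d) _).2, (hface d).2, hTrep d]
    · intro d
      exact strips_congr_cycle G.face X _ (hrep d) (((hl (rep d) _).1).2 (hface d).1)

end Pool.Agent.H606R2.FF
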