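import Pool.Agent.H606R2.FF.TNW

/-!
# Task NB: the total of a face from a topmost dart
-/

namespace Pool.Agent.H606R2.FF

open Equiv.Perm PlaneGraph

variable {D : Type}

namespace NB

theorem Wf_eq_zero_of_lt {x : ℕ → ℤ} {S : ℕ → ℕ → ℤ} {m : ℕ} {s : ℤ}
    (h : ∀ i ≤ m + 1, s < x i) : Wf x S m s = 0 := by
  unfold Wf
  refine Finset.sum_eq_zero fun j hj => Finset.sum_eq_zero fun i hi => ?_
  rw [Finset.mem_range] at hj hi
  have h1 : fl x j s = 0 := by
    unfold fl
    rw [if_neg (not_le.2 (h j (by omega))), if_neg (not_le.2 (h (j + 1) (by omega)))]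
    rfl
  rw [h1]; ring

theorem Wf_eq_zero_of_ge {x : ℕ → ℤ} {S : ℕ → ℕ → ℤ} {m : ℕ} {s : ℤ}
    (h : ∀ i ≤ m + 1, x i ≤ s) : Wf x S m s = 0 := by
  unfold Wf
  refine Finset.sum_eq_zero fun j hj => Finset.sum_eq_zero fun i hi => ?_
  rw [Finset.mem_range] at hj hi
  have h1 : fl x j s = 0 := by
    unfold fl
    rw [if_pos (h j (by omega)), if_pos (h (j + 1) (by omega))]
    rfl
  rw [h1]; ring

theorem telescope {x g : ℕ → ℤ} {S : ℕ → ℕ → ℤ} {m : ℕ}
    (hstep : ∀ c, x 0 ≠ c → x (m + 1) ≠ c → Wf x S m (c - 1) - Wf x S m c =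
      ∑ i ∈ (Finset.Icc 1 m).filter (fun i => x i = c), g i) (a : ℤ) :
    ∀ k : ℕ, (∀ c, a < c → c ≤ a + k → x 0 ≠ c ∧ x (m + 1) ≠ c) →
      Wf x S m a - Wf x S m (a + k) =
        ∑ i ∈ (Finset.Icc 1 m).filter (fun i => a < x i ∧ x i ≤ a + k), g i := by
  intro k
  induction k with
  | zero =>
    intro _
    rw [Finset.sum_eq_zero]
    · simp
    · intro i hi
      rw [Finset.mem_filter] at hi
      push_cast at hi
      omega
  | succ k ih =>
    intro hc
    have h1 := ih fun c h1 h2 => hc c h1 (by push_cast; omega)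
    obtain ⟨h2, h3⟩ := hc (a + k + 1) (by omega) (by push_cast; omega)
    have h4 := hstep (a + k + 1) h2 h3
    rw [show a + (k : ℤ) + 1 - 1 = a + k by ring] at h4
    rw [show a + ((k + 1 : ℕ) : ℤ) = a + k + 1 by push_cast; ring]
    have h5 : (Finset.Icc 1 m).filter (fun i => a < x i ∧ x i ≤ a + k + 1) =
        (Finset.Icc 1 m).filter (fun i => a < x i ∧ x i ≤ a + k) ∪
          (Finset.Icc 1 m).filter (fun i => x i = a + k + 1) := by
      ext i
      simp only [Finset.mem_filter, Finset.mem_union]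
      constructor
      · rintro ⟨h, h', h''⟩
        by_cases h6 : x i = a + k + 1
        · exact Or.inr ⟨h, h6⟩
        · exact Or.inl ⟨h, h', by omega⟩
      · rintro (⟨h, h', h''⟩ | ⟨h, h'⟩)
        · exact ⟨h, h', by omega⟩
        · exact ⟨h, by omega, by omega⟩
    rw [h5, Finset.sum_union, ← h1, ← h4]
    · ring
    · rw [Finset.disjoint_left]
      intro i hi hi'
      rw [Finset.mem_filter] at hi hi'
      omega

/-- the sum over the lower positions -/
theorem low {x g : ℕ → ℤ} {S : ℕ → ℕ → ℤ} {m : ℕ}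
    (hstep : ∀ c, x 0 ≠ c → x (m + 1) ≠ c → Wf x S m (c - 1) - Wf x S m c =
      ∑ i ∈ (Finset.Icc 1 m).filter (fun i => x i = c), g i) (s : ℤ)
    (h0 : s < x 0) (h1 : s < x (m + 1)) :
    ∑ i ∈ (Finset.Icc 1 m).filter (fun i => x i ≤ s), g i = - Wf x S m s := by
  -- a bound for the positions
  obtain ⟨N, hN⟩ : ∃ N : ℕ, ∀ i ≤ m + 1, s - N < x i := by
    refine ⟨∑ i ∈ Finset.range (m + 2), (|s - x i| + 1).toNat, fun i hi => ?_⟩
    have h2 : (|s - x i| + 1).toNat ≤ ∑ i ∈ Finset.range (m + 2), (|s - x i| + 1).toNat :=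
      Finset.single_le_sum (f := fun i => (|s - x i| + 1).toNat) (fun _ _ => Nat.zero_le _)
        (Finset.mem_range.2 (by omega))
    have h3 := le_abs_self (s - x i)
    omega
  have h2 := telescope hstep (s - N) N (fun c h2 h3 => by
    constructor
    · omega
    · omega)
  rw [show s - (N : ℤ) + N = s by ring, Wf_eq_zero_of_lt hN] at h2
  rw [zero_sub] at h2
  rw [h2]
  refine Finset.sum_congr ?_ fun _ _ => rfl
  ext i
  simp only [Finset.mem_filter, Finset.mem_Icc]
  constructor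
  · rintro ⟨h, h'⟩
    exact ⟨h, hN i (by omega), h'⟩
  · rintro ⟨h, _, h'⟩
    exact ⟨h, h'⟩

/-- the sum over the upper positions -/
theorem high {x g : ℕ → ℤ} {S : ℕ → ℕ → ℤ} {m : ℕ}
    (hstep : ∀ c, x 0 ≠ c → x (m + 1) ≠ c → Wf x S m (c - 1) - Wf x S m c =
      ∑ i ∈ (Finset.Icc 1 m).filter (fun i => x i = c), g i) (s : ℤ)
    (h0 : x 0 ≤ s) (h1 : x (m + 1) ≤ s) :
    ∑ i ∈ (Finset.Icc 1 m).filter (fun i => ¬ x i ≤ s), g i = Wf x S m s := by
  obtain ⟨N, hN⟩ : ∃ N : ℕ, ∀ i ≤ m + 1, x i ≤ s + N := by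
    refine ⟨∑ i ∈ Finset.range (m + 2), (|s - x i| + 1).toNat, fun i hi => ?_⟩
    have h2 : (|s - x i| + 1).toNat ≤ ∑ i ∈ Finset.range (m + 2), (|s - x i| + 1).toNat :=
      Finset.single_le_sum (f := fun i => (|s - x i| + 1).toNat) (fun _ _ => Nat.zero_le _)
        (Finset.mem_range.2 (by omega))
    have h3 := neg_abs_le (s - x i)
    omega
  have h2 := telescope hstep s N (fun c h2 h3 => by
    constructor
    · omega
    · omega)
  rw [Wf_eq_zero_of_ge hN, sub_zero] at h2
  rw [h2]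
  refine Finset.sum_congr ?_ fun _ _ => rfl
  ext i
  simp only [Finset.mem_filter, Finset.mem_Icc]
  constructor
  · rintro ⟨h, h'⟩
    exact ⟨h, by omega, hN i (by omega)⟩
  · rintro ⟨h, h', _⟩
    exact ⟨h, by omega⟩

/-- rotating the walk by one step -/
theorem Wf_sub {x : ℕ → ℤ} {S S' : ℕ → ℕ → ℤ} {T : ℕ → ℕ → ℤ} {m : ℕ} {s : ℤ}
    (h1 : ∀ i j, i < j → S i j = T i j) (h2 : ∀ i j, i < j → S' i j = T (i + 1) (j + 1)) :
    Wf x S m s - Wf (fun i => x (i + 1)) S' m s =
      ∑ j ∈ Finset.range m, fl x 0 s * fl x (j + 1) s * T 0 (j + 1) -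
        ∑ j ∈ Finset.range m, fl x (j + 1) s * fl x (m + 1) s * T (j + 1) (m + 1) := by
  have e0 : Wf x S m s = ∑ j ∈ Finset.range m, (fl x 0 s * fl x (j + 1) s * T 0 (j + 1) +
      ∑ i ∈ Finset.range j, fl x (i + 1) s * fl x (j + 1) s * T (i + 1) (j + 1)) := by
    unfold Wf
    rw [Finset.sum_range_succ']
    rw [Finset.range_zero, Finset.sum_empty, add_zero]
    refine Finset.sum_congr rfl fun j _ => ?_
    rw [Finset.sum_range_succ', add_comm, h1 0 (j + 1) (by omega)]
    congr 1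
    refine Finset.sum_congr rfl fun i hi => ?_
    rw [Finset.mem_range] at hi
    rw [h1 (i + 1) (j + 1) (by omega)]
  have e1 : Wf (fun i => x (i + 1)) S' m s = (∑ j ∈ Finset.range m,
      ∑ i ∈ Finset.range j, fl x (i + 1) s * fl x (j + 1) s * T (i + 1) (j + 1)) +
      ∑ i ∈ Finset.range m, fl x (i + 1) s * fl x (m + 1) s * T (i + 1) (m + 1) := by
    unfold Wf
    rw [Finset.sum_range_succ]
    congr 1
    · refine Finset.sum_congr rfl fun j _ => Finset.sum_congr rfl fun i hi => ?_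
      rw [Finset.mem_range] at hi
      rw [h2 i j hi]
      rfl
    · refine Finset.sum_congr rfl fun i hi => ?_
      rw [Finset.mem_range] at hi
      rw [h2 i m hi]
      rfl
  rw [e0, e1, Finset.sum_add_distrib]
  ring

theorem sum_fl (x : ℕ → ℤ) (s : ℤ) (n : ℕ) : ∑ j ∈ Finset.range n, fl x j s =
    (if x 0 ≤ s then 1 else 0) - (if x n ≤ s then 1 else 0) := by
  induction n with
  | zero => simp
  | succ n ih =>
    rw [Finset.sum_range_succ, ih]
    unfold fl
    ring

/-- the cycle sum as a sum over a walk -/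
theorem cycSum_eq [Fintype D] (φ : Equiv.Perm D) (w : D → ℝ) (d : D) :
    ∃ m : ℕ, (φ ^ (m + 1)) d = d ∧ (∀ i ≤ m, ∀ j ≤ m, (φ ^ i) d = (φ ^ j) d → i = j) ∧
      (∀ i, φ.SameCycle d ((φ ^ i) d)) ∧
      cycSum φ w d = ∑ i ∈ Finset.range (m + 1), w ((φ ^ i) d) := by
  classical
  have hp : d ∈ Function.periodicPts φ := φ.injective.mem_periodicPts d
  have hn : 0 < Function.minimalPeriod φ d := Function.minimalPeriod_pos_of_mem_periodicPts hp
  obtain ⟨m, hm⟩ : ∃ m, Function.minimalPeriod φ d = m + 1 :=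
    ⟨Function.minimalPeriod φ d - 1, by omega⟩
  have hpow : ∀ i, (φ ^ i) d = φ^[i] d := fun i => by rw [Equiv.Perm.iterate_eq_pow]
  have hper : (φ ^ (m + 1)) d = d := by
    rw [hpow, ← hm]
    exact Function.iterate_minimalPeriod
  have hinj : ∀ i ≤ m, ∀ j ≤ m, (φ ^ i) d = (φ ^ j) d → i = j := by
    intro i hi j hj h
    rw [hpow, hpow] at h
    exact Function.iterate_injOn_Iio_minimalPeriod (f := φ) (x := d)
      (by rw [Set.mem_Iio]; omega) (by rw [Set.mem_Iio]; omega) h
  refine ⟨m, hper, hinj, fun i => ⟨i, by simp⟩, ?_⟩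
  have hset : {a | φ.SameCycle d a} =
      ↑((Finset.range (m + 1)).image fun i => (φ ^ i) d) := by
    ext a
    simp only [Set.mem_ofPred_eq, Finset.coe_image, Set.mem_image, Finset.coe_range, Set.mem_Iio]
    constructor
    · intro h
      obtain ⟨i, hi⟩ := h.exists_nat_pow_eq
      refine ⟨i % (m + 1), Nat.mod_lt _ (by omega), ?_⟩
      rw [hpow, ← hm, Function.iterate_mod_minimalPeriod_eq, ← hpow]
      exact hi
    · rintro ⟨i, _, rfl⟩
      exact ⟨i, by simp⟩
  unfold cycSum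
  rw [hset, finsum_mem_coe_finset, Finset.sum_image]
  intro i hi j hj h
  rw [Finset.mem_coe, Finset.mem_range] at hi hj
  exact hinj i (by omega) j (by omega) h

theorem sg_above {G : PlaneGraph D} (F : G.FoldedState) (s : ℤ) {d e : D} (hne : e ≠ d)
    (hd : min (F.X d) (F.X (G.rev d)) ≤ s) (hd' : s < max (F.X d) (F.X (G.rev d)))
    (he : min (F.X e) (F.X (G.rev e)) ≤ s) (he' : s < max (F.X e) (F.X (G.rev e)))
    (h : F.sAbove d e) : F.sg d e = 1 ∧ F.sg e d = -1 := by
  classical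
  refine ⟨by unfold FoldedState.sg; rw [if_pos h], ?_⟩
  unfold FoldedState.sg
  rw [if_neg]
  rintro (⟨h1, h2⟩ | ⟨h1, h2⟩)
  · rcases h with ⟨h3, h4⟩ | ⟨h3, h4⟩
    · have h5 := F.total d e hne.symm h3 (lt_of_le_of_lt (max_le hd he) (lt_min hd' he'))
      exact h5.1 h4 h2
    · apply h1
      rw [h3, G.rev_rev]
  · rcases h with ⟨h3, h4⟩ | ⟨h3, h4⟩
    · apply h3
      rw [h1, G.rev_rev]
    · omega

end NB

open NB in
/-- NB (uses NW): the total of a face is `2` or `-2`, according to the direction of a topmost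
dart `d` over some interval `(s, s+1)` -/
theorem total_top [Fintype D] {G : PlaneGraph D} (F : G.FoldedState) (d : D) (s : ℤ)
    (hd : min (F.X d) (F.X (G.rev d)) ≤ s) (hd' : s < max (F.X d) (F.X (G.rev d)))
    (htop : ∀ e, G.face.SameCycle d e → min (F.X e) (F.X (G.rev e)) ≤ s →
      s < max (F.X e) (F.X (G.rev e)) → e ≠ d → F.sAbove d e) :
    cycSum G.face (fun a => (tau F.M a : ℝ)) d = if F.X d < F.X (G.rev d) then 2 else -2 := by
  classical
  obtain ⟨m, hper, hinj, hsame, hsum⟩ := cycSum_eq G.face (fun a => (tau F.M a : ℝ)) d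
  rw [hsum]
  -- positions
  have hX : ∀ a, F.X (G.face a) = F.X (G.rev a) := fun a => F.X_rot (G.rev a)
  set z : ℕ → D := fun i => (G.face ^ i) d with hz
  set x : ℕ → ℤ := fun i => F.X (z i) with hx
  set g : ℕ → ℤ := fun i => tau F.M (z i) with hg
  have hz0 : z 0 = d := by simp [hz]
  have hzm : z (m + 1) = d := hper
  have hzs : ∀ i, z (i + 1) = G.face (z i) := fun i => by
    simp only [hz]
    rw [pow_succ', Equiv.Perm.mul_apply]
  have hxr : ∀ i, F.X (G.rev (z i)) = x (i + 1) := fun i => by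
    rw [← hX, ← hzs]
  have hz1 : ∀ i, (G.face ^ i) (z 1) = z (i + 1) := fun i => by
    simp only [hz]
    rw [← Equiv.Perm.mul_apply, ← pow_add]
  have hzm2 : z (m + 1 + 1) = z 1 := by
    rw [hzs, hzm, hzs 0, hz0]
  -- the walk from `z 0`
  have step0 : ∀ c, x 0 ≠ c → x (m + 1) ≠ c → Wf x (F.sgS d) m (c - 1) - Wf x (F.sgS d) m c =
      ∑ i ∈ (Finset.Icc 1 m).filter (fun i => x i = c), g i := by
    intro c h0 h1
    exact W_face F d m c (by rw [← hz0]; exact h0) h1 hinj
  -- the walk from `z 1`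
  have step1 : ∀ c, x 1 ≠ c → x (m + 1 + 1) ≠ c →
      Wf (fun i => x (i + 1)) (F.sgS (z 1)) m (c - 1) - Wf (fun i => x (i + 1)) (F.sgS (z 1)) m c =
      ∑ i ∈ (Finset.Icc 1 m).filter (fun i => x (i + 1) = c), g (i + 1) := by
    intro c h0 h1
    have h2 := W_face F (z 1) m c h0 (by rw [hz1]; exact h1) (fun i hi j hj h => by
      rw [hz1, hz1, hzs, hzs] at h
      exact hinj i hi j hj (G.face.injective h))
    simp only [hz1] at h2
    exact h2
  -- the signs
  set T : ℕ → ℕ → ℤ := fun i j => F.sg (z j) (z i) with hT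
  have hS0 : ∀ i j, i < j → F.sgS d i j = T i j := by
    intro i j hij
    unfold FoldedState.sgS
    rw [if_pos hij]
  have hS1 : ∀ i j, i < j → F.sgS (z 1) i j = T (i + 1) (j + 1) := by
    intro i j hij
    unfold FoldedState.sgS
    rw [if_pos hij, hz1, hz1]
  have hW := Wf_sub (x := x) (s := s) (m := m) hS0 hS1
  have hflm : fl x (m + 1) s = fl x 0 s := by
    have e1 : x (m + 1) = x 0 := by simp only [hx]; rw [hzm, hz0]
    have e2 : x (m + 1 + 1) = x (0 + 1) := by simp only [hx]; rw [hzm2]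
    unfold fl
    rw [e1, e2]
  have hdir : x 0 = F.X d := by simp only [hx]; rw [hz0]
  have hdir1 : x 1 = F.X (G.rev d) := by rw [← hxr 0, hz0]
  have hover : ∀ j, fl x j s ≠ 0 → min (F.X (z j)) (F.X (G.rev (z j))) ≤ s ∧
      s < max (F.X (z j)) (F.X (G.rev (z j))) := by
    intro j hj
    rw [hxr]
    change min (x j) (x (j + 1)) ≤ s ∧ s < max (x j) (x (j + 1))
    unfold fl at hj
    rw [min_le_iff, lt_max_iff]
    by_contra hc
    apply hj
    split_ifs <;> first | rfl | (exfalso; apply hc; constructor <;> omega)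
  have hW' : Wf x (F.sgS d) m s - Wf (fun i => x (i + 1)) (F.sgS (z 1)) m s =
      2 * (fl x 0 s * fl x 0 s) := by
    rw [hW, ← Finset.sum_sub_distrib]
    have e3 : ∀ j ∈ Finset.range m, fl x 0 s * fl x (j + 1) s * T 0 (j + 1) -
        fl x (j + 1) s * fl x (m + 1) s * T (j + 1) (m + 1) =
        (-2 * fl x 0 s) * fl x (j + 1) s := by
      intro j hj
      rw [Finset.mem_range] at hj
      rw [hflm]
      by_cases h0 : fl x (j + 1) s = 0
      · rw [h0]; ring
      · obtain ⟨h1, h2⟩ := hover _ h0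
        have hne : z (j + 1) ≠ d := fun h => by
          have := hinj (j + 1) (by omega) 0 (by omega) (by rw [pow_zero]; exact h)
          omega
        obtain ⟨h3, h4⟩ := sg_above F s hne hd hd' h1 h2
          (htop _ (hsame (j + 1)) h1 h2 hne)
        have h5 : T 0 (j + 1) = -1 := by
          simp only [hT]; rw [hz0]; exact h4
        have h6 : T (j + 1) (m + 1) = 1 := by
          simp only [hT]; rw [hzm]; exact h3
        rw [h5, h6]; ring
    rw [Finset.sum_congr rfl e3, ← Finset.mul_sum]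
    have e4 := sum_fl x s (m + 1)
    rw [Finset.sum_range_succ'] at e4
    have e5 : x (m + 1) = x 0 := by simp only [hx]; rw [hzm, hz0]
    rw [e5, sub_self] at e4
    have e6 : ∑ j ∈ Finset.range m, fl x (j + 1) s = - fl x 0 s := by linarith
    rw [e6]; ring
  -- the total as a sum over `Icc 1 (m + 1)`
  have htot : ∑ i ∈ Finset.range (m + 1), g i = ∑ i ∈ Finset.Icc 1 (m + 1), g i := by
    have e1 : ∑ i ∈ Finset.Icc 1 (m + 1), g i = ∑ i ∈ Finset.range (m + 1), g (i + 1) := by
      rw [Finset.range_eq_Ico, Finset.sum_Ico_add' (fun i => g i) 0 (m + 1) 1]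
      refine Finset.sum_congr ?_ fun _ _ => rfl
      ext i
      simp only [Finset.mem_Icc, Finset.mem_Ico]
      omega
    have e2 : g 0 = g (m + 1) := by simp only [hg]; rw [hz0, hzm]
    rw [e1, Finset.sum_range_succ' g m, Finset.sum_range_succ (fun i => g (i + 1)) m, e2]
  have hcast : ∑ i ∈ Finset.range (m + 1), (tau F.M ((G.face ^ i) d) : ℝ) =
      ((∑ i ∈ Finset.Icc 1 (m + 1), g i : ℤ) : ℝ) := by
    rw [← htot]
    push_cast
    rfl
  rw [hcast]
  -- the sum over the first `m` and the last `m`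
  have hfirst : ∀ p : ℕ → Prop, [DecidablePred p] → ¬ p (m + 1) →
      ∑ i ∈ (Finset.Icc 1 (m + 1)).filter p, g i = ∑ i ∈ (Finset.Icc 1 m).filter p, g i := by
    intro p _ hp
    refine Finset.sum_congr ?_ fun _ _ => rfl
    ext i
    simp only [Finset.mem_filter, Finset.mem_Icc]
    constructor
    · rintro ⟨⟨h1, h2⟩, h3⟩
      refine ⟨⟨h1, ?_⟩, h3⟩
      by_contra h4
      have : i = m + 1 := by omega
      exact hp (this ▸ h3)
    · rintro ⟨⟨h1, h2⟩, h3⟩
      exact ⟨⟨h1, by omega⟩, h3⟩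
  have hlast : ∀ p : ℕ → Prop, [DecidablePred p] → ¬ p 1 →
      ∑ i ∈ (Finset.Icc 1 (m + 1)).filter p, g i =
        ∑ i ∈ (Finset.Icc 1 m).filter (fun i => p (i + 1)), g (i + 1) := by
    intro p _ hp
    symm
    refine Finset.sum_bij (fun i _ => i + 1) ?_ ?_ ?_ ?_
    · intro i hi
      simp only [Finset.mem_filter, Finset.mem_Icc] at hi ⊢
      exact ⟨by omega, hi.2⟩
    · intro i _ j _ h
      exact Nat.succ_injective h
    · intro i hi
      simp only [Finset.mem_filter, Finset.mem_Icc] at hi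
      have h1 : i ≠ 1 := fun h => hp (h ▸ hi.2)
      refine ⟨i - 1, ?_, by omega⟩
      simp only [Finset.mem_filter, Finset.mem_Icc]
      have h2 : i - 1 + 1 = i := by omega
      rw [h2]
      exact ⟨by omega, hi.2⟩
    · intro i _
      rfl
  have hsplit := Finset.sum_filter_add_sum_filter_not (Finset.Icc 1 (m + 1))
    (fun i => x i ≤ s) g
  have hxm : x (m + 1) = x 0 := by simp only [hx]; rw [hzm, hz0]
  have hxm2 : x (m + 1 + 1) = x 1 := by simp only [hx]; rw [hzm2]
  by_cases hR : F.X d < F.X (G.rev d)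
  · rw [if_pos hR]
    rw [min_eq_left hR.le, ← hdir] at hd
    rw [max_eq_right hR.le, ← hdir1] at hd'
    have a1 := hlast (fun i => x i ≤ s) (by omega)
    have a2 := low (x := fun i => x (i + 1)) (g := fun i => g (i + 1)) step1 s hd'
      (by rw [hxm2]; exact hd')
    have b1 := hfirst (fun i => ¬ x i ≤ s) (by omega)
    have b2 := high step0 s hd (by omega)
    have hf : fl x 0 s = 1 := by
      unfold fl
      rw [if_pos hd, if_neg (by rw [zero_add]; omega)]
      rfl
    rw [hf] at hW'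
    have : ∑ i ∈ Finset.Icc 1 (m + 1), g i = 2 := by
      rw [← hsplit, a1, a2, b1, b2]
      linarith
    rw [this]; norm_num
  · rw [if_neg hR]
    have hR' : F.X (G.rev d) ≤ F.X d := not_lt.1 hR
    rw [min_eq_right hR', ← hdir1] at hd
    rw [max_eq_left hR', ← hdir] at hd'
    have a1 := hfirst (fun i => x i ≤ s) (by omega)
    have a2 := low step0 s hd' (by omega)
    have b1 := hlast (fun i => ¬ x i ≤ s) (by omega)
    have b2 := high (x := fun i => x (i + 1)) (g := fun i => g (i + 1)) step1 s hd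
      (by rw [hxm2]; exact hd)
    have hf : fl x 0 s = -1 := by
      unfold fl
      rw [if_neg (by omega), if_pos (by rw [zero_add]; exact hd)]
      rfl
    rw [hf] at hW'
    have : ∑ i ∈ Finset.Icc 1 (m + 1), g i = -2 := by
      rw [← hsplit, a1, a2, b1, b2]
      linarith
    rw [this]; norm_num

end Pool.Agent.H606R2.FF
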