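import Pool.Agent.H606R2.FF.TNA
import Pool.Agent.H606R2.FF.TNB

/-!
# Task NC: the conditions for a folded state
-/

namespace Pool.Agent.H606R2.FF

open Equiv.Perm PlaneGraph

variable {D : Type}

namespace TNC

/-- top element of a finite set for a relation which is total and transitive on it -/
lemma exists_top {α : Type} [DecidableEq α] (r : α → α → Prop) (S : Finset α) (hS : S.Nonempty)
    (htot : ∀ a ∈ S, ∀ b ∈ S, a ≠ b → r a b ∨ r b a)
    (htr : ∀ a ∈ S, ∀ b ∈ S, ∀ c ∈ S, a ≠ b → b ≠ c → a ≠ c → r a b → r b c → r a c) :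
    ∃ t ∈ S, ∀ e ∈ S, e ≠ t → r t e := by
  induction S using Finset.induction_on with
  | empty => exact absurd hS (by simp)
  | insert a S ha ih =>
    by_cases hne : S.Nonempty
    · obtain ⟨t, ht, htop⟩ := ih hne
        (fun x hx y hy => htot x (Finset.mem_insert_of_mem hx) y (Finset.mem_insert_of_mem hy))
        (fun x hx y hy z hz => htr x (Finset.mem_insert_of_mem hx) y (Finset.mem_insert_of_mem hy)
          z (Finset.mem_insert_of_mem hz))
      have hat : a ≠ t := by
        rintro rfl; exact ha ht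
      rcases htot a (Finset.mem_insert_self _ _) t (Finset.mem_insert_of_mem ht) hat with h | h
      · refine ⟨a, Finset.mem_insert_self _ _, fun e he hea => ?_⟩
        rcases Finset.mem_insert.1 he with h' | h'
        · exact absurd h' hea
        · by_cases het : e = t
          · rw [het]; exact h
          · exact htr a (Finset.mem_insert_self _ _) t (Finset.mem_insert_of_mem ht) e he hat
              (fun h => het h.symm) (fun h => hea h.symm) h (htop e h' het)
      · refine ⟨t, Finset.mem_insert_of_mem ht, fun e he het => ?_⟩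
        rcases Finset.mem_insert.1 he with h' | h'
        · rw [h']; exact h
        · exact htop e h' het
    · rw [Finset.not_nonempty_iff_eq_empty] at hne
      subst hne
      refine ⟨a, by simp, fun e he hea => ?_⟩
      simp at he
      exact absurd he hea

/-- the dart `d` is over the interval `(s, s+1)` -/
def ovr1 {G : PlaneGraph D} (F : G.FoldedState) (s : ℤ) (d : D) : Prop :=
  min (F.X d) (F.X (G.rev d)) ≤ s ∧ s < max (F.X d) (F.X (G.rev d))

variable {G : PlaneGraph D} (F : G.FoldedState)

lemma X_ne (d : D) : F.X d ≠ F.X (G.rev d) := by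
  intro h
  have h1 := F.X_len d
  rw [h, sub_self, abs_zero] at h1
  have h2 := G.len_pos d
  omega

lemma rev_inj {a b : D} (h : G.rev a = G.rev b) : a = b := G.rev.injective h

lemma sAbove_total {s : ℤ} {a b : D} (ha : ovr1 F s a) (hb : ovr1 F s b) (hab : a ≠ b) :
    F.sAbove a b ∨ F.sAbove b a := by
  unfold PlaneGraph.FoldedState.sAbove
  by_cases h : a = G.rev b
  · have hb' : b = G.rev a := by rw [h, G.rev_rev]
    have hne := X_ne F a
    rw [← hb'] at hne
    rcases lt_or_gt_of_ne hne with h1 | h1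
    · exact Or.inr (Or.inr ⟨hb', h1⟩)
    · exact Or.inl (Or.inr ⟨h, h1⟩)
  · have hb' : b ≠ G.rev a := by
      intro h'
      apply h
      rw [h', G.rev_rev]
    have ht := F.total a b hab h (by
      unfold ovr1 at ha hb
      exact lt_of_le_of_lt (max_le ha.1 hb.1) (lt_min ha.2 hb.2))
    by_cases h1 : F.above a b
    · exact Or.inl (Or.inl ⟨h, h1⟩)
    · right; left
      refine ⟨hb', ?_⟩
      by_contra h2
      exact h1 (ht.2 h2)

lemma sAbove_trans {s : ℤ} {a b c : D} (ha : ovr1 F s a) (hb : ovr1 F s b) (hc : ovr1 F s c)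
    (hab : a ≠ b) (hbc : b ≠ c) (hac : a ≠ c) (h1 : F.sAbove a b) (h2 : F.sAbove b c) :
    F.sAbove a c := by
  unfold PlaneGraph.FoldedState.sAbove at *
  rcases h1 with ⟨h1, h1'⟩ | ⟨h1, h1'⟩ <;> rcases h2 with ⟨h2, h2'⟩ | ⟨h2, h2'⟩
  · have htr := F.trans a b c s (by
      intro d hd
      simp only [List.mem_cons, List.not_mem_nil, or_false] at hd
      rcases hd with rfl | rfl | rfl
      · exact ha
      · exact hb
      · exact hc) h1' h2'
    by_cases h : a = G.rev c
    · exfalso
      have ht := F.total b c hbc h2 (by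
        unfold ovr1 at hb hc
        exact lt_of_le_of_lt (max_le hb.1 hc.1) (lt_min hb.2 hc.2))
      rw [h, F.rev_above] at h1'
      exact ht.1 h2' h1'
    · exact Or.inl ⟨h, htr⟩
  · left
    rw [h2, F.above_rev] at h1'
    exact ⟨by rw [← h2]; exact hab, h1'⟩
  · left
    rw [h1, F.rev_above]
    refine ⟨?_, h2'⟩
    intro h
    exact hbc (rev_inj h)
  · exfalso
    apply hac
    rw [h1, h2, G.rev_rev]

lemma exists_topmost [Fintype D] (s : ℤ) (P : D → Prop) (d : D) (hd : ovr1 F s d) (hP : P d) :
    ∃ t, P t ∧ ovr1 F s t ∧ ∀ e, P e → ovr1 F s e → e ≠ t → F.sAbove t e := by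
  classical
  obtain ⟨t, ht, htop⟩ := exists_top F.sAbove (Finset.univ.filter fun e => P e ∧ ovr1 F s e)
    ⟨d, by simp [hd, hP]⟩
    (by
      intro a ha b hb hab
      simp only [Finset.mem_filter, Finset.mem_univ, true_and] at ha hb
      exact sAbove_total F ha.2 hb.2 hab)
    (by
      intro a ha b hb c hc hab hbc hac h1 h2
      simp only [Finset.mem_filter, Finset.mem_univ, true_and] at ha hb hc
      exact sAbove_trans F ha.2 hb.2 hc.2 hab hbc hac h1 h2)
  simp only [Finset.mem_filter, Finset.mem_univ, true_and] at ht htop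
  exact ⟨t, ht.1, ht.2, fun e he he' => htop e ⟨he, he'⟩⟩

lemma over_self (d : D) : ovr1 F (min (F.X d) (F.X (G.rev d))) d := by
  refine ⟨le_refl _, ?_⟩
  have := X_ne F d
  rcases lt_or_gt_of_ne this with h | h
  · rw [min_eq_left h.le, max_eq_right h.le]; exact h
  · rw [min_eq_right h.le, max_eq_left h.le]; exact h

lemma cycSum_congr (φ : Equiv.Perm D) (w : D → ℝ) {a b : D} (h : φ.SameCycle a b) :
    cycSum φ w a = cycSum φ w b := by
  unfold cycSum
  have : {c | φ.SameCycle a c} = {c | φ.SameCycle b c} := by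
    ext c
    exact ⟨fun h' => h.symm.trans h', fun h' => h.trans h'⟩
  rw [this]

/-- every face has total `2` or `-2` -/
lemma total_or [Fintype D] (d : D) : cycSum G.face (fun a => (tau F.M a : ℝ)) d = 2 ∨
    cycSum G.face (fun a => (tau F.M a : ℝ)) d = -2 := by
  obtain ⟨t, ht, ht2, htop⟩ := exists_topmost F _ (fun e => G.face.SameCycle d e) d
    (over_self F d) (Equiv.Perm.SameCycle.refl _ _)
  have h := total_top F t _ ht2.1 ht2.2 (by
    intro e he h1 h2 h3
    exact htop e (ht.trans he) ⟨h1, h2⟩ h3)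
  rw [cycSum_congr _ _ ht, h]
  split_ifs
  · exact Or.inl rfl
  · exact Or.inr rfl

/-- the outer face has total `-2` -/
lemma total_out [Fintype D] : cycSum G.face (fun a => (tau F.M a : ℝ)) G.out = -2 := by
  obtain ⟨t, -, ht2, htop⟩ := exists_topmost F _ (fun _ => True) G.out
    (over_self F G.out) trivial
  set s := min (F.X G.out) (F.X (G.rev G.out)) with hs
  have hL : ¬ F.X t < F.X (G.rev t) := by
    intro hlt
    have h1 := htop (G.rev t) trivial (by
      unfold ovr1 at ht2 ⊢
      rw [G.rev_rev, min_comm, max_comm]; exact ht2) (G.rev_ne t)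
    unfold PlaneGraph.FoldedState.sAbove at h1
    rw [G.rev_rev] at h1
    rcases h1 with ⟨h1, -⟩ | ⟨-, h1⟩
    · exact h1 rfl
    · omega
  have hne := X_ne F t
  have hlt : F.X (G.rev t) < F.X t := by omega
  have hout : G.face.SameCycle t G.out := by
    refine F.outer t s ?_ ?_ ?_
    · have := ht2.1
      rwa [min_eq_right hlt.le] at this
    · have := ht2.2
      rwa [max_eq_left hlt.le] at this
    · intro e h1 h2 h3 h4
      have h5 := htop e trivial ⟨h1, h2⟩ h3
      unfold PlaneGraph.FoldedState.sAbove at h5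
      rcases h5 with ⟨-, h5⟩ | ⟨h5, -⟩
      · exact h5
      · exfalso
        apply h4
        rw [h5, G.rev_rev]
  have h := total_top F t s ht2.1 ht2.2 (by
    intro e _ h1 h2 h3
    exact htop e trivial ⟨h1, h2⟩ h3)
  rw [if_neg hL] at h
  rw [← cycSum_congr _ _ hout, h]

lemma cycSum_eq [Fintype D] [DecidableEq D] (φ : Equiv.Perm D) (w : D → ℝ) (d : D)
    [DecidablePred fun a => φ.SameCycle d a] :
    cycSum φ w d = ∑ a ∈ Finset.univ.filter (fun a => φ.SameCycle d a), w a := by
  unfold cycSum
  rw [← finsum_mem_coe_finset]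
  congr 1
  ext a
  simp

/-- sum over the orbits -/
lemma sum_orbits [Fintype D] (φ : Equiv.Perm D) (w : D → ℝ)
    [Fintype (Quotient (SameCycle.setoid φ))] :
    ∑ q : Quotient (SameCycle.setoid φ), cycSum φ w q.out = ∑ a, w a := by
  classical
  rw [← Finset.sum_fiberwise Finset.univ (fun a => (Quotient.mk (SameCycle.setoid φ) a)) w]
  refine Finset.sum_congr rfl fun q _ => ?_
  rw [cycSum_eq]
  refine Finset.sum_congr ?_ fun _ _ => rfl
  ext a
  simp only [Finset.mem_filter, Finset.mem_univ, true_and]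
  constructor
  · intro h
    rw [Quotient.mk_eq_iff_out]
    exact h.symm
  · intro h
    rw [Quotient.mk_eq_iff_out] at h
    exact (show φ.SameCycle a q.out from h).symm

lemma orbits_eq [Fintype D] (φ : Equiv.Perm D) [Fintype (Quotient (SameCycle.setoid φ))] :
    orbits φ = Fintype.card (Quotient (SameCycle.setoid φ)) := by
  unfold orbits
  exact Nat.card_eq_fintype_card

lemma cycSum_one [Fintype D] (φ : Equiv.Perm D) (d : D) :
    cycSum φ (fun _ => (1 : ℝ)) d = (Nat.card {a | φ.SameCycle d a} : ℝ) := by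
  classical
  rw [cycSum_eq]
  rw [Finset.sum_const, nsmul_eq_mul, mul_one]
  congr 1
  rw [Set.coe_ofPred, Nat.card_eq_fintype_card, Fintype.card_subtype]


lemma vertex [Fintype D] (d : D) : cycSum G.rot (fun a => (tau F.M a : ℝ)) d =
    (Nat.card {a | G.rot.SameCycle d a} : ℝ) - 2 := by
  classical
  obtain ⟨b, ⟨hb, hbM⟩, huniq⟩ := F.one_mountain d
  rw [← cycSum_one, cycSum_eq, cycSum_eq]
  have h1 : b ∈ Finset.univ.filter (fun a => G.rot.SameCycle d a) := by simp [hb]
  rw [← Finset.add_sum_erase _ _ h1, ← Finset.add_sum_erase (Finset.univ.filter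
    (fun a => G.rot.SameCycle d a)) (fun _ => (1 : ℝ)) h1]
  have h2 : ∑ x ∈ (Finset.univ.filter (fun a => G.rot.SameCycle d a)).erase b,
      ((tau F.M x : ℤ) : ℝ) = ∑ x ∈ (Finset.univ.filter (fun a => G.rot.SameCycle d a)).erase b,
      (1 : ℝ) := by
    refine Finset.sum_congr rfl fun a ha => ?_
    rw [Finset.mem_erase, Finset.mem_filter] at ha
    have h3 : a ∉ F.M := fun hM => ha.1 (huniq a ⟨ha.2.2, hM⟩)
    unfold tau
    rw [if_neg h3]
    norm_num
  rw [h2]
  unfold tau
  rw [if_pos hbM]
  push_cast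
  ring

lemma rev_cycle (d a : D) : G.rev.SameCycle d a ↔ a = d ∨ a = G.rev d := by
  constructor
  · rintro ⟨i, hi⟩
    have h2 : G.rev ^ 2 = 1 := by
      ext x
      simp [pow_two, G.rev_rev]
    rcases Int.even_or_odd' i with ⟨j, hj | hj⟩
    · left
      rw [hj, zpow_mul] at hi
      have : (G.rev ^ (2 : ℤ)) = 1 := by exact_mod_cast h2
      rw [this, one_zpow] at hi
      exact hi.symm
    · right
      rw [hj, zpow_add, zpow_mul] at hi
      have : (G.rev ^ (2 : ℤ)) = 1 := by exact_mod_cast h2
      rw [this, one_zpow, one_mul, zpow_one] at hi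
      exact hi.symm
  · rintro (rfl | rfl)
    · exact Equiv.Perm.SameCycle.refl _ _
    · exact ⟨1, by simp⟩

lemma rev_cycSum [Fintype D] (d : D) : cycSum G.rev (fun _ => (1 : ℝ)) d = 2 := by
  classical
  rw [cycSum_eq]
  have h : Finset.univ.filter (fun a => G.rev.SameCycle d a) = {d, G.rev d} := by
    ext a
    simp [rev_cycle]
  rw [h, Finset.sum_pair (fun h => G.rev_ne d h.symm)]
  norm_num

lemma out_cycle (φ : Equiv.Perm D) (d : D) :
    φ.SameCycle (Quotient.mk (SameCycle.setoid φ) d).out d :=
  Quotient.mk_out (s := SameCycle.setoid φ) d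

lemma total_in [Fintype D] (d : D) (hd : ¬ G.face.SameCycle d G.out) :
    cycSum G.face (fun a => (tau F.M a : ℝ)) d = 2 := by
  classical
  -- the three counts
  have hn : (2 : ℝ) * orbits G.rev = ∑ _a : D, (1 : ℝ) := by
    rw [← sum_orbits G.rev (fun _ => (1 : ℝ)), orbits_eq]
    rw [Finset.sum_congr rfl fun q _ => rev_cycSum (G := G) q.out]
    rw [Finset.sum_const, nsmul_eq_mul, Finset.card_univ]
    ring
  have hv : ∑ a : D, ((tau F.M a : ℤ) : ℝ) = ∑ _a : D, (1 : ℝ) - 2 * orbits G.rot := by
    rw [← sum_orbits G.rot (fun a => (tau F.M a : ℝ)), ← sum_orbits G.rot (fun _ => (1 : ℝ)),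
      orbits_eq]
    have h1 : ∀ q : Quotient (SameCycle.setoid G.rot),
        cycSum G.rot (fun a => (tau F.M a : ℝ)) q.out =
          cycSum G.rot (fun _ => (1 : ℝ)) q.out - 2 := by
      intro q
      rw [vertex F, cycSum_one]
    rw [Finset.sum_congr rfl fun q _ => h1 q, Finset.sum_sub_distrib, Finset.sum_const,
      nsmul_eq_mul, Finset.card_univ]
    ring
  have hf := sum_orbits G.face (fun a => (tau F.M a : ℝ))
  have he : (orbits G.rot : ℝ) + orbits G.face = orbits G.rev + 2 := by
    exact_mod_cast G.euler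
  -- the sum of 2 - total over the faces is 4
  have hsum : ∑ q : Quotient (SameCycle.setoid G.face),
      (2 - cycSum G.face (fun a => (tau F.M a : ℝ)) q.out) = 4 := by
    rw [Finset.sum_sub_distrib, hf, hv, Finset.sum_const, nsmul_eq_mul, Finset.card_univ,
      ← orbits_eq, ← hn]
    linarith
  set q0 : Quotient (SameCycle.setoid G.face) := Quotient.mk _ G.out with hq0
  set q1 : Quotient (SameCycle.setoid G.face) := Quotient.mk _ d with hq1
  have h0 : cycSum G.face (fun a => (tau F.M a : ℝ)) q0.out = -2 := by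
    rw [cycSum_congr _ _ (out_cycle G.face G.out), total_out F]
  have h1 : cycSum G.face (fun a => (tau F.M a : ℝ)) q1.out =
      cycSum G.face (fun a => (tau F.M a : ℝ)) d := cycSum_congr _ _ (out_cycle G.face d)
  have hne : q1 ≠ q0 := by
    intro h
    exact hd (Quotient.exact h)
  have hle : ∑ q ∈ ({q0, q1} : Finset (Quotient (SameCycle.setoid G.face))),
      (2 - cycSum G.face (fun a => (tau F.M a : ℝ)) q.out) ≤ 4 := by
    rw [← hsum]
    refine Finset.sum_le_sum_of_subset_of_nonneg (Finset.subset_univ _) fun q _ _ => ?_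
    rcases total_or F q.out with h | h <;> rw [h] <;> norm_num
  rw [Finset.sum_pair hne.symm, h0, h1] at hle
  rcases total_or F d with h | h
  · exact h
  · rw [h] at hle
    norm_num at hle

end TNC

/-- NC (uses NB and Euler's formula) -/
theorem fractional_of_folded [Fintype D] {G : PlaneGraph D} (F : G.FoldedState) :
    Positions G F.X ∧ Fractional G F.X (fun a => (tau F.M a : ℝ)) := by
  classical
  refine ⟨⟨F.X_rot, F.X_len, F.same_side⟩, ?_, TNC.vertex F, ?_, fun d => strips_of_folded F d⟩
  · intro a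
    unfold tau
    split_ifs <;> norm_num
  · intro d
    refine ⟨fun h => ?_, TNC.total_in F d⟩
    rw [TNC.cycSum_congr _ _ h, TNC.total_out F]

end Pool.Agent.H606R2.FF
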