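import Pool.Agent.H606R2.FF.TPP
import Pool.Agent.H671R2.PolyAuto
import Pool.Agent.H687R2.IntPoly

/-!
# The constraints are computable in polynomial time (helper653)
-/

namespace Pool.Agent.H606R2.FF

open Pool.Agent.NPC

namespace PC

variable {α : Type} [TEnc α]

attribute [local fun_prop] NPC.Poly.iadd NPC.Poly.isub NPC.Poly.imul NPC.Poly.ineg NPC.Poly.ilt
  NPC.Poly.ile

theorem poly_rotT {G : α → Tab} {d : α → ℕ} (hG : NPC.Poly G) (hd : NPC.Poly d) :
    NPC.Poly (fun a => rotT (G a) (d a)) := by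
  unfold rotT
  fun_prop

theorem poly_revT {G : α → Tab} {d : α → ℕ} (hG : NPC.Poly G) (hd : NPC.Poly d) :
    NPC.Poly (fun a => revT (G a) (d a)) := by
  unfold revT
  fun_prop

theorem poly_faceT {G : α → Tab} {d : α → ℕ} (hG : NPC.Poly G) (hd : NPC.Poly d) :
    NPC.Poly (fun a => faceT (G a) (d a)) := by
  unfold faceT
  exact poly_rotT hG (poly_revT hG hd)

theorem sz_rotT (G : Tab) (d : ℕ) : sz (rotT G d) ≤ sz G + 1 := by
  unfold rotT
  rw [List.getD_eq_getElem?_getD]
  cases h : G.1[d]? with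
  | none =>
    have := sz_pos G
    have h0 : sz (0 : ℕ) = 1 := by decide
    simp only [Option.getD_none]
    omega
  | some x =>
    have h1 := sz_le_of_mem (List.mem_of_getElem? h)
    have h2 : sz G = sz G.1 + sz G.2 + 1 := by
      obtain ⟨a, b⟩ := G
      exact sz_pair _ _
    have h3 : sz x = sz x.1 + sz x.2 + 1 := by
      obtain ⟨a, b⟩ := x
      exact sz_pair _ _
    simp only [Option.getD_some]
    omega

theorem sz_faceT (G : Tab) (d : ℕ) : sz (faceT G d) ≤ sz G + 1 := sz_rotT _ _

/-- iterates with bounded values -/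
theorem poly_it {f : α → ℕ → ℕ} (hf : NPC.Poly (fun p : α × ℕ => f p.1 p.2)) {B : Polynomial ℕ}
    (hB : ∀ a x, sz (f a x) ≤ B.eval (sz a)) {n d : α → ℕ} (hn : UPoly n) (hd : NPC.Poly d) :
    NPC.Poly (fun a => (f a)^[n a] (d a)) := by
  obtain ⟨p, hp⟩ := hd.sz_le
  refine (NPC.Poly.iterLen (l := fun a => List.replicate (n a) ()) (s := d) (F := f) hn hd hf
    (B + p) ?_).congr fun a => by simp
  intro a k _
  rw [Polynomial.eval_add]
  cases k with
  | zero => exact (hp a).trans (by simp)
  | succ k =>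
    rw [Function.iterate_succ_apply']
    exact (hB a _).trans (by simp)

theorem upoly_min {n m : α → ℕ} (hn : UPoly n) (hm : NPC.Poly m) :
    UPoly (fun a => min (m a) (n a)) :=
  UPoly.of_le (NPC.Poly.min hm hn.toPoly) hn fun _ => min_le_right _ _

theorem upoly_len {G : α → Tab} (hG : NPC.Poly G) : UPoly (fun a => (G a).1.length) :=
  UPoly.length (NPC.Poly.fst hG)

/-- iterates of `faceT` -/
theorem poly_faceIt {G : α → Tab} {d n : α → ℕ} (hG : NPC.Poly G) (hd : NPC.Poly d)
    (hn : UPoly n) : NPC.Poly (fun a => (faceT (G a))^[n a] (d a)) := by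
  obtain ⟨p, hp⟩ := hG.sz_le
  refine poly_it (f := fun a => faceT (G a)) (B := p + 1) (poly_faceT (hG.comp (NPC.Poly.fst NPC.Poly.id))
    (NPC.Poly.snd NPC.Poly.id)) (fun a x => ?_) hn hd
  rw [Polynomial.eval_add, Polynomial.eval_one]
  have := hp a
  have := sz_faceT (G a) x
  omega

/-- iterates of `rotT` -/
theorem poly_rotIt {G : α → Tab} {d n : α → ℕ} (hG : NPC.Poly G) (hd : NPC.Poly d)
    (hn : UPoly n) : NPC.Poly (fun a => (rotT (G a))^[n a] (d a)) := by
  obtain ⟨p, hp⟩ := hG.sz_le
  refine poly_it (f := fun a => rotT (G a)) (B := p + 1) (poly_rotT (hG.comp (NPC.Poly.fst NPC.Poly.id))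
    (NPC.Poly.snd NPC.Poly.id)) (fun a x => ?_) hn hd
  rw [Polynomial.eval_add, Polynomial.eval_one]
  have := hp a
  have := sz_rotT (G a) x
  omega

theorem poly_orbFace {G : α → Tab} {d : α → ℕ} (hG : NPC.Poly G) (hd : NPC.Poly d) :
    NPC.Poly (fun a => orb (faceT (G a)) (G a).1.length (d a)) := by
  refine (NPC.Poly.map (F := fun a i => (faceT (G a))^[min i (G a).1.length] (d a))
    (UPoly.range (upoly_len hG)) ?_).congr fun a => ?_
  · exact poly_faceIt (hG.comp (NPC.Poly.fst NPC.Poly.id)) (hd.comp (NPC.Poly.fst NPC.Poly.id))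
      (upoly_min ((upoly_len hG).comp (NPC.Poly.fst NPC.Poly.id)) (NPC.Poly.snd NPC.Poly.id))
  · unfold orb
    refine List.map_congr_left fun i hi => ?_
    rw [List.mem_range] at hi
    rw [min_eq_left hi.le]

theorem poly_orbRot {G : α → Tab} {d : α → ℕ} (hG : NPC.Poly G) (hd : NPC.Poly d) :
    NPC.Poly (fun a => orb (rotT (G a)) (G a).1.length (d a)) := by
  refine (NPC.Poly.map (F := fun a i => (rotT (G a))^[min i (G a).1.length] (d a))
    (UPoly.range (upoly_len hG)) ?_).congr fun a => ?_
  · exact poly_rotIt (hG.comp (NPC.Poly.fst NPC.Poly.id)) (hd.comp (NPC.Poly.fst NPC.Poly.id))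
      (upoly_min ((upoly_len hG).comp (NPC.Poly.fst NPC.Poly.id)) (NPC.Poly.snd NPC.Poly.id))
  · unfold orb
    refine List.map_congr_left fun i hi => ?_
    rw [List.mem_range] at hi
    rw [min_eq_left hi.le]

theorem poly_rangeLen {G : α → Tab} (hG : NPC.Poly G) :
    NPC.Poly (fun a => List.range (G a).1.length) := (upoly_len hG).range

attribute [local fun_prop] poly_orbFace poly_orbRot poly_rangeLen poly_rotT poly_faceT

theorem poly_orbSetFace {G : α → Tab} {d : α → ℕ} (hG : NPC.Poly G) (hd : NPC.Poly d) :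
    NPC.Poly (fun a => orbSet (faceT (G a)) (G a).1.length (d a)) := by
  unfold orbSet
  fun_prop

theorem poly_orbSetRot {G : α → Tab} {d : α → ℕ} (hG : NPC.Poly G) (hd : NPC.Poly d) :
    NPC.Poly (fun a => orbSet (rotT (G a)) (G a).1.length (d a)) := by
  unfold orbSet
  fun_prop

theorem poly_ppos' {G : α → Tab} (hG : NPC.Poly G) : NPC.Poly (fun a => ppos (G a)) :=
  NPC.Poly.comp poly_ppos hG

attribute [local fun_prop] poly_ppos' poly_orbSetFace poly_orbSetRot

theorem poly_xT {G : α → Tab} {d : α → ℕ} (hG : NPC.Poly G) (hd : NPC.Poly d) :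
    NPC.Poly (fun a => xT (G a) (d a)) := by
  unfold xT pget
  fun_prop

/-- the interval -/
def ivl (G : Tab) (d t : ℕ) : List ℕ :=
  (List.range (min t G.1.length + 1)).map fun i => (faceT G)^[i + 1] d

theorem poly_ivl {G : α → Tab} {d t : α → ℕ} (hG : NPC.Poly G) (hd : NPC.Poly d)
    (ht : NPC.Poly t) : NPC.Poly (fun a => ivl (G a) (d a) (t a)) := by
  refine (NPC.Poly.map (F := fun a i => (faceT (G a))^[min i (G a).1.length + 1] (d a))
    (l := fun a => List.range (min (t a) (G a).1.length + 1))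
    (UPoly.range ((upoly_min (upoly_len hG) ht).add (UPoly.const 1))) ?_).congr fun a => ?_
  · exact poly_faceIt (hG.comp (NPC.Poly.fst NPC.Poly.id)) (hd.comp (NPC.Poly.fst NPC.Poly.id))
      ((upoly_min ((upoly_len hG).comp (NPC.Poly.fst NPC.Poly.id))
        (NPC.Poly.snd NPC.Poly.id)).add (UPoly.const 1))
  · unfold ivl
    refine List.map_congr_left fun i hi => ?_
    rw [List.mem_range] at hi
    rw [min_eq_left (by omega)]

/-- the end of the interval -/
def ivlEnd (G : Tab) (d t : ℕ) : ℕ := (faceT G)^[min t G.1.length + 2] d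

theorem poly_ivlEnd {G : α → Tab} {d t : α → ℕ} (hG : NPC.Poly G) (hd : NPC.Poly d)
    (ht : NPC.Poly t) : NPC.Poly (fun a => ivlEnd (G a) (d a) (t a)) :=
  poly_faceIt hG hd ((upoly_min (upoly_len hG) ht).add (UPoly.const 2))

attribute [local fun_prop] poly_xT poly_ivl poly_ivlEnd

theorem poly_stripT {G : α → Tab} {d t : α → ℕ} (hG : NPC.Poly G) (hd : NPC.Poly d)
    (ht : NPC.Poly t) :
    NPC.Poly (fun a => stripT (G a) (d a) (min (t a) (G a).1.length + 1)) := by
  have e : ∀ G d t, stripT G d (min t G.1.length + 1) =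
      (if ((ivl G d t).all fun a => decide (xT G a < xT G d)) &&
          ((ivl G d t).all fun a => decide (xT G a < xT G (ivlEnd G d t)))
        then [(ivl G d t, (-1 : ℤ), (1 : ℤ))] else []) ++
      (if ((ivl G d t).all fun a => decide (xT G d < xT G a)) &&
          ((ivl G d t).all fun a => decide (xT G (ivlEnd G d t) < xT G a))
        then [(ivl G d t, (-1 : ℤ), (1 : ℤ))] else []) ++
      (if ((ivl G d t).all fun a => decide (xT G a < xT G d)) &&
          ((ivl G d t).all fun a => decide (xT G (ivlEnd G d t) < xT G a))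
        then [(ivl G d t, (0 : ℤ), (0 : ℤ))] else []) ++
      (if ((ivl G d t).all fun a => decide (xT G d < xT G a)) &&
          ((ivl G d t).all fun a => decide (xT G a < xT G (ivlEnd G d t)))
        then [(ivl G d t, (0 : ℤ), (0 : ℤ))] else []) := fun _ _ _ => rfl
  simp only [e]
  fun_prop

attribute [local fun_prop] poly_stripT

theorem csT_eq (G : Tab) : csT G =
    ((List.range G.1.length).map fun d => ([d], (-1 : ℤ), (1 : ℤ))) ++
      ((List.range G.1.length).map fun d => (orbSet (rotT G) G.1.length d,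
        ((orbSet (rotT G) G.1.length d).length : ℤ) - 2,
        ((orbSet (rotT G) G.1.length d).length : ℤ) - 2)) ++
      ((List.range G.1.length).map fun d => (orbSet (faceT G) G.1.length d,
        (if G.2 ∈ orb (faceT G) G.1.length d then (-2 : ℤ) else 2),
        (if G.2 ∈ orb (faceT G) G.1.length d then (-2 : ℤ) else 2))) ++
      (List.range G.1.length).flatMap fun d => (List.range G.1.length).flatMap fun t =>
        stripT G d (min t G.1.length + 1) := by
  unfold csT
  simp only
  congr 1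
  refine List.flatMap_congr fun d _ => ?_
  refine List.flatMap_congr fun t ht => ?_
  rw [List.mem_range] at ht
  rw [min_eq_left ht.le]

theorem poly_csT' {G : α → Tab} (hG : NPC.Poly G) : NPC.Poly (fun a => csT (G a)) := by
  simp only [csT_eq]
  fun_prop

end PC

open Pool.Agent.NPC in
/-- PC (uses PP) -/
theorem poly_csT : Poly csT := PC.poly_csT' NPC.Poly.id

end Pool.Agent.H606R2.FF
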