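import Pool.Agent.H606R2.FF.Alg
import Pool.Agent.NPC.Enc
import Pool.Agent.NPC.Num
import Pool.Agent.H24R2.U.PolyB

/-!
# Task PF: the feasibility test runs in polynomial time
-/

namespace Pool.Agent.H606R2.FF

open Pool.Agent.H24U

section
variable {α : Type} [Pool.Agent.NPC.TEnc α]

theorem poly_count {l : α → List ℕ} {b : α → ℕ} (hl : NPC.Poly l) (hb : NPC.Poly b) :
    NPC.Poly (fun a => (l a).count (b a)) := by
  refine (NPC.Poly.length (NPC.Poly.filter (p := fun a x => decide (x = b a)) hl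
    (NPC.Poly.decide_eq (NPC.Poly.snd NPC.Poly.id) (hb.comp (NPC.Poly.fst NPC.Poly.id))))).congr fun a => ?_
  rw [List.count, List.countP_eq_length_filter]
  rfl

/-- PF -/
theorem poly_feas {n : α → ℕ} {Cs : α → List (List ℕ × ℤ × ℤ)} (hn : NPC.UPoly n)
    (hC : NPC.Poly Cs) : NPC.Poly (fun a => feas (n a) (Cs a)) := by
  unfold feas
  refine NPC.Poly.getD (l := fun a => posMask (feasCols (n a) (Cs a))) (n := fun _ => 0)
    (d := fun _ => false) (poly_posMask ?_) (NPC.Poly.const 0) (NPC.Poly.const false)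
  unfold feasCols
  refine NPC.Poly.cons ?_ (NPC.Poly.append ?_ ?_)
  · refine NPC.Poly.flatMap (F := fun _ (c : List ℕ × ℤ × ℤ) =>
      [(c.1.length : ℤ) - c.2.1, c.2.2 - (c.1.length : ℤ)]) hC ?_
    have h1 : NPC.Poly (fun q : α × (List ℕ × ℤ × ℤ) => ((q.2.1.length : ℕ) : ℤ)) :=
      NPC.Poly.natCast (NPC.Poly.length (NPC.Poly.fst (NPC.Poly.snd NPC.Poly.id)))
    have h2 : NPC.Poly (fun q : α × (List ℕ × ℤ × ℤ) => q.2.2.1) :=
      NPC.Poly.fst (NPC.Poly.snd (NPC.Poly.snd NPC.Poly.id))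
    have h3 : NPC.Poly (fun q : α × (List ℕ × ℤ × ℤ) => q.2.2.2) :=
      NPC.Poly.snd (NPC.Poly.snd (NPC.Poly.snd NPC.Poly.id))
    exact NPC.Poly.cons (NPC.Poly.isub h1 h2) (NPC.Poly.cons (NPC.Poly.isub h3 h1) (NPC.Poly.const _))
  · refine NPC.Poly.map (F := fun a b => (Cs a).flatMap fun c =>
      [-(2 * (c.1.count b : ℤ)), 2 * (c.1.count b : ℤ)]) hn.range ?_
    refine NPC.Poly.flatMap (l := fun q : α × ℕ => Cs q.1) (F := fun (q : α × ℕ) (c : List ℕ × ℤ × ℤ) =>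
      [-(2 * (c.1.count q.2 : ℤ)), 2 * (c.1.count q.2 : ℤ)]) (hC.comp (NPC.Poly.fst NPC.Poly.id)) ?_
    have h1 : NPC.Poly (fun q : (α × ℕ) × (List ℕ × ℤ × ℤ) => ((q.2.1.count q.1.2 : ℕ) : ℤ)) :=
      NPC.Poly.natCast (poly_count (NPC.Poly.fst (NPC.Poly.snd NPC.Poly.id)) (NPC.Poly.snd (NPC.Poly.fst NPC.Poly.id)))
    have h2 : NPC.Poly (fun q : (α × ℕ) × (List ℕ × ℤ × ℤ) => 2 * ((q.2.1.count q.1.2 : ℕ) : ℤ)) :=
      NPC.Poly.imul (NPC.Poly.const 2) h1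
    exact NPC.Poly.cons (NPC.Poly.ineg h2) (NPC.Poly.cons h2 (NPC.Poly.const _))
  · have hU : NPC.UPoly (fun a => 2 * (Cs a).length) := (NPC.UPoly.const 2).mul (NPC.UPoly.length hC)
    refine NPC.Poly.map (F := fun a k => (List.range (2 * (Cs a).length)).map fun i =>
      if i = k then (-1 : ℤ) else 0) hU.range ?_
    refine NPC.Poly.map (l := fun q : α × ℕ => List.range (2 * (Cs q.1).length))
      (F := fun (q : α × ℕ) (i : ℕ) => if i = q.2 then (-1 : ℤ) else 0)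
      (hU.range.comp (NPC.Poly.fst NPC.Poly.id)) ?_
    exact NPC.Poly.ite (p := fun q : (α × ℕ) × ℕ => q.2 = q.1.2)
      (NPC.Poly.decide_eq (NPC.Poly.snd NPC.Poly.id) (NPC.Poly.snd (NPC.Poly.fst NPC.Poly.id))) (NPC.Poly.const _)
      (NPC.Poly.const _)

end

end Pool.Agent.H606R2.FF
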