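import Pool.Agent.H606R2.FF.Alg
import Pool.Agent.H24R2.U.PercB

/-!
# Task PG: feasibility is the solvability of the constraints
-/

namespace Pool.Agent.H606R2.FF

open Pool.Agent.H24U

namespace PG

theorem pair_getD {γ : Type} (f g : γ → ℤ) (d : γ) (Cs : List γ) (i : ℕ) :
    (Cs.flatMap fun c => [f c, g c]).getD i 0 =
      if i < 2 * Cs.length then
        (if i % 2 = 0 then f (Cs.getD (i / 2) d) else g (Cs.getD (i / 2) d)) else 0 := by
  induction Cs generalizing i with
  | nil => simp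
  | cons c Cs ih =>
    rcases i with _ | _ | i
    · simp
    · simp
      omega
    · have h1 : ((c :: Cs).flatMap fun c => [f c, g c]).getD (i + 1 + 1) 0 =
          (Cs.flatMap fun c => [f c, g c]).getD i 0 := by
        simp [List.flatMap_cons]
      rw [h1, ih]
      have h2 : (i + 1 + 1) % 2 = i % 2 := by omega
      have h3 : (i + 1 + 1) / 2 = i / 2 + 1 := by omega
      have h4 : (c :: Cs).getD (i / 2 + 1) d = Cs.getD (i / 2) d := by simp
      rw [h2, h3, h4]
      have h5 : i + 1 + 1 < 2 * (c :: Cs).length ↔ i < 2 * Cs.length := by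
        simp only [List.length_cons]
        omega
      simp only [h5]

theorem length_pair {γ : Type} (f g : γ → ℤ) (Cs : List γ) :
    (Cs.flatMap fun c => [f c, g c]).length = 2 * Cs.length := by
  induction Cs with
  | nil => simp
  | cons c Cs ih =>
    rw [List.flatMap_cons, List.length_append, ih, List.length_cons]
    simp
    omega

theorem sum_count (n : ℕ) (I : List ℕ) (hI : ∀ i ∈ I, i < n) (y : ℕ → ℝ) :
    ∑ b ∈ Finset.range n, y b * (I.count b : ℝ) = (I.map y).sum := by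
  induction I with
  | nil => simp
  | cons a I ih =>
    have h1 := ih fun i hi => hI i (List.mem_cons_of_mem _ hi)
    have ha : a ∈ Finset.range n := Finset.mem_range.2 (hI a List.mem_cons_self)
    rw [List.map_cons, List.sum_cons, ← h1]
    have h2 : ∀ b ∈ Finset.range n, y b * (((a :: I).count b : ℕ) : ℝ) =
        (if b = a then y b else 0) + y b * (I.count b : ℝ) := by
      intro b _
      rw [List.count_cons]
      by_cases hb : b = a
      · subst hb
        simp
        ring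
      · have : ¬ a = b := fun h => hb h.symm
        simp [hb, this]
    rw [Finset.sum_congr rfl h2, Finset.sum_add_distrib, Finset.sum_ite_eq' _ a, if_pos ha]

theorem sum_div (I : List ℕ) (y : ℕ → ℝ) (c : ℝ) :
    (I.map fun i => y i / c).sum = (I.map y).sum / c := by
  induction I with
  | nil => simp
  | cons a I ih =>
    rw [List.map_cons, List.sum_cons, ih, List.map_cons, List.sum_cons]
    ring

theorem sum_map (I : List ℕ) (y : ℕ → ℝ) :
    (I.map fun i => 1 - 2 * y i).sum = (I.length : ℝ) - 2 * (I.map y).sum := by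
  induction I with
  | nil => simp
  | cons a I ih =>
    rw [List.map_cons, List.sum_cons, ih, List.map_cons, List.sum_cons, List.length_cons]
    push_cast
    ring

/-- the value of the row `i` -/
noncomputable def rowV (n : ℕ) (Cs : List (List ℕ × ℤ × ℤ)) (h : ℝ) (y : ℕ → ℝ) (i : ℕ) : ℝ :=
  h * (((Cs.flatMap fun c => [(c.1.length : ℤ) - c.2.1, c.2.2 - (c.1.length : ℤ)]).getD i 0 : ℤ) : ℝ)
  + ∑ b ∈ Finset.range n, y b * (((Cs.flatMap fun c =>
      [-(2 * (c.1.count b : ℤ)), 2 * (c.1.count b : ℤ)]).getD i 0 : ℤ) : ℝ)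

theorem rowV_even (n : ℕ) (Cs : List (List ℕ × ℤ × ℤ)) (hC : ∀ c ∈ Cs, ∀ i ∈ c.1, i < n)
    (h : ℝ) (y : ℕ → ℝ) (k : ℕ) (hk : k < Cs.length) :
    rowV n Cs h y (2 * k) = h * ((Cs[k].1.length : ℝ) - Cs[k].2.1) - 2 * (Cs[k].1.map y).sum := by
  have h0 : 2 * k < 2 * Cs.length := by omega
  have h1 : 2 * k % 2 = 0 := by omega
  have h2 : 2 * k / 2 = k := by omega
  have h3 : Cs.getD k ([], 0, 0) = Cs[k] := by
    rw [List.getD_eq_getElem _ _ hk]
  rw [rowV]
  rw [pair_getD (fun c : List ℕ × ℤ × ℤ => (c.1.length : ℤ) - c.2.1)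
    (fun c => c.2.2 - (c.1.length : ℤ)) ([], 0, 0), if_pos h0, if_pos h1, h2, h3]
  rw [← sum_count n _ (hC _ (List.getElem_mem hk)), Finset.mul_sum]
  have h4 : ∀ b ∈ Finset.range n, y b * (((Cs.flatMap fun c =>
      [-(2 * (c.1.count b : ℤ)), 2 * (c.1.count b : ℤ)]).getD (2 * k) 0 : ℤ) : ℝ) =
      - (2 * (y b * (Cs[k].1.count b : ℝ))) := by
    intro b _
    rw [pair_getD (fun c : List ℕ × ℤ × ℤ => -(2 * (c.1.count b : ℤ)))
      (fun c => 2 * (c.1.count b : ℤ)) ([], 0, 0), if_pos h0, if_pos h1, h2, h3]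
    push_cast
    ring
  rw [Finset.sum_congr rfl h4, Finset.sum_neg_distrib]
  push_cast
  ring

theorem rowV_odd (n : ℕ) (Cs : List (List ℕ × ℤ × ℤ)) (hC : ∀ c ∈ Cs, ∀ i ∈ c.1, i < n)
    (h : ℝ) (y : ℕ → ℝ) (k : ℕ) (hk : k < Cs.length) :
    rowV n Cs h y (2 * k + 1) =
      h * ((Cs[k].2.2 : ℝ) - Cs[k].1.length) + 2 * (Cs[k].1.map y).sum := by
  have h0 : 2 * k + 1 < 2 * Cs.length := by omega
  have h1 : ¬ (2 * k + 1) % 2 = 0 := by omega
  have h2 : (2 * k + 1) / 2 = k := by omega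
  have h3 : Cs.getD k ([], 0, 0) = Cs[k] := by
    rw [List.getD_eq_getElem _ _ hk]
  rw [rowV]
  rw [pair_getD (fun c : List ℕ × ℤ × ℤ => (c.1.length : ℤ) - c.2.1)
    (fun c => c.2.2 - (c.1.length : ℤ)) ([], 0, 0), if_pos h0, if_neg h1, h2, h3]
  rw [← sum_count n _ (hC _ (List.getElem_mem hk)), Finset.mul_sum]
  have h4 : ∀ b ∈ Finset.range n, y b * (((Cs.flatMap fun c =>
      [-(2 * (c.1.count b : ℤ)), 2 * (c.1.count b : ℤ)]).getD (2 * k + 1) 0 : ℤ) : ℝ) =
      2 * (y b * (Cs[k].1.count b : ℝ)) := by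
    intro b _
    rw [pair_getD (fun c : List ℕ × ℤ × ℤ => -(2 * (c.1.count b : ℤ)))
      (fun c => 2 * (c.1.count b : ℤ)) ([], 0, 0), if_pos h0, if_neg h1, h2, h3]
    push_cast
    ring
  rw [Finset.sum_congr rfl h4]
  push_cast
  ring

theorem rowV_big (n : ℕ) (Cs : List (List ℕ × ℤ × ℤ)) (h : ℝ) (y : ℕ → ℝ) (i : ℕ)
    (hi : ¬ i < 2 * Cs.length) : rowV n Cs h y i = 0 := by
  rw [rowV]
  rw [pair_getD (fun c : List ℕ × ℤ × ℤ => (c.1.length : ℤ) - c.2.1)
    (fun c => c.2.2 - (c.1.length : ℤ)) ([], 0, 0), if_neg hi]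
  have h4 : ∀ b ∈ Finset.range n, y b * (((Cs.flatMap fun c =>
      [-(2 * (c.1.count b : ℤ)), 2 * (c.1.count b : ℤ)]).getD i 0 : ℤ) : ℝ) = 0 := by
    intro b _
    rw [pair_getD (fun c : List ℕ × ℤ × ℤ => -(2 * (c.1.count b : ℤ)))
      (fun c => 2 * (c.1.count b : ℤ)) ([], 0, 0), if_neg hi]
    simp
  rw [Finset.sum_congr rfl h4]
  simp

theorem length_cols (n : ℕ) (Cs : List (List ℕ × ℤ × ℤ)) :
    (feasCols n Cs).length = n + 2 * Cs.length + 1 := by
  simp [feasCols]

theorem sum_cols (n : ℕ) (Cs : List (List ℕ × ℤ × ℤ)) (x : ℕ → ℝ) (i : ℕ) :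
    ∑ j ∈ Finset.range (feasCols n Cs).length,
      x j * ((((feasCols n Cs).getD j []).getD i 0 : ℤ) : ℝ) =
    rowV n Cs (x 0) (fun b => x (b + 1)) i -
      (if i < 2 * Cs.length then x (n + i + 1) else 0) := by
  rw [length_cols, Finset.sum_range_succ', Finset.sum_range_add]
  have h0 : (feasCols n Cs).getD 0 [] =
      (Cs.flatMap fun c => [(c.1.length : ℤ) - c.2.1, c.2.2 - (c.1.length : ℤ)]) := by
    simp [feasCols]
  have h1 : ∀ b ∈ Finset.range n, x (b + 1) *
      ((((feasCols n Cs).getD (b + 1) []).getD i 0 : ℤ) : ℝ) = x (b + 1) * (((Cs.flatMap fun c =>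
      [-(2 * (c.1.count b : ℤ)), 2 * (c.1.count b : ℤ)]).getD i 0 : ℤ) : ℝ) := by
    intro b hb
    have hb' := Finset.mem_range.1 hb
    have : (feasCols n Cs).getD (b + 1) [] = (Cs.flatMap fun c =>
      [-(2 * (c.1.count b : ℤ)), 2 * (c.1.count b : ℤ)]) := by
      rw [feasCols, List.getD_cons_succ, List.getD_append _ _ _ _ (by simpa using hb'),
        Pool.Agent.H24U.PercB.getD_map' _ _ 0 _ (by simpa using hb')]
      congr 1
      funext c
      simp [hb']
    rw [this]
  have h2 : ∀ k ∈ Finset.range (2 * Cs.length), x (n + k + 1) *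
      ((((feasCols n Cs).getD (n + k + 1) []).getD i 0 : ℤ) : ℝ) =
      if k = i then - x (n + k + 1) else 0 := by
    intro k hk
    have hk' := Finset.mem_range.1 hk
    have : (feasCols n Cs).getD (n + k + 1) [] = (List.range (2 * Cs.length)).map fun i =>
      if i = k then (-1 : ℤ) else 0 := by
      rw [feasCols, List.getD_cons_succ, List.getD_append_right _ _ _ _ (by simp)]
      rw [List.length_map, List.length_range, Nat.add_sub_cancel_left,
        Pool.Agent.H24U.PercB.getD_map' _ _ 0 _ (by simpa using hk')]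
      simp [hk']
    rw [this]
    by_cases hki : k = i
    · subst hki
      rw [Pool.Agent.H24U.PercB.getD_map' _ _ 0 _ (by simpa using hk')]
      simp [hk']
    · rw [if_neg hki]
      by_cases hi : i < 2 * Cs.length
      · rw [Pool.Agent.H24U.PercB.getD_map' _ _ 0 _ (by simpa using hi)]
        have : ¬ i = k := fun h => hki h.symm
        simp [hi, this]
      · rw [List.getD_eq_default _ _ (by simpa using hi)]
        simp
  rw [Finset.sum_congr rfl h1, Finset.sum_congr rfl h2, h0, Finset.sum_ite_eq']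
  rw [rowV]
  simp only [Finset.mem_range]
  split_ifs
  · ring
  · ring

end PG

open PG in
theorem feas_iff (n : ℕ) (Cs : List (List ℕ × ℤ × ℤ)) (hC : ∀ c ∈ Cs, ∀ i ∈ c.1, i < n) :
    feas n Cs = true ↔ ∃ y : ℕ → ℝ, (∀ i, 0 ≤ y i) ∧ ∀ c ∈ Cs,
      (c.2.1 : ℝ) ≤ (c.1.map fun i => 1 - 2 * y i).sum ∧
        (c.1.map fun i => 1 - 2 * y i).sum ≤ (c.2.2 : ℝ) := by
  have hlen : ∀ c ∈ feasCols n Cs, c.length = 2 * Cs.length := by
    intro c hc
    rw [feasCols, List.mem_cons, List.mem_append, List.mem_map, List.mem_map] at hc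
    rcases hc with rfl | ⟨b, -, rfl⟩ | ⟨k, -, rfl⟩
    · exact length_pair _ _ _
    · exact length_pair _ _ _
    · simp
  have hpos : 0 < (feasCols n Cs).length := by
    rw [length_cols]
    omega
  rw [feas, (posMask_spec hlen).2 0 hpos]
  constructor
  · rintro ⟨x, ⟨hx0, hx⟩, hx1⟩
    refine ⟨fun i => x (i + 1) / x 0, fun i => div_nonneg (hx0 _) hx1.le, fun c hc => ?_⟩
    obtain ⟨k, hk, rfl⟩ := List.getElem_of_mem hc
    have hdiv : (Cs[k].1.map fun i => x (i + 1) / x 0).sum =
        (Cs[k].1.map fun i => x (i + 1)).sum / x 0 :=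
      sum_div _ (fun i => x (i + 1)) _
    rw [sum_map, hdiv]
    have he := hx (2 * k)
    have ho := hx (2 * k + 1)
    rw [sum_cols, if_pos (by omega), rowV_even n Cs hC _ _ k hk] at he
    rw [sum_cols, if_pos (by omega), rowV_odd n Cs hC _ _ k hk] at ho
    have hs1 := hx0 (n + 2 * k + 1)
    have hs2 := hx0 (n + (2 * k + 1) + 1)
    set T := (Cs[k].1.map fun i => x (i + 1)).sum with hT
    constructor
    · have h1 : 0 ≤ x 0 * ((Cs[k].1.length : ℝ) - Cs[k].2.1) - 2 * T := by linarith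
      have h2 : 0 ≤ (x 0 * ((Cs[k].1.length : ℝ) - Cs[k].2.1) - 2 * T) / x 0 :=
        div_nonneg h1 hx1.le
      have h3 : (x 0 * ((Cs[k].1.length : ℝ) - Cs[k].2.1) - 2 * T) / x 0 =
          ((Cs[k].1.length : ℝ) - Cs[k].2.1) - 2 * (T / x 0) := by
        field_simp
      linarith
    · have h1 : 0 ≤ x 0 * ((Cs[k].2.2 : ℝ) - Cs[k].1.length) + 2 * T := by linarith
      have h2 : 0 ≤ (x 0 * ((Cs[k].2.2 : ℝ) - Cs[k].1.length) + 2 * T) / x 0 :=
        div_nonneg h1 hx1.le
      have h3 : (x 0 * ((Cs[k].2.2 : ℝ) - Cs[k].1.length) + 2 * T) / x 0 =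
          ((Cs[k].2.2 : ℝ) - Cs[k].1.length) + 2 * (T / x 0) := by
        field_simp
      linarith
  · rintro ⟨y, hy0, hy⟩
    have hrow : ∀ i, 0 ≤ rowV n Cs 1 y i := by
      intro i
      by_cases hi : i < 2 * Cs.length
      · obtain ⟨k, rfl | rfl⟩ : ∃ k, i = 2 * k ∨ i = 2 * k + 1 := ⟨i / 2, by omega⟩
        · have hk : k < Cs.length := by omega
          have h1 := (hy _ (List.getElem_mem hk)).1
          rw [sum_map] at h1
          rw [rowV_even n Cs hC _ _ k hk]
          linarith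
        · have hk : k < Cs.length := by omega
          have h1 := (hy _ (List.getElem_mem hk)).2
          rw [sum_map] at h1
          rw [rowV_odd n Cs hC _ _ k hk]
          linarith
      · rw [rowV_big n Cs _ _ i hi]
    refine ⟨fun j => if j = 0 then 1 else if j ≤ n then y (j - 1) else rowV n Cs 1 y (j - 1 - n),
      ⟨fun j => ?_, fun i => ?_⟩, ?_⟩
    · dsimp only
      split_ifs
      · exact zero_le_one
      · exact hy0 _
      · exact hrow _
    · rw [sum_cols]
      have h1 : rowV n Cs ((fun j => if j = 0 then 1 else if j ≤ n then y (j - 1) else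
          rowV n Cs 1 y (j - 1 - n)) 0) (fun b => (fun j => if j = 0 then 1 else
          if j ≤ n then y (j - 1) else rowV n Cs 1 y (j - 1 - n)) (b + 1)) i =
          rowV n Cs 1 y i := by
        rw [rowV, rowV]
        simp only [if_true]
        congr 1
        refine Finset.sum_congr rfl fun b hb => ?_
        have hb' := Finset.mem_range.1 hb
        have h2 : ¬ b + 1 = 0 := by omega
        have h3 : b + 1 ≤ n := by omega
        rw [if_neg h2, if_pos h3, Nat.add_sub_cancel]
      rw [h1]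
      by_cases h2 : i < 2 * Cs.length
      · have h3 : ¬ n + i + 1 = 0 := by omega
        have h4 : ¬ n + i + 1 ≤ n := by omega
        have h5 : n + i + 1 - 1 - n = i := by omega
        rw [if_pos h2]
        rw [if_neg h3, if_neg h4, h5, sub_self]
      · rw [if_neg h2, rowV_big n Cs _ _ i h2, sub_zero]
    · simp

end Pool.Agent.H606R2.FF
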