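import Pool.Agent.H606R2.FF.Alg

/-!
# Correctness of the propagation of the positions
-/

namespace Pool.Agent.H606R2.FF

open Equiv.Perm PlaneGraph

namespace PQ

variable {n : ℕ} (G : PlaneGraph (Fin n))

theorem length_table : (table G).1.length = n := by
  simp [table]

theorem getD_table (d : Fin n) :
    (table G).1.getD (d : ℕ) (0, 0, 0) = ((G.rot d : ℕ), (G.rev d : ℕ), G.len d) := by
  have h : (d : ℕ) < (table G).1.length := by rw [length_table]; exact d.2
  rw [List.getD_eq_getElem _ _ h]
  simp [table]

theorem rotT_table (d : Fin n) : rotT (table G) d = (G.rot d : ℕ) := by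
  unfold rotT; rw [getD_table]

theorem revT_table (d : Fin n) : revT (table G) d = (G.rev d : ℕ) := by
  unfold revT; rw [getD_table]

theorem lenT_table (d : Fin n) : lenT (table G) d = G.len d := by
  unfold lenT; rw [getD_table]

/-- the state after `k` rounds -/
def st (k : ℕ) (d : Fin n) : List ℤ := pget ((pround (table G))^[k] (pinit (table G))) d

theorem pget_map_range (f : ℕ → List ℤ) (d : Fin n) :
    pget ((List.range (table G).1.length).map f) d = f d := by
  unfold pget
  have h : (d : ℕ) < ((List.range (table G).1.length).map f).length := by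
    rw [List.length_map, List.length_range, length_table]; exact d.2
  rw [List.getD_eq_getElem _ _ h]
  simp

theorem st_zero (d : Fin n) : st G 0 d = if (d : ℕ) = 0 then [0, 1] else [] := by
  unfold st pinit
  rw [Function.iterate_zero, id, pget_map_range]

theorem st_succ (k : ℕ) (d : Fin n) : st G (k + 1) d =
    if st G k d ≠ [] then st G k d
    else if st G k (G.rot d) ≠ [] then st G k (G.rot d)
    else if st G k (G.rev d) ≠ [] then
      [(st G k (G.rev d)).getD 0 0 + (st G k (G.rev d)).getD 1 0 * (G.len d : ℤ),
        -(st G k (G.rev d)).getD 1 0]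
    else [] := by
  unfold st
  rw [Function.iterate_succ_apply']
  unfold pround
  rw [pget_map_range]
  unfold pnew
  rw [rotT_table, revT_table, lenT_table]

theorem ppos_eq (d : Fin n) : pget (ppos (table G)) d = st G n d := by
  unfold ppos st
  rw [length_table]

/-- the dart `0` -/
def z0 : Fin n := ⟨0, lt_of_le_of_lt (Nat.zero_le _) G.out.2⟩

theorem z0_val : ((z0 G : Fin n) : ℕ) = 0 := rfl

theorem st_mono {k : ℕ} {d : Fin n} (h : st G k d ≠ []) : st G (k + 1) d ≠ [] := by
  rw [st_succ, if_pos h]; exact h

open Classical in
theorem known (k : ℕ) : (∀ d, st G k d ≠ []) ∨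
    k + 1 ≤ (Finset.univ.filter fun d => st G k d ≠ []).card := by
  induction k with
  | zero =>
    right
    rw [Nat.succ_le_iff, Finset.card_pos]
    refine ⟨z0 G, Finset.mem_filter.2 ⟨Finset.mem_univ _, ?_⟩⟩
    rw [st_zero, if_pos (z0_val G)]
    simp
  | succ k ih =>
    rcases ih with ih | ih
    · left
      intro d
      exact st_mono G (ih d)
    · by_cases hall : ∀ d, st G k d ≠ []
      · left
        intro d
        exact st_mono G (hall d)
      right
      push Not at hall
      obtain ⟨u, hu⟩ := hall
      have hsub : (Finset.univ.filter fun d => st G k d ≠ []) ⊆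
          (Finset.univ.filter fun d => st G (k + 1) d ≠ []) := by
        intro d hd
        rw [Finset.mem_filter] at hd ⊢
        exact ⟨hd.1, st_mono G hd.2⟩
      have hne : (Finset.univ.filter fun d => st G k d ≠ []) ≠
          (Finset.univ.filter fun d => st G (k + 1) d ≠ []) := by
        intro heq
        have hcl : ∀ d, st G k d = [] → st G k (G.rot d) = [] ∧ st G k (G.rev d) = [] := by
          intro d hd
          have h1 : st G (k + 1) d = [] := by
            by_contra h2
            have h3 : d ∈ (Finset.univ.filter fun d => st G (k + 1) d ≠ []) :=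
              Finset.mem_filter.2 ⟨Finset.mem_univ _, h2⟩
            rw [← heq, Finset.mem_filter] at h3
            exact h3.2 hd
          rw [st_succ, if_neg (by rw [not_not]; exact hd)] at h1
          by_cases h2 : st G k (G.rot d) = []
          · rw [if_neg (by rw [not_not]; exact h2)] at h1
            refine ⟨h2, ?_⟩
            by_contra h3
            rw [if_pos h3] at h1
            simp at h1
          · rw [if_pos h2] at h1
            exact absurd h1 h2
        have hpath : ∀ b, Relation.ReflTransGen (fun x y => y = G.rot x ∨ y = G.rev x) u b →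
            st G k b = [] := by
          intro b hb
          induction hb with
          | refl => exact hu
          | tail _ h ih =>
            rcases h with h | h
            · rw [h]; exact (hcl _ ih).1
            · rw [h]; exact (hcl _ ih).2
        have h0 : st G k (z0 G) ≠ [] := by
          have : ∀ j, st G j (z0 G) ≠ [] := by
            intro j
            induction j with
            | zero => rw [st_zero, if_pos (z0_val G)]; simp
            | succ j ih => exact st_mono G ih
          exact this k
        exact h0 (hpath _ (G.connected u (z0 G)))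
      have := Finset.card_lt_card (lt_of_le_of_ne hsub hne)
      omega

theorem st_all (d : Fin n) : st G n d ≠ [] := by
  classical
  rcases known G n with h | h
  · exact h d
  · exfalso
    have h1 := Finset.card_le_univ (Finset.univ.filter fun d => st G n d ≠ [])
    rw [Fintype.card_fin] at h1
    have h2 : (Finset.univ.filter fun d => st G n d ≠ []).card =
      (@Finset.filter _ (fun d => st G n d ≠ []) (fun a => Classical.propDecidable _)
        Finset.univ).card := by congr
    omega

/-- direction of a dart -/
noncomputable def dir (X : Fin n → ℤ) (d : Fin n) : ℤ := if X d < X (G.rev d) then 1 else -1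

variable {G} in
theorem dir_len {X : Fin n → ℤ} (hX : Positions G X) (d : Fin n) :
    X (G.rev d) = X d + dir G X d * G.len d := by
  have h1 := hX.X_len d
  unfold dir
  split_ifs with h
  · rw [abs_of_pos (by linarith)] at h1
    linarith
  · rw [abs_of_nonpos (by linarith)] at h1
    linarith

variable {G} in
theorem dir_rot {X : Fin n → ℤ} (hX : Positions G X) (d : Fin n) :
    dir G X (G.rot d) = dir G X d := by
  unfold dir
  have := hX.same_side d
  by_cases h : X d < X (G.rev d)
  · rw [if_pos h, if_pos (this.1 h)]
  · rw [if_neg h, if_neg (fun h' => h (this.2 h'))]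

variable {G} in
theorem dir_rev {X : Fin n → ℤ} (hX : Positions G X) (d : Fin n) :
    dir G X (G.rev d) = -dir G X d := by
  unfold dir
  rw [G.rev_rev]
  have h1 := hX.X_len d
  have h2 := G.len_pos d
  have h3 : X (G.rev d) ≠ X d := by
    intro h
    rw [h, sub_self, abs_zero] at h1
    omega
  by_cases h : X d < X (G.rev d)
  · rw [if_pos h, if_neg (by omega)]
  · rw [if_neg h, if_pos (by omega), neg_neg]

variable {G} in
theorem dir_sq (X : Fin n → ℤ) (d : Fin n) : dir G X d * dir G X d = 1 := by
  unfold dir; split_ifs <;> norm_num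

variable {G} in
theorem dir_pm (X : Fin n → ℤ) (d : Fin n) : dir G X d = 1 ∨ dir G X d = -1 := by
  unfold dir; split_ifs <;> simp

variable {G} in
theorem st_of_pos {X : Fin n → ℤ} (hX : Positions G X) (k : ℕ) :
    ∀ d, st G k d ≠ [] → st G k d =
      [dir G X (z0 G) * (X d - X (z0 G)), dir G X (z0 G) * dir G X d] := by
  induction k with
  | zero =>
    intro d hd
    rw [st_zero] at hd ⊢
    by_cases h0 : (d : ℕ) = 0
    · have : d = z0 G := Fin.ext h0
      rw [if_pos h0, this, sub_self, mul_zero, dir_sq]
    · rw [if_neg h0] at hd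
      exact absurd rfl hd
  | succ k ih =>
    intro d hd
    rw [st_succ] at hd ⊢
    split_ifs at hd ⊢ with h1 h2 h3
    · exact ih d h1
    · rw [ih _ h2, hX.X_rot, dir_rot hX]
    · rw [ih _ h3]
      have e1 := dir_len hX (G.rev d)
      rw [G.rev_rev, G.len_rev] at e1
      have e2 := dir_rev hX d
      simp only [List.getD_cons_zero, List.getD_cons_succ]
      rw [e2] at e1 ⊢
      congr 1
      · linear_combination (dir G X (z0 G)) * (-e1)
      · congr 1
        ring
    · exact absurd rfl hd

theorem st_form (k : ℕ) : ∀ d, st G k d ≠ [] → ∃ x s : ℤ, st G k d = [x, s] ∧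
    (s = 1 ∨ s = -1) := by
  induction k with
  | zero =>
    intro d hd
    rw [st_zero] at hd ⊢
    by_cases h0 : (d : ℕ) = 0
    · rw [if_pos h0]
      exact ⟨0, 1, rfl, Or.inl rfl⟩
    · rw [if_neg h0] at hd
      exact absurd rfl hd
  | succ k ih =>
    intro d hd
    rw [st_succ] at hd ⊢
    split_ifs at hd ⊢ with h1 h2 h3
    · exact ih d h1
    · exact ih _ h2
    · obtain ⟨x, s, h, hs⟩ := ih _ h3
      rw [h]
      simp only [List.getD_cons_zero, List.getD_cons_succ]
      refine ⟨_, _, rfl, ?_⟩
      rcases hs with hs | hs <;> rw [hs] <;> simp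
    · exact absurd rfl hd

theorem posOK_iff : posOK (table G) = true ↔ ∀ d : Fin n, st G n (G.rot d) = st G n d ∧
    st G n (G.rev d) = [(st G n d).getD 0 0 + (st G n d).getD 1 0 * (G.len d : ℤ),
      -(st G n d).getD 1 0] := by
  unfold posOK
  rw [List.all_eq_true]
  constructor
  · intro h d
    have h1 := h d (by rw [List.mem_range, length_table]; exact d.2)
    rw [Bool.and_eq_true, decide_eq_true_iff, decide_eq_true_iff, rotT_table, revT_table,
      lenT_table, ppos_eq, ppos_eq, ppos_eq] at h1
    exact h1
  · intro h d hd
    rw [List.mem_range, length_table] at hd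
    have h1 := h ⟨d, hd⟩
    have e : d = ((⟨d, hd⟩ : Fin n) : ℕ) := rfl
    rw [e, Bool.and_eq_true, decide_eq_true_iff, decide_eq_true_iff, rotT_table, revT_table,
      lenT_table, ppos_eq, ppos_eq, ppos_eq]
    exact h1

theorem xT_eq (d : Fin n) : xT (table G) d = (st G n d).getD 0 0 := by
  unfold xT
  rw [ppos_eq]

variable {G} in
theorem posOK_of {X : Fin n → ℤ} (hX : Positions G X) : posOK (table G) = true := by
  rw [posOK_iff]
  intro d
  rw [st_of_pos hX n _ (st_all G _), st_of_pos hX n _ (st_all G d),
    st_of_pos hX n _ (st_all G (G.rev d))]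
  constructor
  · rw [hX.X_rot, dir_rot hX]
  · simp only [List.getD_cons_zero, List.getD_cons_succ]
    have e1 := dir_len hX d
    have e2 := dir_rev hX d
    rw [e1, e2]
    congr 1
    · ring
    · congr 1
      ring

theorem pos_of (h : posOK (table G) = true) : Positions G (fun d => xT (table G) d) := by
  rw [posOK_iff] at h
  have key : ∀ d : Fin n, ∃ s : ℤ, (s = 1 ∨ s = -1) ∧ (st G n d).getD 1 0 = s ∧
      xT (table G) (G.rev d) = xT (table G) d + s * G.len d := by
    intro d
    obtain ⟨x, s, h1, h2⟩ := st_form G n d (st_all G d)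
    refine ⟨s, h2, ?_, ?_⟩
    · rw [h1]; rfl
    · rw [xT_eq, xT_eq, (h d).2, h1]; rfl
  refine ⟨?_, ?_, ?_⟩
  · intro d
    simp only [xT_eq]
    rw [(h d).1]
  · intro d
    obtain ⟨s, hs, -, h2⟩ := key d
    rw [h2]
    have h3 : (0 : ℤ) < G.len d := by exact_mod_cast G.len_pos d
    rcases hs with rfl | rfl
    · rw [one_mul, add_sub_cancel_left, abs_of_pos h3]
    · rw [neg_one_mul, add_sub_cancel_left, abs_neg, abs_of_pos h3]
  · intro d
    obtain ⟨s, hs, h1, h2⟩ := key d
    obtain ⟨s', hs', h1', h2'⟩ := key (G.rot d)
    have hss : s' = s := by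
      rw [← h1', ← h1, (h d).1]
    subst hss
    rw [h2, h2']
    have h3 : (0 : ℤ) < G.len d := by exact_mod_cast G.len_pos d
    have h4 : (0 : ℤ) < G.len (G.rot d) := by exact_mod_cast G.len_pos _
    rcases hs with rfl | rfl
    · constructor <;> intro _ <;> linarith
    · constructor <;> intro h5 <;> exfalso <;> linarith

end PQ

open PQ in
/-- PQ: correctness of the propagation of the positions -/
theorem ppos_spec {n : ℕ} (G : PlaneGraph (Fin n)) :
    (∀ d : Fin n, pget (ppos (table G)) d ≠ []) ∧
    (posOK (table G) = true ↔ ∃ X : Fin n → ℤ, Positions G X) ∧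
    (posOK (table G) = true → Positions G (fun d => xT (table G) d)) ∧
    (∀ X : Fin n → ℤ, Positions G X → ∃ (e c : ℤ), (e = 1 ∨ e = -1) ∧
      ∀ d : Fin n, X d = e * xT (table G) d + c) := by
  refine ⟨fun d => ?_, ⟨fun h => ⟨_, pos_of G h⟩, ?_⟩, pos_of G, ?_⟩
  · rw [ppos_eq]; exact st_all G d
  · rintro ⟨X, hX⟩
    exact posOK_of hX
  · intro X hX
    refine ⟨dir G X (z0 G), X (z0 G), dir_pm X _, ?_⟩
    intro d
    rw [xT_eq, st_of_pos hX n _ (st_all G d), List.getD_cons_zero]
    have := dir_sq (G := G) X (z0 G)
    linear_combination (-(X d - X (z0 G))) * this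

end Pool.Agent.H606R2.FF
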