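import Pool.Agent.H606R2.FF.TPP
import Pool.Agent.H671R2.PolyAuto

/-!
# The recognition of the tables is polynomial
-/

namespace Pool.Agent.H606R2.FF

open Pool.Agent.NPC

namespace TPV

theorem sz_getD_le {α : Type} [TEnc α] (l : List α) (i : ℕ) (d : α) :
    sz (l.getD i d) ≤ sz l + sz d := by
  rcases lt_or_ge i l.length with h | h
  · have h1 : l.getD i d ∈ l := by
      rw [List.getD_eq_getElem _ _ h]
      exact List.getElem_mem h
    have := sz_le_of_mem h1
    omega
  · rw [List.getD_eq_default _ _ h]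
    omega

theorem sz_entry (G : Tab) (d : ℕ) : sz (G.1.getD d (0, 0, 0)) ≤ sz G + 5 := by
  have h1 := sz_getD_le G.1 d (0, 0, 0)
  have h2 : sz G.1 ≤ sz G := by
    have : sz G = sz G.1 + sz G.2 + 1 := by
      rw [← sz_pair]
    omega
  have h3 : sz ((0, 0, 0) : ℕ × ℕ × ℕ) ≤ 5 := by
    have h0 : sz (0 : ℕ) ≤ 1 := by simpa using sz_nat_le 0
    simp only [sz_pair]
    omega
  omega

theorem sz_rotT (G : Tab) (d : ℕ) : sz (rotT G d) ≤ sz G + 5 := by
  refine le_trans ?_ (sz_entry G d)
  unfold rotT
  rcases G.1.getD d (0, 0, 0) with ⟨a, b, c⟩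
  simp only [sz_pair]
  omega

theorem sz_revT (G : Tab) (d : ℕ) : sz (revT G d) ≤ sz G + 5 := by
  refine le_trans ?_ (sz_entry G d)
  unfold revT
  rcases G.1.getD d (0, 0, 0) with ⟨a, b, c⟩
  simp only [sz_pair]
  omega

theorem sz_faceT (G : Tab) (d : ℕ) : sz (faceT G d) ≤ sz G + 5 := sz_rotT G _

theorem poly_rotT {α : Type} [TEnc α] {G : α → Tab} {d : α → ℕ} (hG : Poly G) (hd : Poly d) :
    Poly (fun a => rotT (G a) (d a)) := by
  unfold rotT
  fun_prop

theorem poly_revT {α : Type} [TEnc α] {G : α → Tab} {d : α → ℕ} (hG : Poly G) (hd : Poly d) :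
    Poly (fun a => revT (G a) (d a)) := by
  unfold revT
  fun_prop

theorem poly_lenT {α : Type} [TEnc α] {G : α → Tab} {d : α → ℕ} (hG : Poly G) (hd : Poly d) :
    Poly (fun a => lenT (G a) (d a)) := by
  unfold lenT
  fun_prop

theorem poly_faceT {α : Type} [TEnc α] {G : α → Tab} {d : α → ℕ} (hG : Poly G) (hd : Poly d) :
    Poly (fun a => faceT (G a) (d a)) := poly_rotT hG (poly_revT hG hd)

/-- one step of the computation of the orbit -/
def ostep (f : ℕ → ℕ) (s : ℕ × List ℕ) : ℕ × List ℕ := (f s.1, s.2 ++ [s.1])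

theorem ostep_iterate (f : ℕ → ℕ) (d k : ℕ) :
    (ostep f)^[k] (d, []) = (f^[k] d, orb f k d) := by
  induction k with
  | zero => rfl
  | succ k ih =>
    have h : orb f (k + 1) d = orb f k d ++ [f^[k] d] := by
      rw [orb, List.range_succ, List.map_append]
      rfl
    rw [Function.iterate_succ_apply', ih, h, Function.iterate_succ_apply']
    rfl

theorem poly_orb {α : Type} [TEnc α] {f : Tab → ℕ → ℕ}
    (hf : Poly (fun p : Tab × ℕ => f p.1 p.2)) (hs : ∀ G d, sz (f G d) ≤ sz G + 5)
    {G : α → Tab} {d : α → ℕ} (hG : Poly G) (hd : Poly d) :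
    Poly (fun a => orb (f (G a)) (G a).1.length (d a)) := by
  have key : Poly (fun p : Tab × ℕ => orb (f p.1) p.1.1.length p.2) := by
    have hit : ∀ (p : Tab × ℕ) (k : ℕ), sz ((f p.1)^[k] p.2) ≤ sz p + 5 := by
      intro p k
      have h0 : sz p = sz p.1 + sz p.2 + 1 := by rw [← sz_pair]
      cases k with
      | zero => simp only [Function.iterate_zero, id_eq]; omega
      | succ k =>
        rw [Function.iterate_succ_apply']
        have := hs p.1 ((f p.1)^[k] p.2)
        omega
    have h1 : Poly (fun p : Tab × ℕ =>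
        (ostep (f p.1))^[(p.1.1).length] ((p.2, []) : ℕ × List ℕ)) := by
      refine Poly.iterLen (α := Tab × ℕ) (l := fun p => p.1.1)
        (s := fun p => ((p.2, []) : ℕ × List ℕ)) (F := fun p s => ostep (f p.1) s)
        (by fun_prop) (by fun_prop) ?_
        ((Polynomial.X + Polynomial.C 5) + (Polynomial.X * (Polynomial.X + Polynomial.C 6) +
          Polynomial.C 1) + Polynomial.C 1) ?_
      · unfold ostep
        have h2 : Poly (fun p : (Tab × ℕ) × (ℕ × List ℕ) => f p.1.1 p.2.1) :=
          hf.comp (Poly.pair (Poly.fst (Poly.fst Poly.id)) (Poly.fst (Poly.snd Poly.id)))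
        fun_prop
      · intro p k hk
        rw [ostep_iterate, sz_pair]
        have h2 := hit p k
        have h3 : sz (orb (f p.1) k p.2) ≤ k * (sz p + 5 + 1) + 1 := by
          have h4 := sz_le_length_mul (orb (f p.1) k p.2) (sz p + 5) (by
            intro a ha
            unfold orb at ha
            rw [List.mem_map] at ha
            obtain ⟨i, -, rfl⟩ := ha
            exact hit p i)
          have h5 : (orb (f p.1) k p.2).length = k := by simp [orb]
          rw [h5] at h4
          exact h4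
        have h6 : k ≤ sz p := by
          have h7 := length_lt_sz p.1.1
          have h8 : sz p = sz p.1 + sz p.2 + 1 := by rw [← sz_pair]
          have h9 : sz p.1 = sz p.1.1 + sz p.1.2 + 1 := by rw [← sz_pair]
          omega
        have h7 : k * (sz p + 5 + 1) ≤ sz p * (sz p + 6) := Nat.mul_le_mul h6 (by omega)
        simp only [Polynomial.eval_add, Polynomial.eval_mul, Polynomial.eval_X, Polynomial.eval_C]
        omega
    refine (Poly.snd h1).congr fun p => ?_
    rw [ostep_iterate]
  exact key.comp (Poly.pair hG hd)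

theorem poly_orb_rot {α : Type} [TEnc α] {G : α → Tab} {d : α → ℕ} (hG : Poly G) (hd : Poly d) :
    Poly (fun a => orb (rotT (G a)) (G a).1.length (d a)) :=
  poly_orb (poly_rotT (Poly.fst Poly.id) (Poly.snd Poly.id)) sz_rotT hG hd

theorem poly_orb_rev {α : Type} [TEnc α] {G : α → Tab} {d : α → ℕ} (hG : Poly G) (hd : Poly d) :
    Poly (fun a => orb (revT (G a)) (G a).1.length (d a)) :=
  poly_orb (poly_revT (Poly.fst Poly.id) (Poly.snd Poly.id)) sz_revT hG hd

theorem poly_orb_face {α : Type} [TEnc α] {G : α → Tab} {d : α → ℕ} (hG : Poly G) (hd : Poly d) :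
    Poly (fun a => orb (faceT (G a)) (G a).1.length (d a)) :=
  poly_orb (poly_faceT (Poly.fst Poly.id) (Poly.snd Poly.id)) sz_faceT hG hd

theorem poly_cnt {α : Type} [TEnc α] {f : Tab → ℕ → ℕ} {G : α → Tab} (hG : Poly G)
    (ho : Poly (fun p : α × ℕ => orb (f (G p.1)) (G p.1).1.length p.2)) :
    Poly (fun a => cnt (f (G a)) (G a).1.length) := by
  unfold cnt
  refine Poly.length (Poly.filter (Poly.range_length (by fun_prop)) ?_)
  exact Poly.all (p := fun (p : α × ℕ) x => decide (p.2 ≤ x)) ho (by fun_prop)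

theorem poly_ppos_get {α : Type} [TEnc α] {G : α → Tab} {d : α → ℕ} (hG : Poly G) (hd : Poly d) :
    Poly (fun a => pget (ppos (G a)) (d a)) := by
  unfold pget
  have h : Poly (fun a => ppos (G a)) := poly_ppos.comp hG
  fun_prop

end TPV

open TPV in
/-- PV (uses PP) -/
theorem poly_validT : Poly validT := by
  have hn : Poly (fun G : Tab => List.range G.1.length) := Poly.range_length (by fun_prop)
  have b1 : Poly (fun G : Tab => decide (G.2 < G.1.length)) := by fun_prop
  have b2 : Poly (fun G : Tab => (List.range G.1.length).all fun d =>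
      decide (rotT G d < G.1.length) && decide (revT G d < G.1.length) &&
      decide (revT G (revT G d) = d) && decide (revT G d ≠ d) && decide (0 < lenT G d) &&
      decide (lenT G (revT G d) = lenT G d) &&
      ((List.range G.1.length).all fun e => decide (rotT G d = rotT G e → d = e))) := by
    refine Poly.all hn ?_
    have g1 : Poly (fun p : Tab × ℕ => rotT p.1 p.2) := poly_rotT (by fun_prop) (by fun_prop)
    have g2 : Poly (fun p : Tab × ℕ => revT p.1 p.2) := poly_revT (by fun_prop) (by fun_prop)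
    have g3 : Poly (fun p : Tab × ℕ => revT p.1 (revT p.1 p.2)) := poly_revT (by fun_prop) g2
    have g4 : Poly (fun p : Tab × ℕ => lenT p.1 p.2) := poly_lenT (by fun_prop) (by fun_prop)
    have g5 : Poly (fun p : Tab × ℕ => lenT p.1 (revT p.1 p.2)) := poly_lenT (by fun_prop) g2
    have g6 : Poly (fun p : Tab × ℕ =>
        (List.range p.1.1.length).all fun e => decide (rotT p.1 p.2 = rotT p.1 e → p.2 = e)) := by
      refine Poly.all (p := fun (p : Tab × ℕ) e => decide (rotT p.1 p.2 = rotT p.1 e → p.2 = e))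
        (Poly.range_length (by fun_prop)) ?_
      have k1 : Poly (fun p : (Tab × ℕ) × ℕ => rotT p.1.1 p.1.2) :=
        poly_rotT (by fun_prop) (by fun_prop)
      have k2 : Poly (fun p : (Tab × ℕ) × ℕ => rotT p.1.1 p.2) :=
        poly_rotT (by fun_prop) (by fun_prop)
      have k3 : Poly (fun p : (Tab × ℕ) × ℕ =>
          !(decide (rotT p.1.1 p.1.2 = rotT p.1.1 p.2)) || decide (p.1.2 = p.2)) :=
        Poly.or (Poly.not (Poly.decide_eq k1 k2)) (by fun_prop)
      refine k3.congr fun p => ?_
      by_cases h1 : rotT p.1.1 p.1.2 = rotT p.1.1 p.2 <;> by_cases h2 : p.1.2 = p.2 <;>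
        simp [h1, h2]
    refine Poly.and (Poly.and (Poly.and (Poly.and (Poly.and (Poly.and ?_ ?_) ?_) ?_) ?_) ?_) g6
    · exact Poly.decide_lt g1 (by fun_prop)
    · exact Poly.decide_lt g2 (by fun_prop)
    · exact Poly.dec_eq g3 (by fun_prop)
    · exact (Poly.not (Poly.decide_eq g2 (Poly.snd Poly.id))).congr fun p => by simp
    · exact Poly.decide_lt (NPC.Poly.const 0) g4
    · exact Poly.dec_eq g5 g4
  have b3 : Poly (fun G : Tab => (List.range G.1.length).all fun d =>
      decide (pget (ppos G) d ≠ [])) := by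
    refine Poly.all hn ?_
    have g1 : Poly (fun p : Tab × ℕ => pget (ppos p.1) p.2) :=
      poly_ppos_get (by fun_prop) (by fun_prop)
    exact (Poly.not (Poly.decide_eq g1 (NPC.Poly.const []))).congr fun p => by simp
  have b4 : Poly (fun G : Tab => decide (cnt (rotT G) G.1.length + cnt (faceT G) G.1.length =
      cnt (revT G) G.1.length + 2)) := by
    have g1 : Poly (fun G : Tab => cnt (rotT G) G.1.length) :=
      poly_cnt (f := rotT) (G := fun G => G) Poly.id
        (poly_orb_rot (Poly.fst Poly.id) (Poly.snd Poly.id))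
    have g2 : Poly (fun G : Tab => cnt (faceT G) G.1.length) :=
      poly_cnt (f := faceT) (G := fun G => G) Poly.id
        (poly_orb_face (Poly.fst Poly.id) (Poly.snd Poly.id))
    have g3 : Poly (fun G : Tab => cnt (revT G) G.1.length) :=
      poly_cnt (f := revT) (G := fun G => G) Poly.id
        (poly_orb_rev (Poly.fst Poly.id) (Poly.snd Poly.id))
    exact Poly.dec_eq (Poly.add g1 g2) (Poly.add g3 (NPC.Poly.const 2))
  have b5 : Poly (fun G : Tab => (List.range G.1.length).all fun d =>
      decide (revT G d ∉ orb (rotT G) G.1.length d)) := by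
    refine Poly.all hn ?_
    have g1 : Poly (fun p : Tab × ℕ => revT p.1 p.2) := poly_revT (by fun_prop) (by fun_prop)
    have g2 : Poly (fun p : Tab × ℕ => orb (rotT p.1) p.1.1.length p.2) :=
      poly_orb_rot (Poly.fst Poly.id) (Poly.snd Poly.id)
    exact (Poly.not (Poly.decide_mem g1 g2)).congr fun p => by simp
  have b6 : Poly (fun G : Tab => (List.range G.1.length).all fun d =>
      (List.range G.1.length).all fun e =>
        decide (e ∈ orb (rotT G) G.1.length d →
          revT G e ∈ orb (rotT G) G.1.length (revT G d) → d = e)) := by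
    refine Poly.all hn ?_
    refine Poly.all (p := fun (p : Tab × ℕ) e => decide (e ∈ orb (rotT p.1) p.1.1.length p.2 →
          revT p.1 e ∈ orb (rotT p.1) p.1.1.length (revT p.1 p.2) → p.2 = e))
      (Poly.range_length (by fun_prop)) ?_
    have g1 : Poly (fun p : (Tab × ℕ) × ℕ => revT p.1.1 p.1.2) :=
      poly_revT (by fun_prop) (by fun_prop)
    have g2 : Poly (fun p : (Tab × ℕ) × ℕ => revT p.1.1 p.2) :=
      poly_revT (by fun_prop) (by fun_prop)
    have g3 : Poly (fun p : (Tab × ℕ) × ℕ => orb (rotT p.1.1) p.1.1.1.length p.1.2) :=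
      poly_orb_rot (by fun_prop) (by fun_prop)
    have g4 : Poly (fun p : (Tab × ℕ) × ℕ =>
        orb (rotT p.1.1) p.1.1.1.length (revT p.1.1 p.1.2)) :=
      poly_orb_rot (by fun_prop) g1
    have g5 : Poly (fun p : (Tab × ℕ) × ℕ =>
        !(decide (p.2 ∈ orb (rotT p.1.1) p.1.1.1.length p.1.2)) ||
        (!(decide (revT p.1.1 p.2 ∈ orb (rotT p.1.1) p.1.1.1.length (revT p.1.1 p.1.2))) ||
          decide (p.1.2 = p.2))) :=
      Poly.or (Poly.not (Poly.decide_mem (Poly.snd Poly.id) g3))
        (Poly.or (Poly.not (Poly.decide_mem g2 g4)) (by fun_prop))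
    refine g5.congr fun p => ?_
    by_cases h1 : p.2 ∈ orb (rotT p.1.1) p.1.1.1.length p.1.2 <;>
      by_cases h2 : revT p.1.1 p.2 ∈ orb (rotT p.1.1) p.1.1.1.length (revT p.1.1 p.1.2) <;>
      by_cases h3 : p.1.2 = p.2 <;> simp [h1, h2, h3]
  exact Poly.and (Poly.and (Poly.and (Poly.and (Poly.and b1 b2) b3) b4) b5) b6

end Pool.Agent.H606R2.FF
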