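import Pool.Agent.H606R2.FF.Alg

/-!
# Tables of plane graphs: basic facts (used in PW and PX)
-/

namespace Pool.Agent.H606R2.FF

open Equiv.Perm

variable {n : ℕ}

/-- the function `f` represents the permutation `φ` of `Fin n` -/
def Rep (f : ℕ → ℕ) (φ : Equiv.Perm (Fin n)) : Prop := ∀ d : Fin n, f d = φ d

theorem Rep.iter {f : ℕ → ℕ} {φ : Equiv.Perm (Fin n)} (h : Rep f φ) (i : ℕ) (d : Fin n) :
    f^[i] d = (φ ^ i) d := by
  induction i with
  | zero => simp
  | succ i ih =>
    rw [Function.iterate_succ_apply', ih, h, pow_succ', Equiv.Perm.mul_apply]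

theorem sameCycle_iff_lt (φ : Equiv.Perm (Fin n)) (d x : Fin n) :
    φ.SameCycle d x ↔ ∃ i < n, (φ ^ i) d = x := by
  constructor
  · intro h
    by_cases hd : d ∈ φ.support
    · obtain ⟨i, hi, hx⟩ := h.exists_pow_eq_of_mem_support hd
      refine ⟨i, lt_of_lt_of_le hi ?_, hx⟩
      simpa using Finset.card_le_univ (φ.cycleOf d).support
    · rw [Equiv.Perm.notMem_support] at hd
      exact ⟨0, d.pos, h.eq_of_left hd⟩
  · rintro ⟨i, _, hi⟩
    exact ⟨i, by simpa using hi⟩

theorem Rep.mem_orb {f : ℕ → ℕ} {φ : Equiv.Perm (Fin n)} (h : Rep f φ) (d : Fin n) (x : ℕ) :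
    x ∈ orb f n d ↔ ∃ y : Fin n, φ.SameCycle d y ∧ (y : ℕ) = x := by
  simp only [orb, List.mem_map, List.mem_range]
  constructor
  · rintro ⟨i, hi, rfl⟩
    exact ⟨(φ ^ i) d, ⟨i, by simp⟩, (h.iter i d).symm⟩
  · rintro ⟨y, hy, rfl⟩
    obtain ⟨i, hi, hy⟩ := (sameCycle_iff_lt φ d y).1 hy
    exact ⟨i, hi, by rw [h.iter, hy]⟩

theorem Rep.mem_orb' {f : ℕ → ℕ} {φ : Equiv.Perm (Fin n)} (h : Rep f φ) (d x : Fin n) :
    (x : ℕ) ∈ orb f n d ↔ φ.SameCycle d x := by
  rw [h.mem_orb]
  constructor
  · rintro ⟨y, hy, hyx⟩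
    rwa [← Fin.ext hyx]
  · intro hx
    exact ⟨x, hx, rfl⟩

theorem Rep.cnt {f : ℕ → ℕ} {φ : Equiv.Perm (Fin n)} (h : Rep f φ) : cnt f n = orbits φ := by
  classical
  have h1 : FF.cnt f n = Fintype.card {d : Fin n // ∀ x, φ.SameCycle d x → d ≤ x} := by
    rw [Fintype.card_subtype, FF.cnt]
    have e : ((List.range n).filter fun d => (orb f n d).all fun x => decide (d ≤ x)) =
        ((List.finRange n).filter fun d => decide (∀ x, φ.SameCycle d x → d ≤ x)).map
          Fin.val := by
      rw [← List.map_coe_finRange_eq_range, List.filter_map]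
      congr 1
      apply List.filter_congr
      intro d _
      simp only [Function.comp_apply]
      rw [Bool.eq_iff_iff, List.all_eq_true, decide_eq_true_iff]
      constructor
      · intro H x hx
        have := H x ((h.mem_orb' d x).2 hx)
        simpa using this
      · intro H x hx
        obtain ⟨y, hy, rfl⟩ := (h.mem_orb d x).1 hx
        simpa using H y hy
    rw [e, List.length_map, ← List.toFinset_card_of_nodup]
    · congr 1
      ext x
      simp
    · exact (List.nodup_finRange n).filter _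
  rw [h1, orbits, ← Nat.card_eq_fintype_card]
  apply Nat.card_congr
  refine Equiv.ofBijective (fun d => Quotient.mk (SameCycle.setoid φ) d.1) ⟨?_, ?_⟩
  · rintro ⟨d, hd⟩ ⟨e, he⟩ hde
    have hde' : φ.SameCycle d e := Quotient.exact hde
    exact Subtype.ext (le_antisymm (hd e hde') (he d hde'.symm))
  · intro q
    induction q using Quotient.inductionOn with
    | h a =>
      obtain ⟨d, hd⟩ : ∃ d, d ∈ (Finset.univ.filter fun x => φ.SameCycle a x) ∧
          ∀ x ∈ (Finset.univ.filter fun x => φ.SameCycle a x), d ≤ x := by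
        have hne : (Finset.univ.filter fun x => φ.SameCycle a x).Nonempty :=
          ⟨a, by simp [SameCycle.refl]⟩
        exact ⟨_, Finset.min'_mem _ hne, fun x hx => Finset.min'_le _ x hx⟩
      simp only [Finset.mem_filter, Finset.mem_univ, true_and] at hd
      refine ⟨⟨d, fun x hx => hd.2 x (hd.1.trans hx)⟩, ?_⟩
      exact Quotient.sound hd.1.symm

/-! ### The table -/

theorem table_get (P : PlaneGraph (Fin n)) (d : Fin n) :
    (table P).1.getD d (0, 0, 0) = ((P.rot d : ℕ), (P.rev d : ℕ), P.len d) := by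
  simp [table, List.getD_eq_getElem?_getD]

theorem table_length (P : PlaneGraph (Fin n)) : (table P).1.length = n := by
  simp [table]

theorem rep_rot (P : PlaneGraph (Fin n)) : Rep (rotT (table P)) P.rot := fun d => by
  rw [rotT, table_get]

theorem rep_rev (P : PlaneGraph (Fin n)) : Rep (revT (table P)) P.rev := fun d => by
  rw [revT, table_get]

theorem lenT_eq (P : PlaneGraph (Fin n)) (d : Fin n) : lenT (table P) d = P.len d := by
  rw [lenT, table_get]

theorem rep_face (P : PlaneGraph (Fin n)) : Rep (faceT (table P)) P.face := fun d => by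
  rw [faceT, rep_rev P d, rep_rot P]; rfl

end Pool.Agent.H606R2.FF
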