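import Pool.Agent.H606R2.FF.TPQ
import Pool.Agent.H606R2.FF.TabBase

/-!
# Task PW: tables of plane graphs are recognised
-/

namespace Pool.Agent.H606R2.FF

open Equiv.Perm

theorem validT_table {n : ℕ} (P : PlaneGraph (Fin n)) : validT (table P) = true := by
  have hlen := table_length P
  have hrot := rep_rot P
  have hrev := rep_rev P
  have hface := rep_face P
  simp only [validT, Bool.and_eq_true, List.all_eq_true, List.mem_range, decide_eq_true_iff, hlen]
  refine ⟨⟨⟨⟨⟨?_, ?_⟩, ?_⟩, ?_⟩, ?_⟩, ?_⟩
  · exact P.out.2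
  · intro d hd
    have e1 : rotT (table P) d = P.rot ⟨d, hd⟩ := hrot ⟨d, hd⟩
    have e2 : revT (table P) d = P.rev ⟨d, hd⟩ := hrev ⟨d, hd⟩
    have e3 : lenT (table P) d = P.len ⟨d, hd⟩ := lenT_eq P ⟨d, hd⟩
    refine ⟨⟨⟨⟨⟨⟨?_, ?_⟩, ?_⟩, ?_⟩, ?_⟩, ?_⟩, ?_⟩
    · rw [e1]; exact (P.rot _).2
    · rw [e2]; exact (P.rev _).2
    · rw [e2, hrev, P.rev_rev]
    · rw [e2]
      intro h
      exact P.rev_ne ⟨d, hd⟩ (Fin.ext h)
    · rw [e3]; exact P.len_pos _
    · rw [e2, lenT_eq, e3, P.len_rev]
    · intro e he h
      have e4 : rotT (table P) e = P.rot ⟨e, he⟩ := hrot ⟨e, he⟩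
      rw [e1, e4] at h
      have := P.rot.injective (Fin.ext h)
      exact congrArg Fin.val this
  · intro d hd
    exact (ppos_spec P).1 ⟨d, hd⟩
  · rw [hrot.cnt, hface.cnt, hrev.cnt]
    exact P.euler
  · intro d hd
    have e2 : revT (table P) d = P.rev ⟨d, hd⟩ := hrev ⟨d, hd⟩
    rw [e2]
    intro h
    exact P.loopless ⟨d, hd⟩ ((hrot.mem_orb' ⟨d, hd⟩ _).1 h)
  · intro d hd e he
    have e2 : revT (table P) d = P.rev ⟨d, hd⟩ := hrev ⟨d, hd⟩
    have e3 : revT (table P) e = P.rev ⟨e, he⟩ := hrev ⟨e, he⟩
    intro h1 h2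
    have h1' : ((⟨e, he⟩ : Fin n) : ℕ) ∈ orb (rotT (table P)) n ((⟨d, hd⟩ : Fin n) : ℕ) := h1
    rw [hrot.mem_orb'] at h1'
    rw [e2, e3, hrot.mem_orb'] at h2
    exact congrArg Fin.val (P.simple _ _ h1' h2)

theorem pget_pround (G : Tab) (S : List (List ℤ)) {d : ℕ} (hd : d < G.1.length) :
    pget (pround G S) d = pnew G S d := by
  simp [pget, pround, List.getD_eq_getElem?_getD, hd]

/-- PW: the tables of plane graphs -/
theorem validT_iff (G : Tab) : validT G = true ↔ ∃ P : PlaneGraph (Fin G.1.length),
    table P = G := by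
  constructor
  · intro h
    simp only [validT, Bool.and_eq_true, List.all_eq_true, List.mem_range,
      decide_eq_true_iff] at h
    obtain ⟨⟨⟨⟨⟨hout, hd⟩, hk⟩, he⟩, hl⟩, hs⟩ := h
    set n := G.1.length with hn
    -- the permutations
    let rotF : Fin n → Fin n := fun d => ⟨rotT G d, (hd d d.2).1.1.1.1.1.1⟩
    have hinj : Function.Injective rotF := by
      intro a b hab
      have := (hd a a.2).2 b b.2 (congrArg Fin.val hab)
      exact Fin.ext this
    let rot : Equiv.Perm (Fin n) := Equiv.ofBijective rotF (Finite.injective_iff_bijective.1 hinj)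
    let revF : Fin n → Fin n := fun d => ⟨revT G d, (hd d d.2).1.1.1.1.1.2⟩
    have hinv : Function.Involutive revF := by
      intro a
      exact Fin.ext (hd a a.2).1.1.1.1.2
    let rev : Equiv.Perm (Fin n) := hinv.toPerm
    have hrot : Rep (rotT G) rot := fun d => rfl
    have hrev : Rep (revT G) rev := fun d => rfl
    have hface : Rep (faceT G) (rot * rev) := fun d => by
      rw [faceT, hrev d, hrot]; rfl
    let r : Fin n → Fin n → Prop := fun x y => y = rot x ∨ y = rev x
    have h0 : 0 < n := lt_of_le_of_lt (Nat.zero_le _) hout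
    have hreach : ∀ k, ∀ d : Fin n, pget ((pround G)^[k] (pinit G)) d ≠ [] →
        Relation.ReflTransGen r d ⟨0, h0⟩ := by
      intro k
      induction k with
      | zero =>
        intro d hdk
        by_cases hd0 : (d : ℕ) = 0
        · have : d = ⟨0, h0⟩ := Fin.ext hd0
          rw [this]
        · exfalso
          apply hdk
          have hd2 : (d : ℕ) < G.1.length := d.2
          simp [pget, pinit, List.getD_eq_getElem?_getD, hd2, hd0]
      | succ k ih =>
        intro d hdk
        rw [Function.iterate_succ_apply', pget_pround G _ d.2, pnew] at hdk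
        split_ifs at hdk with h1 h2 h3
        · exact ih d h1
        · exact (ih (rot d) h2).head (Or.inl rfl)
        · exact (ih (rev d) h3).head (Or.inr rfl)
        · exact absurd rfl hdk
    have hpow : ∀ i : ℕ, ∀ x, Relation.ReflTransGen r x ((rot ^ i) x) := by
      intro i x
      induction i with
      | zero => exact Relation.ReflTransGen.refl
      | succ i ih =>
        refine ih.tail (Or.inl ?_)
        rw [pow_succ', Equiv.Perm.mul_apply]
    have hsymm : ∀ x y, Relation.ReflTransGen r x y → Relation.ReflTransGen r y x := by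
      intro x y hxy
      induction hxy with
      | refl => exact Relation.ReflTransGen.refl
      | tail _ hyz ih =>
        rename_i y z _
        refine Relation.ReflTransGen.trans ?_ ih
        rcases hyz with rfl | rfl
        · have hc : rot.SameCycle (rot y) y := (SameCycle.refl rot y).apply_left
          obtain ⟨i, hi⟩ := hc.exists_nat_pow_eq
          have := hpow i (rot y)
          rwa [hi] at this
        · refine Relation.ReflTransGen.single (Or.inr ?_)
          exact (hinv y).symm
    refine ⟨{ rot := rot, rev := rev, len := fun d => lenT G d, out := ⟨G.2, hout⟩,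
              rev_rev := hinv, rev_ne := ?_, len_pos := ?_, len_rev := ?_, connected := ?_,
              euler := ?_, loopless := ?_, simple := ?_ }, ?_⟩
    · intro d h
      exact (hd d d.2).1.1.1.2 (congrArg Fin.val h)
    · intro d
      exact (hd d d.2).1.1.2
    · intro d
      exact (hd d d.2).1.2
    · intro a b
      have ha := hreach G.1.length a (hk a a.2)
      have hb := hreach G.1.length b (hk b b.2)
      exact ha.trans (hsymm _ _ hb)
    · rw [← hrot.cnt, ← hface.cnt, ← hrev.cnt]
      exact he
    · intro d h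
      exact hl d d.2 ((hrot.mem_orb' d (rev d)).2 h)
    · intro d e h1 h2
      exact Fin.ext (hs d d.2 e e.2 ((hrot.mem_orb' d e).2 h1)
        ((hrot.mem_orb' (rev d) (rev e)).2 h2))
    · refine Prod.ext ?_ rfl
      apply List.ext_getElem
      · simp [table, hn]
      · intro i h1 h2
        have : G.1[i] = (rotT G i, revT G i, lenT G i) := by
          simp [rotT, revT, lenT, List.getD_eq_getElem?_getD, h2]
        rw [this]
        simp [table, rot, rotF, rev, revF]
  · rintro ⟨P, hP⟩
    have := validT_table P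
    rwa [hP] at this

end Pool.Agent.H606R2.FF
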