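import Pool.Agent.H606R2.FF.TPQ
import Pool.Agent.H606R2.FF.TabBase

/-!
# Task PX: the constraints of a plane graph
-/

namespace Pool.Agent.H606R2.FF

open Equiv.Perm

theorem Rep.orbSet_eq {n : ℕ} {f : ℕ → ℕ} {φ : Equiv.Perm (Fin n)} (h : Rep f φ) (d : Fin n) :
    orbSet f n d = ((List.finRange n).filter fun x => φ.SameCycle d x).map Fin.val := by
  rw [orbSet, ← List.map_coe_finRange_eq_range, List.filter_map]
  congr 1
  apply List.filter_congr
  intro x _
  simp only [Function.comp_apply]
  rw [Bool.eq_iff_iff, decide_eq_true_iff, decide_eq_true_iff, h.mem_orb']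

theorem Rep.orbSet_sum {n : ℕ} {f : ℕ → ℕ} {φ : Equiv.Perm (Fin n)} (h : Rep f φ) (d : Fin n)
    (v : ℕ → ℝ) : ((orbSet f n d).map v).sum = cycSum φ (fun x => v x) d := by
  classical
  rw [h.orbSet_eq, List.map_map, cycSum]
  have e : {a | φ.SameCycle d a} =
      (((List.finRange n).filter fun x => φ.SameCycle d x).toFinset : Set (Fin n)) := by
    ext x
    simp
  rw [e, finsum_mem_coe_finset, List.sum_toFinset _ ((List.nodup_finRange n).filter _)]
  rfl

theorem Rep.orbSet_length {n : ℕ} {f : ℕ → ℕ} {φ : Equiv.Perm (Fin n)} (h : Rep f φ)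
    (d : Fin n) : (orbSet f n d).length = Nat.card {a | φ.SameCycle d a} := by
  classical
  have e : {a | φ.SameCycle d a} =
      (((List.finRange n).filter fun x => φ.SameCycle d x).toFinset : Set (Fin n)) := by
    ext x
    simp
  rw [h.orbSet_eq, List.length_map, e,
    ← List.toFinset_card_of_nodup ((List.nodup_finRange n).filter _)]
  simp

/-- the constraint `c` holds for the weights `v` -/
def SatC (v : ℕ → ℝ) (c : List ℕ × ℤ × ℤ) : Prop :=
  (c.2.1 : ℝ) ≤ (c.1.map v).sum ∧ (c.1.map v).sum ≤ (c.2.2 : ℝ)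

theorem mem_ite_singleton {α : Type} (p : Prop) [Decidable p] (x c : α) :
    c ∈ (if p then [x] else []) ↔ p ∧ c = x := by
  by_cases h : p <;> simp [h]

theorem stripT_iff {n : ℕ} (G : PlaneGraph (Fin n)) (v : ℕ → ℝ) (d : Fin n) (t : ℕ) :
    (∀ c ∈ stripT (table G) d t, SatC v c) ↔
      ArcOK (fun x : Fin n => xT (table G) x) (fun x => v x) d (inner G.face d t)
        ((G.face ^ (t + 1)) d) := by
  have hface := rep_face G
  have hI : ((List.range t).map fun i => (faceT (table G))^[i + 1] d) =
      (inner G.face d t).map Fin.val := by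
    rw [inner, List.map_map]
    apply List.map_congr_left
    intro i _
    exact hface.iter (i + 1) d
  have hy : (faceT (table G))^[t + 1] d = ((G.face ^ (t + 1)) d : Fin n) := hface.iter (t + 1) d
  have hsum : (((inner G.face d t).map Fin.val).map v).sum =
      ((inner G.face d t).map fun x : Fin n => v x).sum := by
    rw [List.map_map]; rfl
  simp only [stripT, List.mem_append, mem_ite_singleton, hI, hy, Bool.and_eq_true,
    List.all_eq_true, decide_eq_true_iff, ArcOK, List.forall_mem_map]
  constructor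
  · intro H
    refine ⟨?_, ?_, ?_, ?_⟩
    · intro h1 h2
      have := H _ (Or.inl (Or.inl (Or.inl ⟨⟨h1, h2⟩, rfl⟩)))
      simp only [SatC, hsum] at this
      rw [abs_le]
      exact_mod_cast this
    · intro h1 h2
      have := H _ (Or.inl (Or.inl (Or.inr ⟨⟨h1, h2⟩, rfl⟩)))
      simp only [SatC, hsum] at this
      rw [abs_le]
      exact_mod_cast this
    · intro h1 h2
      have := H _ (Or.inl (Or.inr ⟨⟨h1, h2⟩, rfl⟩))
      simp only [SatC, hsum] at this
      push_cast at this
      linarith [this.1, this.2]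
    · intro h1 h2
      have := H _ (Or.inr ⟨⟨h1, h2⟩, rfl⟩)
      simp only [SatC, hsum] at this
      push_cast at this
      linarith [this.1, this.2]
  · rintro ⟨H1, H2, H3, H4⟩ c (((⟨⟨h1, h2⟩, rfl⟩ | ⟨⟨h1, h2⟩, rfl⟩) | ⟨⟨h1, h2⟩, rfl⟩) |
      ⟨⟨h1, h2⟩, rfl⟩)
    · have := H1 h1 h2
      rw [abs_le] at this
      simp only [SatC, hsum]
      exact_mod_cast this
    · have := H2 h1 h2
      rw [abs_le] at this
      simp only [SatC, hsum]
      exact_mod_cast this
    · have := H3 h1 h2
      simp only [SatC, hsum]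
      rw [this]
      simp
    · have := H4 h1 h2
      simp only [SatC, hsum]
      rw [this]
      simp

theorem csT_sat_iff {n : ℕ} (G : PlaneGraph (Fin n)) (v : ℕ → ℝ) :
    (∀ c ∈ csT (table G), SatC v c) ↔
      Fractional G (fun d : Fin n => xT (table G) d) (fun d => v d) := by
  have hlen := table_length G
  have hrot := rep_rot G
  have hface := rep_face G
  have hout : (table G).2 = (G.out : ℕ) := rfl
  simp only [csT, List.mem_append, hlen, List.mem_map, List.mem_range, List.mem_flatMap]
  constructor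
  · intro H
    refine ⟨?_, ?_, ?_, ?_⟩
    · intro a
      have := H _ (Or.inl (Or.inl (Or.inl ⟨(a : ℕ), a.2, rfl⟩)))
      simp only [SatC, List.map_cons, List.map_nil, List.sum_cons, List.sum_nil, add_zero] at this
      rw [abs_le]
      exact_mod_cast this
    · intro d
      have := H _ (Or.inl (Or.inl (Or.inr ⟨(d : ℕ), d.2, rfl⟩)))
      simp only [SatC, hrot.orbSet_sum, hrot.orbSet_length] at this
      push_cast at this
      exact le_antisymm this.2 this.1
    · intro d
      have := H _ (Or.inl (Or.inr ⟨(d : ℕ), d.2, rfl⟩))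
      simp only [SatC, hface.orbSet_sum, hout, hface.mem_orb'] at this
      constructor
      · intro hd
        simp only [hd, if_true] at this
        push_cast at this
        exact le_antisymm this.2 this.1
      · intro hd
        simp only [hd, if_false] at this
        push_cast at this
        exact le_antisymm this.2 this.1
    · intro d e _ t ht
      by_cases htn : t ≤ n
      · obtain ⟨s, rfl⟩ : ∃ s, t = s + 1 := ⟨t - 1, by omega⟩
        rw [← stripT_iff G v e (s + 1)]
        intro c hc
        exact H c (Or.inr ⟨(e : ℕ), e.2, s, by omega, hc⟩)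
      · -- the cycle is shorter: all clauses are vacuous
        have hmem : e ∈ inner G.face e t := by
          obtain ⟨i, hi, hie⟩ := (sameCycle_iff_lt G.face (G.face e) e).1
            (SameCycle.refl G.face e).apply_left
          rw [inner, List.mem_map]
          refine ⟨i, List.mem_range.2 (by omega), ?_⟩
          rw [pow_succ, Equiv.Perm.mul_apply]
          exact hie
        refine ⟨fun h1 _ => ?_, fun h1 _ => ?_, fun h1 _ => ?_, fun h1 _ => ?_⟩
        · exact absurd (h1 e hmem) (lt_irrefl _)
        · exact absurd (h1 e hmem) (lt_irrefl _)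
        · exact absurd (h1 e hmem) (lt_irrefl _)
        · exact absurd (h1 e hmem) (lt_irrefl _)
  · rintro ⟨hbox, hvert, htot, hstr⟩ c (((⟨d, hd, rfl⟩ | ⟨d, hd, rfl⟩) | ⟨d, hd, rfl⟩) |
      ⟨d, hd, t, ht, hc⟩)
    · have := hbox ⟨d, hd⟩
      rw [abs_le] at this
      simp only [SatC, List.map_cons, List.map_nil, List.sum_cons, List.sum_nil, add_zero]
      exact_mod_cast this
    · have := hvert ⟨d, hd⟩
      rw [← hrot.orbSet_sum, ← hrot.orbSet_length] at this
      simp only [SatC]
      rw [this]
      push_cast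
      exact ⟨le_refl _, le_refl _⟩
    · have := htot ⟨d, hd⟩
      rw [← hface.orbSet_sum] at this
      simp only [SatC, hout]
      have hm : ((G.out : ℕ) ∈ orb (faceT (table G)) n d) ↔ G.face.SameCycle ⟨d, hd⟩ G.out :=
        hface.mem_orb' ⟨d, hd⟩ G.out
      by_cases hc : G.face.SameCycle ⟨d, hd⟩ G.out
      · have h1 := this.1 hc
        simp only [hm, hc, if_true]
        simp only at h1
        rw [h1]
        simp
      · have h1 := this.2 hc
        simp only [hm, hc, if_false]
        simp only at h1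
        rw [h1]
        simp
    · have h1 := hstr ⟨d, hd⟩ ⟨d, hd⟩ (SameCycle.refl _ _) (t + 1) (by omega)
      exact (stripT_iff G v ⟨d, hd⟩ (t + 1)).2 h1 c hc

/-- PX: the constraints of a plane graph -/
theorem csT_iff {n : ℕ} (G : PlaneGraph (Fin n)) (_h : posOK (table G) = true) :
    (∃ y : ℕ → ℝ, (∀ i, 0 ≤ y i) ∧ ∀ c ∈ csT (table G),
      (c.2.1 : ℝ) ≤ (c.1.map fun i => 1 - 2 * y i).sum ∧
        (c.1.map fun i => 1 - 2 * y i).sum ≤ (c.2.2 : ℝ)) ↔
    ∃ w : Fin n → ℝ, Fractional G (fun d => xT (table G) d) w := by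
  constructor
  · rintro ⟨y, _, hy⟩
    exact ⟨_, (csT_sat_iff G (fun i => 1 - 2 * y i)).1 hy⟩
  · rintro ⟨w, hw⟩
    let y : ℕ → ℝ := fun i => if h : i < n then (1 - w ⟨i, h⟩) / 2 else 0
    have hyw : (fun d : Fin n => 1 - 2 * y d) = w := by
      funext d
      simp only [y, d.2, dif_pos]
      ring
    refine ⟨y, ?_, ?_⟩
    · intro i
      simp only [y]
      split_ifs with h
      · have := (abs_le.1 (hw.box ⟨i, h⟩)).2
        linarith
      · exact le_refl _
    · refine (csT_sat_iff G (fun i => 1 - 2 * y i)).2 ?_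
      rw [hyw]
      exact hw

end Pool.Agent.H606R2.FF
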