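import Pool.Agent.H606R2.FF.TGM
import Pool.Agent.H606R2.FF.TNC
import Pool.Agent.H606R2.FF.TLI
import Pool.Agent.H606R2.FF.THM
import Pool.Agent.H606R2.FF.TPV
import Pool.Agent.H606R2.FF.TPF
import Pool.Agent.H606R2.FF.TPC
import Pool.Agent.H606R2.FF.TPW
import Pool.Agent.H606R2.FF.TPQ
import Pool.Agent.H606R2.FF.TPG
import Pool.Agent.H606R2.FF.TPX
import Pool.Agent.NPC.Dec

/-!
# Flat folding without flat angles is in P
-/

namespace Pool.Agent.H606R2.FF

open Equiv.Perm Pool.Agent.NPC

variable {D : Type}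

theorem zigzag_of_pos {G : PlaneGraph D} {X : D → ℤ} (hX : Positions G X) (d : D) :
    Zigzag G.face X d := by
  intro a _
  have hne : ∀ a, X (G.rev a) ≠ X a := by
    intro a he
    have h1 := hX.X_len a
    rw [he] at h1
    simp only [sub_self, abs_zero] at h1
    have := G.len_pos a
    omega
  have e1 : X (G.face a) = X (G.rev a) := hX.X_rot (G.rev a)
  have e2 : X (G.face (G.face a)) = X (G.rev (G.face a)) := hX.X_rot _
  have e3 : G.face a = G.rot (G.rev a) := rfl
  have h2 := hX.same_side (G.rev a)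
  rw [← e3, G.rev_rev, e1] at h2
  rw [e2, e1]
  have h3 := hne a
  have h4 := hne (G.face a)
  rw [e1] at h4
  rcases lt_or_gt_of_ne h3 with h | h
  · right
    exact ⟨h, h2.1 h⟩
  · left
    refine ⟨h, ?_⟩
    by_contra h'
    have := h2.2 (by omega)
    omega

theorem tau_cases (M : Set D) (a : D) : tau M a = 1 ∨ tau M a = -1 := by
  unfold tau; split_ifs <;> simp

theorem FaceFold.congr {φ : Equiv.Perm D} {X τ : D → ℤ} {d d' : D} {T : ℤ} {h h' : D → ℚ}
    (hf : FaceFold φ X τ d T h) (hd : φ.SameCycle d d') (hh : ∀ a, φ.SameCycle d a → h' a = h a) :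
    FaceFold φ X τ d' T h' := by
  have key : ∀ a, φ.SameCycle d' a ↔ φ.SameCycle d a := fun a =>
    ⟨fun h => hd.trans h, fun h => hd.symm.trans h⟩
  have hφ : ∀ a, φ.SameCycle d a → φ.SameCycle d (φ a) := fun a h =>
    Equiv.Perm.sameCycle_apply_right.2 h
  constructor
  · intro a b ha hb hab
    rw [key] at ha hb
    rw [hh a ha, hh b hb] at hab
    exact hf.inj a b ha hb hab
  · intro a c ha hc h1 h2
    rw [key] at ha hc
    rw [hh a ha, hh c hc, hh _ (hφ a ha)]
    exact hf.cross a c ha hc h1 h2
  · intro a c ha hc h1 h2 h3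
    rw [key] at ha hc
    rw [hh a ha, hh c hc, hh _ (hφ a ha), hh _ (hφ c hc)]
    exact hf.pair a c ha hc h1 h2 h3
  · intro a ha
    rw [key] at ha
    rw [hh a ha, hh _ (hφ a ha)]
    exact hf.type a ha
  · intro s a ha h1 h2
    rw [key] at ha
    rw [← hf.wind s a ha h1 h2]
    congr 1
    funext c
    have : (c ∈ {c | φ.SameCycle d' c ∧ min (X c) (X (φ c)) ≤ s ∧ s < max (X c) (X (φ c)) ∧
        h' c ≤ h' a}) = (c ∈ {c | φ.SameCycle d c ∧ min (X c) (X (φ c)) ≤ s ∧
        s < max (X c) (X (φ c)) ∧ h c ≤ h a}) := by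
      simp only [Set.mem_setOf_eq, eq_iff_iff]
      rw [key]
      constructor
      · rintro ⟨a1, a2, a3, a4⟩
        rw [hh c a1, hh a ha] at a4
        exact ⟨a1, a2, a3, a4⟩
      · rintro ⟨a1, a2, a3, a4⟩
        refine ⟨a1, a2, a3, ?_⟩
        rw [hh c a1, hh a ha]
        exact a4
    rw [this]

/-- The characterisation: a plane graph folds flat iff the linear program is feasible. -/
theorem flatFoldable_iff [Fintype D] (G : PlaneGraph D) :
    G.FlatFoldable ↔ ∃ (X : D → ℤ) (w : D → ℝ), Positions G X ∧ Fractional G X w := by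
  classical
  constructor
  · rintro ⟨F⟩
    exact ⟨F.X, _, (fractional_of_folded F).1, (fractional_of_folded F).2⟩
  · rintro ⟨X, w, hX, hw⟩
    obtain ⟨M, hM, hF⟩ := exists_integral G X hX w hw
    -- layers of every face
    have hex : ∀ d, ∃ h : D → ℚ, FaceFold G.face X (tau M) d
        (if G.face.SameCycle d G.out then -2 else 2) h := by
      intro d
      refine exists_layers G.face X (tau M) d _ ?_ (zigzag_of_pos hX d) (tau_cases M)
        (hF.strips d) ?_
      · split_ifs <;> simp
      · split_ifs with hd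
        · rw [(hF.total d).1 hd]; norm_num
        · rw [(hF.total d).2 hd]; norm_num
    choose H hH using hex
    -- one representative for every face
    let rep : D → D := fun a => (Quotient.mk (SameCycle.setoid G.face) a).out
    have hrep : ∀ a, G.face.SameCycle (rep a) a := fun a => Quotient.mk_out (s :=
      SameCycle.setoid G.face) a
    have hrep' : ∀ a b, G.face.SameCycle a b → rep a = rep b := by
      intro a b hab
      have : Quotient.mk (SameCycle.setoid G.face) a = Quotient.mk _ b := Quotient.sound hab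
      simp only [rep, this]
    let h : D → ℚ := fun a => H (rep a) a
    have hh : ∀ d, ∀ a, G.face.SameCycle (rep d) a → h a = H (rep d) a := by
      intro d a ha
      have : rep a = rep d := (hrep' d a ((hrep d).symm.trans ha)).symm
      simp only [h, this]
    have hff : ∀ d, FaceFold G.face X (tau M) d
        (if G.face.SameCycle (rep d) G.out then -2 else 2) h := fun d =>
      (hH (rep d)).congr (hrep d) (hh d)
    refine glue (h := h) ⟨hX, hM, fun d hd => ?_, fun d hd => ?_⟩
    · have := hff d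
      rwa [if_pos ((hrep d).trans hd)] at this
    · have := hff d
      rwa [if_neg (fun h' => hd ((hrep d).symm.trans h'))] at this

theorem code_eq {n : ℕ} (G : PlaneGraph (Fin n)) : G.code = bits (table G) := rfl

theorem Strips_neg {φ : Equiv.Perm D} {X : D → ℤ} {w : D → ℝ} {d : D} (e c : ℤ)
    (he : e = 1 ∨ e = -1) (h : Strips φ X w d) : Strips φ (fun a => e * X a + c) w d := by
  intro a ha t ht
  obtain ⟨h1, h2, h3, h4⟩ := h a ha t ht
  rcases he with rfl | rfl
  · refine ⟨fun a1 a2 => h1 ?_ ?_, fun a1 a2 => h2 ?_ ?_, fun a1 a2 => h3 ?_ ?_,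
      fun a1 a2 => h4 ?_ ?_⟩ <;> intro b hb <;>
    first | (have := a1 b hb; simp only at this; omega) | (have := a2 b hb; simp only at this; omega)
  · refine ⟨fun a1 a2 => h2 ?_ ?_, fun a1 a2 => h1 ?_ ?_, fun a1 a2 => h4 ?_ ?_,
      fun a1 a2 => h3 ?_ ?_⟩ <;> intro b hb <;>
    first | (have := a1 b hb; simp only at this; omega) | (have := a2 b hb; simp only at this; omega)

theorem csT_lt {n : ℕ} (G : PlaneGraph (Fin n)) : ∀ c ∈ csT (table G), ∀ i ∈ c.1,
    i < (table G).1.length := by
  have hlen : (table G).1.length = n := table_length G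
  intro c hc i hi
  unfold csT at hc
  simp only [List.mem_append, List.mem_map, List.mem_flatMap, List.mem_range] at hc
  rcases hc with ((⟨d, hd, rfl⟩ | ⟨d, hd, rfl⟩) | ⟨d, hd, rfl⟩) | ⟨d, hd, t, ht, hc⟩
  · simp only [List.mem_singleton] at hi
    rw [hi]; exact hd
  · simp only [orbSet, List.mem_filter, List.mem_range] at hi
    exact hi.1
  · simp only [orbSet, List.mem_filter, List.mem_range] at hi
    exact hi.1
  · have hI : c.1 = (List.range (t + 1)).map fun i => (faceT (table G))^[i + 1] d := by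
      unfold stripT at hc
      simp only [List.mem_append] at hc
      rcases hc with ((hc | hc) | hc) | hc <;> split_ifs at hc <;>
        first
        | (rw [List.mem_singleton] at hc; rw [hc])
        | exact absurd hc (by simp)
    rw [hI] at hi
    obtain ⟨j, -, rfl⟩ := List.mem_map.1 hi
    have h1 := (rep_face G).iter (j + 1) ⟨d, hlen ▸ hd⟩
    have h2 := (((G.face)^[j + 1]) ⟨d, hlen ▸ hd⟩).is_lt
    simp only at h1
    omega

theorem poly_posOK : Poly posOK := by
  have hn : Poly (fun G : Tab => List.range G.1.length) := Poly.range_length (by fun_prop)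
  refine Poly.all hn ?_
  have g0 : Poly (fun p : Tab × ℕ => pget (ppos p.1) p.2) :=
    TPV.poly_ppos_get (by fun_prop) (by fun_prop)
  have g1 : Poly (fun p : Tab × ℕ => pget (ppos p.1) (rotT p.1 p.2)) :=
    TPV.poly_ppos_get (by fun_prop) (TPV.poly_rotT (by fun_prop) (by fun_prop))
  have g2 : Poly (fun p : Tab × ℕ => pget (ppos p.1) (revT p.1 p.2)) :=
    TPV.poly_ppos_get (by fun_prop) (TPV.poly_revT (by fun_prop) (by fun_prop))
  have g3 : Poly (fun p : Tab × ℕ => lenT p.1 p.2) :=
    TPV.poly_lenT (by fun_prop) (by fun_prop)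
  have g4 : Poly (fun p : Tab × ℕ => (pget (ppos p.1) p.2).getD 0 0) :=
    NPC.Poly.getD g0 (NPC.Poly.const _) (NPC.Poly.const _)
  have g5 : Poly (fun p : Tab × ℕ => (pget (ppos p.1) p.2).getD 1 0) :=
    NPC.Poly.getD g0 (NPC.Poly.const _) (NPC.Poly.const _)
  have g6 : Poly (fun p : Tab × ℕ =>
      [(pget (ppos p.1) p.2).getD 0 0 + (pget (ppos p.1) p.2).getD 1 0 * (lenT p.1 p.2 : ℤ),
        -(pget (ppos p.1) p.2).getD 1 0]) :=
    NPC.Poly.cons (NPC.Poly.iadd g4 (NPC.Poly.imul g5 (NPC.Poly.natCast g3)))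
      (NPC.Poly.cons (NPC.Poly.ineg g5) (NPC.Poly.const _))
  exact Poly.and (Poly.decide_eq g1 g0) (Poly.decide_eq g2 g6)

/-- correctness of the algorithm -/
theorem decideT_iff {n : ℕ} (G : PlaneGraph (Fin n)) :
    decideT (table G) = true ↔ G.FlatFoldable := by
  have hlen : (table G).1.length = n := by simp [table]
  have hvalid : validT (table G) = true := by
    rw [validT_iff]
    have key : ∀ m, m = n → ∃ P : PlaneGraph (Fin m), table P = table G := by
      rintro m rfl
      exact ⟨G, rfl⟩
    exact key _ hlen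
  unfold decideT
  rw [hvalid, Bool.true_and, Bool.and_eq_true, flatFoldable_iff]
  obtain ⟨-, hq1, hq2, hq3⟩ := ppos_spec G
  have hI := csT_lt G
  constructor
  · rintro ⟨h1, h2⟩
    obtain ⟨w, hw⟩ := (csT_iff G h1).1 ((feas_iff _ _ hI).1 h2)
    exact ⟨_, w, hq2 h1, hw⟩
  · rintro ⟨X, w, hX, hw⟩
    have h1 := hq1.2 ⟨X, hX⟩
    refine ⟨h1, (feas_iff _ _ hI).2 ((csT_iff G h1).2 ⟨w, ?_⟩)⟩
    obtain ⟨e, c, he, hXe⟩ := hq3 X hX
    refine ⟨hw.box, hw.vertex, hw.total, fun d => ?_⟩
    have h2 : (fun d : Fin n => xT (table G) d) = fun d => e * X d + (-e * c) := by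
      funext d
      rw [hXe d]
      rcases he with rfl | rfl <;> ring
    rw [h2]
    exact Strips_neg e _ he (hw.strips d)

/-- **Flat folding of plane graphs with forbidden flat angles and free mountains and valleys is in
P.** -/
theorem flatFolding_inP : InP FlatFolding := by
  have h1 : InPP (fun T : Tab => decideT T = true) := by
    refine inPP_of (d := decideT) ?_ (fun _ => Iff.rfl)
    have hn : Poly (fun T : Tab => List.replicate T.1.length ()) :=
      (UPoly.length (Poly.fst Poly.id))
    exact Poly.and poly_validT (Poly.and poly_posOK (poly_feas hn poly_csT))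
  have h2 : lang (fun T : Tab => decideT T = true) = FlatFolding := by
    ext x
    constructor
    · rintro ⟨T, rfl, hT⟩
      have hv : validT T = true := by
        unfold decideT at hT
        rw [Bool.and_eq_true] at hT
        exact hT.1
      obtain ⟨P, hP⟩ := (validT_iff T).1 hv
      refine ⟨_, P, ?_, ?_⟩
      · rw [code_eq, hP]
      · rw [← decideT_iff, hP]; exact hT
    · rintro ⟨n, G, rfl, hG⟩
      exact ⟨table G, rfl, (decideT_iff G).2 hG⟩
  have h3 : InP (lang (fun T : Tab => decideT T = true)) := h1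
  rw [h2] at h3
  exact h3

end Pool.Agent.H606R2.FF
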