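import Pool.Agent.H606R2.FF.Base

/-!
# Task CB: closed walks of a permutation as cyclic lists
-/

namespace Pool.Agent.H606R2.FF

open Equiv.Perm

variable {D : Type}

namespace CB

/-- The list `e, φ e, …, φ^(n-1) e`. -/
def walk (φ : Equiv.Perm D) (e : D) (n : ℕ) : List D := (List.range n).map fun i => (φ ^ i) e

theorem length_walk (φ : Equiv.Perm D) (e : D) (n : ℕ) : (walk φ e n).length = n := by
  simp [walk]

theorem walk_succ (φ : Equiv.Perm D) (e : D) (n : ℕ) :
    walk φ e (n + 1) = e :: walk φ (φ e) n := by
  unfold walk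
  rw [List.range_succ_eq_map, List.map_cons, List.map_map]
  congr 1

theorem walk_succ' (φ : Equiv.Perm D) (e : D) (n : ℕ) :
    walk φ e (n + 1) = walk φ e n ++ [(φ ^ n) e] := by
  unfold walk
  rw [List.range_succ, List.map_append, List.map_singleton]

theorem walk_add (φ : Equiv.Perm D) (e : D) (m n : ℕ) :
    walk φ e (m + n) = walk φ e m ++ walk φ ((φ ^ m) e) n := by
  induction n with
  | zero => simp [walk]
  | succ n ih =>
    rw [← Nat.add_assoc, walk_succ', ih, walk_succ', List.append_assoc]
    congr 3
    rw [← Equiv.Perm.mul_apply, ← pow_add, Nat.add_comm n m]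

theorem walk_rotate_one (φ : Equiv.Perm D) (e : D) (n : ℕ) (h : (φ ^ n) e = e) :
    (walk φ e n).rotate 1 = walk φ (φ e) n := by
  cases n with
  | zero => simp [walk]
  | succ n =>
    rw [walk_succ, List.rotate_cons_succ, List.rotate_zero, walk_succ']
    congr 2
    rw [← Equiv.Perm.mul_apply, ← pow_succ, h]

theorem pow_fix (φ : Equiv.Perm D) (e : D) (n k : ℕ) (h : (φ ^ n) e = e) :
    (φ ^ n) ((φ ^ k) e) = (φ ^ k) e := by
  rw [← Equiv.Perm.mul_apply, ← pow_add, Nat.add_comm, pow_add, Equiv.Perm.mul_apply, h]

theorem walk_rotate (φ : Equiv.Perm D) (e : D) (n : ℕ) (h : (φ ^ n) e = e) (k : ℕ) :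
    (walk φ e n).rotate k = walk φ ((φ ^ k) e) n := by
  induction k with
  | zero => simp
  | succ k ih =>
    rw [← List.rotate_rotate, ih, walk_rotate_one φ _ n (pow_fix φ e n k h), pow_succ',
      Equiv.Perm.mul_apply]

theorem map_walk (φ : Equiv.Perm D) (e : D) (n : ℕ) :
    (walk φ e n).map φ = walk φ (φ e) n := by
  unfold walk
  rw [List.map_map]
  refine List.map_congr_left fun i _ => ?_
  simp only [Function.comp]
  rw [← Equiv.Perm.mul_apply, ← Equiv.Perm.mul_apply, ← pow_succ, ← pow_succ']

theorem inner_eq (φ : Equiv.Perm D) (e : D) (t : ℕ) : inner φ e t = walk φ (φ e) t := by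
  unfold inner walk
  refine List.map_congr_left fun i _ => ?_
  rw [pow_succ, Equiv.Perm.mul_apply]

end CB

open CB in
/-- CB: from permutations to lists -/
theorem exists_list [Fintype D] (φ : Equiv.Perm D) (X : D → ℤ) (d : D) (hz : Zigzag φ X d) :
    ∃ l : List D, l.Nodup ∧ 2 ≤ l.length ∧ Even l.length ∧ (∀ a, a ∈ l ↔ φ.SameCycle d a) ∧
      (∀ a b, Adj l a b ↔ (a ∈ l ∧ b = φ a)) ∧ (∀ p, p ∈ pairsOf l ↔ (p.1 ∈ l ∧ p.2 = φ p.1)) ∧
      LZig X l ∧ ∀ w : D → ℝ, (Strips φ X w d ↔ LStrips X w l) ∧ cycSum φ w d = (l.map w).sum := by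
  classical
  -- the period
  obtain ⟨n, hn0, hnfix, hnmin⟩ : ∃ n : ℕ, 0 < n ∧ (φ ^ n) d = d ∧
      ∀ m, 0 < m → (φ ^ m) d = d → n ≤ m := by
    have hex : ∃ n : ℕ, 0 < n ∧ (φ ^ n) d = d :=
      ⟨orderOf φ, orderOf_pos φ, by rw [pow_orderOf_eq_one]; rfl⟩
    refine ⟨Nat.find hex, (Nat.find_spec hex).1, (Nat.find_spec hex).2, fun m h1 h2 => ?_⟩
    exact Nat.find_min' hex ⟨h1, h2⟩
  have hsc : ∀ i : ℕ, φ.SameCycle d ((φ ^ i) d) := fun i => ⟨i, by simp⟩
  have hinj : ∀ i < n, ∀ j < n, (φ ^ i) d = (φ ^ j) d → i = j := by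
    have aux : ∀ i j, i < j → j < n → (φ ^ i) d ≠ (φ ^ j) d := by
      intro i j hij hj heq
      have h1 : (φ ^ (j - i)) d = d := by
        have h2 : (φ ^ j) d = (φ ^ i) ((φ ^ (j - i)) d) := by
          rw [← Equiv.Perm.mul_apply, ← pow_add]
          congr 2
          omega
        rw [h2] at heq
        exact ((φ ^ i).injective heq).symm
      have := hnmin (j - i) (by omega) h1
      omega
    intro i hi j hj heq
    rcases lt_trichotomy i j with h | h | h
    · exact absurd heq (aux i j h hj)
    · exact h
    · exact absurd heq.symm (aux j i h hi)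
  have hmem : ∀ a, a ∈ walk φ d n ↔ φ.SameCycle d a := by
    intro a
    constructor
    · intro ha
      unfold walk at ha
      rw [List.mem_map] at ha
      obtain ⟨i, _, rfl⟩ := ha
      exact hsc i
    · intro ha
      obtain ⟨i, rfl⟩ := ha.exists_nat_pow_eq
      have h1 : (φ ^ i) d = (φ ^ (i % n)) d := by
        conv_lhs => rw [← Nat.mod_add_div i n, pow_add, pow_mul, Equiv.Perm.mul_apply]
        congr 1
        have : ∀ k : ℕ, ((φ ^ n) ^ k) d = d := by
          intro k
          induction k with
          | zero => rfl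
          | succ k ih => rw [pow_succ, Equiv.Perm.mul_apply, hnfix, ih]
        exact this _
      rw [h1]
      unfold walk
      rw [List.mem_map]
      exact ⟨i % n, List.mem_range.2 (Nat.mod_lt _ hn0), rfl⟩
  have hnd : (walk φ d n).Nodup := by
    unfold walk
    refine List.Nodup.map_on ?_ List.nodup_range
    intro i hi j hj h
    exact hinj i (List.mem_range.1 hi) j (List.mem_range.1 hj) h
  have hfixall : ∀ a, φ.SameCycle d a → (φ ^ n) a = a := by
    intro a ha
    obtain ⟨i, rfl⟩ := ha.exists_nat_pow_eq
    exact pow_fix φ d n i hnfix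
  have hrot : ∀ a, φ.SameCycle d a → walk φ d n ~r walk φ a n := by
    intro a ha
    obtain ⟨i, rfl⟩ := ha.exists_nat_pow_eq
    exact ⟨i, walk_rotate φ d n hnfix i⟩
  have hrot' : ∀ l', walk φ d n ~r l' → ∃ a, φ.SameCycle d a ∧ l' = walk φ a n := by
    rintro l' ⟨k, rfl⟩
    exact ⟨(φ ^ k) d, hsc k, walk_rotate φ d n hnfix k⟩
  have hn2 : 2 ≤ n := by
    by_contra hcon
    have : n = 1 := by omega
    rw [this, pow_one] at hnfix
    rcases hz d (SameCycle.refl _ _) with h | h
    · rw [hnfix] at h
      exact absurd h.1 (lt_irrefl _)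
    · rw [hnfix] at h
      exact absurd h.1 (lt_irrefl _)
  have hsucc : ∀ a, φ.SameCycle d a → φ.SameCycle d (φ a) := fun a ha =>
    sameCycle_apply_right.2 ha
  have heven : Even n := by
    have h1 : ∀ a, φ.SameCycle d a → (X a < X (φ a) ↔ ¬ X (φ a) < X (φ (φ a))) := by
      intro a ha
      rcases hz a ha with h | h
      · exact ⟨fun _ => not_lt.2 h.2.le, fun _ => h.1⟩
      · exact ⟨fun h' => absurd h' (not_lt.2 h.1.le), fun h' => absurd h.2 h'⟩
    have h2 : ∀ k : ℕ, ((X ((φ ^ k) d) < X ((φ ^ (k + 1)) d)) ↔
        (if Even k then X d < X (φ d) else ¬ X d < X (φ d))) := by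
      intro k
      induction k with
      | zero => simp
      | succ k ih =>
        have h3 := h1 ((φ ^ k) d) (hsc k)
        rw [← Equiv.Perm.mul_apply, ← pow_succ', ← Equiv.Perm.mul_apply, ← pow_succ'] at h3
        rw [ih] at h3
        by_cases hk : Even k
        · rw [if_pos hk] at h3
          rw [if_neg (by simpa [Nat.even_add_one] using hk), h3, not_not]
        · rw [if_neg hk] at h3
          rw [if_pos (by simpa [Nat.even_add_one] using hk)]
          tauto
    have h3 := h2 n
    rw [hnfix, pow_succ', Equiv.Perm.mul_apply, hnfix] at h3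
    by_contra hne
    rw [if_neg hne] at h3
    tauto
  have hadj : ∀ a b, Adj (walk φ d n) a b ↔ (a ∈ walk φ d n ∧ b = φ a) := by
    intro a b
    constructor
    · rintro ⟨K, hK⟩
      obtain ⟨c, hc, hc2⟩ := hrot' _ hK
      obtain ⟨m, rfl⟩ : ∃ m, n = m + 2 := ⟨n - 2, by omega⟩
      rw [walk_succ, walk_succ] at hc2
      simp only [List.cons.injEq] at hc2
      obtain ⟨rfl, rfl, -⟩ := hc2
      exact ⟨(hmem _).2 hc, rfl⟩
    · rintro ⟨ha, rfl⟩
      have h1 := hrot a ((hmem a).1 ha)
      obtain ⟨m, rfl⟩ : ∃ m, n = m + 2 := ⟨n - 2, by omega⟩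
      refine ⟨walk φ (φ (φ a)) m, ?_⟩
      have h2 : walk φ a (m + 2) = a :: φ a :: walk φ (φ (φ a)) m := by
        rw [walk_succ, walk_succ]
      rwa [h2] at h1
  refine ⟨walk φ d n, hnd, by rw [length_walk]; exact hn2, by rw [length_walk]; exact heven,
    hmem, hadj, ?_, ?_, ?_⟩
  · intro p
    unfold pairsOf
    rw [walk_rotate_one φ d n hnfix, ← map_walk]
    rw [List.zip_map_right, List.mem_map]
    constructor
    · rintro ⟨q, hq, rfl⟩
      have h1 : q.1 = q.2 ∧ q.1 ∈ walk φ d n := by
        have h2 := List.of_mem_zip hq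
        refine ⟨?_, h2.1⟩
        have h3 : (walk φ d n).zip (walk φ d n) = (walk φ d n).map fun a => (a, a) := by
          rw [List.zip_eq_zipWith, List.zipWith_self]
        rw [h3, List.mem_map] at hq
        obtain ⟨a, -, rfl⟩ := hq
        rfl
      refine ⟨h1.2, ?_⟩
      simp [h1.1]
    · rintro ⟨h1, h2⟩
      refine ⟨(p.1, p.1), ?_, ?_⟩
      · have h3 : (walk φ d n).zip (walk φ d n) = (walk φ d n).map fun a => (a, a) := by
          rw [List.zip_eq_zipWith, List.zipWith_self]
        rw [h3, List.mem_map]
        exact ⟨p.1, h1, rfl⟩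
      · simp only [Prod.map]
        exact Prod.ext rfl h2.symm
  · intro a b c hab hbc
    rw [hadj] at hab hbc
    obtain ⟨ha, rfl⟩ := hab
    obtain ⟨hb, rfl⟩ := hbc
    rcases hz a ((hmem a).1 ha) with h | h
    · exact Or.inl h
    · exact Or.inr h
  · intro w
    constructor
    · have hcore : ∀ e, φ.SameCycle d e → ∀ t, 1 ≤ t → t < n →
          ∀ (J : List D) (hJ : J ≠ []), walk φ (φ e) n = walk φ (φ e) t ++ J →
          J.getLast hJ = e ∧ J.head hJ = (φ ^ (t + 1)) e := by
        intro e he t ht htn J hJ hIJ
        obtain ⟨m, rfl⟩ : ∃ m, n = t + m + 1 := ⟨n - t - 1, by omega⟩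
        have h1 : J = walk φ ((φ ^ t) (φ e)) (m + 1) := by
          rw [Nat.add_assoc, walk_add] at hIJ
          exact (List.append_cancel_left hIJ).symm
        subst h1
        constructor
        · have h2 : walk φ ((φ ^ t) (φ e)) (m + 1) = walk φ ((φ ^ t) (φ e)) m ++ [e] := by
            rw [walk_succ']
            congr 2
            have h3 := hfixall e he
            conv_rhs => rw [← h3]
            rw [← Equiv.Perm.mul_apply, ← pow_add, ← Equiv.Perm.mul_apply, ← pow_succ]
            congr 2
            omega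
          simp only [h2]
          exact List.getLast_append_singleton _
        · have h2 : walk φ ((φ ^ t) (φ e)) (m + 1) =
              (φ ^ t) (φ e) :: walk φ (φ ((φ ^ t) (φ e))) m := walk_succ _ _ _
          simp only [h2, List.head_cons]
          rw [← Equiv.Perm.mul_apply, ← pow_succ]
      constructor
      · intro hs I J hI hJ hIJ
        obtain ⟨f, hf, hf2⟩ := hrot' _ hIJ
        set e := φ⁻¹ f with he
        have hfe : φ e = f := by rw [he]; simp
        have hee : φ.SameCycle d e := by
          have : φ.SameCycle d (φ e) := by rw [hfe]; exact hf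
          exact sameCycle_apply_right.1 this
        have hlen : I.length + J.length = n := by
          rw [← List.length_append, hf2, length_walk]
        have hJ' : 0 < J.length := List.length_pos_iff.2 hJ
        have hI' : 0 < I.length := List.length_pos_iff.2 hI
        have hIw : I = walk φ (φ e) I.length := by
          have h1 : (I ++ J).take I.length = I := List.take_left
          rw [hf2, ← hfe, ← hlen, walk_add] at h1
          rw [List.take_left' (length_walk _ _ _)] at h1
          exact h1.symm
        have h1 := hcore e hee I.length hI' (by omega) J hJ (by rw [← hIw, hf2, hfe])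
        rw [h1.1, h1.2]
        have h2 := hs e hee I.length hI'
        rw [inner_eq, ← hIw] at h2
        exact h2
      · intro hs e he t ht
        by_cases htn : t < n
        · have hJ : walk φ ((φ ^ t) (φ e)) (n - t) ≠ [] := by
            intro h
            have := congrArg List.length h
            rw [length_walk, List.length_nil] at this
            omega
          have hdec : walk φ (φ e) n = walk φ (φ e) t ++ walk φ ((φ ^ t) (φ e)) (n - t) := by
            rw [← walk_add]
            congr 1
            omega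
          have hI : walk φ (φ e) t ≠ [] := by
            intro h
            have := congrArg List.length h
            rw [length_walk, List.length_nil] at this
            omega
          have h1 := hs (walk φ (φ e) t) _ hI hJ (by
            rw [← hdec]
            exact hrot _ (hsucc e he))
          have h2 := hcore e he t ht htn _ hJ hdec
          rw [h2.1, h2.2, ← inner_eq] at h1
          exact h1
        · have hein : e ∈ inner φ e t := by
            unfold inner
            rw [List.mem_map]
            refine ⟨n - 1, List.mem_range.2 (by omega), ?_⟩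
            rw [Nat.sub_add_cancel hn0]
            exact hfixall e he
          exact ⟨fun h => absurd (h e hein) (lt_irrefl _), fun h => absurd (h e hein) (lt_irrefl _),
            fun h => absurd (h e hein) (lt_irrefl _), fun h => absurd (h e hein) (lt_irrefl _)⟩
    · unfold cycSum
      have h1 : {a | φ.SameCycle d a} = ((walk φ d n).toFinset : Set D) := by
        ext a
        simp only [Set.mem_setOf_eq, List.coe_toFinset]
        exact (hmem a).symm
      rw [h1, finsum_mem_coe_finset, List.sum_toFinset _ hnd]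

end Pool.Agent.H606R2.FF
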