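import Pool.Agent.H606R2.FF.Base

/-!
# Task GA: over every interval, the layers of a face alternate between the two directions
-/

namespace Pool.Agent.H606R2.FF

open Equiv.Perm PlaneGraph

variable {D : Type}

/-- the direction of the edge `a` over the interval `(s, s+1)` -/
def GA_dir (φ : Equiv.Perm D) (X : D → ℤ) (s : ℤ) (c : D) : ℤ :=
  (if X (φ c) ≤ s then 1 else 0) - (if X c ≤ s then 1 else 0)

lemma GA_dir_pos {φ : Equiv.Perm D} {X : D → ℤ} {s : ℤ} {c : D} :
    0 < GA_dir φ X s c ↔ X (φ c) ≤ s ∧ s < X c := by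
  unfold GA_dir
  split_ifs <;> constructor <;> intro h <;> omega

lemma GA_dir_neg {φ : Equiv.Perm D} {X : D → ℤ} {s : ℤ} {c : D} :
    GA_dir φ X s c < 0 ↔ X c ≤ s ∧ s < X (φ c) := by
  unfold GA_dir
  split_ifs <;> constructor <;> intro h <;> omega

lemma GA_dir_L {φ : Equiv.Perm D} {X : D → ℤ} {s : ℤ} {c : D} (h : X (φ c) ≤ s) (h' : s < X c) :
    GA_dir φ X s c = 1 := by
  unfold GA_dir
  rw [if_pos h, if_neg (by omega)]; norm_num

lemma GA_dir_R {φ : Equiv.Perm D} {X : D → ℤ} {s : ℤ} {c : D} (h : X c ≤ s) (h' : s < X (φ c)) :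
    GA_dir φ X s c = -1 := by
  unfold GA_dir
  rw [if_neg (by omega), if_pos h]; norm_num

lemma GA_wind [Fintype D] {φ : Equiv.Perm D} {X τ : D → ℤ} {d : D} {T : ℤ} {h : D → ℚ}
    (hf : FaceFold φ X τ d T h) (s : ℤ) (a : D) (ha : φ.SameCycle d a)
    (h1 : min (X a) (X (φ a)) ≤ s) (h2 : s < max (X a) (X (φ a))) :
    ∑ c ∈ @Finset.filter D (fun c => φ.SameCycle d c ∧ h c ≤ h a) (Classical.decPred _)
      Finset.univ, GA_dir φ X s c =
    (if X a < X (φ a) then 0 else 1) + (if T = 2 then 0 else -1) := by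
  classical
  rw [← hf.wind s a ha h1 h2]
  rw [finsum_mem_eq_toFinset_sum]
  have : (Set.toFinset {c | φ.SameCycle d c ∧ min (X c) (X (φ c)) ≤ s ∧
      s < max (X c) (X (φ c)) ∧ h c ≤ h a}) =
      (@Finset.filter D (fun c => φ.SameCycle d c ∧ h c ≤ h a) (Classical.decPred _)
      Finset.univ).filter (fun c => min (X c) (X (φ c)) ≤ s ∧ s < max (X c) (X (φ c))) := by
    ext c
    simp only [Set.mem_toFinset, Set.mem_ofPred_eq, Finset.mem_filter, Finset.mem_univ, true_and]
    tauto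
  rw [this]
  refine Eq.trans ?_ (Finset.sum_filter _ _).symm
  apply Finset.sum_congr rfl
  intro c _
  by_cases hc : min (X c) (X (φ c)) ≤ s ∧ s < max (X c) (X (φ c))
  · rw [if_pos hc]
    obtain ⟨h3, h4⟩ := hc
    rw [min_le_iff] at h3
    rw [lt_max_iff] at h4
    by_cases h5 : X c < X (φ c)
    · rw [if_pos h5]
      exact GA_dir_R (by omega) (by omega)
    · rw [if_neg h5]
      exact GA_dir_L (by omega) (by omega)
  · rw [if_neg hc]
    have h3 : ¬ (0 < GA_dir φ X s c) := by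
      rw [GA_dir_pos]
      rintro ⟨h3, h4⟩
      exact hc ⟨by rw [min_le_iff]; right; exact h3, by rw [lt_max_iff]; left; exact h4⟩
    have h4 : ¬ (GA_dir φ X s c < 0) := by
      rw [GA_dir_neg]
      rintro ⟨h3, h4⟩
      exact hc ⟨by rw [min_le_iff]; left; exact h3, by rw [lt_max_iff]; right; exact h4⟩
    omega

lemma GA_total [Fintype D] (φ : Equiv.Perm D) (X : D → ℤ) (d : D) (s : ℤ) :
    ∑ c ∈ @Finset.filter D (fun c => φ.SameCycle d c) (Classical.decPred _)
      Finset.univ, GA_dir φ X s c = 0 := by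
  classical
  unfold GA_dir
  rw [Finset.sum_sub_distrib, sub_eq_zero]
  apply Finset.sum_bij (fun c _ => φ c)
  · intro c hc
    simp only [Finset.mem_filter, Finset.mem_univ, true_and] at hc ⊢
    rw [sameCycle_apply_right]; exact hc
  · intro a _ b _ hab
    exact φ.injective hab
  · intro c hc
    refine ⟨φ⁻¹ c, ?_, by simp⟩
    simp only [Finset.mem_filter, Finset.mem_univ, true_and] at hc ⊢
    rw [← sameCycle_apply_right, ← Equiv.Perm.mul_apply, mul_inv_cancel, Equiv.Perm.one_apply]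
    exact hc
  · intro c _
    rfl

lemma GA_exists_neg {S : Finset D} {f : D → ℤ} {b : D} (hb : b ∈ S) (hf : 0 < f b)
    (hS : ∑ c ∈ S, f c ≤ 0) : ∃ c ∈ S, f c < 0 := by
  by_contra hcon
  push Not at hcon
  have := Finset.single_le_sum hcon hb
  omega

lemma GA_exists_pos {S : Finset D} {f : D → ℤ} {b : D} (hb : b ∈ S) (hf : f b < 0)
    (hS : 0 ≤ ∑ c ∈ S, f c) : ∃ c ∈ S, 0 < f c := by
  obtain ⟨c, hc, h⟩ := GA_exists_neg (f := fun c => - f c) hb (by omega)
    (by rw [Finset.sum_neg_distrib]; omega)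
  exact ⟨c, hc, by omega⟩

/-- GA: over every interval, the layers of a face alternate between the two directions -/
theorem alternate [Fintype D] {φ : Equiv.Perm D} {X τ : D → ℤ} {d : D} {T : ℤ} {h : D → ℚ}
    (hT : T = 2 ∨ T = -2) (hf : FaceFold φ X τ d T h) (s : ℤ) (a : D) (ha : φ.SameCycle d a) :
    (∀ b, φ.SameCycle d b → X (φ a) ≤ s → s < X a → X (φ b) ≤ s → s < X b → h a < h b →
      ∃ r, φ.SameCycle d r ∧ X r ≤ s ∧ s < X (φ r) ∧ h a < h r ∧ h r < h b) ∧
    (∀ b, φ.SameCycle d b → X a ≤ s → s < X (φ a) → X b ≤ s → s < X (φ b) → h a < h b →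
      ∃ r, φ.SameCycle d r ∧ X (φ r) ≤ s ∧ s < X r ∧ h a < h r ∧ h r < h b) ∧
    (T = -2 → X (φ a) ≤ s → s < X a → ∃ r, φ.SameCycle d r ∧ X r ≤ s ∧ s < X (φ r) ∧ h r < h a) ∧
    (T = -2 → X a ≤ s → s < X (φ a) → ∃ r, φ.SameCycle d r ∧ X (φ r) ≤ s ∧ s < X r ∧ h a < h r) ∧
    (T = 2 → X a ≤ s → s < X (φ a) → ∃ r, φ.SameCycle d r ∧ X (φ r) ≤ s ∧ s < X r ∧ h r < h a) ∧
    (T = 2 → X (φ a) ≤ s → s < X a → ∃ r, φ.SameCycle d r ∧ X r ≤ s ∧ s < X (φ r) ∧ h a < h r) := by
  classical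
  set W : D → Finset D := fun x => Finset.univ.filter (fun c => φ.SameCycle d c ∧ h c ≤ h x) with hW
  -- windings
  have wL : ∀ x, φ.SameCycle d x → X (φ x) ≤ s → s < X x →
      ∑ c ∈ W x, GA_dir φ X s c = 1 + (if T = 2 then 0 else -1) := by
    intro x hx h1 h2
    have := GA_wind hf s x hx (by rw [min_le_iff]; right; exact h1)
      (by rw [lt_max_iff]; left; exact h2)
    rw [if_neg (by omega)] at this
    rw [← this]
    apply Finset.sum_congr _ (fun _ _ => rfl)
    ext c; simp [hW]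
  have wR : ∀ x, φ.SameCycle d x → X x ≤ s → s < X (φ x) →
      ∑ c ∈ W x, GA_dir φ X s c = 0 + (if T = 2 then 0 else -1) := by
    intro x hx h1 h2
    have := GA_wind hf s x hx (by rw [min_le_iff]; left; exact h1)
      (by rw [lt_max_iff]; right; exact h2)
    rw [if_pos (by omega)] at this
    rw [← this]
    apply Finset.sum_congr _ (fun _ _ => rfl)
    ext c; simp [hW]
  have tot : ∑ c ∈ Finset.univ.filter (fun c => φ.SameCycle d c), GA_dir φ X s c = 0 := by
    rw [← GA_total φ X d s]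
    apply Finset.sum_congr _ (fun _ _ => rfl)
    ext c; simp
  -- differences
  have dif : ∀ x y, h x < h y →
      ∑ c ∈ Finset.univ.filter (fun c => φ.SameCycle d c ∧ h x < h c ∧ h c ≤ h y),
        GA_dir φ X s c = ∑ c ∈ W y, GA_dir φ X s c - ∑ c ∈ W x, GA_dir φ X s c := by
    intro x y hxy
    rw [eq_sub_iff_add_eq, ← Finset.sum_union]
    · apply Finset.sum_congr _ (fun _ _ => rfl)
      ext c
      simp only [hW, Finset.mem_union, Finset.mem_filter, Finset.mem_univ, true_and]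
      constructor
      · rintro (⟨h1, h2, h3⟩ | ⟨h1, h2⟩)
        · exact ⟨h1, h3⟩
        · exact ⟨h1, h2.trans hxy.le⟩
      · rintro ⟨h1, h2⟩
        rcases lt_or_ge (h x) (h c) with h3 | h3
        · exact Or.inl ⟨h1, h3, h2⟩
        · exact Or.inr ⟨h1, h3⟩
    · rw [Finset.disjoint_left]
      intro c hc hc'
      simp only [hW, Finset.mem_filter, Finset.mem_univ, true_and] at hc hc'
      exact absurd hc.2.1 (not_lt.mpr hc'.2)
  have abv : ∀ x, ∑ c ∈ Finset.univ.filter (fun c => φ.SameCycle d c ∧ h x < h c),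
        GA_dir φ X s c = - ∑ c ∈ W x, GA_dir φ X s c := by
    intro x
    rw [eq_neg_iff_add_eq_zero, ← Finset.sum_union, ← tot]
    · apply Finset.sum_congr _ (fun _ _ => rfl)
      ext c
      simp only [hW, Finset.mem_union, Finset.mem_filter, Finset.mem_univ, true_and]
      constructor
      · rintro (⟨h1, _⟩ | ⟨h1, _⟩) <;> exact h1
      · intro h1
        rcases lt_or_ge (h x) (h c) with h3 | h3
        · exact Or.inl ⟨h1, h3⟩
        · exact Or.inr ⟨h1, h3⟩
    · rw [Finset.disjoint_left]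
      intro c hc hc'
      simp only [hW, Finset.mem_filter, Finset.mem_univ, true_and] at hc hc'
      exact absurd hc.2 (not_lt.mpr hc'.2)
  refine ⟨?_, ?_, ?_, ?_, ?_, ?_⟩
  · intro b hb h1 h2 h3 h4 hab
    have h5 := dif a b hab
    rw [wL a ha h1 h2, wL b hb h3 h4, sub_self] at h5
    obtain ⟨r, hr, hr'⟩ := GA_exists_neg (b := b)
      (by simp only [Finset.mem_filter, Finset.mem_univ, true_and]; exact ⟨hb, hab, le_refl _⟩)
      (GA_dir_pos.mpr ⟨h3, h4⟩) h5.le
    simp only [Finset.mem_filter, Finset.mem_univ, true_and] at hr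
    rw [GA_dir_neg] at hr'
    refine ⟨r, hr.1, hr'.1, hr'.2, hr.2.1, lt_of_le_of_ne hr.2.2 ?_⟩
    intro he
    have := hf.inj r b hr.1 hb he
    subst this
    omega
  · intro b hb h1 h2 h3 h4 hab
    have h5 := dif a b hab
    rw [wR a ha h1 h2, wR b hb h3 h4, sub_self] at h5
    obtain ⟨r, hr, hr'⟩ := GA_exists_pos (b := b)
      (by simp only [Finset.mem_filter, Finset.mem_univ, true_and]; exact ⟨hb, hab, le_refl _⟩)
      (GA_dir_neg.mpr ⟨h3, h4⟩) h5.ge
    simp only [Finset.mem_filter, Finset.mem_univ, true_and] at hr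
    rw [GA_dir_pos] at hr'
    refine ⟨r, hr.1, hr'.1, hr'.2, hr.2.1, lt_of_le_of_ne hr.2.2 ?_⟩
    intro he
    have := hf.inj r b hr.1 hb he
    subst this
    omega
  · intro hT' h1 h2
    have h5 := wL a ha h1 h2
    rw [if_neg (by omega)] at h5
    obtain ⟨r, hr, hr'⟩ := GA_exists_neg (b := a)
      (by simp only [hW, Finset.mem_filter, Finset.mem_univ, true_and]; exact ⟨ha, le_refl _⟩)
      (GA_dir_pos.mpr ⟨h1, h2⟩) (le_of_eq (h5.trans (by norm_num)))
    simp only [hW, Finset.mem_filter, Finset.mem_univ, true_and] at hr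
    rw [GA_dir_neg] at hr'
    refine ⟨r, hr.1, hr'.1, hr'.2, lt_of_le_of_ne hr.2 ?_⟩
    intro he
    have := hf.inj r a hr.1 ha he
    subst this
    omega
  · intro hT' h1 h2
    have h5 := wR a ha h1 h2
    rw [if_neg (by omega)] at h5
    have h6 := abv a
    rw [h5] at h6
    have h7 : ∃ r ∈ Finset.univ.filter (fun c => φ.SameCycle d c ∧ h a < h c),
        0 < GA_dir φ X s r := by
      by_contra hcon
      push Not at hcon
      have := Finset.sum_nonpos hcon
      omega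
    obtain ⟨r, hr, hr'⟩ := h7
    simp only [Finset.mem_filter, Finset.mem_univ, true_and] at hr
    rw [GA_dir_pos] at hr'
    exact ⟨r, hr.1, hr'.1, hr'.2, hr.2⟩
  · intro hT' h1 h2
    have h5 := wR a ha h1 h2
    rw [if_pos hT'] at h5
    obtain ⟨r, hr, hr'⟩ := GA_exists_pos (b := a)
      (by simp only [hW, Finset.mem_filter, Finset.mem_univ, true_and]; exact ⟨ha, le_refl _⟩)
      (GA_dir_neg.mpr ⟨h1, h2⟩) (le_of_eq (h5.trans (by norm_num)).symm)
    simp only [hW, Finset.mem_filter, Finset.mem_univ, true_and] at hr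
    rw [GA_dir_pos] at hr'
    refine ⟨r, hr.1, hr'.1, hr'.2, lt_of_le_of_ne hr.2 ?_⟩
    intro he
    have := hf.inj r a hr.1 ha he
    subst this
    omega
  · intro hT' h1 h2
    have h5 := wL a ha h1 h2
    rw [if_pos hT'] at h5
    have h6 := abv a
    rw [h5] at h6
    have h7 : ∃ r ∈ Finset.univ.filter (fun c => φ.SameCycle d c ∧ h a < h c),
        GA_dir φ X s r < 0 := by
      by_contra hcon
      push Not at hcon
      have := Finset.sum_nonneg hcon
      omega
    obtain ⟨r, hr, hr'⟩ := h7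
    simp only [Finset.mem_filter, Finset.mem_univ, true_and] at hr
    rw [GA_dir_neg] at hr'
    exact ⟨r, hr.1, hr'.1, hr'.2, hr.2⟩

end Pool.Agent.H606R2.FF
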