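import Pool.Agent.H606R2.FF.TGA

/-!
# Task GI: facts about `upOf`
-/

namespace Pool.Agent.H606R2.FF

open Equiv.Perm PlaneGraph

variable {D : Type}

namespace GI

lemma lowest_some {h : D → ℚ} {P : Set D} {p : D} (hp : lowest h P = some p) :
    p ∈ P ∧ ∀ q ∈ P, h p ≤ h q := by
  classical
  unfold lowest at hp
  split_ifs at hp with H
  · have := H.choose_spec
    rw [Option.some.injEq] at hp
    rw [hp] at this
    exact this

lemma lowest_none [Finite D] {h : D → ℚ} {P : Set D} (hp : lowest h P = none) : P = ∅ := by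
  classical
  by_contra hne
  obtain ⟨p, hp1, hp2⟩ := Set.exists_min_image P h (Set.toFinite P)
    (Set.nonempty_iff_ne_empty.mpr hne)
  unfold lowest at hp
  split_ifs at hp with H
  exact H ⟨p, hp1, hp2⟩

lemma X_face {G : PlaneGraph D} {X : D → ℤ} (hX : Positions G X) (a : D) :
    X (G.face a) = X (G.rev a) := by
  unfold PlaneGraph.face
  rw [Equiv.Perm.mul_apply, hX.X_rot]

lemma faceFold {G : PlaneGraph D} {X : D → ℤ} {M : Set D} {h : D → ℚ}
    (hL : Layers G X M h) (a : D) : ∃ T : ℤ, (T = 2 ∨ T = -2) ∧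
      FaceFold G.face X (tau M) a T h := by
  by_cases ho : G.face.SameCycle a G.out
  · exact ⟨-2, Or.inr rfl, hL.outer a ho⟩
  · exact ⟨2, Or.inl rfl, hL.inner a ho⟩

end GI

/-- GI (uses GA) -/
theorem upOf_facts [Fintype D] {G : PlaneGraph D} {X : D → ℤ} {M : Set D} {h : D → ℚ}
    (hL : Layers G X M h) (s : ℤ) :
    (∀ p p' : Option D, ∀ q, (∀ a, p = some a → a ∈ leftAt G X s) →
      (∀ a, p' = some a → a ∈ leftAt G X s) → upOf G h (rightAt G X s) p = some q →
      upOf G h (rightAt G X s) p' = some q → p = p') ∧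
    (∀ p : Option D, ∀ q, upOf G h (rightAt G X s) p = some q → q ∈ leftAt G X s) ∧
    (∀ a ∈ leftAt G X s, upOf G h (rightAt G X s) (some a) = none →
      G.face.SameCycle a G.out) := by
  have hX := hL.pos
  -- two L-darts
  have key : ∀ a a' p : D, a ∈ leftAt G X s → a' ∈ leftAt G X s →
      lowest h {p | G.face.SameCycle a p ∧ p ∈ rightAt G X s ∧ h a < h p} = some p →
      lowest h {p | G.face.SameCycle a' p ∧ p ∈ rightAt G X s ∧ h a' < h p} = some p →
      ¬ h a < h a' := by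
    intro a a' p ha ha' hp hp' hlt
    obtain ⟨⟨h1, h2, h3⟩, h4⟩ := GI.lowest_some hp
    obtain ⟨⟨h1', h2', h3'⟩, h4'⟩ := GI.lowest_some hp'
    obtain ⟨T, hT, hf⟩ := GI.faceFold hL a
    obtain ⟨r, hr1, hr2, hr3, hr4, hr5⟩ := (alternate hT hf s a (SameCycle.refl _ _)).1 a'
      (h1.trans h1'.symm) (by rw [GI.X_face hX]; exact ha.1) ha.2
      (by rw [GI.X_face hX]; exact ha'.1) ha'.2 hlt
    have := h4 r ⟨hr1, ⟨hr2, by rwa [GI.X_face hX] at hr3⟩, hr4⟩
    linarith
  have keyn : ∀ a p : D, a ∈ leftAt G X s →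
      lowest h {p | G.face.SameCycle a p ∧ p ∈ rightAt G X s ∧ h a < h p} = some p →
      lowest h {p | G.face.SameCycle G.out p ∧ p ∈ rightAt G X s} = some p → False := by
    intro a p ha hp hp'
    obtain ⟨⟨h1, h2, h3⟩, h4⟩ := GI.lowest_some hp
    obtain ⟨⟨h1', h2'⟩, h4'⟩ := GI.lowest_some hp'
    have hao : G.face.SameCycle a G.out := h1.trans h1'.symm
    obtain ⟨r, hr1, hr2, hr3, hr4⟩ := (alternate (Or.inr rfl) (hL.outer a hao) s a
      (SameCycle.refl _ _)).2.2.1 rfl (by rw [GI.X_face hX]; exact ha.1) ha.2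
    have := h4' r ⟨hao.symm.trans hr1, hr2, by rwa [GI.X_face hX] at hr3⟩
    linarith
  have hmap : ∀ {o : Option D} {q : D}, o.map G.rev = some q → o = some (G.rev q) := by
    intro o q ho
    rcases o with _ | x
    · simp at ho
    · rw [Option.map_some, Option.some.injEq] at ho
      rw [← ho, G.rev_rev]
  refine ⟨?_, ?_, ?_⟩
  · intro p p' q hp hp' hq hq'
    rcases p with _ | a <;> rcases p' with _ | a'
    · rfl
    · exact (keyn a' _ (hp' a' rfl) (hmap hq') (hmap hq)).elim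
    · exact (keyn a _ (hp a rfl) (hmap hq) (hmap hq')).elim
    · have e1 := key a a' _ (hp a rfl) (hp' a' rfl) (hmap hq) (hmap hq')
      have e2 := key a' a _ (hp' a' rfl) (hp a rfl) (hmap hq') (hmap hq)
      have e : h a = h a' := le_antisymm (not_lt.mp e2) (not_lt.mp e1)
      obtain ⟨T, hT, hf⟩ := GI.faceFold hL a
      obtain ⟨⟨h1, -, -⟩, -⟩ := GI.lowest_some (hmap hq)
      obtain ⟨⟨h1', -, -⟩, -⟩ := GI.lowest_some (hmap hq')
      rw [hf.inj a a' (SameCycle.refl _ _) (h1.trans h1'.symm) e]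
  · intro p q hq
    have hr : G.rev q ∈ rightAt G X s := by
      rcases p with _ | a
      · exact (GI.lowest_some (hmap hq)).1.2
      · exact (GI.lowest_some (hmap hq)).1.2.1
    refine ⟨hr.1, ?_⟩
    have := hr.2
    rwa [G.rev_rev] at this
  · intro a ha hn
    have hn' : lowest h {p | G.face.SameCycle a p ∧ p ∈ rightAt G X s ∧ h a < h p} = none := by
      change (lowest h {p | G.face.SameCycle a p ∧ p ∈ rightAt G X s ∧ h a < h p}).map G.rev =
        none at hn
      exact Option.map_eq_none_iff.mp hn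
    by_contra hno
    obtain ⟨r, hr1, hr2, hr3, hr4⟩ := (alternate (Or.inl rfl) (hL.inner a hno) s a
      (SameCycle.refl _ _)).2.2.2.2.2 rfl (by rw [GI.X_face hX]; exact ha.1) ha.2
    have : r ∈ ({p | G.face.SameCycle a p ∧ p ∈ rightAt G X s ∧ h a < h p} : Set D) :=
      ⟨hr1, ⟨hr2, by rwa [GI.X_face hX] at hr3⟩, hr4⟩
    rw [GI.lowest_none hn'] at this
    exact this

end Pool.Agent.H606R2.FF
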