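import Pool.Agent.H606R2.FF.Base
import Pool.Agent.H606R2.FF.TGA

/-!
# Tasks GL and GR: chains to the left and to the right of a point
-/

namespace Pool.Agent.H606R2.FF

open Equiv.Perm PlaneGraph

variable {D : Type}

theorem GL_ai (f : Equiv.Perm D) (a : D) : f (f⁻¹ a) = a := Equiv.apply_symm_apply f a

theorem GL_ia (f : Equiv.Perm D) (a : D) : f⁻¹ (f a) = a := Equiv.symm_apply_apply f a

theorem GL_sci {f : Equiv.Perm D} {a b : D} (hab : f.SameCycle a b) : f.SameCycle a (f⁻¹ b) :=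
  Equiv.Perm.SameCycle.symm_apply_right hab

/-! ### Lowest elements -/

theorem GL_lowest_none (h : D → ℚ) {P : Set D} (hP : ¬ P.Nonempty) : lowest h P = none := by
  unfold lowest
  rw [dif_neg]
  rintro ⟨p, hp, -⟩
  exact hP ⟨p, hp⟩

theorem GL_lowest_some (h : D → ℚ) {P : Set D} {p : D} (hp : p ∈ P) (hmin : ∀ q ∈ P, h p ≤ h q)
    (hinj : ∀ q ∈ P, h q = h p → q = p) : lowest h P = some p := by
  unfold lowest
  have H : ∃ p ∈ P, ∀ q ∈ P, h p ≤ h q := ⟨p, hp, hmin⟩
  rw [dif_pos H]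
  congr 1
  refine hinj _ H.choose_spec.1 (le_antisymm (H.choose_spec.2 p hp) (hmin _ H.choose_spec.1))

theorem GL_exists_min [Finite D] (h : D → ℚ) {P : Set D} (hP : P.Nonempty) :
    ∃ p ∈ P, ∀ q ∈ P, h p ≤ h q :=
  Set.exists_min_image P h (Set.toFinite P) hP

/-! ### One side of a point -/

/-- The layers of one face over the interval at one side of a point: `L` and `R` are the darts to
the left and to the right, `Rc` are the darts to the right which end or start at the point, and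
`κ r` is the dart to the left at the same corner as `r`. -/
structure Side (h : D → ℚ) (L R Rc : Set D) (κ : D → D) (M : Set D) : Prop where
  inj : ∀ a ∈ L ∪ R, ∀ b ∈ L ∪ R, h a = h b → a = b
  disj : ∀ a ∈ L, a ∉ R
  sub : ∀ r ∈ Rc, r ∈ R
  kL : ∀ r ∈ Rc, κ r ∈ L
  kinj : ∀ r ∈ Rc, ∀ r' ∈ Rc, κ r = κ r' → r = r'
  cross : ∀ p ∈ R, p ∉ Rc → ∀ r ∈ Rc, (h p < h r ↔ h p < h (κ r))
  pair : ∀ r ∈ Rc, ∀ r' ∈ Rc, r ≠ r' →
    ((min (h r) (h (κ r)) < h r' ∧ h r' < max (h r) (h (κ r))) ↔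
      (min (h r) (h (κ r)) < h (κ r') ∧ h (κ r') < max (h r) (h (κ r))))
  type : ∀ r ∈ Rc, h r < h (κ r) → κ r ∈ M
  alt : ∀ a ∈ L, ∀ b ∈ L, h a < h b → ∃ r ∈ R, h a < h r ∧ h r < h b

section side

variable {h : D → ℚ} {L R Rc : Set D} {κ : D → D} {M : Set D}

theorem Side.ne (S : Side h L R Rc κ M) {a b : D} (ha : a ∈ L) (hb : b ∈ R) : h a ≠ h b := by
  intro hab
  have := S.inj a (Or.inl ha) b (Or.inr hb) hab
  exact S.disj a ha (this ▸ hb)

/-- If `p1` is the lowest dart to the right in an upper set `U` (with the alternation property),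
and it is at the corner, and the other dart of the corner is in `U`, then the other dart is above
`p1`, and corners above it with other dart in `U` have the other dart above it. -/
theorem Side.step (S : Side h L R Rc κ M) {U : Set D}
    (hU : ∀ b ∈ L, b ∈ U → ∃ r ∈ R, r ∈ U ∧ h r < h b)
    {p1 : D} (hp1 : p1 ∈ Rc) (hmin : ∀ q ∈ R, q ∈ U → h p1 ≤ h q) (hx1 : κ p1 ∈ U) :
    h p1 < h (κ p1) ∧ κ p1 ∈ M ∧
      (∀ q ∈ R, q ∉ Rc → q ∈ U → h (κ p1) < h q) ∧
      (∀ p ∈ Rc, h (κ p1) < h p → κ p ∈ U → h (κ p1) < h (κ p)) := by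
  have h1 : h p1 < h (κ p1) := by
    by_contra hlt
    rw [not_lt] at hlt
    obtain ⟨r, hr, hrU, hr2⟩ := hU _ (S.kL _ hp1) hx1
    have := hmin r hr hrU
    linarith
  refine ⟨h1, S.type _ hp1 h1, ?_, ?_⟩
  · intro q hq hqc hqU
    have h2 := hmin q hq hqU
    have h3 := S.cross q hq hqc p1 hp1
    have h4 : ¬ h q < h (κ p1) := fun h5 => by
      have := h3.2 h5
      linarith
    have h5 := S.ne (S.kL _ hp1) hq
    exact lt_of_le_of_ne (not_lt.1 h4) h5
  · intro p hp hlt hkU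
    have hne : p1 ≠ p := by
      rintro rfl
      linarith
    have h2 := S.pair p1 hp1 p hp hne
    rw [min_eq_left h1.le, max_eq_right h1.le] at h2
    have h3 : ¬ (h p1 < h (κ p) ∧ h (κ p) < h (κ p1)) := fun h4 => by
      have := h2.2 h4
      linarith [this.2]
    have h4 : ¬ h (κ p) < h p1 := fun h5 => by
      obtain ⟨r, hr, hrU, hr2⟩ := hU _ (S.kL _ hp) hkU
      have := hmin r hr hrU
      linarith
    have h5 : h (κ p) ≠ h p1 := S.ne (S.kL _ hp) (S.sub _ hp1)
    have h6 : h p1 < h (κ p) := lt_of_le_of_ne (not_lt.1 h4) h5.symm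
    have h7 : h (κ p1) ≤ h (κ p) := by
      by_contra hc
      exact h3 ⟨h6, not_le.1 hc⟩
    refine lt_of_le_of_ne h7 fun h8 => hne ?_
    exact S.kinj _ hp1 _ hp (S.inj _ (Or.inl (S.kL _ hp1)) _ (Or.inl (S.kL _ hp)) h8)

theorem Side.reach [Finite D] (S : Side h L R Rc κ M) {up : Option D → Option D} {g rev : D → D}
    {C : Set D} (hup : ∀ x ∈ L, up (some x) = (lowest h {p | p ∈ R ∧ h x < h p}).map rev)
    (hg : ∀ r ∈ Rc, g (κ r) = rev r) (hC : ∀ r ∈ Rc, κ r ∈ C) (Stop : Set D)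
    (hS : ∀ p ∈ Stop, p ∈ R) (hS2 : ∀ p ∈ R, p ∉ Rc → p ∈ Stop) :
    ∀ (n : ℕ) (x : D), x ∈ L → Set.ncard {p | p ∈ R ∧ h x < h p} ≤ n →
      (∀ p ∈ Rc, p ∉ Stop → h x < h p → (∀ q ∈ Stop, h x < h q → h p < h q) → h x < h (κ p)) →
      (∀ q ∈ Stop, q ∈ Rc → h (κ q) ≤ h x) →
      Reach up g C M (some x) ((lowest h {p | p ∈ Stop ∧ h x < h p}).map rev) := by
  intro n
  induction n with
  | zero =>
    intro x hx hn _ _
    have hemp : {p | p ∈ R ∧ h x < h p} = ∅ := by
      rw [← Set.ncard_eq_zero (Set.toFinite _)]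
      omega
    apply Reach.base
    rw [hup x hx, hemp, GL_lowest_none h (by simp), GL_lowest_none h]
    rintro ⟨p, hp, hp2⟩
    have : p ∈ ({p | p ∈ R ∧ h x < h p} : Set D) := ⟨hS p hp, hp2⟩
    rw [hemp] at this
    exact this
  | succ n ih =>
    intro x hx hn hinv hst
    by_cases hne : ({p | p ∈ R ∧ h x < h p} : Set D).Nonempty
    swap
    · apply Reach.base
      rw [hup x hx, GL_lowest_none h hne, GL_lowest_none h]
      rintro ⟨p, hp, hp2⟩
      exact hne ⟨p, hS p hp, hp2⟩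
    obtain ⟨p1, ⟨hp1R, hp1x⟩, hmin⟩ := GL_exists_min h hne
    have hmin' : ∀ q ∈ R, h x < h q → h p1 ≤ h q := fun q hq hq2 => hmin q ⟨hq, hq2⟩
    have hinj : ∀ q ∈ R, h q = h p1 → q = p1 := fun q hq h' =>
      S.inj q (Or.inr hq) p1 (Or.inr hp1R) h'
    have hlow : lowest h {p | p ∈ R ∧ h x < h p} = some p1 :=
      GL_lowest_some h ⟨hp1R, hp1x⟩ (fun q hq => hmin' q hq.1 hq.2) fun q hq => hinj q hq.1
    by_cases hp1S : p1 ∈ Stop
    · apply Reach.base
      rw [hup x hx, hlow, GL_lowest_some h (P := {p | p ∈ Stop ∧ h x < h p}) (p := p1)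
        ⟨hp1S, hp1x⟩ (fun q hq => hmin' q (hS q hq.1) hq.2) fun q hq => hinj q (hS q hq.1)]
    · have hp1c : p1 ∈ Rc := by
        by_contra hc
        exact hp1S (hS2 p1 hp1R hc)
      have hbelow : ∀ q ∈ Stop, h x < h q → h p1 < h q := fun q hq hq2 =>
        lt_of_le_of_ne (hmin' q (hS q hq) hq2) fun h' => hp1S (hinj q (hS q hq) h'.symm ▸ hq)
      have hx1 : h x < h (κ p1) := hinv p1 hp1c hp1S hp1x hbelow
      obtain ⟨h1, h2, h3, h4⟩ := S.step (U := {p | h x < h p})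
        (fun b hb hbU => by
          obtain ⟨r, hr, hr1, hr2⟩ := S.alt x hx b hb hbU
          exact ⟨r, hr, hr1, hr2⟩) hp1c hmin' hx1
      have hstop : ∀ q ∈ Stop, h x < h q → h (κ p1) < h q := by
        intro q hq hxq
        by_cases hqc : q ∈ Rc
        · have h5 := hst q hq hqc
          have hpq : p1 ≠ q := by rintro rfl; exact hp1S hq
          have h6 := S.pair p1 hp1c q hqc hpq
          rw [min_eq_left h1.le, max_eq_right h1.le] at h6
          have h7 := hbelow q hq hxq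
          have h8 : ¬ h q < h (κ p1) := fun h9 => by
            have := (h6.1 ⟨h7, h9⟩).1
            linarith
          exact lt_of_le_of_ne (not_lt.1 h8) (S.ne (S.kL _ hp1c) (hS q hq))
        · exact h3 q (hS q hq) hqc hxq
      have hset : ({p | p ∈ Stop ∧ h x < h p} : Set D) = {p | p ∈ Stop ∧ h (κ p1) < h p} := by
        ext q
        exact ⟨fun hq => ⟨hq.1, hstop q hq.1 hq.2⟩, fun hq => ⟨hq.1, hx1.trans hq.2⟩⟩
      refine Reach.step (hC p1 hp1c) h2 ?_ ?_ (x := κ p1)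
      · rw [hup x hx, hlow, hg p1 hp1c]
        rfl
      · rw [hset]
        refine ih (κ p1) (S.kL _ hp1c) ?_ ?_ ?_
        · have hss : ({p | p ∈ R ∧ h (κ p1) < h p} : Set D) ⊂ {p | p ∈ R ∧ h x < h p} := by
            rw [Set.ssubset_iff_exists]
            refine ⟨fun q hq => ⟨hq.1, hx1.trans hq.2⟩, p1, ⟨hp1R, hp1x⟩, fun hq => ?_⟩
            have := hq.2
            linarith
          have := Set.ncard_lt_ncard hss (Set.toFinite _)
          omega
        · intro p hp hpS hlt hbel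
          refine h4 p hp hlt ?_
          refine hinv p hp hpS (hx1.trans hlt) fun q hq hxq => ?_
          exact hbel q hq (hstop q hq hxq)
        · intro q hq hqc
          exact (hst q hq hqc).trans hx1.le

/-- Part 1: from the other dart of a valley corner. -/
theorem Side.reach_corner [Finite D] (S : Side h L R Rc κ M) {up : Option D → Option D}
    {g rev : D → D} {C : Set D}
    (hup : ∀ x ∈ L, up (some x) = (lowest h {p | p ∈ R ∧ h x < h p}).map rev)
    (hg : ∀ r ∈ Rc, g (κ r) = rev r) (hC : ∀ r ∈ Rc, κ r ∈ C) (y : D) (hy : y ∈ Rc)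
    (hyM : κ y ∉ M) : Reach up g C M (some (κ y)) (some (rev y)) := by
  have h1 : h (κ y) < h y := by
    by_contra hc
    rw [not_lt] at hc
    exact hyM (S.type y hy (lt_of_le_of_ne hc (S.ne (S.kL _ hy) (S.sub _ hy)).symm))
  have h2 := S.reach hup hg hC {p | p ∈ R ∧ (p ∉ Rc ∨ p = y)} (fun p hp => hp.1)
    (fun p hp hpc => ⟨hp, Or.inl hpc⟩) _ (κ y) (S.kL _ hy) le_rfl ?_ ?_
  · have h3 : lowest h {p | p ∈ {p | p ∈ R ∧ (p ∉ Rc ∨ p = y)} ∧ h (κ y) < h p} = some y := by
      refine GL_lowest_some h ⟨⟨S.sub _ hy, Or.inr rfl⟩, h1⟩ ?_ ?_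
      · rintro q ⟨⟨hqR, hq⟩, hlt⟩
        rcases hq with hq | rfl
        · have := S.cross q hqR hq y hy
          by_contra hc
          have := this.1 (not_le.1 hc)
          linarith
        · exact le_rfl
      · rintro q ⟨⟨hqR, -⟩, -⟩ hq
        exact S.inj q (Or.inr hqR) y (Or.inr (S.sub _ hy)) hq
    rw [h3] at h2
    exact h2
  · intro p hp hpS hlt hbel
    have hne : y ≠ p := by
      rintro rfl
      exact hpS ⟨S.sub _ hp, Or.inr rfl⟩
    have h3 := hbel y ⟨S.sub _ hy, Or.inr rfl⟩ h1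
    have h4 := S.pair y hy p hp hne
    rw [min_eq_right h1.le, max_eq_left h1.le] at h4
    exact (h4.1 ⟨hlt, h3⟩).1
  · rintro q ⟨-, hq⟩ hqc
    rcases hq with hq | rfl
    · exact absurd hqc hq
    · exact le_rfl

/-- Part 2: from a dart which passes strictly over the point. -/
theorem Side.reach_over [Finite D] (S : Side h L R Rc κ M) {up : Option D → Option D}
    {g rev : D → D} {C : Set D}
    (hup : ∀ x ∈ L, up (some x) = (lowest h {p | p ∈ R ∧ h x < h p}).map rev)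
    (hg : ∀ r ∈ Rc, g (κ r) = rev r) (hC : ∀ r ∈ Rc, κ r ∈ C) (a : D) (ha : a ∈ L)
    (hcr : ∀ r ∈ Rc, h a < h r → h a < h (κ r)) :
    Reach up g C M (some a) ((lowest h {p | (p ∈ R ∧ p ∉ Rc) ∧ h a < h p}).map rev) := by
  refine S.reach hup hg hC {p | p ∈ R ∧ p ∉ Rc} (fun p hp => hp.1)
    (fun p hp hpc => ⟨hp, hpc⟩) _ a ha le_rfl ?_ ?_
  · intro p hp _ hlt _
    exact hcr p hp hlt
  · rintro q ⟨-, hq⟩ hqc
    exact absurd hqc hq

/-- Part 2: from below the outer face. -/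
theorem Side.reach_none [Finite D] (S : Side h L R Rc κ M) {up : Option D → Option D}
    {g rev : D → D} {C : Set D}
    (hup : ∀ x ∈ L, up (some x) = (lowest h {p | p ∈ R ∧ h x < h p}).map rev)
    (hup0 : up none = (lowest h {p | p ∈ R}).map rev)
    (hout : ∀ b ∈ L, ∃ r ∈ R, h r < h b)
    (hg : ∀ r ∈ Rc, g (κ r) = rev r) (hC : ∀ r ∈ Rc, κ r ∈ C) :
    Reach up g C M none ((lowest h {p | p ∈ R ∧ p ∉ Rc}).map rev) := by
  by_cases hne : ({p | p ∈ R} : Set D).Nonempty
  swap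
  · apply Reach.base
    rw [hup0, GL_lowest_none h hne, GL_lowest_none h]
    rintro ⟨p, hp, -⟩
    exact hne ⟨p, hp⟩
  obtain ⟨p1, hp1R, hmin⟩ := GL_exists_min h hne
  have hinj : ∀ q ∈ R, h q = h p1 → q = p1 := fun q hq h' =>
    S.inj q (Or.inr hq) p1 (Or.inr hp1R) h'
  have hlow : lowest h {p | p ∈ R} = some p1 := GL_lowest_some h hp1R hmin hinj
  by_cases hp1c : p1 ∈ Rc
  swap
  · apply Reach.base
    rw [hup0, hlow, GL_lowest_some h (P := {p | p ∈ R ∧ p ∉ Rc}) (p := p1) ⟨hp1R, hp1c⟩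
      (fun q hq => hmin q hq.1) fun q hq => hinj q hq.1]
  · obtain ⟨h1, h2, h3, h4⟩ := S.step (U := Set.univ)
      (fun b hb _ => by
        obtain ⟨r, hr, hr1⟩ := hout b hb
        exact ⟨r, hr, trivial, hr1⟩) hp1c (fun q hq _ => hmin q hq) trivial
    have hset : ({p | p ∈ R ∧ p ∉ Rc} : Set D) = {p | (p ∈ R ∧ p ∉ Rc) ∧ h (κ p1) < h p} := by
      ext q
      exact ⟨fun hq => ⟨hq, h3 q hq.1 hq.2 trivial⟩, fun hq => hq.1⟩
    refine Reach.step (hC p1 hp1c) h2 ?_ ?_ (x := κ p1)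
    · rw [hup0, hlow, hg p1 hp1c]
      rfl
    · rw [hset]
      exact S.reach_over hup hg hC (κ p1) (S.kL _ hp1c) fun p hp hlt => h4 p hp hlt trivial

end side

/-! ### The darts of a plane graph -/

section graph

variable {G : PlaneGraph D} {X : D → ℤ} {M : Set D} {h : D → ℚ}

theorem GL_X_face (hX : Positions G X) (a : D) : X (G.face a) = X (G.rev a) :=
  hX.X_rot (G.rev a)

theorem GL_X_ne (hX : Positions G X) (a : D) : X (G.rev a) ≠ X a := by
  intro h0
  have h1 := hX.X_len a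
  have h2 := G.len_pos a
  rw [h0, sub_self, abs_zero] at h1
  omega

theorem GL_face_left (hX : Positions G X) {a : D} (ha : X a < X (G.rev a)) :
    X (G.rev (G.face a)) < X (G.face a) := by
  have h1 := hX.same_side (G.rev a)
  rw [G.rev_rev] at h1
  have h2 : ¬ X (G.face a) < X (G.rev (G.face a)) := fun h3 => by
    have := h1.2 h3
    omega
  have h3 := GL_X_ne hX (G.face a)
  omega

theorem GL_face_right (hX : Positions G X) {a : D} (ha : X (G.rev a) < X a) :
    X (G.face a) < X (G.rev (G.face a)) := by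
  have h1 := hX.same_side (G.rev a)
  rw [G.rev_rev] at h1
  exact h1.1 ha

theorem GL_facefold (hL : Layers G X M h) (d : D) :
    ∃ T : ℤ, (T = 2 ∨ T = -2) ∧ (G.face.SameCycle d G.out → T = -2) ∧
      FaceFold G.face X (tau M) d T h := by
  by_cases hd : G.face.SameCycle d G.out
  · exact ⟨-2, Or.inr rfl, fun _ => rfl, hL.outer d hd⟩
  · exact ⟨2, Or.inl rfl, fun h' => absurd h' hd, hL.inner d hd⟩

theorem GL_tau (M : Set D) {a : D} (ha : tau M a ≠ 1) : a ∈ M := by
  classical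
  by_contra hc
  apply ha
  unfold tau
  rw [if_neg hc]

/-- the layers of the face of `d` directly to the left of `c` -/
theorem GL_side [Fintype D] (hL : Layers G X M h) (c : ℤ) (d : D) :
    Side h {p | G.face.SameCycle d p ∧ p ∈ leftAt G X (c - 1)}
      {p | G.face.SameCycle d p ∧ p ∈ rightAt G X (c - 1)}
      {p | G.face.SameCycle d p ∧ X p < c ∧ X (G.rev p) = c} G.face M := by
  obtain ⟨T, hT, -, hf⟩ := GL_facefold hL d
  have hX := hL.pos
  have hF := GL_X_face hX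
  refine ⟨?_, ?_, ?_, ?_, ?_, ?_, ?_, ?_, ?_⟩
  · rintro a ha b hb hab
    refine hf.inj a b ?_ ?_ hab
    · rcases ha with ha | ha <;> exact ha.1
    · rcases hb with hb | hb <;> exact hb.1
  · rintro a ⟨-, ha1, ha2⟩ ⟨-, hb1, hb2⟩
    omega
  · rintro r ⟨h1, h2, h3⟩
    refine ⟨h1, ?_, ?_⟩
    · omega
    · rw [h3]; omega
  · rintro r ⟨h1, h2, h3⟩
    have h4 := GL_face_left hX (a := r) (by omega)
    have h5 := hF r
    refine ⟨h1.apply_right, ?_, ?_⟩
    · omega
    · omega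
  · rintro r - r' - hrr
    exact G.face.injective hrr
  · rintro p ⟨h1, h2, h3⟩ hpc r ⟨h4, h5, h6⟩
    refine hf.cross r p h4 h1 ?_ ?_
    · rw [hF, hF, h6]
      refine lt_of_le_of_lt (min_le_left _ _) ?_
      omega
    · rw [hF, hF, h6]
      refine lt_of_lt_of_le ?_ (le_max_right _ _)
      have h7 : X (G.rev p) ≠ c := fun h8 => hpc ⟨h1, by omega, h8⟩
      omega
  · rintro r ⟨h1, h2, h3⟩ r' ⟨h4, h5, h6⟩ hne
    refine hf.pair r r' h1 h4 hne ?_ ?_
    · rw [hF, hF, h3, h6]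
    · rw [hF, hF, h3, h6]
      exact ⟨fun _ => h5, fun _ => h2⟩
  · rintro r ⟨h1, h2, h3⟩ hlt
    apply GL_tau
    intro h4
    have h5 := (hf.type r h1).1 h4
    rw [if_pos (by rw [hF, h3]; exact h2)] at h5
    linarith
  · rintro a ⟨h1, h2, h3⟩ b ⟨h4, h5, h6⟩ hlt
    have halt := (alternate hT hf (c - 1) a h1).1 b h4 (by rw [hF]; exact h2) h3
      (by rw [hF]; exact h5) h6 hlt
    obtain ⟨r, hr, hr1, hr2, hr3, hr4⟩ := halt
    refine ⟨r, ⟨hr, hr1, ?_⟩, hr3, hr4⟩
    rw [hF] at hr2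
    exact hr2

/-- the layers of the face of `d` directly to the right of `c` -/
theorem GR_side [Fintype D] (hL : Layers G X M h) (c : ℤ) (d : D) :
    Side h {p | G.face.SameCycle d p ∧ p ∈ leftAt G X c}
      {p | G.face.SameCycle d p ∧ p ∈ rightAt G X c}
      {p | G.face.SameCycle d p ∧ X p = c ∧ c < X (G.rev p)} (fun p => G.face⁻¹ p)
      {x | G.rot (G.rev x) ∈ M} := by
  obtain ⟨T, hT, -, hf⟩ := GL_facefold hL d
  have hX := hL.pos
  have hF := GL_X_face hX
  -- the dart before a dart to the right which starts at `c`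
  have hprev : ∀ r, X r = c → c < X (G.rev r) →
      X (G.rev (G.face⁻¹ r)) = c ∧ c < X (G.face⁻¹ r) := by
    intro r h2 h3
    have h4 := hF (G.face⁻¹ r)
    rw [GL_ai, h2] at h4
    refine ⟨h4.symm, ?_⟩
    have h5 := GL_X_ne hX (G.face⁻¹ r)
    by_contra hc
    have h6 : X (G.face⁻¹ r) < X (G.rev (G.face⁻¹ r)) := by omega
    have h7 := GL_face_left hX h6
    rw [GL_ai] at h7
    omega
  refine ⟨?_, ?_, ?_, ?_, ?_, ?_, ?_, ?_, ?_⟩
  · rintro a ha b hb hab
    refine hf.inj a b ?_ ?_ hab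
    · rcases ha with ha | ha <;> exact ha.1
    · rcases hb with hb | hb <;> exact hb.1
  · rintro a ⟨-, ha1, ha2⟩ ⟨-, hb1, hb2⟩
    omega
  · rintro r ⟨h1, h2, h3⟩
    exact ⟨h1, by omega, h3⟩
  · rintro r ⟨h1, h2, h3⟩
    obtain ⟨h4, h5⟩ := hprev r h2 h3
    exact ⟨(GL_sci h1), by omega, h5⟩
  · rintro r - r' - hrr
    exact G.face⁻¹.injective hrr
  · rintro p ⟨h1, h2, h3⟩ hpc r ⟨h4, h5, h6⟩
    have h7 := hf.cross (G.face⁻¹ r) p (GL_sci h4) h1
    rw [GL_ai, hF, h5] at h7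
    have h8 : X p ≠ c := fun h9 => hpc ⟨h1, h9, h3⟩
    exact (h7 (lt_of_le_of_lt (min_le_left _ _) (by omega))
      (lt_of_lt_of_le h3 (le_max_right _ _))).symm
  · rintro r ⟨h1, h2, h3⟩ r' ⟨h4, h5, h6⟩ hne
    have h7 := hf.pair (G.face⁻¹ r) (G.face⁻¹ r') (GL_sci h1) (GL_sci h4)
      (fun h' => hne (G.face⁻¹.injective h'))
    rw [GL_ai, GL_ai, h2, h5] at h7
    have h8 := h7 rfl ?_
    · rw [min_comm (h r), max_comm (h r)]
      exact h8.symm
    · have h9 := (hprev r h2 h3).2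
      have h10 := (hprev r' h5 h6).2
      constructor <;> intro <;> omega
  · rintro r ⟨h1, h2, h3⟩ hlt
    show G.face (G.face⁻¹ r) ∈ M
    rw [GL_ai]
    apply GL_tau
    intro h4
    have h5 := hf.type (G.face⁻¹ r) (GL_sci h1)
    rw [GL_ai, h2] at h5
    have h6 := h5.1 h4
    have h7 := (hprev r h2 h3).2
    rw [if_neg (by omega)] at h6
    linarith
  · rintro a ⟨h1, h2, h3⟩ b ⟨h4, h5, h6⟩ hlt
    have halt := (alternate hT hf c a h1).1 b h4 (by rw [hF]; exact h2) h3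
      (by rw [hF]; exact h5) h6 hlt
    obtain ⟨r, hr, hr1, hr2, hr3, hr4⟩ := halt
    refine ⟨r, ⟨hr, hr1, ?_⟩, hr3, hr4⟩
    rw [hF] at hr2
    exact hr2

theorem GL_upOf_some (G : PlaneGraph D) (h : D → ℚ) (P : Set D) (d x : D)
    (hx : G.face.SameCycle d x) : upOf G h P (some x) =
      (lowest h {p | p ∈ {p | G.face.SameCycle d p ∧ p ∈ P} ∧ h x < h p}).map G.rev := by
  have : ({p | G.face.SameCycle x p ∧ p ∈ P ∧ h x < h p} : Set D) =
      {p | p ∈ {p | G.face.SameCycle d p ∧ p ∈ P} ∧ h x < h p} := by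
    ext p
    exact ⟨fun hp => ⟨⟨hx.trans hp.1, hp.2.1⟩, hp.2.2⟩,
      fun hp => ⟨hx.symm.trans hp.1.1, hp.1.2, hp.2⟩⟩
  show (lowest h {p | G.face.SameCycle x p ∧ p ∈ P ∧ h x < h p}).map G.rev = _
  rw [this]

/-- GL (uses GA): to the left of the point `c` -/
theorem reach_left [Fintype D] {G : PlaneGraph D} {X : D → ℤ} {M : Set D} {h : D → ℚ}
    (hL : Layers G X M h) (c : ℤ) :
    (∀ x, X x = c → X (G.rev x) < c → x ∉ M →
      Reach (upOf G h (rightAt G X (c - 1))) (fun a => G.rot⁻¹ a)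
        {x | X x = c ∧ X (G.rev x) < c} M (some x) (some (G.rot⁻¹ x))) ∧
    (∀ p : Option D, (∀ a, p = some a → a ∈ leftOver G X c) →
      Reach (upOf G h (rightAt G X (c - 1))) (fun a => G.rot⁻¹ a)
        {x | X x = c ∧ X (G.rev x) < c} M p (upOf G h (rightOver G X c) p)) := by
  have hX := hL.pos
  have hF := GL_X_face hX
  have hg : ∀ d, ∀ r ∈ {p | G.face.SameCycle d p ∧ X p < c ∧ X (G.rev p) = c},
      G.rot⁻¹ (G.face r) = G.rev r := by
    intro d r _
    show G.rot⁻¹ (G.rot (G.rev r)) = G.rev r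
    rw [GL_ia]
  have hC : ∀ d, ∀ r ∈ {p | G.face.SameCycle d p ∧ X p < c ∧ X (G.rev p) = c},
      G.face r ∈ {x | X x = c ∧ X (G.rev x) < c} := by
    rintro d r ⟨-, h2, h3⟩
    have h4 := GL_face_left hX (a := r) (by omega)
    have h5 := hF r
    constructor
    · omega
    · omega
  have hup : ∀ d, ∀ x ∈ {p | G.face.SameCycle d p ∧ p ∈ leftAt G X (c - 1)},
      upOf G h (rightAt G X (c - 1)) (some x) =
      (lowest h {p | p ∈ {p | G.face.SameCycle d p ∧ p ∈ rightAt G X (c - 1)} ∧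
        h x < h p}).map G.rev := fun d x hx => GL_upOf_some G h _ d x hx.1
  have hover : ∀ d, {p | p ∈ {p | G.face.SameCycle d p ∧ p ∈ rightAt G X (c - 1)} ∧
      p ∉ {p | G.face.SameCycle d p ∧ X p < c ∧ X (G.rev p) = c}} =
      {p | G.face.SameCycle d p ∧ p ∈ rightOver G X c} := by
    intro d
    ext p
    constructor
    · rintro ⟨⟨h1, h2, h3⟩, h4⟩
      have h5 : X (G.rev p) ≠ c := fun h6 => h4 ⟨h1, by omega, h6⟩
      exact ⟨h1, by omega, by omega⟩
    · rintro ⟨h1, h2, h3⟩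
      exact ⟨⟨h1, by omega, by omega⟩, fun h4 => by have := h4.2.2; omega⟩
  constructor
  · intro x h1 h2 hxM
    set y := G.face⁻¹ x with hy
    have hyx : G.face y = x := by rw [hy, GL_ai]
    have h3 := hF y
    rw [hyx, h1] at h3
    have h4 := GL_X_ne hX y
    have h5 : X y < c := by
      by_contra hc
      have h6 := GL_face_right hX (a := y) (by omega)
      rw [hyx] at h6
      omega
    have h7 := (GL_side hL c x).reach_corner (hup x) (hg x) (hC x) y
      ⟨GL_sci (Equiv.Perm.SameCycle.refl _ _), h5, h3.symm⟩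
      (by rw [hyx]; exact hxM)
    have h8 : G.rot⁻¹ x = G.rev y := by
      rw [← hyx]
      show G.rot⁻¹ (G.rot (G.rev y)) = G.rev y
      rw [GL_ia]
    rw [h8]
    rw [hyx] at h7
    exact h7
  · intro p hp
    cases p with
    | some a =>
      obtain ⟨h1, h2⟩ := hp a rfl
      have h3 := (GL_side hL c a).reach_over (hup a) (hg a) (hC a) a
        ⟨Equiv.Perm.SameCycle.refl _ _, by omega, by omega⟩ ?_
      · rw [GL_upOf_some G h (rightOver G X c) a a (Equiv.Perm.SameCycle.refl _ _), ← hover a]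
        exact h3
      · rintro r ⟨hr1, hr2, hr3⟩ hlt
        obtain ⟨T, hT, -, hf⟩ := GL_facefold hL a
        refine (hf.cross r a hr1 (Equiv.Perm.SameCycle.refl _ _) ?_ ?_).1 hlt
        · rw [hF, hF, hr3]
          exact lt_of_le_of_lt (min_le_right _ _) h2
        · rw [hF, hF, hr3]
          exact lt_of_lt_of_le h1 (le_max_left _ _)
    | none =>
      have h3 := (GL_side hL c G.out).reach_none (hup G.out)
        (up := upOf G h (rightAt G X (c - 1))) rfl ?_ (hg G.out) (hC G.out)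
      · show Reach _ _ _ _ none
          ((lowest h {p | G.face.SameCycle G.out p ∧ p ∈ rightOver G X c}).map G.rev)
        rw [← hover G.out]
        exact h3
      · rintro b ⟨h1, h2, h3⟩
        obtain ⟨T, hT, hout, hf⟩ := GL_facefold hL G.out
        have hT2 := hout (Equiv.Perm.SameCycle.refl _ _)
        obtain ⟨r, hr, hr1, hr2, hr3⟩ := (alternate hT hf (c - 1) b h1).2.2.1 hT2
          (by rw [hF]; exact h2) h3
        rw [hF] at hr2
        exact ⟨r, ⟨hr, hr1, hr2⟩, hr3⟩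

/-- GR (uses GA): to the right of the point `c` -/
theorem reach_right [Fintype D] {G : PlaneGraph D} {X : D → ℤ} {M : Set D} {h : D → ℚ}
    (hL : Layers G X M h) (c : ℤ) :
    (∀ x, X (G.rev x) = c → c < X x → G.rot (G.rev x) ∉ M →
      Reach (upOf G h (rightAt G X c)) (fun a => G.rev (G.rot (G.rev a)))
        {x | X (G.rev x) = c ∧ c < X x} {x | G.rot (G.rev x) ∈ M}
        (some x) (some (G.rev (G.rot (G.rev x))))) ∧
    (∀ p : Option D, (∀ a, p = some a → a ∈ leftOver G X c) →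
      Reach (upOf G h (rightAt G X c)) (fun a => G.rev (G.rot (G.rev a)))
        {x | X (G.rev x) = c ∧ c < X x} {x | G.rot (G.rev x) ∈ M}
        p (upOf G h (rightOver G X c) p)) := by
  have hX := hL.pos
  have hF := GL_X_face hX
  have hprev : ∀ r, X r = c → c < X (G.rev r) →
      X (G.rev (G.face⁻¹ r)) = c ∧ c < X (G.face⁻¹ r) := by
    intro r h2 h3
    have h4 := hF (G.face⁻¹ r)
    rw [GL_ai, h2] at h4
    refine ⟨h4.symm, ?_⟩
    have h5 := GL_X_ne hX (G.face⁻¹ r)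
    by_contra hc
    have h6 : X (G.face⁻¹ r) < X (G.rev (G.face⁻¹ r)) := by omega
    have h7 := GL_face_left hX h6
    rw [GL_ai] at h7
    omega
  have hg : ∀ d, ∀ r ∈ {p | G.face.SameCycle d p ∧ X p = c ∧ c < X (G.rev p)},
      G.rev (G.rot (G.rev (G.face⁻¹ r))) = G.rev r := by
    intro d r _
    show G.rev (G.face (G.face⁻¹ r)) = G.rev r
    rw [GL_ai]
  have hC : ∀ d, ∀ r ∈ {p | G.face.SameCycle d p ∧ X p = c ∧ c < X (G.rev p)},
      G.face⁻¹ r ∈ {x | X (G.rev x) = c ∧ c < X x} := by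
    rintro d r ⟨-, h2, h3⟩
    exact hprev r h2 h3
  have hup : ∀ d, ∀ x ∈ {p | G.face.SameCycle d p ∧ p ∈ leftAt G X c},
      upOf G h (rightAt G X c) (some x) =
      (lowest h {p | p ∈ {p | G.face.SameCycle d p ∧ p ∈ rightAt G X c} ∧
        h x < h p}).map G.rev := fun d x hx => GL_upOf_some G h _ d x hx.1
  have hover : ∀ d, {p | p ∈ {p | G.face.SameCycle d p ∧ p ∈ rightAt G X c} ∧
      p ∉ {p | G.face.SameCycle d p ∧ X p = c ∧ c < X (G.rev p)}} =
      {p | G.face.SameCycle d p ∧ p ∈ rightOver G X c} := by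
    intro d
    ext p
    constructor
    · rintro ⟨⟨h1, h2, h3⟩, h4⟩
      have h5 : X p ≠ c := fun h6 => h4 ⟨h1, h6, h3⟩
      exact ⟨h1, by omega, by omega⟩
    · rintro ⟨h1, h2, h3⟩
      exact ⟨⟨h1, by omega, by omega⟩, fun h4 => by have := h4.2.1; omega⟩
  constructor
  · intro x h1 h2 hxM
    set y := G.face x with hy
    have hyx : G.face⁻¹ y = x := by rw [hy, GL_ia]
    have h3 := hF x
    have h4 := GL_face_right hX (a := x) (by omega)
    have h7 := (GR_side hL c x).reach_corner (hup x) (g := fun a => G.rev (G.rot (G.rev a))) (hg x) (hC x) y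
      ⟨Equiv.Perm.sameCycle_apply_right.2 (Equiv.Perm.SameCycle.refl _ _), by rw [hy]; omega, by rw [hy]; omega⟩
      (by
        show G.rot (G.rev (G.face⁻¹ y)) ∉ M
        rw [hyx]; exact hxM)
    simp only [hyx] at h7
    exact h7
  · intro p hp
    cases p with
    | some a =>
      obtain ⟨h1, h2⟩ := hp a rfl
      have h3 := (GR_side hL c a).reach_over (hup a)
        (g := fun a => G.rev (G.rot (G.rev a))) (hg a) (hC a) a
        ⟨Equiv.Perm.SameCycle.refl _ _, by omega, by omega⟩ ?_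
      · rw [GL_upOf_some G h (rightOver G X c) a a (Equiv.Perm.SameCycle.refl _ _), ← hover a]
        exact h3
      · rintro r ⟨hr1, hr2, hr3⟩ hlt
        obtain ⟨T, hT, -, hf⟩ := GL_facefold hL a
        have h7 := hf.cross (G.face⁻¹ r) a (GL_sci hr1) (Equiv.Perm.SameCycle.refl _ _)
        rw [GL_ai, hF, hr2] at h7
        exact (h7 (lt_of_le_of_lt (min_le_right _ _) h2)
          (lt_of_lt_of_le h1 (le_max_left _ _))).2 hlt
    | none =>
      have h3 := (GR_side hL c G.out).reach_none (hup G.out)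
        (up := upOf G h (rightAt G X c))
        (g := fun a => G.rev (G.rot (G.rev a))) rfl ?_ (hg G.out) (hC G.out)
      · show Reach _ _ _ _ none
          ((lowest h {p | G.face.SameCycle G.out p ∧ p ∈ rightOver G X c}).map G.rev)
        rw [← hover G.out]
        exact h3
      · rintro b ⟨h1, h2, h3⟩
        obtain ⟨T, hT, hout, hf⟩ := GL_facefold hL G.out
        have hT2 := hout (Equiv.Perm.SameCycle.refl _ _)
        obtain ⟨r, hr, hr1, hr2, hr3⟩ := (alternate hT hf c b h1).2.2.1 hT2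
          (by rw [hF]; exact h2) h3
        rw [hF] at hr2
        exact ⟨r, ⟨hr, hr1, hr2⟩, hr3⟩

end graph

end Pool.Agent.H606R2.FF
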