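import Pool.Agent.H606R2.FF.TGL

/-!
# Task GR: chains to the right of a point (`reach_right` is proved in `TGL.lean`)
-/
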