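import Pool.Agent.H606R2.FF.TGM1
import Pool.Agent.H606R2.FF.TGI
import Pool.Agent.H606R2.FF.TGL
import Pool.Agent.H606R2.FF.TGR

/-!
# Gluing the faces
-/

namespace Pool.Agent.H606R2.FF

open Function Equiv.Perm

variable {D : Type} {G : PlaneGraph D} {X : D → ℤ} {M : Set D} {h : D → ℚ}

/-- the list of the edges over the interval `(s, s+1)` -/
noncomputable def U (G : PlaneGraph D) (X : D → ℤ) (h : D → ℚ) (s : ℤ) : Option D → Option D :=
  upOf G h (rightAt G X s)

theorem upOf_mem (P : Set D) {p : Option D} {q : D} (hq : upOf G h P p = some q) :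
    G.rev q ∈ P := by
  have key : ∀ (Q : Set D), (lowest h Q).map G.rev = some q → G.rev q ∈ Q := by
    intro Q hQ
    obtain ⟨a, ha, rfl⟩ := Option.map_eq_some_iff.1 hQ
    rw [G.rev_rev]
    unfold lowest at ha
    split_ifs at ha with H
    rw [← Option.some.inj ha]
    exact H.choose_spec.1
  cases p with
  | none => exact (key _ hq).2
  | some a => exact (key _ hq).2.1

section

variable (hL : Layers G X M h)

include hL

theorem ne_rev (d : D) : X (G.rev d) ≠ X d := by
  intro he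
  have h1 := hL.pos.X_len d
  rw [he] at h1
  simp only [sub_self, abs_zero] at h1
  have := G.len_pos d
  omega

theorem side_iff (d : D) : X (G.rev d) < X d ↔ X (G.rev (G.rot d)) < X (G.rot d) := by
  have h1 := hL.pos.same_side d
  have h2 := ne_rev hL d
  have h3 := ne_rev hL (G.rot d)
  constructor
  · intro h
    by_contra h'
    have := h1.2 (lt_of_le_of_ne (not_lt.1 h') (Ne.symm h3))
    omega
  · intro h
    by_contra h'
    have := h1.1 (lt_of_le_of_ne (not_lt.1 h') (Ne.symm h2))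
    omega

omit hL in
theorem rot_inv (d : D) : G.rot (G.rot⁻¹ d) = d := G.rot.apply_symm_apply d

theorem X_rotInv (d : D) : X (G.rot⁻¹ d) = X d := by
  have := hL.pos.X_rot (G.rot⁻¹ d)
  rw [rot_inv] at this
  exact this.symm

theorem side_rotInv (d : D) : X (G.rev (G.rot⁻¹ d)) < X (G.rot⁻¹ d) ↔ X (G.rev d) < X d := by
  have := side_iff hL (G.rot⁻¹ d)
  rwa [rot_inv] at this

theorem exists_end [Fintype D] (s : ℤ) : ∃ N, End (U G X h s) N := by
  classical
  obtain ⟨hinj, hmem, -⟩ := upOf_facts hL s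
  have hsq : ∀ k a, sq (U G X h s) k = some a → a ∈ leftAt G X s := by
    intro k a ha
    rcases Nat.eq_zero_or_pos k with rfl | hk
    · rw [sq_zero] at ha; exact absurd ha (by simp)
    obtain ⟨k, rfl⟩ : ∃ k', k = k' + 1 := ⟨k - 1, by omega⟩
    rw [sq_succ] at ha
    exact hmem _ _ ha
  have hex : ∃ k, sq (U G X h s) (k + 1) = none := by
    by_contra hno
    simp only [not_exists] at hno
    obtain ⟨i, j, hij, he⟩ := Finite.exists_ne_map_eq_of_infinite (fun k : ℕ => sq (U G X h s) k)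
    wlog hlt : i < j generalizing i j with H
    · exact H j i hij.symm he.symm (by omega)
    have key : ∀ r, r ≤ i → sq (U G X h s) (i - r) = sq (U G X h s) (j - r) := by
      intro r
      induction r with
      | zero => intro _; exact he
      | succ r ih =>
        intro hr
        have h1 := ih (by omega)
        have e1 : i - r = (i - (r + 1)) + 1 := by omega
        have e2 : j - r = (j - (r + 1)) + 1 := by omega
        obtain ⟨q, hq⟩ := Option.ne_none_iff_exists'.1 (hno (i - (r + 1)))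
        have hq' : sq (U G X h s) (j - (r + 1) + 1) = some q := by
          rw [← e2, ← h1, e1]; exact hq
        rw [sq_succ] at hq hq'
        exact hinj _ _ q (fun a ha => hsq _ _ ha) (fun a ha => hsq _ _ ha) hq hq'
    have h0 := key i le_rfl
    rw [Nat.sub_self, sq_zero] at h0
    refine hno (j - i - 1) ?_
    have e : j - i - 1 + 1 = j - i := by omega
    rw [e]; exact h0.symm
  refine ⟨Nat.find hex, Nat.find_spec hex, fun i hi hi' hn => ?_⟩
  refine Nat.find_min hex (m := i - 1) (by omega) ?_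
  have e : i - 1 + 1 = i := by omega
  rw [e]; exact hn

theorem exists_iter [Fintype D] (f : Equiv.Perm D) {x y : D} (hxy : f.SameCycle x y) :
    ∃ k, f^[k] x = y := by
  obtain ⟨k, hk⟩ := hxy.exists_nat_pow_eq
  exact ⟨k, by rw [Equiv.Perm.iterate_eq_pow]; exact hk⟩

theorem exists_period [Fintype D] (f : Equiv.Perm D) (x : D) : ∃ k > 0, f^[k] x = x := by
  refine ⟨orderOf f, orderOf_pos f, ?_⟩
  rw [Equiv.Perm.iterate_eq_pow, pow_orderOf_eq_one]
  rfl

theorem sameCycle_iter (f : Equiv.Perm D) (x : D) (k : ℕ) : f.SameCycle x (f^[k] x) := by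
  rw [Equiv.Perm.iterate_eq_pow]
  exact ⟨k, by simp⟩

theorem sideL [Fintype D] (c : ℤ) : SideS (U G X h (c - 1)) (leftAt G X (c - 1)) G.rot⁻¹
    {x | X x = c ∧ X (G.rev x) < c} M where
  hgC := by
    rintro x ⟨h1, h2⟩
    refine ⟨by rw [X_rotInv hL]; exact h1, ?_⟩
    have := (side_rotInv hL x).2 (by omega)
    rw [X_rotInv hL] at this
    omega
  horb := fun x _ => exists_period hL _ x
  one := by
    intro x _ hM k hk
    have h1 : G.rot.SameCycle x ((⇑G.rot⁻¹)^[k] x) :=
      Equiv.Perm.sameCycle_inv.1 (sameCycle_iter hL _ x k)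
    exact (hL.one_mountain x).unique ⟨h1, hk⟩ ⟨Equiv.Perm.SameCycle.refl _ _, hM⟩
  ex := by
    intro x _
    obtain ⟨b, ⟨h1, h2⟩, -⟩ := hL.one_mountain x
    obtain ⟨k, hk⟩ := exists_iter hL G.rot⁻¹ (Equiv.Perm.sameCycle_inv.2 h1)
    exact ⟨k, hk ▸ h2⟩
  N1 := fun x hx hM => (reach_left hL c).1 x hx.1 hx.2 hM
  CA := by
    rintro x ⟨h1, h2⟩
    exact ⟨by omega, by omega⟩
  inj := (upOf_facts hL (c - 1)).1
  mem := (upOf_facts hL (c - 1)).2.1
  fin := exists_end hL _

/-- the rotation at vertices with edges to the right -/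
def gR (G : PlaneGraph D) : Equiv.Perm D := G.rev * G.rot * G.rev

omit hL in
theorem gR_apply (x : D) : gR G x = G.rev (G.rot (G.rev x)) := rfl

omit hL in
theorem gR_iter (x : D) (k : ℕ) : (gR G)^[k] x = G.rev (G.rot^[k] (G.rev x)) := by
  induction k with
  | zero => simp [G.rev_rev]
  | succ k ih =>
    rw [Function.iterate_succ_apply', ih, gR_apply, G.rev_rev, Function.iterate_succ_apply']

theorem sideR [Fintype D] (c : ℤ) : SideS (U G X h c) (leftAt G X c) (gR G)
    {x | X (G.rev x) = c ∧ c < X x} {x | G.rot (G.rev x) ∈ M} where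
  hgC := by
    rintro x ⟨h1, h2⟩
    have h3 := side_iff hL (G.rev x)
    rw [G.rev_rev] at h3
    refine ⟨by rw [gR_apply, G.rev_rev, hL.pos.X_rot]; exact h1, ?_⟩
    rw [gR_apply]
    have h4 := ne_rev hL (G.rot (G.rev x))
    have h5 := hL.pos.X_rot (G.rev x)
    have h6 : ¬ X (G.rev (G.rot (G.rev x))) < X (G.rot (G.rev x)) := by
      rw [← h3]; omega
    omega
  horb := fun x _ => exists_period hL _ x
  one := by
    intro x _ hM k hk
    simp only [Set.mem_setOf_eq] at hM hk
    rw [gR_iter, G.rev_rev] at hk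
    rw [gR_iter]
    have h1 : G.rot.SameCycle (G.rev x) (G.rot (G.rot^[k] (G.rev x))) := by
      rw [← Function.iterate_succ_apply' (⇑G.rot)]
      exact sameCycle_iter hL _ _ _
    have h2 : G.rot.SameCycle (G.rev x) (G.rot (G.rev x)) := sameCycle_iter hL _ _ 1
    have h3 := (hL.one_mountain (G.rev x)).unique ⟨h1, hk⟩ ⟨h2, hM⟩
    rw [G.rot.injective h3, G.rev_rev]
  ex := by
    intro x _
    obtain ⟨b, ⟨h1, h2⟩, -⟩ := hL.one_mountain (G.rot (G.rev x))
    obtain ⟨k, hk⟩ := exists_iter hL G.rot h1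
    refine ⟨k, ?_⟩
    simp only [Set.mem_setOf_eq]
    rw [gR_iter, G.rev_rev, ← Function.iterate_succ_apply' (⇑G.rot),
      Function.iterate_succ_apply, hk]
    exact h2
  N1 := fun x hx hM => (reach_right hL c).1 x hx.1 hx.2 hM
  CA := by
    rintro x ⟨h1, h2⟩
    exact ⟨by omega, by omega⟩
  inj := (upOf_facts hL c).1
  mem := (upOf_facts hL c).2.1
  fin := exists_end hL _

theorem rightOver_some (c : ℤ) (p : Option D) (q : D)
    (hq : upOf G h (rightOver G X c) p = some q) : q ∈ leftOver G X c := by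
  have h1 := upOf_mem _ hq
  obtain ⟨h2, h3⟩ := h1
  rw [G.rev_rev] at h3
  exact ⟨h3, h2⟩

/-- passing from one side of `c` to the other -/
theorem good_step [Fintype D] (c : ℤ) {a : D} (ha : a ∈ leftOver G X c) :
    (∃ k, Pos (U G X h (c - 1)) k a) ↔ ∃ k, Pos (U G X h c) k a := by
  obtain ⟨N, hN⟩ := exists_end hL (c - 1)
  obtain ⟨N', hN'⟩ := exists_end hL c
  have h1 := compare_good hN (leftOver G X c) ((sideL hL c).nextX hN
    (by rintro x ⟨h1, h2⟩ ⟨h3, h4⟩; omega) (rightOver_some hL c)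
    (fun p hp => (reach_left hL c).2 p hp)) ha
  have h2 := compare_good hN' (leftOver G X c) ((sideR hL c).nextX hN'
    (by rintro x ⟨h1, h2⟩ ⟨h3, h4⟩; omega) (rightOver_some hL c)
    (fun p hp => (reach_right hL c).2 p hp)) ha
  rw [h1, h2]

theorem abv_step [Fintype D] (c : ℤ) {a b : D} (ha : a ∈ leftOver G X c)
    (hb : b ∈ leftOver G X c) : Abv (U G X h (c - 1)) a b ↔ Abv (U G X h c) a b := by
  obtain ⟨N, hN⟩ := exists_end hL (c - 1)
  obtain ⟨N', hN'⟩ := exists_end hL c
  have h1 := compare_abv hN (leftOver G X c) ((sideL hL c).nextX hN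
    (by rintro x ⟨h1, h2⟩ ⟨h3, h4⟩; omega) (rightOver_some hL c)
    (fun p hp => (reach_left hL c).2 p hp)) ha hb
  have h2 := compare_abv hN' (leftOver G X c) ((sideR hL c).nextX hN'
    (by rintro x ⟨h1, h2⟩ ⟨h3, h4⟩; omega) (rightOver_some hL c)
    (fun p hp => (reach_right hL c).2 p hp)) ha hb
  rw [h1, h2]

theorem good_range' [Fintype D] {a : D} (n : ℕ) : ∀ s, a ∈ leftAt G X s →
    a ∈ leftAt G X (s + n) →
    ((∃ k, Pos (U G X h s) k a) ↔ ∃ k, Pos (U G X h (s + n)) k a) := by
  induction n with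
  | zero => intro s _ _; simp
  | succ n ih =>
    intro s hs hs'
    have h1 : a ∈ leftAt G X (s + n) := by
      obtain ⟨h1, h2⟩ := hs
      obtain ⟨h3, h4⟩ := hs'
      push_cast at h4
      exact ⟨by omega, by omega⟩
    rw [ih s hs h1]
    have h2 := good_step hL (s + (n + 1 : ℕ)) (a := a) (by
      obtain ⟨h1, h2⟩ := hs
      obtain ⟨h3, h4⟩ := hs'
      push_cast at h4 ⊢
      exact ⟨by omega, by omega⟩)
    have e : s + ((n + 1 : ℕ) : ℤ) - 1 = s + n := by push_cast; ring
    rw [e] at h2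
    exact h2

theorem good_range [Fintype D] {a : D} {s s' : ℤ} (hs : a ∈ leftAt G X s)
    (hs' : a ∈ leftAt G X s') (hg : ∃ k, Pos (U G X h s) k a) : ∃ k, Pos (U G X h s') k a := by
  rcases le_total s s' with hle | hle
  · obtain ⟨n, hn⟩ := Int.le.dest hle
    subst hn
    exact (good_range' hL n s hs hs').1 hg
  · obtain ⟨n, hn⟩ := Int.le.dest hle
    subst hn
    exact (good_range' hL n s' hs' hs).2 hg

theorem abv_range' [Fintype D] {a b : D} (n : ℕ) : ∀ s, a ∈ leftAt G X s →
    a ∈ leftAt G X (s + n) → b ∈ leftAt G X s → b ∈ leftAt G X (s + n) →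
    (Abv (U G X h s) a b ↔ Abv (U G X h (s + n)) a b) := by
  induction n with
  | zero => intro s _ _; simp
  | succ n ih =>
    intro s hs hs' ht ht'
    have hh : ∀ a, a ∈ leftAt G X s → a ∈ leftAt G X (s + (n + 1 : ℕ)) →
        a ∈ leftAt G X (s + n) ∧ a ∈ leftOver G X (s + (n + 1 : ℕ)) := by
      rintro a ⟨h1, h2⟩ ⟨h3, h4⟩
      push_cast at h4
      exact ⟨⟨by omega, by omega⟩, ⟨by push_cast; omega, by push_cast; omega⟩⟩
    rw [ih s hs (hh a hs hs').1 ht (hh b ht ht').1]
    have h2 := abv_step hL (s + (n + 1 : ℕ)) (hh a hs hs').2 (hh b ht ht').2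
    have e : s + ((n + 1 : ℕ) : ℤ) - 1 = s + n := by push_cast; ring
    rw [e] at h2
    exact h2

theorem abv_range [Fintype D] {a b : D} {s s' : ℤ} (hs : a ∈ leftAt G X s)
    (hs' : a ∈ leftAt G X s') (ht : b ∈ leftAt G X s) (ht' : b ∈ leftAt G X s') :
    Abv (U G X h s) a b ↔ Abv (U G X h s') a b := by
  rcases le_total s s' with hle | hle
  · obtain ⟨n, hn⟩ := Int.le.dest hle
    subst hn
    exact abv_range' hL n s hs hs' ht ht'
  · obtain ⟨n, hn⟩ := Int.le.dest hle
    subst hn
    exact (abv_range' hL n s' hs' hs ht' ht).symm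

end

/-- the dart to the left of an edge -/
noncomputable def lft (G : PlaneGraph D) (X : D → ℤ) (a : D) : D := by
  classical exact if X (G.rev a) < X a then a else G.rev a

theorem lft_left {a : D} (ha : X (G.rev a) < X a) : lft G X a = a := by
  unfold lft; rw [if_pos ha]

theorem lft_right {a : D} (ha : ¬ X (G.rev a) < X a) : lft G X a = G.rev a := by
  unfold lft; rw [if_neg ha]

section

variable (hL : Layers G X M h)

include hL

theorem lft_rev (a : D) : lft G X (G.rev a) = lft G X a := by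
  have h1 := ne_rev hL a
  by_cases ha : X (G.rev a) < X a
  · rw [lft_left ha, lft_right (by rw [G.rev_rev]; omega), G.rev_rev]
  · rw [lft_right ha, lft_left (by rw [G.rev_rev]; omega)]

theorem lft_mem (a : D) (s : ℤ) : lft G X a ∈ leftAt G X s ↔
    min (X a) (X (G.rev a)) ≤ s ∧ s < max (X a) (X (G.rev a)) := by
  have h1 := ne_rev hL a
  by_cases ha : X (G.rev a) < X a
  · rw [lft_left ha]
    simp only [leftAt, Set.mem_setOf_eq]
    rw [min_eq_right ha.le, max_eq_left ha.le]
  · rw [lft_right ha]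
    simp only [leftAt, Set.mem_setOf_eq]
    rw [G.rev_rev, min_eq_left (by omega), max_eq_right (by omega)]

/-- the edge of `a` is in the lists -/
def GE (_ : Layers G X M h) (a : D) : Prop := ∃ s k, Pos (U G X h s) k (lft G X a)

theorem pos_leftAt [Fintype D] {s : ℤ} {k : ℕ} {a : D} (hk : Pos (U G X h s) k a) :
    a ∈ leftAt G X s := (sideR hL s).pos_mem hk

theorem GE.rev {a : D} (ha : GE hL a) : GE hL (G.rev a) := by
  unfold GE; rw [lft_rev hL]; exact ha

theorem GE.rot [Fintype D] {a : D} (ha : GE hL a) : GE hL (G.rot a) := by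
  obtain ⟨s, k, hk⟩ := ha
  have hs := pos_leftAt hL hk
  by_cases hd : X (G.rev a) < X a
  · rw [lft_left hd] at hk hs
    have hx : a ∈ {x | X x = X a ∧ X (G.rev x) < X a} := ⟨rfl, hd⟩
    obtain ⟨j, hj⟩ := good_range hL (s' := X a - 1) hs ((sideL hL (X a)).CA hx) ⟨k, hk⟩
    obtain ⟨j', hj'⟩ := (sideL hL (X a)).good_symm hx hj
    refine ⟨X a - 1, j', ?_⟩
    rw [lft_left ((side_iff hL a).1 hd)]
    exact hj'
  · rw [lft_right hd] at hk hs
    have h1 := ne_rev hL a
    have hx : G.rev a ∈ {x | X (G.rev x) = X a ∧ X a < X x} :=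
      ⟨by rw [G.rev_rev], by omega⟩
    obtain ⟨j, hj⟩ := good_range hL (s' := X a) hs ((sideR hL (X a)).CA hx) ⟨k, hk⟩
    obtain ⟨j', hj'⟩ := (sideR hL (X a)).good_next hx ⟨j, hj⟩
    refine ⟨X a, j', ?_⟩
    rw [lft_right (fun h' => hd ((side_iff hL a).2 h'))]
    rw [gR_apply, G.rev_rev] at hj'
    exact hj'

theorem exists_good [Fintype D] : ∃ a, GE hL a := by
  have hX : ∀ d, X (G.face d) = X (G.rev d) := fun d => hL.pos.X_rot (G.rev d)
  have h1 := ne_rev hL G.out
  -- an edge of the outer face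
  obtain ⟨r, s, hr1, hr2, hr3⟩ : ∃ r s, G.face.SameCycle G.out r ∧ X r ≤ s ∧
      s < X (G.rev r) := by
    by_cases hd : X (G.rev G.out) < X G.out
    · have hf := hL.outer G.out (Equiv.Perm.SameCycle.refl _ _)
      obtain ⟨r, h2, h3, h4, -⟩ := (alternate (Or.inr rfl) hf (X (G.rev G.out)) G.out
        (Equiv.Perm.SameCycle.refl _ _)).2.2.1 rfl (by rw [hX]) hd
      rw [hX] at h4
      exact ⟨r, _, h2, h3, h4⟩
    · exact ⟨G.out, X G.out, Equiv.Perm.SameCycle.refl _ _, le_rfl, by omega⟩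
  obtain ⟨p, hp1, hp2⟩ : ∃ p ∈ {p | G.face.SameCycle G.out p ∧ p ∈ rightAt G X s},
      ∀ q ∈ {p | G.face.SameCycle G.out p ∧ p ∈ rightAt G X s}, h p ≤ h q :=
    Set.exists_min_image _ h (Set.toFinite _) ⟨r, hr1, hr2, hr3⟩
  have hU : ∃ q, U G X h s none = some q := by
    have hex : ∃ p ∈ {p | G.face.SameCycle G.out p ∧ p ∈ rightAt G X s},
      ∀ q ∈ {p | G.face.SameCycle G.out p ∧ p ∈ rightAt G X s}, h p ≤ h q := ⟨p, hp1, hp2⟩
    refine ⟨G.rev hex.choose, ?_⟩
    unfold U upOf lowest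
    simp only
    rw [dif_pos hex]
    rfl
  obtain ⟨q, hq⟩ := hU
  have hpos : Pos (U G X h s) 1 q := ⟨le_rfl, by rw [sq_succ, sq_zero]; exact hq,
    fun m hm hm' => by omega⟩
  refine ⟨q, s, 1, ?_⟩
  have := pos_leftAt hL hpos
  rw [lft_left (by obtain ⟨a1, a2⟩ := this; omega)]
  exact hpos

theorem all_good [Fintype D] (a : D) : GE hL a := by
  obtain ⟨b, hb⟩ := exists_good hL
  have := G.connected b a
  induction this with
  | refl => exact hb
  | tail _ hstep ih =>
    rcases hstep with rfl | rfl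
    · exact ih.rot
    · exact ih.rev

theorem exists_pos [Fintype D] {a : D} {s : ℤ} (ha : a ∈ leftAt G X s) :
    ∃ k, Pos (U G X h s) k a := by
  obtain ⟨s', k, hk⟩ := all_good hL a
  rw [lft_left (by obtain ⟨a1, a2⟩ := ha; omega)] at hk
  exact good_range hL (pos_leftAt hL hk) ha ⟨k, hk⟩

/-- the order of the layers -/
def abv (_ : Layers G X M h) (a b : D) : Prop := ∃ s, Abv (U G X h s) (lft G X a) (lft G X b)

theorem abv_iff [Fintype D] {a b : D} {s : ℤ} (ha : lft G X a ∈ leftAt G X s)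
    (hb : lft G X b ∈ leftAt G X s) :
    abv hL a b ↔ Abv (U G X h s) (lft G X a) (lft G X b) := by
  constructor
  · rintro ⟨s', h'⟩
    obtain ⟨i, j, hi, hj, hij⟩ := h'
    exact (abv_range hL (pos_leftAt hL hj) ha (pos_leftAt hL hi) hb).1 ⟨i, j, hi, hj, hij⟩
  · intro h'; exact ⟨s, h'⟩

theorem Abv_total [Fintype D] {a b : D} {s : ℤ} (ha : a ∈ leftAt G X s) (hb : b ∈ leftAt G X s)
    (hab : a ≠ b) : Abv (U G X h s) a b ↔ ¬ Abv (U G X h s) b a := by
  obtain ⟨i, hi⟩ := exists_pos hL ha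
  obtain ⟨j, hj⟩ := exists_pos hL hb
  have hij : i ≠ j := by
    rintro rfl
    have h1 := hi.2.1
    rw [hj.2.1] at h1
    exact hab (Option.some.inj h1).symm
  constructor
  · rintro ⟨i1, j1, h1, h2, h3⟩ ⟨i2, j2, h4, h5, h6⟩
    have e1 := (sideR hL s).pos_unique h1 h5
    have e2 := (sideR hL s).pos_unique h2 h4
    omega
  · intro hn
    rcases Nat.lt_or_gt_of_ne hij with h' | h'
    · exact absurd ⟨i, j, hi, hj, h'⟩ hn
    · exact ⟨j, i, hj, hi, h'⟩

theorem Abv_trans [Fintype D] {a b c : D} {s : ℤ} (h1 : Abv (U G X h s) a b)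
    (h2 : Abv (U G X h s) b c) : Abv (U G X h s) a c := by
  obtain ⟨i, j, hi, hj, hij⟩ := h1
  obtain ⟨k, l, hk, hl, hkl⟩ := h2
  have := (sideR hL s).pos_unique hi hl
  exact ⟨k, j, hk, hj, by omega⟩

/-- the two sides, as one statement: at the vertex of `a` -/
theorem side_vertex [Fintype D] (a : D) : ∃ (s : ℤ) (g : Equiv.Perm D) (C M' : Set D),
    SideS (U G X h s) (leftAt G X s) g C M' ∧
    (∀ b, X b = X a → (X b < X (G.rev b) ↔ X a < X (G.rev a)) → lft G X b ∈ C ∧
      ∀ c, G.rot.SameCycle b c → lft G X c ∈ C ∧ ∃ r, g^[r] (lft G X b) = lft G X c) ∧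
    (∀ e, min (X e) (X (G.rev e)) < X a → X a < max (X e) (X (G.rev e)) →
      lft G X e ∈ leftAt G X s ∧ lft G X e ∉ C) ∧
    (∀ b c, X b = X a → X c = X a →
      (X b < X (G.rev b) ↔ X a < X (G.rev a)) → (X c < X (G.rev c) ↔ X a < X (G.rev a)) →
      ∀ t, g^[t] (lft G X b) = lft G X c → G.rot.SameCycle b c) := by
  have h1 := ne_rev hL a
  by_cases hd : X (G.rev a) < X a
  · have hside : ∀ b, (X b < X (G.rev b) ↔ X a < X (G.rev a)) → X (G.rev b) < X b := by
      intro b hb
      have h2 := ne_rev hL b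
      by_contra h'
      have := hb.1 (by omega)
      omega
    refine ⟨X a - 1, G.rot⁻¹, _, _, sideL hL (X a), ?_, ?_, ?_⟩
    · intro b hb hb'
      have hb2 := hside b hb'
      have hbC : b ∈ {x | X x = X a ∧ X (G.rev x) < X a} := ⟨hb, by omega⟩
      rw [lft_left hb2]
      refine ⟨hbC, fun c hc => ?_⟩
      obtain ⟨r, hr⟩ := exists_iter hL G.rot⁻¹ (Equiv.Perm.sameCycle_inv.2 hc)
      have hm := (sideL hL (X a)).iter_mem hbC r
      rw [hr] at hm
      have hc' : X (G.rev c) < X c := by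
        obtain ⟨a1, a2⟩ := hm
        omega
      rw [lft_left hc']
      exact ⟨hm, r, hr⟩
    · intro e he he'
      refine ⟨(lft_mem hL e _).2 ⟨by omega, by omega⟩, ?_⟩
      rintro ⟨a1, a2⟩
      have h2 := ne_rev hL e
      by_cases hde : X (G.rev e) < X e
      · rw [lft_left hde] at a1
        rw [max_eq_left hde.le] at he'
        omega
      · rw [lft_right hde] at a1
        rw [max_eq_right (by omega)] at he'
        omega
    · intro b c hb hc hb' hc' t ht
      rw [lft_left (hside b hb'), lft_left (hside c hc')] at ht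
      rw [← ht]
      exact Equiv.Perm.sameCycle_inv.1 (sameCycle_iter hL _ _ _)
  · have hside : ∀ b, (X b < X (G.rev b) ↔ X a < X (G.rev a)) → ¬ X (G.rev b) < X b := by
      intro b hb h'
      have := hb.2 (by omega)
      omega
    refine ⟨X a, gR G, _, _, sideR hL (X a), ?_, ?_, ?_⟩
    · intro b hb hb'
      have h2 := ne_rev hL b
      have hb2 := hside b hb'
      have hbC : G.rev b ∈ {x | X (G.rev x) = X a ∧ X a < X x} :=
        ⟨by rw [G.rev_rev]; exact hb, by omega⟩
      rw [lft_right hb2]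
      refine ⟨hbC, fun c hc => ?_⟩
      obtain ⟨r, hr⟩ := exists_iter hL G.rot hc
      have hm := (sideR hL (X a)).iter_mem hbC r
      have hr' : (gR G)^[r] (G.rev b) = G.rev c := by rw [gR_iter, G.rev_rev, hr]
      rw [hr'] at hm
      have hc' : ¬ X (G.rev c) < X c := by
        obtain ⟨a1, a2⟩ := hm
        rw [G.rev_rev] at a1
        omega
      rw [lft_right hc']
      exact ⟨hm, r, hr'⟩
    · intro e he he'
      refine ⟨(lft_mem hL e _).2 ⟨by omega, by omega⟩, ?_⟩
      rintro ⟨a1, a2⟩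
      have h2 := ne_rev hL e
      by_cases hde : X (G.rev e) < X e
      · rw [lft_left hde] at a1
        rw [min_eq_right hde.le] at he
        omega
      · rw [lft_right hde, G.rev_rev] at a1
        rw [min_eq_left (by omega)] at he
        omega
    · intro b c hb hc hb' hc' t ht
      rw [lft_right (hside b hb'), lft_right (hside c hc'), gR_iter, G.rev_rev] at ht
      rw [← G.rev.injective ht]
      exact sameCycle_iter hL _ _ _

theorem abv_pos [Fintype D] {a b : D} {s : ℤ} (ha : lft G X a ∈ leftAt G X s)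
    (hb : lft G X b ∈ leftAt G X s) {i j : ℕ} (hi : Pos (U G X h s) i (lft G X a))
    (hj : Pos (U G X h s) j (lft G X b)) : abv hL a b ↔ j < i := by
  rw [abv_iff hL ha hb]
  constructor
  · rintro ⟨i', j', h1, h2, h3⟩
    have e1 := (sideR hL s).pos_unique h1 hj
    have e2 := (sideR hL s).pos_unique h2 hi
    omega
  · intro h'; exact ⟨j, i, hj, hi, h'⟩

end

/-- GM -/
theorem glue [Fintype D] (hL : Layers G X M h) : G.FlatFoldable := by
  refine ⟨⟨X, abv hL, M, hL.pos.X_rot, hL.pos.X_len, hL.pos.same_side, ?_, ?_, ?_, ?_, ?_, ?_,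
    hL.one_mountain, ?_, ?_⟩⟩
  · intro a b
    unfold abv; rw [lft_rev hL]
  · intro a b
    unfold abv; rw [lft_rev hL]
  · -- total
    intro a b hab hab' hov
    have ha : lft G X a ∈ leftAt G X (max (min (X a) (X (G.rev a))) (min (X b) (X (G.rev b)))) :=
      (lft_mem hL a _).2 ⟨le_max_left _ _, lt_of_lt_of_le hov (min_le_left _ _)⟩
    have hb : lft G X b ∈ leftAt G X (max (min (X a) (X (G.rev a))) (min (X b) (X (G.rev b)))) :=
      (lft_mem hL b _).2 ⟨le_max_right _ _, lt_of_lt_of_le hov (min_le_right _ _)⟩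
    rw [abv_iff hL ha hb, abv_iff hL hb ha]
    refine Abv_total hL ha hb ?_
    intro he
    by_cases h1 : X (G.rev a) < X a <;> by_cases h2 : X (G.rev b) < X b
    · rw [lft_left h1, lft_left h2] at he; exact hab he
    · rw [lft_left h1, lft_right h2] at he; exact hab' he
    · rw [lft_right h1, lft_left h2] at he
      exact hab' (by rw [← he, G.rev_rev])
    · rw [lft_right h1, lft_right h2] at he; exact hab (G.rev.injective he)
  · -- trans
    intro a b c s hs h1 h2
    have ha := (lft_mem hL a s).2 (hs a (by simp))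
    have hb := (lft_mem hL b s).2 (hs b (by simp))
    have hc := (lft_mem hL c s).2 (hs c (by simp))
    rw [abv_iff hL ha hb] at h1
    rw [abv_iff hL hb hc] at h2
    rw [abv_iff hL ha hc]
    exact Abv_trans hL h1 h2
  · -- cross
    intro a b c hab hc hc'
    obtain ⟨s, g, C, M', hS, hv, hcr, -⟩ := side_vertex hL a
    obtain ⟨ha1, hv'⟩ := hv a rfl Iff.rfl
    obtain ⟨hb1, r, hr⟩ := hv' b hab
    obtain ⟨hc1, hc2⟩ := hcr c hc hc'
    obtain ⟨i, hi⟩ := exists_pos hL (hS.CA ha1)
    obtain ⟨j, hj⟩ := exists_pos hL (hS.CA hb1)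
    obtain ⟨k, hk⟩ := exists_pos hL hc1
    rw [abv_pos hL hc1 (hS.CA ha1) hk hi, abv_pos hL hc1 (hS.CA hb1) hk hj]
    exact hS.cross ha1 r hi (by rw [hr]; exact hj) hk hc2
  · -- nest
    intro a b c d hab hcd hac hX hside
    obtain ⟨s, g, C, M', hS, hv, -, hsame⟩ := side_vertex hL a
    obtain ⟨ha1, hv'⟩ := hv a rfl Iff.rfl
    obtain ⟨hb1, r, hr⟩ := hv' b hab
    obtain ⟨hc1, hv''⟩ := hv c hX.symm hside.symm
    obtain ⟨hd1, r', hr'⟩ := hv'' d hcd
    obtain ⟨i, hi⟩ := exists_pos hL (hS.CA ha1)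
    obtain ⟨j, hj⟩ := exists_pos hL (hS.CA hb1)
    obtain ⟨k, hk⟩ := exists_pos hL (hS.CA hc1)
    obtain ⟨l, hl⟩ := exists_pos hL (hS.CA hd1)
    rw [abv_pos hL (hS.CA hc1) (hS.CA ha1) hk hi, abv_pos hL (hS.CA hb1) (hS.CA hc1) hj hk,
      abv_pos hL (hS.CA hd1) (hS.CA hb1) hl hj]
    rintro ⟨h1, h2, h3⟩
    exact hS.nested ha1 hc1 r r' (fun t ht => hac (hsame a c rfl hX.symm Iff.rfl hside.symm t ht))
      hi (by rw [hr]; exact hj) hk (by rw [hr']; exact hl) h1 h2 h3
  · -- order
    intro d hd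
    have h1 := ne_rev hL d
    split_ifs with hdd
    · -- edges to the right
      have hx : G.rev d ∈ {x | X (G.rev x) = X d ∧ X d < X x} := ⟨by rw [G.rev_rev], hdd⟩
      have hx' : gR G (G.rev d) ∈ {x | X (G.rev x) = X d ∧ X d < X x} :=
        (sideR hL (X d)).hgC _ hx
      obtain ⟨i, hi⟩ := exists_pos hL ((sideR hL (X d)).CA hx)
      obtain ⟨j, h2, h3, -⟩ := (sideR hL (X d)).next hx
        (by simp only [Set.mem_setOf_eq]; rw [G.rev_rev]; exact hd) hi
      have e1 : lft G X d = G.rev d := lft_right (by omega)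
      have e2 : lft G X (G.rot d) = gR G (G.rev d) := by
        rw [lft_right (fun h' => by have := (side_iff hL d).2 h'; omega), gR_apply, G.rev_rev]
      rw [abv_pos hL (s := X d) (i := j) (j := i)
        (by rw [e2]; exact (sideR hL (X d)).CA hx') (by rw [e1]; exact (sideR hL (X d)).CA hx)
        (by rw [e2]; exact h3) (by rw [e1]; exact hi)]
      exact h2
    · -- edges to the left
      have hdd' : X (G.rev d) < X d := by omega
      have hr := (side_iff hL d).1 hdd'
      have hx : G.rot d ∈ {x | X x = X d ∧ X (G.rev x) < X d} :=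
        ⟨hL.pos.X_rot d, by rw [hL.pos.X_rot] at hr; exact hr⟩
      have hx' : d ∈ {x | X x = X d ∧ X (G.rev x) < X d} := ⟨rfl, hdd'⟩
      obtain ⟨i, hi⟩ := exists_pos hL ((sideL hL (X d)).CA hx)
      obtain ⟨j, h2, h3, -⟩ := (sideL hL (X d)).next hx hd hi
      have e3 : G.rot⁻¹ (G.rot d) = d := G.rot.symm_apply_apply d
      rw [e3] at h3
      rw [abv_pos hL (s := X d - 1) (i := j) (j := i)
        (by rw [lft_left hdd']; exact (sideL hL (X d)).CA hx')
        (by rw [lft_left hr]; exact (sideL hL (X d)).CA hx)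
        (by rw [lft_left hdd']; exact h3) (by rw [lft_left hr]; exact hi)]
      exact h2
  · -- outer
    intro d s h1 h2 htop
    have hd : d ∈ leftAt G X s := ⟨h1, h2⟩
    have hdl : X (G.rev d) < X d := by omega
    obtain ⟨N, hN⟩ := exists_end hL s
    obtain ⟨i, hi⟩ := exists_pos hL hd
    have hi2 := (hN.pos_iff i d).1 hi
    have hiN : i = N := by
      by_contra hne
      obtain ⟨e, he⟩ := Option.ne_none_iff_exists'.1 (hN.mid (i + 1) (by omega) (by omega))
      have hpe : Pos (U G X h s) (i + 1) e := (hN.pos_iff _ _).2 ⟨by omega, by omega, he⟩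
      have hes := pos_leftAt hL hpe
      obtain ⟨e1, e2⟩ := hes
      have hel : X (G.rev e) < X e := by omega
      have hned : e ≠ d := by
        rintro rfl
        have := (sideR hL s).pos_unique hi hpe
        omega
      have hner : e ≠ G.rev d := by
        rintro rfl
        rw [G.rev_rev] at hel
        omega
      have h3 := htop e (by rw [min_eq_right hel.le]; exact e1) (by rw [max_eq_left hel.le]; exact e2)
        hned hner
      rw [abv_pos hL (s := s) (i := i) (j := i + 1) (by rw [lft_left hdl]; exact hd)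
        (by rw [lft_left hel]; exact ⟨e1, e2⟩) (by rw [lft_left hdl]; exact hi)
        (by rw [lft_left hel]; exact hpe)] at h3
      omega
    subst hiN
    refine (upOf_facts hL s).2.2 d hd ?_
    have h3 := hN.fin
    rw [sq_succ, hi2.2.2] at h3
    exact h3

end Pool.Agent.H606R2.FF
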