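import Pool.Agent.H606R2.FF.TGN

/-!
# Gluing the faces: abstract part
-/

namespace Pool.Agent.H606R2.FF

open Function

section Seq

variable {E : Type}

/-- the `k`-th element of the list which starts at `none` -/
def sq (up : Option E → Option E) (k : ℕ) : Option E := up^[k] none

theorem sq_zero (up : Option E → Option E) : sq up 0 = none := rfl

theorem sq_succ (up : Option E → Option E) (k : ℕ) : sq up (k + 1) = up (sq up k) :=
  Function.iterate_succ_apply' _ _ _

/-- `a` is the `k`-th element of the list -/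
def Pos (up : Option E → Option E) (k : ℕ) (a : E) : Prop :=
  1 ≤ k ∧ sq up k = some a ∧ ∀ m, 1 ≤ m → m < k → sq up m ≠ none

/-- the list has `N` elements -/
structure End (up : Option E → Option E) (N : ℕ) : Prop where
  fin : sq up (N + 1) = none
  mid : ∀ i, 1 ≤ i → i ≤ N → sq up i ≠ none

/-- `a` is above `b` in the list -/
def Abv (up : Option E → Option E) (a b : E) : Prop := ∃ i j, Pos up i b ∧ Pos up j a ∧ i < j

theorem End.pos_iff {up : Option E → Option E} {N : ℕ} (hN : End up N) (k : ℕ) (a : E) :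
    Pos up k a ↔ 1 ≤ k ∧ k ≤ N ∧ sq up k = some a := by
  constructor
  · rintro ⟨h1, h2, h3⟩
    refine ⟨h1, ?_, h2⟩
    by_contra hk
    rcases Nat.lt_or_ge (N + 1) k with h | h
    · exact h3 (N + 1) (by omega) h hN.fin
    · have : k = N + 1 := by omega
      rw [this, hN.fin] at h2
      exact absurd h2 (by simp)
  · rintro ⟨h1, h2, h3⟩
    exact ⟨h1, h3, fun m hm hm' => hN.mid m hm (by omega)⟩

/-- two lists with the same crossing elements -/
theorem compare {up upx : Option E → Option E} {N : ℕ} (hN : End up N) (Cr : Set E)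
    (H : ∀ i ≤ N, (i = 0 ∨ ∃ a ∈ Cr, sq up i = some a) → ∃ j, i < j ∧ j ≤ N + 1 ∧
      sq up j = upx (sq up i) ∧ (∀ b, sq up j = some b → b ∈ Cr) ∧
      ∀ k, i < k → k < j → ∀ b, sq up k = some b → b ∉ Cr) :
    (∀ k a, Pos upx k a → a ∈ Cr ∧ ∃ i, Pos up i a ∧
      ∀ k' b, Pos upx k' b → k' < k → ∃ i', i' < i ∧ Pos up i' b) ∧
    (∀ i a, Pos up i a → a ∈ Cr → ∃ k, Pos upx k a ∧
      ∀ i' b, Pos up i' b → b ∈ Cr → i' < i → ∃ k', k' < k ∧ Pos upx k' b) := by
  constructor
  · intro k
    induction k with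
    | zero => intro a ha; exact absurd ha.1 (by omega)
    | succ k ih =>
      intro a ha
      have hs : sq upx (k + 1) = some a := ha.2.1
      rcases Nat.eq_zero_or_pos k with hk | hk
      · subst hk
        obtain ⟨j, hj1, hj2, hj3, hj4, hj5⟩ := H 0 (by omega) (Or.inl rfl)
        have e : sq up j = some a := by
          rw [hj3, ← hs, sq_succ, sq_zero, sq_zero]
        have hjN : j ≤ N := by
          by_contra h
          have : j = N + 1 := by omega
          rw [this, hN.fin] at e
          exact absurd e (by simp)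
        refine ⟨hj4 a e, j, (hN.pos_iff j a).2 ⟨by omega, hjN, e⟩, ?_⟩
        intro k' b hb hk'
        exact absurd hb.1 (by omega)
      · have h1 : sq upx k ≠ none := ha.2.2 k hk (by omega)
        obtain ⟨a', ha'⟩ := Option.ne_none_iff_exists'.1 h1
        have hp : Pos upx k a' := ⟨hk, ha', fun m hm hm' => ha.2.2 m hm (by omega)⟩
        obtain ⟨hcr, i, hi, hi'⟩ := ih a' hp
        have hi2 := (hN.pos_iff i a').1 hi
        obtain ⟨j, hj1, hj2, hj3, hj4, hj5⟩ := H i hi2.2.1 (Or.inr ⟨a', hcr, hi2.2.2⟩)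
        have e : sq up j = some a := by
          rw [hj3, ← hs, sq_succ, ha', hi2.2.2]
        have hjN : j ≤ N := by
          by_contra h
          have : j = N + 1 := by omega
          rw [this, hN.fin] at e
          exact absurd e (by simp)
        refine ⟨hj4 a e, j, (hN.pos_iff j a).2 ⟨by omega, hjN, e⟩, ?_⟩
        intro k' b hb hk'
        rcases Nat.lt_or_ge k' k with h | h
        · obtain ⟨i', h1, h2⟩ := hi' k' b hb h
          exact ⟨i', by omega, h2⟩
        · have : k' = k := by omega
          subst this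
          have : b = a' := by
            have := hb.2.1
            rw [ha'] at this
            exact (Option.some.inj this).symm
          subst this
          exact ⟨i, hj1, hi⟩
  · intro i
    induction i using Nat.strong_induction_on with
    | _ i ih =>
      intro a ha hcr
      have ha2 := (hN.pos_iff i a).1 ha
      -- the largest index below `i` which is zero or crossing
      obtain ⟨i', hi'1, hi'2, hi'3⟩ : ∃ i', i' < i ∧ (i' = 0 ∨ ∃ b ∈ Cr, sq up i' = some b) ∧
          ∀ k, i' < k → k < i → ¬ ∃ b ∈ Cr, sq up k = some b := by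
        classical
        have hex : ∃ r, r < i ∧ ((i - 1 - r) = 0 ∨ ∃ b ∈ Cr, sq up (i - 1 - r) = some b) :=
          ⟨i - 1, by omega, Or.inl (by omega)⟩
        refine ⟨i - 1 - Nat.find hex, by omega, (Nat.find_spec hex).2, ?_⟩
        intro k hk hk' hb
        have hr : i - 1 - k < Nat.find hex := by omega
        have := Nat.find_min hex hr
        apply this
        refine ⟨by omega, Or.inr ?_⟩
        have e : i - 1 - (i - 1 - k) = k := by omega
        rw [e]; exact hb
      obtain ⟨j, hj1, hj2, hj3, hj4, hj5⟩ := H i' (by omega) hi'2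
      have hji : j = i := by
        rcases Nat.lt_trichotomy j i with h | h | h
        · exfalso
          have hjn : sq up j ≠ none := hN.mid j (by omega) (by omega)
          obtain ⟨b, hb⟩ := Option.ne_none_iff_exists'.1 hjn
          exact hi'3 j hj1 h ⟨b, hj4 b hb, hb⟩
        · exact h
        · exact absurd hcr (hj5 i hi'1 h a ha2.2.2)
      subst hji
      have e : upx (sq up i') = some a := by rw [← hj3, ha2.2.2]
      rcases hi'2 with h0 | ⟨b, hb, hb'⟩
      · subst h0
        refine ⟨1, ⟨le_refl _, by rw [sq_succ, sq_zero]; exact e, fun m hm hm' => by omega⟩, ?_⟩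
        intro i'' b hb hbc hlt
        have h1 := (hN.pos_iff i'' b).1 hb
        exact absurd ⟨b, hbc, h1.2.2⟩ (hi'3 i'' (by omega) hlt)
      · have hi0 : i' ≠ 0 := by
          rintro rfl
          rw [sq_zero] at hb'
          exact absurd hb' (by simp)
        have hpb : Pos up i' b := (hN.pos_iff i' b).2 ⟨by omega, by omega, hb'⟩
        obtain ⟨k, hk, hk'⟩ := ih i' hi'1 b hpb hb
        refine ⟨k + 1, ⟨by omega, ?_, ?_⟩, ?_⟩
        · rw [sq_succ, hk.2.1, ← hb', e]
        · intro m hm hm'
          rcases Nat.lt_or_ge m k with h | h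
          · exact hk.2.2 m hm h
          · have : m = k := by omega
            rw [this, hk.2.1]; simp
        · intro i'' b' hb'' hbc hlt
          rcases Nat.lt_trichotomy i'' i' with h | h | h
          · obtain ⟨k', h1, h2⟩ := hk' i'' b' hb'' hbc h
            exact ⟨k', by omega, h2⟩
          · subst h
            have : b' = b := by
              have := hb''.2.1
              rw [hb'] at this
              exact (Option.some.inj this).symm
            subst this
            exact ⟨k, by omega, hk⟩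
          · have h1 := (hN.pos_iff i'' b').1 hb''
            exact absurd ⟨b', hbc, h1.2.2⟩ (hi'3 i'' h hlt)

theorem compare_good {up upx : Option E → Option E} {N : ℕ} (hN : End up N) (Cr : Set E)
    (H : ∀ i ≤ N, (i = 0 ∨ ∃ a ∈ Cr, sq up i = some a) → ∃ j, i < j ∧ j ≤ N + 1 ∧
      sq up j = upx (sq up i) ∧ (∀ b, sq up j = some b → b ∈ Cr) ∧
      ∀ k, i < k → k < j → ∀ b, sq up k = some b → b ∉ Cr) {a : E} (ha : a ∈ Cr) :
    (∃ k, Pos up k a) ↔ ∃ k, Pos upx k a := by
  obtain ⟨h1, h2⟩ := compare hN Cr H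
  constructor
  · rintro ⟨k, hk⟩
    obtain ⟨k', hk', -⟩ := h2 k a hk ha
    exact ⟨k', hk'⟩
  · rintro ⟨k, hk⟩
    obtain ⟨-, i, hi, -⟩ := h1 k a hk
    exact ⟨i, hi⟩

theorem compare_abv {up upx : Option E → Option E} {N : ℕ} (hN : End up N) (Cr : Set E)
    (H : ∀ i ≤ N, (i = 0 ∨ ∃ a ∈ Cr, sq up i = some a) → ∃ j, i < j ∧ j ≤ N + 1 ∧
      sq up j = upx (sq up i) ∧ (∀ b, sq up j = some b → b ∈ Cr) ∧
      ∀ k, i < k → k < j → ∀ b, sq up k = some b → b ∉ Cr) {a b : E} (ha : a ∈ Cr)
    (hb : b ∈ Cr) : Abv up a b ↔ Abv upx a b := by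
  obtain ⟨h1, h2⟩ := compare hN Cr H
  constructor
  · rintro ⟨i, j, hi, hj, hij⟩
    obtain ⟨k, hk, hk'⟩ := h2 j a hj ha
    obtain ⟨k', hlt, hp⟩ := hk' i b hi hb hij
    exact ⟨k', k, hp, hk, hlt⟩
  · rintro ⟨i, j, hi, hj, hij⟩
    obtain ⟨-, k, hk, hk'⟩ := h1 j a hj
    obtain ⟨k', hlt, hp⟩ := hk' i b hi hij
    exact ⟨k', k, hp, hk, hlt⟩

/-- One side of a point of the line. -/
structure SideS (up : Option E → Option E) (A : Set E) (g : Equiv.Perm E) (C M : Set E) : Prop where
  hgC : ∀ x ∈ C, g x ∈ C
  horb : ∀ x ∈ C, ∃ k > 0, g^[k] x = x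
  one : ∀ x ∈ C, x ∈ M → ∀ k, g^[k] x ∈ M → g^[k] x = x
  ex : ∀ x ∈ C, ∃ k, g^[k] x ∈ M
  N1 : ∀ x ∈ C, x ∉ M → Reach up g C M (some x) (some (g x))
  CA : C ⊆ A
  inj : ∀ p p' : Option E, ∀ q, (∀ a, p = some a → a ∈ A) → (∀ a, p' = some a → a ∈ A) →
    up p = some q → up p' = some q → p = p'
  mem : ∀ p : Option E, ∀ q, up p = some q → q ∈ A
  fin : ∃ N, End up N

namespace SideS

variable {up : Option E → Option E} {A : Set E} {g : Equiv.Perm E} {C M : Set E}

theorem pos_mem (S : SideS up A g C M) {k : ℕ} {a : E} (h : Pos up k a) : a ∈ A := by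
  obtain ⟨h1, h2, -⟩ := h
  obtain ⟨k, rfl⟩ : ∃ k', k = k' + 1 := ⟨k - 1, by omega⟩
  rw [sq_succ] at h2
  exact S.mem _ _ h2

theorem sq_mem (S : SideS up A g C M) {k : ℕ} {a : E} (h : sq up k = some a) : a ∈ A := by
  rcases Nat.eq_zero_or_pos k with rfl | hk
  · rw [sq_zero] at h; exact absurd h (by simp)
  obtain ⟨k, rfl⟩ : ∃ k', k = k' + 1 := ⟨k - 1, by omega⟩
  rw [sq_succ] at h
  exact S.mem _ _ h

theorem pos_unique (S : SideS up A g C M) {i j : ℕ} {a : E} (hi : Pos up i a) (hj : Pos up j a) :
    i = j := by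
  wlog hij : i < j generalizing i j with H
  · rcases Nat.lt_trichotomy i j with h | h | h
    · exact absurd h hij
    · exact h
    · exact (H hj hi h).symm
  exfalso
  -- descend to the start
  have key : ∀ r, r ≤ i → sq up (i - r) = sq up (j - r) := by
    intro r
    induction r with
    | zero => intro _; rw [Nat.sub_zero, Nat.sub_zero, hi.2.1, hj.2.1]
    | succ r ih =>
      intro hr
      have h1 := ih (by omega)
      have e1 : i - r = (i - (r + 1)) + 1 := by omega
      have e2 : j - r = (j - (r + 1)) + 1 := by omega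
      have hne : sq up (i - r) ≠ none := by
        rcases Nat.eq_zero_or_pos r with h0 | h0
        · subst h0; rw [Nat.sub_zero, hi.2.1]; simp
        · exact hi.2.2 _ (by omega) (by omega)
      obtain ⟨q, hq⟩ := Option.ne_none_iff_exists'.1 hne
      have hq' := hq
      rw [h1] at hq'
      rw [e1, sq_succ] at hq
      rw [e2, sq_succ] at hq'
      exact S.inj _ _ q (fun a ha => S.sq_mem ha) (fun a ha => S.sq_mem ha) hq hq'
  have h0 := key i le_rfl
  rw [Nat.sub_self, sq_zero] at h0
  exact hj.2.2 (j - i) (by omega) (by have := hi.1; omega) h0.symm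

/-- the next element of the same vertex -/
theorem next (S : SideS up A g C M) {i : ℕ} {x : E} (hx : x ∈ C) (hM : x ∉ M) (hi : Pos up i x) :
    ∃ j, i < j ∧ Pos up j (g x) ∧ ∀ k y, i < k → k < j → Pos up k y → y ∈ C ∧
      ∀ t, ∃ k', i < k' ∧ k' < j ∧ Pos up k' (g^[t] y) := by
  obtain ⟨N, hN⟩ := S.fin
  have hi2 := (hN.pos_iff i x).1 hi
  obtain ⟨j, h1, h2, h3, h4⟩ := nest up g C M S.hgC S.horb S.one S.N1 (sq up) N
    (fun i _ => (sq_succ up i).symm) hN.mid hN.fin i hi2.2.1 (some (g x))
    (by rw [hi2.2.2]; exact S.N1 x hx hM)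
  have hjN : j ≤ N := by
    by_contra h
    have : j = N + 1 := by omega
    rw [this, hN.fin] at h3
    exact absurd h3 (by simp)
  refine ⟨j, h1, (hN.pos_iff j _).2 ⟨by omega, hjN, h3⟩, ?_⟩
  intro k y hk hk' hy
  obtain ⟨x', hx', he, ht⟩ := h4 k hk hk'
  have : x' = y := by
    have := hy.2.1
    rw [he] at this
    exact Option.some.inj this
  subst this
  refine ⟨hx', fun t => ?_⟩
  obtain ⟨k', a1, a2, a3⟩ := ht t
  exact ⟨k', a1, a2, (hN.pos_iff k' _).2 ⟨by omega, by omega, a3⟩⟩

/-- the next crossing element -/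
theorem nextX (S : SideS up A g C M) {N : ℕ} (hN : End up N) {upx : Option E → Option E}
    {Cr : Set E} (hCr : ∀ x ∈ C, x ∉ Cr) (hx : ∀ p q, upx p = some q → q ∈ Cr)
    (N2 : ∀ p : Option E, (∀ a, p = some a → a ∈ Cr) → Reach up g C M p (upx p)) :
    ∀ i ≤ N, (i = 0 ∨ ∃ a ∈ Cr, sq up i = some a) → ∃ j, i < j ∧ j ≤ N + 1 ∧
      sq up j = upx (sq up i) ∧ (∀ b, sq up j = some b → b ∈ Cr) ∧
      ∀ k, i < k → k < j → ∀ b, sq up k = some b → b ∉ Cr := by
  intro i hi hi'
  have hp : ∀ a, sq up i = some a → a ∈ Cr := by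
    rcases hi' with rfl | ⟨b, hb, hb'⟩
    · intro a ha; rw [sq_zero] at ha; exact absurd ha (by simp)
    · intro a ha
      rw [hb'] at ha
      rw [← Option.some.inj ha]; exact hb
  obtain ⟨j, h1, h2, h3, h4⟩ := nest up g C M S.hgC S.horb S.one S.N1 (sq up) N
    (fun i _ => (sq_succ up i).symm) hN.mid hN.fin i hi _ (N2 _ hp)
  refine ⟨j, h1, h2, h3, fun b hb => hx _ _ (h3 ▸ hb), ?_⟩
  intro k hk hk' b hb
  obtain ⟨x, hx1, hx2, -⟩ := h4 k hk hk'
  rw [hb] at hx2
  rw [Option.some.inj hx2]
  exact hCr x hx1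

theorem iter_mem (S : SideS up A g C M) {x : E} (hx : x ∈ C) (k : ℕ) : g^[k] x ∈ C := by
  induction k with
  | zero => exact hx
  | succ k ih => rw [Function.iterate_succ_apply']; exact S.hgC _ ih

theorem symm_mem (S : SideS up A g C M) {x : E} (hx : x ∈ C) : g.symm x ∈ C := by
  obtain ⟨k, hk, hk'⟩ := S.horb x hx
  obtain ⟨k, rfl⟩ : ∃ k', k = k' + 1 := ⟨k - 1, by omega⟩
  rw [Function.iterate_succ_apply'] at hk'
  rw [← hk', Equiv.symm_apply_apply]
  exact S.iter_mem hx k

theorem symm_iter (x : E) (k : ℕ) : g.symm^[k] (g^[k] x) = x := by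
  induction k generalizing x with
  | zero => rfl
  | succ k ih =>
    rw [Function.iterate_succ_apply, Function.iterate_succ_apply', Equiv.symm_apply_apply, ih]

theorem iter_symm (x : E) (k : ℕ) : g^[k] (g.symm^[k] x) = x := by
  induction k generalizing x with
  | zero => rfl
  | succ k ih =>
    rw [Function.iterate_succ_apply, Function.iterate_succ_apply', Equiv.apply_symm_apply, ih]

theorem reach_append {up' : Option E → Option E} {g' : E → E} {C' M' : Set E} {p q : Option E}
    (h : Reach up' g' C' M' p q) : ∀ {x : E} {r : Option E}, q = some (g' x) → x ∈ C' → x ∈ M' →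
      Reach up' g' C' M' (some x) r → Reach up' g' C' M' p r := by
  induction h with
  | base h =>
    intro x r hq hx hM hr
    exact Reach.step hx hM (h.trans hq) hr
  | step hx hM hup _ ih =>
    intro x r hq hx' hM' hr
    exact Reach.step hx hM hup (ih hq hx' hM' hr)

/-- the list upside down -/
noncomputable def down (up : Option E → Option E) (A : Set E) (N : ℕ) : Option E → Option E
  | none => sq up N
  | some b => by
    classical exact if h : ∃ p : Option E, (∀ a, p = some a → a ∈ A) ∧ up p = some b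
      then h.choose else none

theorem down_some (S : SideS up A g C M) (N : ℕ) {p : Option E} {b : E}
    (hp : ∀ a, p = some a → a ∈ A) (h : up p = some b) : down up A N (some b) = p := by
  have hex : ∃ p : Option E, (∀ a, p = some a → a ∈ A) ∧ up p = some b := ⟨p, hp, h⟩
  unfold down
  simp only
  rw [dif_pos hex]
  exact S.inj _ _ b hex.choose_spec.1 hp hex.choose_spec.2 h

theorem reach_down (S : SideS up A g C M) (N : ℕ) {p q : Option E} (h : Reach up g C M p q) :
    ∀ b, q = some b → (∀ a, p = some a → a ∈ A) →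
      Reach (down up A N) g.symm C {y | g.symm y ∈ M} (some b) p := by
  induction h with
  | base h =>
    intro b hb hp
    exact Reach.base (S.down_some N hp (h.trans hb))
  | @step p q x hx hM hup _ ih =>
    intro b hb hp
    have h1 := ih b hb (fun a ha => by rw [← Option.some.inj ha]; exact S.CA hx)
    refine reach_append h1 (x := g x) ?_ (S.hgC x hx) ?_ ?_
    · rw [Equiv.symm_apply_apply]
    · simpa using hM
    · exact Reach.base (S.down_some N hp hup)

/-- the previous element of the same vertex -/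
theorem prev (S : SideS up A g C M) {j : ℕ} {x : E} (hx : x ∈ C) (hM : x ∉ M)
    (hj : Pos up j (g x)) : ∃ i, Pos up i x := by
  obtain ⟨N, hN⟩ := S.fin
  have hj2 := (hN.pos_iff j (g x)).1 hj
  have key := nest (down up A N) g.symm C {y | g.symm y ∈ M} (fun y hy => S.symm_mem hy)
    (fun y hy => by
      obtain ⟨k, hk, hk'⟩ := S.horb y hy
      refine ⟨k, hk, ?_⟩
      have h1 := symm_iter (g := g) y k
      rw [hk'] at h1
      exact h1)
    (fun y hy hyM k hk => by
      simp only [Set.mem_setOf_eq] at hyM hk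
      -- y0 = g.symm y, w = g.symm^[k] y, w0 = g.symm w
      have h1 : g.symm (g.symm^[k] y) = g.symm^[k] (g.symm y) := by
        rw [← Function.iterate_succ_apply' (⇑g.symm) k y, Function.iterate_succ_apply]
      rw [h1] at hk
      have hC0 : g.symm^[k] (g.symm y) ∈ C := by
        have : ∀ r, ∀ z ∈ C, g.symm^[r] z ∈ C := by
          intro r
          induction r with
          | zero => intro z hz; exact hz
          | succ r ih => intro z hz; rw [Function.iterate_succ_apply]; exact ih _ (S.symm_mem hz)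
        exact this k _ (S.symm_mem hy)
      have h2 := S.one _ hC0 hk k (by rw [iter_symm]; exact hyM)
      rw [iter_symm] at h2
      rw [← h1] at h2
      exact (g.symm.injective h2).symm)
    (fun y hy hyM => by
      simp only [Set.mem_setOf_eq] at hyM
      have h1 := S.N1 (g.symm y) (S.symm_mem hy) hyM
      rw [Equiv.apply_symm_apply] at h1
      exact S.reach_down N h1 y rfl (fun a ha => by
        rw [← Option.some.inj ha]; exact S.CA (S.symm_mem hy)))
    (fun i => sq up (N + 1 - i)) N
    (fun i hi => by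
      rcases Nat.eq_zero_or_pos i with h0 | h0
      · subst h0
        rw [Nat.sub_zero, hN.fin]
        rfl
      · have hne : sq up (N + 1 - i) ≠ none := hN.mid _ (by omega) (by omega)
        obtain ⟨b, hb⟩ := Option.ne_none_iff_exists'.1 hne
        rw [hb]
        refine S.down_some N (fun a ha => S.sq_mem ha) ?_
        rw [← hb, ← sq_succ up]
        congr 1
        omega)
    (fun i hi hi' => hN.mid _ (by omega) (by omega))
    (by simp only [Nat.sub_self]; exact sq_zero up)
    (N + 1 - j) (by omega) (some x)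
    (by
      have e : N + 1 - (N + 1 - j) = j := by omega
      simp only [e]
      rw [hj2.2.2]
      exact S.reach_down N (S.N1 x hx hM) _ rfl (fun a ha => by
        rw [← Option.some.inj ha]; exact S.CA hx))
  obtain ⟨j', h1, h2, h3, -⟩ := key
  refine ⟨N + 1 - j', (hN.pos_iff _ _).2 ⟨?_, by omega, h3⟩⟩
  by_contra h0
  have : N + 1 - j' = 0 := by omega
  rw [this, sq_zero] at h3
  exact absurd h3 (by simp)

/-- going up to the top of the vertex -/
theorem up_top (S : SideS up A g C M) {i : ℕ} {x : E} (hx : x ∈ C) (hi : Pos up i x) :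
    ∃ t m, g^[t] x = m ∧ m ∈ M ∧ ∃ j, Pos up j m ∧ i ≤ j ∧
      ∀ e k, Pos up k e → e ∉ C → (i < k ↔ j < k) := by
  classical
  have hex := S.ex x hx
  obtain ⟨t, ht, hmin⟩ : ∃ t, g^[t] x ∈ M ∧ ∀ r < t, g^[r] x ∉ M :=
    ⟨Nat.find hex, Nat.find_spec hex, fun r hr => Nat.find_min hex hr⟩
  clear hex
  have key : ∀ r ≤ t, ∃ j, Pos up j (g^[r] x) ∧ i ≤ j ∧
      ∀ e k, Pos up k e → e ∉ C → (i < k ↔ j < k) := by
    intro r
    induction r with
    | zero => intro _; exact ⟨i, hi, le_rfl, fun _ _ _ _ => Iff.rfl⟩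
    | succ r ih =>
      intro hr
      obtain ⟨j, hj, hij, he⟩ := ih (by omega)
      obtain ⟨j', h1, h2, h3⟩ := S.next (S.iter_mem hx r) (hmin r (by omega)) hj
      refine ⟨j', by rw [Function.iterate_succ_apply']; exact h2, by omega, ?_⟩
      intro e k hk hC
      rw [he e k hk hC]
      constructor
      · intro h
        rcases Nat.lt_trichotomy k j' with h' | h' | h'
        · exact absurd (h3 k e h h' hk).1 hC
        · subst h'
          have : e = g (g^[r] x) := by
            have := hk.2.1
            rw [h2.2.1] at this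
            exact (Option.some.inj this).symm
          exact absurd (this ▸ S.hgC _ (S.iter_mem hx r)) hC
        · exact h'
      · intro h; omega
  obtain ⟨j, hj, hij, he⟩ := key t le_rfl
  exact ⟨t, _, rfl, ht, j, hj, hij, he⟩

/-- the top of a vertex is unique -/
theorem top_unique (S : SideS up A g C M) {x : E} (hx : x ∈ C) {s t : ℕ} (hs : g^[s] x ∈ M)
    (ht : g^[t] x ∈ M) : g^[s] x = g^[t] x := by
  wlog hst : s ≤ t generalizing s t with H
  · exact (H ht hs (by omega)).symm
  have e : g^[t] x = g^[t - s] (g^[s] x) := by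
    rw [← Function.iterate_add_apply]
    congr 2
    omega
  rw [e] at ht ⊢
  exact (S.one _ (S.iter_mem hx s) hs _ ht).symm

/-- the inverse is an iterate -/
theorem symm_eq_iter (S : SideS up A g C M) {x : E} (hx : x ∈ C) : ∃ k, g.symm x = g^[k] x := by
  obtain ⟨k, hk, hk'⟩ := S.horb x hx
  obtain ⟨k, rfl⟩ : ∃ k', k = k' + 1 := ⟨k - 1, by omega⟩
  refine ⟨k, ?_⟩
  rw [Function.iterate_succ_apply'] at hk'
  conv_lhs => rw [← hk']
  rw [Equiv.symm_apply_apply]

theorem good_symm (S : SideS up A g C M) {i : ℕ} {x : E} (hx : x ∈ C) (hi : Pos up i x) :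
    ∃ j, Pos up j (g.symm x) := by
  by_cases hM : g.symm x ∈ M
  · obtain ⟨t, m, h1, h2, j, h3, -, -⟩ := S.up_top hx hi
    obtain ⟨k, hk⟩ := S.symm_eq_iter hx
    have : m = g.symm x := by
      rw [← h1, hk]
      exact S.top_unique hx (h1 ▸ h2) (hk ▸ hM)
    exact ⟨j, this ▸ h3⟩
  · exact S.prev (S.symm_mem hx) hM (by rw [Equiv.apply_symm_apply]; exact hi)

theorem good_symm_iter (S : SideS up A g C M) (k : ℕ) : ∀ {x : E}, x ∈ C →
    (∃ i, Pos up i x) → ∃ j, Pos up j (g.symm^[k] x) := by
  induction k with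
  | zero => intro x _ h; exact h
  | succ k ih =>
    rintro x hx ⟨i, hi⟩
    rw [Function.iterate_succ_apply]
    exact ih (S.symm_mem hx) (S.good_symm hx hi)

theorem good_next (S : SideS up A g C M) {x : E} (hx : x ∈ C) (hi : ∃ i, Pos up i x) :
    ∃ j, Pos up j (g x) := by
  obtain ⟨k, hk, hk'⟩ := S.horb x hx
  have h := S.good_symm_iter (k - 1) hx hi
  have e : g.symm^[k - 1] x = g x := by
    have h1 : g^[k] (g x) = g x := by
      rw [← Function.iterate_succ_apply, Function.iterate_succ_apply', hk']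
    have h2 : g^[k - 1] (g x) = x := by
      obtain ⟨k, rfl⟩ : ∃ k', k = k' + 1 := ⟨k - 1, by omega⟩
      rw [Function.iterate_succ_apply'] at h1
      exact g.injective h1
    conv_lhs => rw [← h2]
    exact symm_iter _ _
  rwa [e] at h

theorem good_iter (S : SideS up A g C M) (k : ℕ) : ∀ {x : E}, x ∈ C →
    (∃ i, Pos up i x) → ∃ j, Pos up j (g^[k] x) := by
  induction k with
  | zero => intro x _ h; exact h
  | succ k ih =>
    intro x hx h
    rw [Function.iterate_succ_apply]
    exact ih (S.hgC x hx) (S.good_next hx h)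

/-- a crossing element is above or below all elements of a vertex -/
theorem cross (S : SideS up A g C M) {x : E} (hx : x ∈ C) (r : ℕ) {i j k : ℕ} {e : E}
    (hi : Pos up i x) (hj : Pos up j (g^[r] x)) (hk : Pos up k e) (he : e ∉ C) :
    i < k ↔ j < k := by
  obtain ⟨t, m, h1, h2, i', h3, h4, h5⟩ := S.up_top hx hi
  obtain ⟨t', m', h1', h2', j', h3', h4', h5'⟩ := S.up_top (S.iter_mem hx r) hj
  have hm : m = m' := by
    rw [← h1, ← h1', ← Function.iterate_add_apply]
    exact S.top_unique hx (h1 ▸ h2) (by rw [Function.iterate_add_apply, h1']; exact h2')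
  subst hm
  have : i' = j' := S.pos_unique h3 h3'
  subst this
  rw [h5 e k hk he, h5' e k hk he]

/-- two vertices are not interleaved -/
theorem nested (S : SideS up A g C M) {x y : E} (hx : x ∈ C) (hy : y ∈ C) (r s : ℕ)
    (hne : ∀ t, g^[t] x ≠ y) {i j k l : ℕ} (hi : Pos up i x) (hj : Pos up j (g^[r] x))
    (hk : Pos up k y) (hl : Pos up l (g^[s] y)) (h1 : i < k) (h2 : k < j) (h3 : j < l) :
    False := by
  classical
  obtain ⟨t, m, ht, hm, i', hi', hii', -⟩ := S.up_top hx hi
  obtain ⟨t', m', ht', hm', j', hj', hjj', -⟩ := S.up_top (S.iter_mem hx r) hj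
  have hmm : m = m' := by
    rw [← ht, ← ht', ← Function.iterate_add_apply]
    exact S.top_unique hx (ht ▸ hm) (by rw [Function.iterate_add_apply, ht']; exact hm')
  subst hmm
  have hij' : i' = j' := S.pos_unique hi' hj'
  subst hij'
  -- follow the vertex of `x` upwards until it passes `y`
  have hex : ∃ u, g^[u] x ∈ M := ⟨t, ht ▸ hm⟩
  have key : ∀ u, (∀ u' < u, g^[u'] x ∉ M) → ∃ a, Pos up a (g^[u] x) ∧ a < k := by
    intro u
    induction u with
    | zero => intro _; exact ⟨i, hi, h1⟩
    | succ u ih =>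
      intro hu
      obtain ⟨a, ha, hak⟩ := ih (fun u' hu' => hu u' (by omega))
      obtain ⟨b, hb1, hb2, hb3⟩ := S.next (S.iter_mem hx u) (hu u (by omega)) ha
      refine ⟨b, by rw [Function.iterate_succ_apply']; exact hb2, ?_⟩
      by_contra hbk
      have hkb : k < b := by
        rcases Nat.lt_trichotomy k b with h | h | h
        · exact h
        · exfalso
          subst h
          have : y = g (g^[u] x) := by
            have := hk.2.1
            rw [hb2.2.1] at this
            exact (Option.some.inj this).symm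
          exact hne (u + 1) (by rw [Function.iterate_succ_apply']; exact this.symm)
        · omega
      obtain ⟨-, hy2⟩ := hb3 k y hak hkb hk
      obtain ⟨l', hl1, hl2, hl3⟩ := hy2 s
      have hl' : l' = l := S.pos_unique hl3 hl
      -- the element at `j` is between as well
      obtain ⟨-, hx2⟩ := hb3 j _ (by omega) (by omega) hj
      -- the whole orbit is between, in particular `g^[u] x`
      obtain ⟨w, hw⟩ : ∃ w, g^[w] (g^[r] x) = g^[u] x := by
        obtain ⟨p, hp, hp'⟩ := S.horb x hx
        refine ⟨p * r - r + u, ?_⟩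
        rw [← Function.iterate_add_apply]
        have hpr : r ≤ p * r := Nat.le_mul_of_pos_left r hp
        have e : p * r - r + u + r = u + p * r := by omega
        rw [e, Function.iterate_add_apply]
        have : ∀ n, g^[p * n] x = x := by
          intro n
          induction n with
          | zero => rfl
          | succ n ih => rw [Nat.mul_succ, Function.iterate_add_apply, hp', ih]
        rw [this]
      obtain ⟨c, hc1, hc2, hc3⟩ := hx2 w
      rw [hw] at hc3
      have := S.pos_unique hc3 ha
      omega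
  obtain ⟨a, ha, hak⟩ := key (Nat.find hex) (fun u' hu' => Nat.find_min hex hu')
  have hm2 : g^[Nat.find hex] x = m := by
    rw [← ht]
    exact S.top_unique hx (Nat.find_spec hex) (ht ▸ hm)
  rw [hm2] at ha
  have := S.pos_unique ha hi'
  omega

end SideS

end Seq

end Pool.Agent.H606R2.FF
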