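import Pool.Agent.H606R2.FF.Base

/-!
# Nested structure of the layers (helper653)
-/

namespace Pool.Agent.H606R2.FF

open Equiv.Perm PlaneGraph

/-- GN: nested structure of the layers at one side of a point -/
theorem nest {E : Type} (up : Option E → Option E) (g : E → E) (C M : Set E)
    (hgC : ∀ x ∈ C, g x ∈ C) (horb : ∀ x ∈ C, ∃ k > 0, g^[k] x = x)
    (one : ∀ x ∈ C, x ∈ M → ∀ k, g^[k] x ∈ M → g^[k] x = x)
    (N1 : ∀ x ∈ C, x ∉ M → Reach up g C M (some x) (some (g x)))
    (z : ℕ → Option E) (N : ℕ) (hz : ∀ i ≤ N, up (z i) = z (i + 1))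
    (hsome : ∀ i, 1 ≤ i → i ≤ N → z i ≠ none) (hend : z (N + 1) = none)
    (i : ℕ) (hi : i ≤ N) (q : Option E) (hq : Reach up g C M (z i) q) :
    ∃ j, i < j ∧ j ≤ N + 1 ∧ z j = q ∧ ∀ k, i < k → k < j → ∃ x ∈ C, z k = some x ∧
      ∀ t, ∃ k', i < k' ∧ k' < j ∧ z k' = some (g^[t] x) := by
  have hitC : ∀ (t : ℕ) (x : E), x ∈ C → g^[t] x ∈ C := by
    intro t
    induction t with
    | zero => exact fun x hx => hx
    | succ t ih =>
      intro x hx
      rw [Function.iterate_succ_apply']
      exact hgC _ (ih x hx)
  obtain ⟨n, hn⟩ : ∃ n, n = N - i := ⟨_, rfl⟩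
  induction n using Nat.strong_induction_on generalizing i q with
  | _ n IH =>
    generalize hp : z i = p at hq
    cases hq with
    | base h =>
      refine ⟨i + 1, by omega, by omega, ?_, ?_⟩
      · rw [← hz i hi, hp, h]
      · intro k h1 h2
        omega
    | step hxC hxM hup hr =>
      rename_i x
      classical
      have hz1 : z (i + 1) = some (g x) := by
        rw [← hz i hi, hp, hup]
      have hi1 : i + 1 ≤ N := by
        by_contra hcon
        have : i + 1 = N + 1 := by omega
        rw [this, hend] at hz1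
        exact absurd hz1 (by simp)
      set k := Nat.find (horb x hxC) with hk
      obtain ⟨hk0, hkx⟩ := Nat.find_spec (horb x hxC)
      rw [← hk] at hk0 hkx
      have hmin : ∀ t, 1 ≤ t → t < k → g^[t] x ≠ x := by
        intro t ht1 htk h
        exact Nat.find_min (horb x hxC) htk ⟨ht1, h⟩
      have key : ∀ t, 1 ≤ t → t ≤ k → ∃ j, i < j ∧ j ≤ N ∧ z j = some (g^[t] x) ∧
          (∀ s, 1 ≤ s → s ≤ t → ∃ k', i < k' ∧ k' ≤ j ∧ z k' = some (g^[s] x)) ∧
          ∀ k', i < k' → k' < j → ∃ y ∈ C, z k' = some y ∧ ((∃ s, y = g^[s] x) ∨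
            ∀ t', ∃ k'', i < k'' ∧ k'' < j ∧ z k'' = some (g^[t'] y)) := by
        intro t ht
        induction t, ht using Nat.le_induction with
        | base =>
          intro _
          refine ⟨i + 1, by omega, hi1, hz1, ?_, ?_⟩
          · intro s h1 h2
            have : s = 1 := by omega
            subst this
            exact ⟨i + 1, by omega, le_refl _, hz1⟩
          · intro k' h1 h2
            omega
        | succ t ht ih =>
          intro htk
          obtain ⟨j, hj1, hj2, hj3, hj4, hj5⟩ := ih (by omega)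
          have hM : g^[t] x ∉ M := fun h => hmin t ht (by omega) (one x hxC hxM t h)
          have hR := N1 _ (hitC t x hxC) hM
          rw [← hj3] at hR
          obtain ⟨j', h1, h2, h3, h4⟩ := IH (N - j) (by omega) j hj2 _ hR rfl
          have hj' : j' ≤ N := by
            by_contra hcon
            have : j' = N + 1 := by omega
            rw [this, hend] at h3
            exact absurd h3 (by simp)
          refine ⟨j', by omega, hj', ?_, ?_, ?_⟩
          · rw [h3, Function.iterate_succ_apply']
          · intro s hs1 hs2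
            rcases Nat.lt_or_ge t s with hs | hs
            · have : s = t + 1 := by omega
              subst this
              refine ⟨j', by omega, le_refl _, ?_⟩
              rw [h3, Function.iterate_succ_apply']
            · obtain ⟨k', a1, a2, a3⟩ := hj4 s hs1 hs
              exact ⟨k', a1, by omega, a3⟩
          · intro k' a1 a2
            rcases lt_trichotomy k' j with hlt | heq | hgt
            · obtain ⟨y, hy1, hy2, hy3⟩ := hj5 k' a1 hlt
              refine ⟨y, hy1, hy2, hy3.imp id fun h t' => ?_⟩
              obtain ⟨k'', b1, b2, b3⟩ := h t'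
              exact ⟨k'', b1, by omega, b3⟩
            · subst heq
              exact ⟨_, hitC t x hxC, hj3, Or.inl ⟨t, rfl⟩⟩
            · obtain ⟨y, hy1, hy2, hy3⟩ := h4 k' hgt a2
              refine ⟨y, hy1, hy2, Or.inr fun t' => ?_⟩
              obtain ⟨k'', b1, b2, b3⟩ := hy3 t'
              exact ⟨k'', by omega, b2, b3⟩
      obtain ⟨j, hj1, hj2, hj3, hj4, hj5⟩ := key k hk0 le_rfl
      rw [hkx] at hj3
      rw [← hj3] at hr
      obtain ⟨j', h1, h2, h3, h4⟩ := IH (N - j) (by omega) j hj2 q hr rfl
      have hper : ∀ m s : ℕ, g^[k * m + s] x = g^[s] x := by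
        intro m
        induction m with
        | zero => intro s; simp
        | succ m ihm =>
          intro s
          have : k * (m + 1) + s = (k * m + s) + k := by ring
          rw [this, Function.iterate_add_apply, hkx, ihm]
      have hall : ∀ t, ∃ k', i < k' ∧ k' < j' ∧ z k' = some (g^[t] x) := by
        intro t
        have e1 : g^[t] x = g^[t % k] x := by
          conv_lhs => rw [← Nat.div_add_mod t k]
          exact hper _ _
        rcases Nat.eq_zero_or_pos (t % k) with h0 | h0
        · refine ⟨j, hj1, h1, ?_⟩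
          rw [e1, h0, hj3]
          rfl
        · obtain ⟨k', a1, a2, a3⟩ := hj4 (t % k) h0 (Nat.mod_lt _ hk0).le
          exact ⟨k', a1, by omega, by rw [a3, e1]⟩
      refine ⟨j', by omega, h2, h3, ?_⟩
      intro k' a1 a2
      rcases lt_trichotomy k' j with hlt | heq | hgt
      · obtain ⟨y, hy1, hy2, hy3⟩ := hj5 k' a1 hlt
        refine ⟨y, hy1, hy2, fun t => ?_⟩
        rcases hy3 with ⟨s, rfl⟩ | hy3
        · rw [← Function.iterate_add_apply]
          exact hall _
        · obtain ⟨k'', b1, b2, b3⟩ := hy3 t
          exact ⟨k'', b1, by omega, b3⟩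
      · subst heq
        exact ⟨x, hxC, hj3, hall⟩
      · obtain ⟨y, hy1, hy2, hy3⟩ := h4 k' hgt a2
        refine ⟨y, hy1, hy2, fun t => ?_⟩
        obtain ⟨k'', b1, b2, b3⟩ := hy3 t
        exact ⟨k'', by omega, b2, b3⟩

end Pool.Agent.H606R2.FF
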