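import Pool.Agent.H606R2.FF.TW

/-!
# Task NW: the sum over pairs of layers for the walk along a face of a folded state
-/

set_option autoImplicit false

namespace Pool.Agent.H606R2.FF

open Equiv.Perm PlaneGraph

namespace NW

variable {D : Type}

/-- the period of a point -/
theorem period [Finite D] (f : Equiv.Perm D) (m : D) : ∃ N : ℕ, 0 < N ∧ (f ^ N) m = m ∧
    (∀ j, 0 < j → j < N → (f ^ j) m ≠ m) ∧ ∀ q, f.SameCycle m q → ∃ j < N, (f ^ j) m = q := by
  classical
  have hex : ∃ n, 0 < n ∧ (f ^ n) m = m :=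
    ⟨orderOf f, orderOf_pos f, by rw [pow_orderOf_eq_one]; rfl⟩
  set N := Nat.find hex with hN
  have h1 := Nat.find_spec hex
  refine ⟨N, h1.1, h1.2, ?_, ?_⟩
  · intro j hj hjN h
    exact Nat.find_min hex hjN ⟨hj, h⟩
  · intro q hq
    obtain ⟨n, hn⟩ := hq.exists_nat_pow_eq
    refine ⟨n % N, Nat.mod_lt _ h1.1, ?_⟩
    have h2 : ∀ k : ℕ, (f ^ (N * k)) m = m := by
      intro k
      induction k with
      | zero => simp
      | succ k ih =>
        rw [Nat.mul_succ, pow_add, Equiv.Perm.mul_apply]
        rw [h1.2, ih]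
    have h3 : (f ^ n) m = (f ^ (n % N)) m := by
      conv_lhs => rw [← Nat.mod_add_div n N, pow_add, Equiv.Perm.mul_apply, h2]
    rw [← h3, hn]

variable {G : PlaneGraph D} (F : G.FoldedState)

theorem X_ne (d : D) : F.X (G.rev d) ≠ F.X d := by
  intro h
  have h1 := F.X_len d
  have h2 := G.len_pos d
  rw [h, sub_self, abs_zero] at h1
  omega

theorem X_face (a : D) : F.X (G.face a) = F.X (G.rev a) := F.X_rot (G.rev a)

theorem X_pow (d : D) (n : ℕ) : F.X ((G.rot ^ n) d) = F.X d := by
  induction n with
  | zero => rfl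
  | succ n ih => rw [pow_succ', Equiv.Perm.mul_apply, F.X_rot, ih]

/-- the dart goes to the right (`r = true`) or to the left -/
def Go (r : Bool) (d : D) : Prop :=
  if r = true then F.X d < F.X (G.rev d) else F.X (G.rev d) < F.X d

theorem go_rot (r : Bool) (d : D) (h : Go F r d) : Go F r (G.rot d) := by
  cases r
  · simp only [Go] at h ⊢
    have h1 := F.same_side d
    have h2 := X_ne F (G.rot d)
    simp only [Bool.false_eq_true, if_false] at h ⊢
    have h3 : ¬ F.X d < F.X (G.rev d) := by omega
    rw [h1] at h3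
    omega
  · simp only [Go, if_true] at h ⊢
    exact (F.same_side d).mp h

theorem go_pow (r : Bool) (d : D) (h : Go F r d) (n : ℕ) : Go F r ((G.rot ^ n) d) := by
  induction n with
  | zero => exact h
  | succ n ih => rw [pow_succ', Equiv.Perm.mul_apply]; exact go_rot F r _ ih

/-- the edge of `d` lies over the interval `(s, s+1)` -/
def Ov (s : ℤ) (d : D) : Prop :=
  min (F.X d) (F.X (G.rev d)) ≤ s ∧ s < max (F.X d) (F.X (G.rev d))

theorem ov_rev (s : ℤ) (d : D) : Ov F s (G.rev d) ↔ Ov F s d := by
  unfold Ov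
  rw [G.rev_rev, min_comm, max_comm]

/-- the interval next to `c` on the side `r` -/
def ss (r : Bool) (c : ℤ) : ℤ := if r = true then c else c - 1

theorem ov_of_go (r : Bool) (d : D) (c : ℤ) (hc : F.X d = c) (h : Go F r d) :
    Ov F (ss r c) d := by
  unfold Ov ss
  cases r
  · simp only [Go, Bool.false_eq_true, if_false] at h ⊢
    omega
  · simp only [Go, if_true] at h ⊢
    omega

theorem ov_of_cross (r : Bool) (d : D) (c : ℤ) (h1 : min (F.X d) (F.X (G.rev d)) < c)
    (h2 : c < max (F.X d) (F.X (G.rev d))) : Ov F (ss r c) d := by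
  unfold Ov ss
  cases r
  · simp only [Bool.false_eq_true, if_false]
    omega
  · simp only [if_true]
    omega

/-- the order of the edges, seen from the side `r` -/
def Rel (r : Bool) (p q : D) : Prop := if r = true then F.above p q else F.above q p

theorem rel_rev_left (r : Bool) (p q : D) : Rel F r (G.rev p) q ↔ Rel F r p q := by
  cases r
  · simp only [Rel, Bool.false_eq_true, if_false]
    exact F.above_rev q p
  · simp only [Rel, if_true]
    exact F.rev_above p q

theorem rel_rev_right (r : Bool) (p q : D) : Rel F r p (G.rev q) ↔ Rel F r p q := by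
  cases r
  · simp only [Rel, Bool.false_eq_true, if_false]
    exact F.rev_above q p
  · simp only [Rel, if_true]
    exact F.above_rev p q

theorem above_total (s : ℤ) (p q : D) (h1 : p ≠ q) (h2 : p ≠ G.rev q) (hp : Ov F s p)
    (hq : Ov F s q) : F.above p q ↔ ¬ F.above q p := by
  apply F.total p q h1 h2
  unfold Ov at hp hq
  omega

theorem rel_total (r : Bool) (s : ℤ) (p q : D) (h1 : p ≠ q) (h2 : p ≠ G.rev q) (hp : Ov F s p)
    (hq : Ov F s q) : Rel F r p q ↔ ¬ Rel F r q p := by
  have h := above_total F s p q h1 h2 hp hq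
  cases r
  · simp only [Rel, Bool.false_eq_true, if_false]
    tauto
  · simp only [Rel, if_true]
    exact h

theorem rel_trans (r : Bool) (s : ℤ) (a b c : D) (ha : Ov F s a) (hb : Ov F s b) (hc : Ov F s c)
    (h1 : Rel F r a b) (h2 : Rel F r b c) : Rel F r a c := by
  have hov : ∀ x y z : D, Ov F s x → Ov F s y → Ov F s z → ∀ d ∈ [x, y, z],
      min (F.X d) (F.X (G.rev d)) ≤ s ∧ s < max (F.X d) (F.X (G.rev d)) := by
    intro x y z hx hy hz d hd
    simp only [List.mem_cons, List.not_mem_nil, or_false] at hd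
    rcases hd with rfl | rfl | rfl
    · exact hx
    · exact hy
    · exact hz
  cases r
  · simp only [Rel, Bool.false_eq_true, if_false] at h1 h2 ⊢
    exact F.trans c b a s (hov c b a hc hb ha) h2 h1
  · simp only [Rel, if_true] at h1 h2 ⊢
    exact F.trans a b c s (hov a b c ha hb hc) h1 h2

theorem rel_order (r : Bool) (d : D) (h : Go F r d) (hM : G.rot d ∉ F.M) :
    Rel F r (G.rot d) d := by
  have h1 := F.order d hM
  cases r
  · simp only [Go, Bool.false_eq_true, if_false] at h
    rw [if_neg (by omega)] at h1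
    simp only [Rel, Bool.false_eq_true, if_false]
    exact h1
  · simp only [Go, if_true] at h
    rw [if_pos h] at h1
    simp only [Rel, if_true]
    exact h1

/-- the order of the strands, seen from the side `r` -/
def SRel (r : Bool) (p q : D) : Prop := if r = true then F.sAbove p q else F.sAbove q p

theorem srel_iff (r : Bool) (p q : D) (h : p ≠ G.rev q) : SRel F r p q ↔ Rel F r p q := by
  have h' : q ≠ G.rev p := by
    intro h1
    apply h
    rw [h1, G.rev_rev]
  cases r
  · simp only [SRel, Rel, Bool.false_eq_true, if_false, FoldedState.sAbove]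
    tauto
  · simp only [SRel, Rel, if_true, FoldedState.sAbove]
    tauto

theorem srel_rev (r : Bool) (d : D) (h : Go F r d) : SRel F r (G.rev d) d := by
  cases r
  · simp only [Go, Bool.false_eq_true, if_false] at h
    simp only [SRel, Bool.false_eq_true, if_false, FoldedState.sAbove, G.rev_rev]
    exact Or.inr ⟨trivial, h⟩
  · simp only [Go, if_true] at h
    simp only [SRel, if_true, FoldedState.sAbove]
    exact Or.inr ⟨trivial, h⟩

theorem not_srel_rev (r : Bool) (d : D) (h : Go F r d) : ¬ SRel F r d (G.rev d) := by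
  cases r
  · simp only [Go, Bool.false_eq_true, if_false] at h
    simp only [SRel, Bool.false_eq_true, if_false, FoldedState.sAbove]
    rintro (h1 | h1)
    · exact h1.1 rfl
    · omega
  · simp only [Go, if_true] at h
    simp only [SRel, if_true, FoldedState.sAbove, G.rev_rev]
    rintro (h1 | h1)
    · exact h1.1 rfl
    · omega

theorem sAbove_total (s : ℤ) (p q : D) (h1 : p ≠ q) (hp : Ov F s p) (hq : Ov F s q) :
    F.sAbove p q ↔ ¬ F.sAbove q p := by
  by_cases h : p = G.rev q
  · have h' : q = G.rev p := by rw [h, G.rev_rev]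
    unfold FoldedState.sAbove
    have hne : F.X p ≠ F.X q := by
      rw [h]
      exact X_ne F q
    constructor
    · rintro (h2 | h2)
      · exact absurd h h2.1
      · rintro (h3 | h3)
        · exact h3.1 h'
        · omega
    · intro h2
      right
      refine ⟨h, ?_⟩
      by_contra h3
      exact h2 (Or.inr ⟨h', by omega⟩)
  · have h' : q ≠ G.rev p := by
      intro h2
      apply h
      rw [h2, G.rev_rev]
    have h2 := above_total F s p q h1 h hp hq
    unfold FoldedState.sAbove
    tauto

theorem srel_total (r : Bool) (s : ℤ) (p q : D) (h1 : p ≠ q) (hp : Ov F s p) (hq : Ov F s q) :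
    SRel F r p q ↔ ¬ SRel F r q p := by
  have h := sAbove_total F s p q h1 hp hq
  cases r
  · simp only [SRel, Bool.false_eq_true, if_false]
    constructor
    · intro h3 h4
      exact (h.mp h4) h3
    · intro h3
      by_contra h4
      exact h3 (h.mpr h4)
  · simp only [SRel, if_true]
    exact h

/-- the edges at a vertex, in counterclockwise order starting with the mountain, are ordered -/
theorem chain (r : Bool) (m : D) (hm : Go F r m) (hM : ∀ b, G.rot.SameCycle m b → b ∈ F.M → b = m)
    (n : ℕ) : (∀ j, 0 < j → j ≤ n → (G.rot ^ j) m ≠ m) → ∀ i < n,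
      Rel F r ((G.rot ^ n) m) ((G.rot ^ i) m) := by
  induction n with
  | zero => intro _ i hi; omega
  | succ n ih =>
    intro h i hi
    have hov : ∀ j : ℕ, Ov F (ss r (F.X m)) ((G.rot ^ j) m) := fun j =>
      ov_of_go F r _ _ (X_pow F m j) (go_pow F r m hm j)
    have h1 : Rel F r ((G.rot ^ (n + 1)) m) ((G.rot ^ n) m) := by
      rw [pow_succ', Equiv.Perm.mul_apply]
      apply rel_order F r _ (go_pow F r m hm n)
      intro hin
      have h2 : G.rot.SameCycle m (G.rot ((G.rot ^ n) m)) := ⟨(n + 1 : ℕ), by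
        rw [zpow_natCast, pow_succ', Equiv.Perm.mul_apply]⟩
      have h3 := hM _ h2 hin
      have h4 := h (n + 1) (by omega) le_rfl
      rw [pow_succ', Equiv.Perm.mul_apply] at h4
      exact h4 h3
    rcases Nat.lt_or_ge i n with h2 | h2
    · have h3 := ih (fun j hj hjn => h j hj (by omega)) i h2
      exact rel_trans F r _ _ _ _ (hov _) (hov _) (hov _) h1 h3
    · have : i = n := by omega
      subst this
      exact h1

/-- no strand of the vertex lies between the two strands of a valley -/
theorem valley [Finite D] (r : Bool) (d : D) (hd : Go F r d) (hM : G.rot d ∉ F.M) (q : D)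
    (hq : G.rot.SameCycle d q ∨ G.rot.SameCycle d (G.rev q)) (h1 : q ≠ G.rev d)
    (h2 : q ≠ G.rot d) : SRel F r q (G.rev d) ↔ SRel F r q (G.rot d) := by
  obtain ⟨m, ⟨hmc, hmM⟩, huniq⟩ := F.one_mountain d
  have hmM' : ∀ b, G.rot.SameCycle m b → b ∈ F.M → b = m := fun b hb hbM =>
    huniq b ⟨hmc.trans hb, hbM⟩
  obtain ⟨N, hN, hNm, hmin, hall⟩ := period G.rot m
  have hgm : Go F r m := by
    obtain ⟨n, hn⟩ := hmc.exists_nat_pow_eq
    rw [← hn]
    exact go_pow F r d hd n
  have hXm : F.X m = F.X d := by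
    obtain ⟨n, hn⟩ := hmc.exists_nat_pow_eq
    rw [← hn]
    exact X_pow F d n
  obtain ⟨i, hi, hid⟩ := hall d hmc.symm
  -- `rot d = rot^(i+1) m` and `i + 1 < N`
  have hrd : (G.rot ^ (i + 1)) m = G.rot d := by rw [pow_succ', Equiv.Perm.mul_apply, hid]
  have hi1 : i + 1 < N := by
    rcases Nat.lt_or_ge (i + 1) N with h | h
    · exact h
    · exfalso
      have h3 : i + 1 = N := by omega
      apply hM
      rw [← hrd, h3, hNm]
      exact hmM
  have hchain : ∀ n < N, ∀ j < n, Rel F r ((G.rot ^ n) m) ((G.rot ^ j) m) := by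
    intro n hn j hj
    exact chain F r m hgm hmM' n (fun j' h3 h4 => hmin j' h3 (by omega)) j hj
  have hov : ∀ j : ℕ, Ov F (ss r (F.X m)) ((G.rot ^ j) m) := fun j =>
    ov_of_go F r _ _ (X_pow F m j) (go_pow F r m hgm j)
  have hinj : ∀ j j' : ℕ, j < j' → j' < N → (G.rot ^ j) m ≠ (G.rot ^ j') m := by
    intro j j' h3 h4 h5
    have h6 : (G.rot ^ (j' - j)) m = m := by
      have h7 : (G.rot ^ j') m = (G.rot ^ j) ((G.rot ^ (j' - j)) m) := by
        rw [← Equiv.Perm.mul_apply, ← pow_add]
        congr 2
        omega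
      rw [h7] at h5
      exact ((G.rot ^ j).injective h5).symm
    exact hmin (j' - j) (by omega) (by omega) h6
  have hXv : ∀ j : ℕ, F.X ((G.rot ^ j) m) = F.X m := fun j => X_pow F m j
  have hnerev : ∀ j j' : ℕ, (G.rot ^ j) m ≠ G.rev ((G.rot ^ j') m) := by
    intro j j' h3
    have h4 := X_ne F ((G.rot ^ j') m)
    rw [← h3, hXv, hXv] at h4
    exact h4 rfl
  have hnot : ∀ n < N, ∀ j < n, ¬ Rel F r ((G.rot ^ j) m) ((G.rot ^ n) m) := by
    intro n hn j hj
    have := (rel_total F r _ _ _ (hinj j n hj hn).symm (hnerev n j) (hov n) (hov j)).mp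
      (hchain n hn j hj)
    exact this
  -- the two cases
  rcases hq with hq | hq
  · obtain ⟨j, hj, hjq⟩ := hall q (hmc.symm.trans hq)
    have e1 : SRel F r q (G.rot d) ↔ Rel F r ((G.rot ^ j) m) ((G.rot ^ (i + 1)) m) := by
      rw [← hrd, ← hjq]
      exact srel_iff F r _ _ (hnerev _ _)
    rcases Nat.lt_trichotomy j i with h3 | h3 | h3
    · have e2 : SRel F r q (G.rev d) ↔ Rel F r ((G.rot ^ j) m) ((G.rot ^ i) m) := by
        rw [← hid, ← hjq, srel_iff F r _ _ (by rw [G.rev_rev]; exact hinj j i h3 hi),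
          rel_rev_right]
      rw [e1, e2]
      have h4 := hnot i hi j h3
      have h5 := hnot (i + 1) hi1 j (by omega)
      tauto
    · subst h3
      have hqd : q = d := by rw [← hjq, hid]
      rw [e1, hqd]
      have h4 := not_srel_rev F r d hd
      have h5 := hnot (j + 1) hi1 j (by omega)
      tauto
    · rcases Nat.lt_or_ge (i + 1) j with h4 | h4
      · have e2 : SRel F r q (G.rev d) ↔ Rel F r ((G.rot ^ j) m) ((G.rot ^ i) m) := by
          rw [← hid, ← hjq, srel_iff F r _ _ (by rw [G.rev_rev]; exact (hinj i j h3 hj).symm),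
            rel_rev_right]
        rw [e1, e2]
        have h5 := hchain j hj i h3
        have h6 := hchain j hj (i + 1) h4
        tauto
      · exfalso
        have h5 : j = i + 1 := by omega
        apply h2
        rw [← hjq, h5, hrd]
  · obtain ⟨j, hj, hjq⟩ := hall (G.rev q) (hmc.symm.trans hq)
    have hqe : q = G.rev ((G.rot ^ j) m) := by rw [hjq, G.rev_rev]
    have e2 : SRel F r q (G.rev d) ↔ Rel F r ((G.rot ^ j) m) ((G.rot ^ i) m) := by
      rw [hqe, ← hid, srel_iff F r _ _ (by rw [G.rev_rev]; exact (hnerev i j).symm),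
        rel_rev_left, rel_rev_right]
    rcases Nat.lt_trichotomy j i with h3 | h3 | h3
    · have e1 : SRel F r q (G.rot d) ↔ Rel F r ((G.rot ^ j) m) ((G.rot ^ (i + 1)) m) := by
        rw [hqe, ← hrd, srel_iff F r _ _ (by
          intro h
          exact hinj j (i + 1) (by omega) hi1 (G.rev.injective h)), rel_rev_left]
      rw [e1, e2]
      have h4 := hnot i hi j h3
      have h5 := hnot (i + 1) hi1 j (by omega)
      tauto
    · exfalso
      apply h1
      rw [hqe, h3, hid]
    · rcases Nat.lt_or_ge (i + 1) j with h4 | h4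
      · have e1 : SRel F r q (G.rot d) ↔ Rel F r ((G.rot ^ j) m) ((G.rot ^ (i + 1)) m) := by
          rw [hqe, ← hrd, srel_iff F r _ _ (by
            intro h
            exact hinj (i + 1) j h4 hj (G.rev.injective h).symm), rel_rev_left]
        rw [e1, e2]
        have h5 := hchain j hj i h3
        have h6 := hchain j hj (i + 1) h4
        tauto
      · have h5 : j = i + 1 := by omega
        subst h5
        have hqr : q = G.rev (G.rot d) := by rw [hqe, hrd]
        rw [e2]
        have h6 := hchain (i + 1) hi1 i (by omega)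
        have h7 : SRel F r q (G.rot d) := by
          rw [hqr]
          exact srel_rev F r _ (go_rot F r d hd)
        tauto

/-! ### signs -/

theorem sg_eq_of_iff {p q p' q' : D} (h : F.sAbove p q ↔ F.sAbove p' q') :
    F.sg p q = F.sg p' q' := by
  classical
  unfold FoldedState.sg
  by_cases h1 : F.sAbove p q
  · rw [if_pos h1, if_pos (h.mp h1)]
  · rw [if_neg h1, if_neg fun h2 => h1 (h.mpr h2)]

theorem sg_pos {p q : D} (h : F.sAbove p q) : F.sg p q = 1 := by
  classical
  unfold FoldedState.sg
  rw [if_pos h]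

theorem sg_neg {p q : D} (h : ¬ F.sAbove p q) : F.sg p q = -1 := by
  classical
  unfold FoldedState.sg
  rw [if_neg h]

theorem sAbove_iff (p q : D) (h : p ≠ G.rev q) : F.sAbove p q ↔ F.above p q := by
  unfold FoldedState.sAbove
  tauto

/-- signs with respect to a valley -/
theorem valley_sg [Finite D] (r : Bool) (d : D) (hd : Go F r d) (hM : G.rot d ∉ F.M) (q : D)
    (hq : G.rot.SameCycle d q ∨ G.rot.SameCycle d (G.rev q)) (h1 : q ≠ G.rev d)
    (h2 : q ≠ G.rot d) (hov : Ov F (ss r (F.X d)) q) :
    F.sg q (G.rev d) = F.sg q (G.rot d) ∧ F.sg (G.rev d) q = F.sg (G.rot d) q := by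
  have h := valley F r d hd hM q hq h1 h2
  have ho1 : Ov F (ss r (F.X d)) (G.rev d) := (ov_rev F _ d).mpr (ov_of_go F r d _ rfl hd)
  have ho2 : Ov F (ss r (F.X d)) (G.rot d) :=
    ov_of_go F r _ _ (F.X_rot d) (go_rot F r d hd)
  have t1 := sAbove_total F _ q (G.rev d) h1 hov ho1
  have t2 := sAbove_total F _ q (G.rot d) h2 hov ho2
  have t3 := sAbove_total F _ (G.rev d) q h1.symm ho1 hov
  have t4 := sAbove_total F _ (G.rot d) q h2.symm ho2 hov
  cases r
  · simp only [SRel, Bool.false_eq_true, if_false] at h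
    refine ⟨sg_eq_of_iff F ?_, sg_eq_of_iff F h⟩
    rw [t1, t2, h]
  · simp only [SRel, if_true] at h
    refine ⟨sg_eq_of_iff F h, sg_eq_of_iff F ?_⟩
    rw [t3, t4, h]

/-- edges at different vertices are not interleaved: signs -/
theorem nest_sg (r : Bool) (a b a' b' : D) (c : ℤ) (hab : G.rot.SameCycle (G.rev a) b)
    (hab' : G.rot.SameCycle (G.rev a') b') (hne : ¬ G.rot.SameCycle (G.rev a) (G.rev a'))
    (ha : Go F r (G.rev a)) (hb : Go F r b) (ha' : Go F r (G.rev a')) (hb' : Go F r b')
    (xa : F.X (G.rev a) = c) (xb : F.X b = c) (xa' : F.X (G.rev a') = c) (xb' : F.X b' = c) :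
    F.sg a' a + F.sg b' b = F.sg b' a + F.sg a' b := by
  have na'a : a' ≠ G.rev a := by
    intro h
    have h1 := X_ne F a'
    rw [xa', h, xa] at h1
    exact h1 rfl
  have na'b : a' ≠ G.rev b := by
    intro h
    apply hne
    have h1 : G.rev a' = b := by rw [h, G.rev_rev]
    rw [h1]
    exact hab
  have nb'a : b' ≠ G.rev a := by
    intro h
    apply hne
    rw [← h]
    exact hab'.symm
  have nb'b : b' ≠ G.rev b := by
    intro h
    have h1 := X_ne F b
    rw [← h, xb', xb] at h1
    exact h1 rfl
  -- signs in terms of `above`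
  have hA : F.sAbove a' a ↔ F.above (G.rev a') (G.rev a) := by
    rw [sAbove_iff F _ _ na'a, F.rev_above, F.above_rev]
  have hE : F.sAbove a' b ↔ F.above (G.rev a') b := by
    rw [sAbove_iff F _ _ na'b, F.rev_above]
  have hC : F.sAbove b' a ↔ F.above b' (G.rev a) := by
    rw [sAbove_iff F _ _ nb'a, F.above_rev]
  have hB : F.sAbove b' b ↔ F.above b' b := sAbove_iff F _ _ nb'b
  set e1 := G.rev a with he1
  set f1 := G.rev a' with hf1
  have hside : ∀ p q : D, Go F r p → Go F r q → (F.X p < F.X (G.rev p) ↔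
      F.X q < F.X (G.rev q)) := by
    intro p q hp hq
    cases r
    · simp only [Go, Bool.false_eq_true, if_false] at hp hq
      omega
    · simp only [Go, if_true] at hp hq
      omega
  have tot : ∀ x y : D, ¬ G.rot.SameCycle x y → F.X x = c → F.X y = c → Go F r x → Go F r y →
      (F.above x y ↔ ¬ F.above y x) := by
    intro x y hxy hx hy gx gy
    refine above_total F (ss r c) x y ?_ ?_ (ov_of_go F r x c hx gx) (ov_of_go F r y c hy gy)
    · rintro rfl
      exact hxy (SameCycle.refl _ _)
    · intro h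
      have h1 := X_ne F y
      rw [← h, hx, hy] at h1
      exact h1 rfl
  have hn11 : ¬ G.rot.SameCycle e1 f1 := hne
  have hn12 : ¬ G.rot.SameCycle e1 b' := fun h => hne (h.trans hab'.symm)
  have hn21 : ¬ G.rot.SameCycle b f1 := fun h => hne (hab.trans h)
  have hn22 : ¬ G.rot.SameCycle b b' := fun h => hne ((hab.trans h).trans hab'.symm)
  have t11 := tot e1 f1 hn11 xa xa' ha ha'
  have t12 := tot e1 b' hn12 xa xb' ha hb'
  have t21 := tot b f1 hn21 xb xa' hb ha'
  have t22 := tot b b' hn22 xb xb' hb hb'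
  have n1 := F.nest e1 b f1 b' hab hab' hn11 (xa.trans xa'.symm) (hside _ _ ha ha')
  have n2 := F.nest e1 b b' f1 hab hab'.symm hn12 (xa.trans xb'.symm) (hside _ _ ha hb')
  have n3 := F.nest b e1 f1 b' hab.symm hab' hn21 (xb.trans xa'.symm) (hside _ _ hb ha')
  have n4 := F.nest b e1 b' f1 hab.symm hab'.symm hn22 (xb.trans xb'.symm) (hside _ _ hb hb')
  have n5 := F.nest f1 b' e1 b hab' hab (fun h => hn11 h.symm) (xa'.trans xa.symm)
    (hside _ _ ha' ha)
  have n6 := F.nest f1 b' b e1 hab' hab.symm (fun h => hn21 h.symm) (xa'.trans xb.symm)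
    (hside _ _ ha' hb)
  have n7 := F.nest b' f1 e1 b hab'.symm hab (fun h => hn12 h.symm) (xb'.trans xa.symm)
    (hside _ _ hb' ha)
  have n8 := F.nest b' f1 b e1 hab'.symm hab.symm (fun h => hn22 h.symm) (xb'.trans xb.symm)
    (hside _ _ hb' hb)
  have m1 : F.above f1 e1 → F.above b' b → F.above f1 b :=
    fun x y => by_contra fun h => n1 ⟨x, t21.mpr h, y⟩
  have m2 : F.above b' e1 → F.above f1 b → F.above b' b :=
    fun x y => by_contra fun h => n2 ⟨x, t22.mpr h, y⟩
  have m3 : F.above f1 b → F.above b' e1 → F.above f1 e1 :=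
    fun x y => by_contra fun h => n3 ⟨x, t11.mpr h, y⟩
  have m4 : F.above b' b → F.above f1 e1 → F.above b' e1 :=
    fun x y => by_contra fun h => n4 ⟨x, t12.mpr h, y⟩
  have m5 : ¬ F.above f1 e1 → ¬ F.above b' b → ¬ F.above b' e1 :=
    fun x y z => n5 ⟨t11.mpr x, z, t22.mpr y⟩
  have m6 : ¬ F.above f1 b → ¬ F.above b' e1 → ¬ F.above b' b :=
    fun x y z => n6 ⟨t21.mpr x, z, t12.mpr y⟩
  have m7 : ¬ F.above b' e1 → ¬ F.above f1 b → ¬ F.above f1 e1 :=
    fun x y z => n7 ⟨t12.mpr x, z, t21.mpr y⟩
  have m8 : ¬ F.above b' b → ¬ F.above f1 e1 → ¬ F.above f1 b :=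
    fun x y z => n8 ⟨t22.mpr x, z, t11.mpr y⟩
  by_cases cA : F.above f1 e1
  · rw [sg_pos F (hA.mpr cA)]
    by_cases cB : F.above b' b
    · rw [sg_pos F (hB.mpr cB), sg_pos F (hE.mpr (m1 cA cB)), sg_pos F (hC.mpr (m4 cB cA))]
    · rw [sg_neg F (fun h => cB (hB.mp h))]
      by_cases cC : F.above b' e1
      · rw [sg_pos F (hC.mpr cC), sg_neg F (fun h => cB (m2 cC (hE.mp h)))]
      · have cE : F.above f1 b := by_contra fun h => m7 cC h cA
        rw [sg_neg F (fun h => cC (hC.mp h)), sg_pos F (hE.mpr cE)]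
        norm_num
  · rw [sg_neg F (fun h => cA (hA.mp h))]
    by_cases cB : F.above b' b
    · rw [sg_pos F (hB.mpr cB)]
      by_cases cC : F.above b' e1
      · rw [sg_pos F (hC.mpr cC), sg_neg F (fun h => cA (m3 (hE.mp h) cC))]
        norm_num
      · have cE : F.above f1 b := by_contra fun h => m6 h cC cB
        rw [sg_neg F (fun h => cC (hC.mp h)), sg_pos F (hE.mpr cE)]
    · rw [sg_neg F (fun h => cB (hB.mp h)), sg_neg F (fun h => m5 cA cB (hC.mp h)),
        sg_neg F (fun h => m8 cB cA (hE.mp h))]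

/-- two corners at the same position, to the same side, are not interleaved -/
theorem pair_sg [Finite D] (r : Bool) (a a' : D) (c : ℤ) (haa : a ≠ a')
    (ha : Go F r (G.rev a)) (ha' : Go F r (G.rev a')) (xa : F.X (G.rev a) = c)
    (xa' : F.X (G.rev a') = c) :
    F.sg a' a + F.sg (G.face a') (G.face a) = F.sg (G.face a') a + F.sg a' (G.face a) := by
  have hab : G.rot.SameCycle (G.rev a) (G.face a) := ⟨1, by rw [zpow_one]; rfl⟩
  have hab' : G.rot.SameCycle (G.rev a') (G.face a') := ⟨1, by rw [zpow_one]; rfl⟩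
  have hb : Go F r (G.face a) := go_rot F r _ ha
  have hb' : Go F r (G.face a') := go_rot F r _ ha'
  have xb : F.X (G.face a) = c := by rw [X_face, xa]
  have xb' : F.X (G.face a') = c := by rw [X_face, xa']
  by_cases hv : G.rot.SameCycle (G.rev a) (G.rev a')
  · have oa : Ov F (ss r c) a := (ov_rev F _ a).mp (ov_of_go F r _ c xa ha)
    have oa' : Ov F (ss r c) a' := (ov_rev F _ a').mp (ov_of_go F r _ c xa' ha')
    have ob : Ov F (ss r c) (G.face a) := ov_of_go F r _ c xb hb
    have ob' : Ov F (ss r c) (G.face a') := ov_of_go F r _ c xb' hb'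
    have xna : F.X a ≠ c := by
      have h := X_ne F a
      rw [xa] at h
      exact h.symm
    have xna' : F.X a' ≠ c := by
      have h := X_ne F a'
      rw [xa'] at h
      exact h.symm
    have hbb : G.face a ≠ G.face a' := fun h => haa (G.face.injective h)
    by_cases hM : G.rot (G.rev a) ∈ F.M
    · have hM' : G.rot (G.rev a') ∉ F.M := by
        intro hM'
        apply hbb
        obtain ⟨m, -, huniq⟩ := F.one_mountain (G.rev a)
        have h1 := huniq _ ⟨hab, hM⟩
        have h2 := huniq _ ⟨hv.trans hab', hM'⟩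
        exact h1.trans h2.symm
      have v1 := valley_sg F r (G.rev a') ha' hM' a (Or.inr hv.symm)
        (by rw [G.rev_rev]; exact haa) (fun h => xna (by rw [h]; exact xb'))
        (by rw [xa']; exact oa)
      have v2 := valley_sg F r (G.rev a') ha' hM' (G.face a) (Or.inl (hv.symm.trans hab))
        (by rw [G.rev_rev]; exact fun h => xna' (by rw [← h]; exact xb)) hbb
        (by rw [xa']; exact ob)
      rw [G.rev_rev] at v1 v2
      have h1 : F.sg a' a = F.sg (G.face a') a := v1.2
      have h2 : F.sg a' (G.face a) = F.sg (G.face a') (G.face a) := v2.2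
      rw [h1, h2]
    · have v1 := valley_sg F r (G.rev a) ha hM a' (Or.inr hv)
        (by rw [G.rev_rev]; exact haa.symm) (fun h => xna' (by rw [h]; exact xb))
        (by rw [xa]; exact oa')
      have v2 := valley_sg F r (G.rev a) ha hM (G.face a') (Or.inl (hv.trans hab'))
        (by rw [G.rev_rev]; exact fun h => xna (by rw [← h]; exact xb')) hbb.symm
        (by rw [xa]; exact ob')
      rw [G.rev_rev] at v1 v2
      have h1 : F.sg a' a = F.sg a' (G.face a) := v1.1
      have h2 : F.sg (G.face a') a = F.sg (G.face a') (G.face a) := v2.1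
      rw [h1, h2]
      ring
  · exact nest_sg F r a (G.face a) a' (G.face a') c hab hab' hv ha hb ha' hb' xa xb xa' xb'

/-- the sign at a corner -/
theorem corner_sg [Finite D] (r : Bool) (a : D) (ha : Go F r (G.rev a)) :
    (if r = true then F.sg (G.face a) a else -F.sg (G.face a) a) = tau F.M (G.face a) := by
  classical
  have hab : G.rot.SameCycle (G.rev a) (G.face a) := ⟨1, by rw [zpow_one]; rfl⟩
  have hb : Go F r (G.face a) := go_rot F r _ ha
  have xb : F.X (G.face a) = F.X (G.rev a) := X_face F a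
  have od : Ov F (ss r (F.X (G.rev a))) (G.rev a) := ov_of_go F r _ _ rfl ha
  have ob : Ov F (ss r (F.X (G.rev a))) (G.face a) := ov_of_go F r _ _ xb hb
  have hbrd : G.face a ≠ G.rev (G.rev a) := by
    rw [G.rev_rev]
    intro h
    have h1 := X_ne F a
    rw [h] at xb
    exact h1 xb.symm
  by_cases hM : G.face a ∈ F.M
  · have ht : tau F.M (G.face a) = -1 := by unfold tau; rw [if_pos hM]
    rw [ht]
    by_cases hd : G.face a = G.rev a
    · have hs : F.sAbove (G.face a) a ↔ F.X a < F.X (G.face a) := by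
        unfold FoldedState.sAbove
        constructor
        · rintro (h | h)
          · exact absurd hd h.1
          · exact h.2
        · intro h
          exact Or.inr ⟨hd, h⟩
      cases r
      · simp only [Go, Bool.false_eq_true, if_false, G.rev_rev] at ha
        simp only [Bool.false_eq_true, if_false]
        rw [sg_pos F (hs.mpr (by rw [xb]; exact ha))]
      · simp only [Go, if_true, G.rev_rev] at ha
        simp only [if_true]
        rw [sg_neg F (fun h => by
          have := hs.mp h
          rw [xb] at this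
          omega)]
    · -- the mountain is `face a`
      have hs : F.sAbove (G.face a) a ↔ F.above (G.face a) (G.rev a) := by
        rw [sAbove_iff F _ _ hd, F.above_rev]
      have hmM' : ∀ b, G.rot.SameCycle (G.face a) b → b ∈ F.M → b = G.face a := by
        intro b hbc hbM
        obtain ⟨m, -, huniq⟩ := F.one_mountain (G.face a)
        exact (huniq b ⟨hbc, hbM⟩).trans (huniq _ ⟨SameCycle.refl _ _, hM⟩).symm
      obtain ⟨N, hN, hNm, hmin, hall⟩ := period G.rot (G.face a)
      have hN2 : 2 ≤ N := by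
        rcases Nat.lt_or_ge N 2 with h | h
        · exfalso
          have h1 : N = 1 := by omega
          obtain ⟨j, hj, hjd⟩ := hall (G.rev a) hab.symm
          have h2 : j = 0 := by omega
          rw [h2, pow_zero] at hjd
          exact hd hjd
        · exact h
      have hd' : (G.rot ^ (N - 1)) (G.face a) = G.rev a := by
        apply G.rot.injective
        have h1 : G.rot ((G.rot ^ (N - 1)) (G.face a)) = (G.rot ^ N) (G.face a) := by
          rw [← Equiv.Perm.mul_apply, ← pow_succ']
          congr 2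
          omega
        rw [h1, hNm]
        rfl
      have h3 := chain F r (G.face a) hb hmM' (N - 1) (fun j h1 h2 => hmin j h1 (by omega)) 0
        (by omega)
      rw [hd', pow_zero, Equiv.Perm.one_apply] at h3
      have tt := above_total F _ (G.rev a) (G.face a) (fun h => hd h.symm)
        (fun h => hbrd (by rw [h, G.rev_rev])) od ob
      cases r
      · simp only [Rel, Bool.false_eq_true, if_false] at h3
        simp only [Bool.false_eq_true, if_false]
        rw [sg_pos F (hs.mpr h3)]
      · simp only [Rel, if_true] at h3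
        simp only [if_true]
        rw [sg_neg F (fun h => tt.mp h3 (hs.mp h))]
  · have ht : tau F.M (G.face a) = 1 := by unfold tau; rw [if_neg hM]
    rw [ht]
    have hd : G.face a ≠ G.rev a := by
      intro hd
      obtain ⟨m, ⟨hmc, hmM⟩, -⟩ := F.one_mountain (G.rev a)
      obtain ⟨n, hn⟩ := hmc.exists_nat_pow_eq
      have h1 : ∀ n : ℕ, (G.rot ^ n) (G.rev a) = G.rev a := by
        intro n
        induction n with
        | zero => rfl
        | succ n ih =>
          rw [pow_succ', Equiv.Perm.mul_apply, ih]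
          exact hd
      rw [h1] at hn
      apply hM
      rw [hd, hn]
      exact hmM
    have hs : F.sAbove (G.face a) a ↔ F.above (G.face a) (G.rev a) := by
      rw [sAbove_iff F _ _ hd, F.above_rev]
    have h3 := rel_order F r (G.rev a) ha hM
    have tt := above_total F _ (G.rev a) (G.face a) (fun h => hd h.symm)
      (fun h => hbrd (by rw [h, G.rev_rev])) od ob
    cases r
    · simp only [Rel, Bool.false_eq_true, if_false] at h3
      simp only [Bool.false_eq_true, if_false]
      rw [sg_neg F (fun h => tt.mp h3 (hs.mp h))]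
      norm_num
    · simp only [Rel, if_true] at h3
      simp only [if_true]
      rw [sg_pos F (hs.mpr h3)]

/-- every vertex has a side -/
theorem exists_side (a : D) : ∃ r : Bool, Go F r (G.rev a) ∧
    (r = true ↔ ¬ F.X a < F.X (G.rev a)) := by
  have h := X_ne F a
  rcases lt_trichotomy (F.X a) (F.X (G.rev a)) with h1 | h1 | h1
  · refine ⟨false, ?_, by simpa using h1⟩
    simp only [Go, Bool.false_eq_true, if_false, G.rev_rev]
    exact h1
  · exact absurd h1.symm h
  · refine ⟨true, ?_, by simp; omega⟩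
    simp only [Go, if_true, G.rev_rev]
    exact h1

end NW

variable {D : Type}

/-- NW (uses W) -/
theorem W_face [Fintype D] {G : PlaneGraph D} (F : G.FoldedState) (z : D) (m : ℕ)
    (c : ℤ) (h0 : F.X z ≠ c) (hm : F.X ((G.face ^ (m + 1)) z) ≠ c)
    (hinj : ∀ i ≤ m, ∀ j ≤ m, (G.face ^ i) z = (G.face ^ j) z → i = j) :
    Wf (fun i => F.X ((G.face ^ i) z)) (F.sgS z) m (c - 1) -
      Wf (fun i => F.X ((G.face ^ i) z)) (F.sgS z) m c =
    ∑ i ∈ (Finset.Icc 1 m).filter (fun i => F.X ((G.face ^ i) z) = c),
      tau F.M ((G.face ^ i) z) := by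
  have zsucc : ∀ i : ℕ, (G.face ^ (i + 1)) z = G.face ((G.face ^ i) z) := by
    intro i
    rw [pow_succ', Equiv.Perm.mul_apply]
  have xsucc : ∀ i : ℕ, F.X ((G.face ^ (i + 1)) z) = F.X (G.rev ((G.face ^ i) z)) := by
    intro i
    rw [zsucc, NW.X_face]
  have hSlt : ∀ i j : ℕ, i < j → F.sgS z i j = F.sg ((G.face ^ j) z) ((G.face ^ i) z) := by
    intro i j hij
    unfold FoldedState.sgS
    rw [if_pos hij]
  have hSgt : ∀ i j : ℕ, j < i → F.sgS z i j = F.sg ((G.face ^ i) z) ((G.face ^ j) z) := by
    intro i j hij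
    unfold FoldedState.sgS
    rw [if_neg (by omega), if_pos hij]
  have hS : ∀ i j, F.sgS z i j = F.sgS z j i := by
    intro i j
    rcases Nat.lt_trichotomy i j with h | h | h
    · rw [hSlt i j h, hSgt j i h]
    · rw [h]
    · rw [hSgt i j h, hSlt j i h]
  have key := W_step m (fun i => F.X ((G.face ^ i) z)) (F.sgS z) c hS h0 hm ?_ ?_ ?_
  · rw [key]
    apply Finset.sum_congr rfl
    intro i hi
    rw [Finset.mem_filter, Finset.mem_Icc] at hi
    obtain ⟨k, rfl⟩ : ∃ k, i = k + 1 := ⟨i - 1, by omega⟩
    rw [Nat.add_sub_cancel, hSlt k (k + 1) (by omega), zsucc]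
    obtain ⟨r, hr, hr'⟩ := NW.exists_side F ((G.face ^ k) z)
    rw [← NW.corner_sg F r _ hr]
    have hc : F.X (G.rev ((G.face ^ k) z)) = c := by rw [← xsucc]; exact hi.2
    rw [hc] at hr'
    by_cases h1 : F.X ((G.face ^ k) z) < c
    · have h2 : ¬ r = true := fun h => (hr'.mp h) h1
      rw [if_pos h1, if_neg h2]
    · rw [if_neg h1, if_pos (hr'.mpr h1)]
  · intro i hi1 him
    obtain ⟨k, rfl⟩ : ∃ k, i = k + 1 := ⟨i - 1, by omega⟩
    rw [Nat.add_sub_cancel]
    rw [xsucc (k + 1), xsucc k]
    obtain ⟨r, hr, hr'⟩ := NW.exists_side F ((G.face ^ k) z)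
    have h2 := NW.go_rot F r _ hr
    have h3 : G.rot (G.rev ((G.face ^ k) z)) = (G.face ^ (k + 1)) z := by rw [zsucc]; rfl
    rw [h3] at h2
    have h4 : F.X ((G.face ^ (k + 1)) z) = F.X (G.rev ((G.face ^ k) z)) := xsucc k
    cases r
    · left
      simp only [NW.Go, Bool.false_eq_true, if_false, G.rev_rev] at hr h2
      omega
    · right
      simp only [NW.Go, if_true, G.rev_rev] at hr h2
      omega
  · intro i hi1 him hic j hj hmin hmax
    obtain ⟨k, rfl⟩ : ∃ k, i = k + 1 := ⟨i - 1, by omega⟩
    rw [Nat.add_sub_cancel]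
    rw [xsucc j] at hmin hmax
    set a := (G.face ^ k) z with ha
    set e := (G.face ^ j) z with he
    have hxa : F.X (G.rev a) = c := by rw [ha, ← xsucc]; exact hic
    have hb : (G.face ^ (k + 1)) z = G.face a := zsucc k
    have hxb : F.X (G.face a) = c := by rw [NW.X_face, hxa]
    have hjk : j ≠ k := by
      intro h
      have : e = a := by rw [he, ha, h]
      rw [this, hxa] at hmin hmax
      omega
    have hjk1 : j ≠ k + 1 := by
      intro h
      have : e = G.face a := by rw [he, h, hb]
      rw [this, hxb] at hmin hmax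
      omega
    have ea : e ≠ G.rev a := by
      intro h
      rw [h, hxa] at hmin hmax
      omega
    have eb : e ≠ G.rev (G.face a) := by
      intro h
      rw [h, G.rev_rev, hxb] at hmin hmax
      omega
    have hcr : F.above e (G.rev a) ↔ F.above e (G.face a) :=
      F.cross (G.rev a) (G.face a) e ⟨1, by rw [zpow_one]; rfl⟩ (by rw [hxa]; exact hmin)
        (by rw [hxa]; exact hmax)
    have h1 : F.sAbove e a ↔ F.sAbove e (G.face a) := by
      rw [NW.sAbove_iff F _ _ ea, NW.sAbove_iff F _ _ eb, ← hcr, F.above_rev]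
    obtain ⟨r, hr, -⟩ := NW.exists_side F a
    have oa : NW.Ov F (NW.ss r c) a := (NW.ov_rev F _ a).mp (NW.ov_of_go F r _ c hxa hr)
    have ob : NW.Ov F (NW.ss r c) (G.face a) :=
      NW.ov_of_go F r _ c hxb (NW.go_rot F r _ hr)
    have oe : NW.Ov F (NW.ss r c) e := NW.ov_of_cross F r e c hmin hmax
    have ea' : a ≠ e := by
      intro h
      rw [← h, hxa] at hmin hmax
      omega
    have eb' : G.face a ≠ e := by
      intro h
      rw [← h, hxb] at hmin hmax
      omega
    have t1 := NW.sAbove_total F _ a e ea' oa oe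
    have t2 := NW.sAbove_total F _ (G.face a) e eb' ob oe
    rcases Nat.lt_or_ge j k with h | h
    · rw [hSgt k j h, hSgt (k + 1) j (by omega), hb]
      apply NW.sg_eq_of_iff
      rw [t1, t2, h1]
    · rw [hSlt k j (by omega), hSlt (k + 1) j (by omega), hb]
      exact NW.sg_eq_of_iff F h1
  · have main : ∀ k k' : ℕ, k < k' → k' + 1 ≤ m → F.X ((G.face ^ (k + 1)) z) = c →
        F.X ((G.face ^ (k' + 1)) z) = c → (F.X ((G.face ^ k) z) < c ↔ F.X ((G.face ^ k') z) < c) →
        F.sgS z k k' + F.sgS z (k + 1) (k' + 1) = F.sgS z k (k' + 1) + F.sgS z (k + 1) k' := by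
      intro k k' hkk hk'm hc1 hc2 hside
      set a := (G.face ^ k) z with ha
      set a' := (G.face ^ k') z with ha'
      have hxa : F.X (G.rev a) = c := by rw [ha, ← xsucc]; exact hc1
      have hxa' : F.X (G.rev a') = c := by rw [ha', ← xsucc]; exact hc2
      have hb : (G.face ^ (k + 1)) z = G.face a := zsucc k
      have hb' : (G.face ^ (k' + 1)) z = G.face a' := zsucc k'
      have hne1 : k' ≠ k + 1 := by
        intro h
        have h1 : a' = G.face a := by rw [ha', h, hb]
        have h2 := NW.X_ne F a'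
        rw [hxa', h1, NW.X_face, hxa] at h2
        exact h2 rfl
      have hne : a ≠ a' := by
        intro h
        have := hinj k (by omega) k' (by omega) h
        omega
      obtain ⟨r, hr, hr1⟩ := NW.exists_side F a
      obtain ⟨r', hr', hr1'⟩ := NW.exists_side F a'
      have hrr : r = r' := by
        rw [hxa] at hr1
        rw [hxa'] at hr1'
        rw [Bool.eq_iff_iff, hr1, hr1', hside]
      rw [← hrr] at hr'
      rw [hSlt k k' hkk, hSlt (k + 1) (k' + 1) (by omega), hSlt k (k' + 1) (by omega),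
        hSlt (k + 1) k' (by omega), hb, hb']
      exact NW.pair_sg F r a a' c hne hr hr' hxa hxa'
    intro i l hi1 him hl1 hlm hil hic hlc hside
    obtain ⟨k, rfl⟩ : ∃ k, i = k + 1 := ⟨i - 1, by omega⟩
    obtain ⟨k', rfl⟩ : ∃ k', l = k' + 1 := ⟨l - 1, by omega⟩
    rw [Nat.add_sub_cancel, Nat.add_sub_cancel] at *
    rcases Nat.lt_or_ge k k' with h | h
    · exact main k k' h hlm hic hlc hside
    · have h1 := main k' k (by omega) him hlc hic hside.symm
      rw [hS k k', hS (k + 1) (k' + 1), hS k (k' + 1), hS (k + 1) k', h1]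
      ring

end Pool.Agent.H606R2.FF
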