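import Pool.Agent.H606R2.FF.Base
import Pool.Agent.H606R2.FF.TNW

/-!
# Task NA: the strip conditions of a folded state (helper747)
-/

namespace Pool.Agent.H606R2.FF

open Equiv.Perm PlaneGraph

variable {D : Type}

namespace NAaux

lemma list_sum (f : ℕ → ℝ) (t : ℕ) : ((List.range t).map f).sum = ∑ i ∈ Finset.range t, f i := by
  induction t with
  | zero => simp
  | succ t ih => rw [List.range_succ, List.map_append, List.sum_append, ih, Finset.sum_range_succ]; simp

/-- only the first and the last edge remain -/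
lemma Wf_ends (x : ℕ → ℤ) (S : ℕ → ℕ → ℤ) (t : ℕ) (ht : 1 ≤ t) (s : ℤ)
    (h : ∀ i, 1 ≤ i → i < t → fl x i s = 0) : Wf x S t s = fl x 0 s * fl x t s * S 0 t := by
  unfold Wf
  rw [Finset.sum_range_succ, Finset.sum_eq_zero, zero_add,
    Finset.sum_eq_single_of_mem 0 (Finset.mem_range.2 (by omega))]
  · intro i hi hi0
    rw [Finset.mem_range] at hi
    rw [h i (by omega) hi]
    ring
  · intro j hj
    rw [Finset.mem_range] at hj
    refine Finset.sum_eq_zero fun i hi => ?_
    rw [Finset.mem_range] at hi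
    rw [h j (by omega) hj]
    ring

/-- the sum of the weights of an arc whose ends are strictly outside of its strip -/
lemma arc_sum [Fintype D] {G : PlaneGraph D} (F : G.FoldedState) (e : D) (t : ℕ) (ht : 1 ≤ t)
    (h0 : (∀ i, 1 ≤ i → i ≤ t → F.X ((G.face ^ i) e) < F.X e) ∨
      (∀ i, 1 ≤ i → i ≤ t → F.X e < F.X ((G.face ^ i) e)))
    (h1 : (∀ i, 1 ≤ i → i ≤ t → F.X ((G.face ^ i) e) < F.X ((G.face ^ (t + 1)) e)) ∨
      (∀ i, 1 ≤ i → i ≤ t → F.X ((G.face ^ (t + 1)) e) < F.X ((G.face ^ i) e))) :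
    ∃ lo hi : ℤ, (∀ i, 1 ≤ i → i ≤ t → lo ≤ F.X ((G.face ^ i) e) ∧ F.X ((G.face ^ i) e) ≤ hi) ∧
      (∃ i, 1 ≤ i ∧ i ≤ t ∧ F.X ((G.face ^ i) e) = lo) ∧
      (∃ i, 1 ≤ i ∧ i ≤ t ∧ F.X ((G.face ^ i) e) = hi) ∧
      ∑ i ∈ Finset.Icc 1 t, tau F.M ((G.face ^ i) e) =
        -((if F.X e < lo then 1 else 0) * (if F.X ((G.face ^ (t + 1)) e) < lo then 1 else 0) *
          F.sgS e 0 t) +
        (if hi < F.X e then 1 else 0) * (if hi < F.X ((G.face ^ (t + 1)) e) then 1 else 0) *
          F.sgS e 0 t := by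
  set x : ℕ → ℤ := fun i => F.X ((G.face ^ i) e) with hx
  have hx0 : x 0 = F.X e := by simp [hx]
  have hne : ((Finset.Icc 1 t).image x).Nonempty :=
    ⟨x 1, Finset.mem_image.2 ⟨1, Finset.mem_Icc.2 ⟨le_rfl, ht⟩, rfl⟩⟩
  obtain ⟨a, ha, hamin⟩ := Finset.mem_image.1 (Finset.min'_mem _ hne)
  obtain ⟨b, hb, hbmax⟩ := Finset.mem_image.1 (Finset.max'_mem _ hne)
  set lo := ((Finset.Icc 1 t).image x).min' hne with hlo
  set hi := ((Finset.Icc 1 t).image x).max' hne with hhi
  rw [Finset.mem_Icc] at ha hb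
  have hrange : ∀ i, 1 ≤ i → i ≤ t → lo ≤ x i ∧ x i ≤ hi := by
    intro i hi1 hi2
    have hmem : x i ∈ (Finset.Icc 1 t).image x :=
      Finset.mem_image.2 ⟨i, Finset.mem_Icc.2 ⟨hi1, hi2⟩, rfl⟩
    exact ⟨Finset.min'_le _ _ hmem, Finset.le_max' _ _ hmem⟩
  have h0' : hi < x 0 ∨ x 0 < lo := by
    rcases h0 with h | h
    · left
      rw [← hbmax, hx0]
      exact h b hb.1 hb.2
    · right
      rw [← hamin, hx0]
      exact h a ha.1 ha.2
  have h1' : hi < x (t + 1) ∨ x (t + 1) < lo := by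
    rcases h1 with h | h
    · left
      rw [← hbmax]
      exact h b hb.1 hb.2
    · right
      rw [← hamin]
      exact h a ha.1 ha.2
  have hlohi : lo ≤ hi := (hrange 1 le_rfl ht).1.trans (hrange 1 le_rfl ht).2
  have hinj' : ∀ i j : ℕ, i < j → j ≤ t → (G.face ^ i) e ≠ (G.face ^ j) e := by
    intro i j hij hj heq
    have h2 : (G.face ^ j) e = (G.face ^ i) ((G.face ^ (j - i)) e) := by
      rw [← Equiv.Perm.mul_apply, ← pow_add]
      congr 2
      omega
    rw [h2] at heq
    have h3 := (G.face ^ i).injective heq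
    have h4 := hrange (j - i) (by omega) (by omega)
    have h5 : x (j - i) = x 0 := by
      show F.X ((G.face ^ (j - i)) e) = x 0
      rw [← h3, hx0]
    rcases h0' with h | h <;> omega
  have hinj : ∀ i ≤ t, ∀ j ≤ t, (G.face ^ i) e = (G.face ^ j) e → i = j := by
    intro i hi' j hj' heq
    rcases lt_trichotomy i j with h | h | h
    · exact absurd heq (hinj' i j h hj')
    · exact h
    · exact absurd heq.symm (hinj' j i h hi')
  refine ⟨lo, hi, hrange, ⟨a, ha.1, ha.2, hamin⟩, ⟨b, hb.1, hb.2, hbmax⟩, ?_⟩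
  -- telescoping
  set n := (hi - lo + 1).toNat with hn
  set W : ℤ → ℤ := fun s => Wf x (F.sgS e) t s with hW
  have hstep : ∀ k ∈ Finset.range n, W (lo + k - 1) - W (lo + (k + 1 : ℕ) - 1) =
      ∑ i ∈ (Finset.Icc 1 t).filter (fun i => (x i - lo).toNat = k), tau F.M ((G.face ^ i) e) := by
    intro k hk
    rw [Finset.mem_range] at hk
    have hkl : lo + (k : ℤ) ≤ hi := by omega
    have hc0 : F.X e ≠ lo + k := by
      rw [← hx0]
      rcases h0' with h | h <;> omega
    have hc1 : F.X ((G.face ^ (t + 1)) e) ≠ lo + k := by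
      show x (t + 1) ≠ lo + k
      rcases h1' with h | h <;> omega
    have hw := W_face F e t (lo + k) hc0 hc1 hinj
    have e1 : lo + ((k + 1 : ℕ) : ℤ) - 1 = lo + k := by push_cast; ring
    rw [e1]
    show Wf x (F.sgS e) t (lo + k - 1) - Wf x (F.sgS e) t (lo + k) = _
    rw [hw]
    refine Finset.sum_congr (Finset.filter_congr fun i hi' => ?_) fun _ _ => rfl
    rw [Finset.mem_Icc] at hi'
    have h2 := hrange i hi'.1 hi'.2
    show x i = lo + k ↔ (x i - lo).toNat = k
    omega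
  have hsum : ∑ k ∈ Finset.range n, (W (lo + k - 1) - W (lo + (k + 1 : ℕ) - 1)) =
      W (lo - 1) - W hi := by
    rw [Finset.sum_range_sub' (fun k : ℕ => W (lo + k - 1))]
    congr 2
    · push_cast; ring
    · have : (n : ℤ) = hi - lo + 1 := Int.toNat_of_nonneg (by omega)
      rw [this]; ring
  rw [Finset.sum_congr rfl hstep, Finset.sum_fiberwise_of_maps_to] at hsum
  swap
  · intro i hi'
    rw [Finset.mem_Icc] at hi'
    have h2 := hrange i hi'.1 hi'.2
    rw [Finset.mem_range]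
    omega
  rw [hsum]
  -- the ends
  have hW1 : W (lo - 1) = -((if F.X e < lo then 1 else 0) *
      (if F.X ((G.face ^ (t + 1)) e) < lo then 1 else 0) * F.sgS e 0 t) := by
    show Wf x (F.sgS e) t (lo - 1) = _
    rw [Wf_ends x _ t ht]
    · have e0 : fl x 0 (lo - 1) = if F.X e < lo then 1 else 0 := by
        have h2 := hrange 1 le_rfl ht
        unfold fl
        rw [if_neg (show ¬ x (0 + 1) ≤ lo - 1 by rw [zero_add]; omega), ← hx0]
        by_cases h : x 0 < lo
        · rw [if_pos (by omega), if_pos h]; ring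
        · rw [if_neg (by omega), if_neg h]; ring
      have e1 : fl x t (lo - 1) = -(if F.X ((G.face ^ (t + 1)) e) < lo then 1 else 0) := by
        have h2 := hrange t ht le_rfl
        unfold fl
        rw [if_neg (show ¬ x t ≤ lo - 1 by omega)]
        show (0 : ℤ) - (if x (t + 1) ≤ lo - 1 then 1 else 0) = -(if x (t + 1) < lo then 1 else 0)
        by_cases h : x (t + 1) < lo
        · rw [if_pos (by omega), if_pos h]; ring
        · rw [if_neg (by omega), if_neg h]; ring
      rw [e0, e1]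
      ring
    · intro i hi1 hi2
      have h2 := hrange i hi1 (by omega)
      have h3 := hrange (i + 1) (by omega) (by omega)
      unfold fl
      rw [if_neg (by omega), if_neg (by omega)]
      ring
  have hW2 : W hi = -((if hi < F.X e then 1 else 0) *
      (if hi < F.X ((G.face ^ (t + 1)) e) then 1 else 0) * F.sgS e 0 t) := by
    show Wf x (F.sgS e) t hi = _
    rw [Wf_ends x _ t ht]
    · have e0 : fl x 0 hi = -(if hi < F.X e then 1 else 0) := by
        have h2 := hrange 1 le_rfl ht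
        unfold fl
        rw [if_pos (show x (0 + 1) ≤ hi by rw [zero_add]; omega), ← hx0]
        by_cases h : hi < x 0
        · rw [if_neg (by omega), if_pos h]; ring
        · rw [if_pos (by omega), if_neg h]; ring
      have e1 : fl x t hi = if hi < F.X ((G.face ^ (t + 1)) e) then 1 else 0 := by
        have h2 := hrange t ht le_rfl
        unfold fl
        rw [if_pos (show x t ≤ hi by omega)]
        show (1 : ℤ) - (if x (t + 1) ≤ hi then 1 else 0) = (if hi < x (t + 1) then 1 else 0)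
        by_cases h : hi < x (t + 1)
        · rw [if_neg (by omega), if_pos h]; ring
        · rw [if_pos (by omega), if_neg h]; ring
      rw [e0, e1]
      ring
    · intro i hi1 hi2
      have h2 := hrange i hi1 (by omega)
      have h3 := hrange (i + 1) (by omega) (by omega)
      unfold fl
      rw [if_pos (by omega), if_pos (by omega)]
      ring
  rw [hW1, hW2]
  ring

lemma sgS_abs [Fintype D] {G : PlaneGraph D} (F : G.FoldedState) (e : D) (t : ℕ) :
    F.sgS e 0 t = 1 ∨ F.sgS e 0 t = -1 ∨ F.sgS e 0 t = 0 := by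
  unfold FoldedState.sgS FoldedState.sg
  split_ifs <;> simp

end NAaux

open NAaux in
/-- NA (uses NW) -/
theorem strips_of_folded [Fintype D] {G : PlaneGraph D} (F : G.FoldedState) (d : D) :
    Strips G.face F.X (fun a => (tau F.M a : ℝ)) d := by
  intro e _ t ht
  have hsum : ((inner G.face e t).map (fun a => (tau F.M a : ℝ))).sum =
      ((∑ i ∈ Finset.Icc 1 t, tau F.M ((G.face ^ i) e) : ℤ) : ℝ) := by
    unfold inner
    rw [List.map_map, list_sum]
    push_cast
    rw [← Finset.Ico_succ_right_eq_Icc, Finset.sum_Ico_eq_sum_range]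
    refine Finset.sum_congr (by simp) fun i _ => ?_
    show ((tau F.M ((G.face ^ (i + 1)) e) : ℤ) : ℝ) = ((tau F.M ((G.face ^ (1 + i)) e) : ℤ) : ℝ)
    rw [add_comm]
  have hmem : ∀ i, 1 ≤ i → i ≤ t → (G.face ^ i) e ∈ inner G.face e t := by
    intro i h1 h2
    unfold inner
    rw [List.mem_map]
    refine ⟨i - 1, List.mem_range.2 (by omega), ?_⟩
    congr 2
    omega
  have hsg := sgS_abs F e t
  refine ⟨?_, ?_, ?_, ?_⟩
  · intro hu hv
    obtain ⟨lo, hi, hr, ⟨a, ha1, ha2, ha3⟩, ⟨b, hb1, hb2, hb3⟩, hs⟩ := arc_sum F e t ht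
      (Or.inl fun i h1 h2 => hu _ (hmem i h1 h2)) (Or.inl fun i h1 h2 => hv _ (hmem i h1 h2))
    have q1 := hu _ (hmem b hb1 hb2)
    have q2 := hv _ (hmem b hb1 hb2)
    have q3 := hu _ (hmem a ha1 ha2)
    rw [hb3] at q1 q2
    rw [ha3] at q3
    rw [hsum, hs, if_neg (by omega), if_pos q1, if_pos q2]
    rcases hsg with h | h | h <;> rw [h] <;> norm_num
  · intro hu hv
    obtain ⟨lo, hi, hr, ⟨a, ha1, ha2, ha3⟩, ⟨b, hb1, hb2, hb3⟩, hs⟩ := arc_sum F e t ht
      (Or.inr fun i h1 h2 => hu _ (hmem i h1 h2)) (Or.inr fun i h1 h2 => hv _ (hmem i h1 h2))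
    have q1 := hu _ (hmem a ha1 ha2)
    have q2 := hv _ (hmem a ha1 ha2)
    have q3 := hu _ (hmem b hb1 hb2)
    rw [ha3] at q1 q2
    rw [hb3] at q3
    rw [hsum, hs, if_pos q1, if_pos q2, if_neg (show ¬ hi < F.X e by omega)]
    rcases hsg with h | h | h <;> rw [h] <;> norm_num
  · intro hu hv
    obtain ⟨lo, hi, hr, ⟨a, ha1, ha2, ha3⟩, ⟨b, hb1, hb2, hb3⟩, hs⟩ := arc_sum F e t ht
      (Or.inl fun i h1 h2 => hu _ (hmem i h1 h2)) (Or.inr fun i h1 h2 => hv _ (hmem i h1 h2))
    have q1 := hu _ (hmem a ha1 ha2)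
    have q2 := hv _ (hmem b hb1 hb2)
    rw [ha3] at q1
    rw [hb3] at q2
    rw [hsum, hs, if_neg (show ¬ F.X e < lo by omega),
      if_neg (show ¬ hi < F.X ((G.face ^ (t + 1)) e) by omega)]
    simp
  · intro hu hv
    obtain ⟨lo, hi, hr, ⟨a, ha1, ha2, ha3⟩, ⟨b, hb1, hb2, hb3⟩, hs⟩ := arc_sum F e t ht
      (Or.inr fun i h1 h2 => hu _ (hmem i h1 h2)) (Or.inl fun i h1 h2 => hv _ (hmem i h1 h2))
    have q1 := hu _ (hmem b hb1 hb2)
    have q2 := hv _ (hmem a ha1 ha2)
    rw [hb3] at q1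
    rw [ha3] at q2
    rw [hsum, hs, if_neg (show ¬ F.X ((G.face ^ (t + 1)) e) < lo by omega),
      if_neg (show ¬ hi < F.X e by omega)]
    simp

end Pool.Agent.H606R2.FF
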