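import Pool.Agent.H606R2.FF.Alg
import Pool.Agent.H671R2.PolyAuto
import Pool.Agent.H687R2.IntPoly

set_option autoImplicit false

/-!
# The propagation of the positions is computable in polynomial time
-/

namespace Pool.Agent.H606R2.FF

open Pool.Agent.NPC

namespace PP

theorem natAbs_lt_two_pow_sz (n : ℕ) : n < 2 ^ sz n := by
  have h1 := size_le_sz n
  have h2 := Nat.lt_size_self n
  exact h2.trans_le (Nat.pow_le_pow_right (by norm_num) (by omega))

theorem lenT_lt (G : Tab) (d : ℕ) : lenT G d < 2 ^ sz G := by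
  unfold lenT
  by_cases hd : d < G.1.length
  · have h1 : G.1.getD d (0, 0, 0) ∈ G.1 := by
      rw [List.getD_eq_getElem _ _ hd]
      exact List.getElem_mem hd
    set e := G.1.getD d (0, 0, 0) with he
    have h2 := sz_le_of_mem h1
    have h3 : sz e = sz e.1 + sz e.2 + 1 := sz_pair e.1 e.2
    have h4 : sz e.2 = sz e.2.1 + sz e.2.2 + 1 := sz_pair e.2.1 e.2.2
    have h5 : sz G = sz G.1 + sz G.2 + 1 := sz_pair G.1 G.2
    refine (natAbs_lt_two_pow_sz e.2.2).trans_le (Nat.pow_le_pow_right (by norm_num) (by omega))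
  · rw [List.getD_eq_default _ _ (by omega)]
    simp

/-- bound for an entry -/
def Ent (B : ℕ) (e : List ℤ) : Prop :=
  e = [] ∨ ∃ x s : ℤ, e = [x, s] ∧ x.natAbs ≤ B ∧ s.natAbs ≤ 1

theorem Ent.mono {B C : ℕ} (h : B ≤ C) {e : List ℤ} (he : Ent B e) : Ent C e := by
  rcases he with he | ⟨x, s, h1, h2, h3⟩
  · exact Or.inl he
  · exact Or.inr ⟨x, s, h1, h2.trans h, h3⟩

theorem ent_pget {B : ℕ} {S : List (List ℤ)} (hS : ∀ e ∈ S, Ent B e) (d : ℕ) :
    Ent B (pget S d) := by
  unfold pget
  by_cases hd : d < S.length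
  · rw [List.getD_eq_getElem _ _ hd]
    exact hS _ (List.getElem_mem hd)
  · rw [List.getD_eq_default _ _ (by omega)]
    exact Or.inl rfl

theorem ent_pnew (G : Tab) {B : ℕ} {S : List (List ℤ)} (hS : ∀ e ∈ S, Ent B e) (d : ℕ) :
    Ent (B + 2 ^ sz G) (pnew G S d) := by
  unfold pnew
  split_ifs with h1 h2 h3
  · exact (ent_pget hS d).mono (Nat.le_add_right _ _)
  · exact (ent_pget hS _).mono (Nat.le_add_right _ _)
  · rcases ent_pget hS (revT G d) with h | ⟨x, s, h, hx, hs⟩
    · exact absurd h h3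
    · rw [h]
      refine Or.inr ⟨_, _, rfl, ?_, ?_⟩
      · simp only [List.getD_cons_zero, List.getD_cons_succ]
        have h4 := lenT_lt G d
        have h5 := Int.natAbs_add_le x (s * (lenT G d : ℤ))
        have h6 : (s * (lenT G d : ℤ)).natAbs ≤ lenT G d := by
          rw [Int.natAbs_mul, Int.natAbs_natCast]
          exact (Nat.mul_le_mul_right _ hs).trans (by rw [one_mul])
        omega
      · simp only [List.getD_cons_zero, List.getD_cons_succ, Int.natAbs_neg]
        exact hs
  · exact Or.inl rfl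

theorem ent_iter (G : Tab) (k : ℕ) : ∀ e ∈ (pround G)^[k] (pinit G), Ent (k * 2 ^ sz G) e := by
  induction k with
  | zero =>
    intro e he
    rw [Function.iterate_zero, id_eq] at he
    unfold pinit at he
    rw [List.mem_map] at he
    obtain ⟨d, _, rfl⟩ := he
    split_ifs
    · exact Or.inr ⟨0, 1, rfl, by simp, by simp⟩
    · exact Or.inl rfl
  | succ k ih =>
    intro e he
    rw [Function.iterate_succ_apply'] at he
    unfold pround at he
    rw [List.mem_map] at he
    obtain ⟨d, _, rfl⟩ := he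
    have := ent_pnew G ih d
    rw [add_mul, one_mul]
    exact this

theorem length_iter (G : Tab) (k : ℕ) : ((pround G)^[k] (pinit G)).length = G.1.length := by
  cases k with
  | zero => simp [pinit]
  | succ k => rw [Function.iterate_succ_apply']; simp [pround]

theorem sz_ent {B : ℕ} {e : List ℤ} (he : Ent B e) : sz e ≤ 4 * B.size + 20 := by
  rcases he with rfl | ⟨x, s, rfl, hx, hs⟩
  · simp
  · rw [sz_list_cons, sz_list_cons, sz_list_nil]
    have h1 := sz_int_le x
    have h2 := sz_int_le s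
    have h3 := Nat.size_le_size hx
    have h4 := Nat.size_le_size hs
    have h5 : Nat.size 1 = 1 := by simp
    omega

theorem sz_iter (G : Tab) (k : ℕ) (hk : k ≤ G.1.length) :
    sz ((pround G)^[k] (pinit G)) ≤ sz G * (8 * sz G + 25) + 1 := by
  have h5 : sz G = sz G.1 + sz G.2 + 1 := sz_pair G.1 G.2
  have hlen := length_lt_sz G.1
  have h0 : (k * 2 ^ sz G).size ≤ 2 * sz G := by
    rw [Nat.size_le, two_mul, pow_add]
    have h1 : k < 2 ^ sz G := by
      have := Nat.lt_two_pow_self (n := sz G)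
      omega
    exact Nat.mul_lt_mul_of_pos_right h1 (by positivity)
  have h1 := sz_le_length_mul ((pround G)^[k] (pinit G)) (8 * sz G + 20) (by
    intro e he
    have := sz_ent (ent_iter G k e he)
    omega)
  rw [length_iter] at h1
  refine h1.trans (Nat.add_le_add_right (Nat.mul_le_mul (by omega) (by omega)) 1)

end PP

open PP

variable {α : Type} [TEnc α]

theorem poly_rotT {G : α → Tab} {d : α → ℕ} (hG : NPC.Poly G) (hd : NPC.Poly d) :
    NPC.Poly (fun a => rotT (G a) (d a)) := by
  unfold rotT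
  fun_prop

theorem poly_revT {G : α → Tab} {d : α → ℕ} (hG : NPC.Poly G) (hd : NPC.Poly d) :
    NPC.Poly (fun a => revT (G a) (d a)) := by
  unfold revT
  fun_prop

theorem poly_lenT {G : α → Tab} {d : α → ℕ} (hG : NPC.Poly G) (hd : NPC.Poly d) :
    NPC.Poly (fun a => lenT (G a) (d a)) := by
  unfold lenT
  fun_prop

theorem poly_pget {S : α → List (List ℤ)} {d : α → ℕ} (hS : NPC.Poly S) (hd : NPC.Poly d) :
    NPC.Poly (fun a => pget (S a) (d a)) := by
  unfold pget
  fun_prop

theorem poly_pnew {G : α → Tab} {S : α → List (List ℤ)} {d : α → ℕ} (hG : NPC.Poly G) (hS : NPC.Poly S)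
    (hd : NPC.Poly d) : NPC.Poly (fun a => pnew (G a) (S a) (d a)) := by
  unfold pnew
  have h1 := poly_rotT hG hd
  have h2 := poly_revT hG hd
  have h3 := poly_lenT hG hd
  have e0 := poly_pget hS hd
  have e1 := poly_pget hS h1
  have e2 := poly_pget hS h2
  refine NPC.Poly.ite (NPC.Poly.decide_not (NPC.Poly.decide_eq e0 (NPC.Poly.const _))) e0
    (NPC.Poly.ite (NPC.Poly.decide_not (NPC.Poly.decide_eq e1 (NPC.Poly.const _))) e1
      (NPC.Poly.ite (NPC.Poly.decide_not (NPC.Poly.decide_eq e2 (NPC.Poly.const _))) ?_ (NPC.Poly.const _)))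
  exact NPC.Poly.cons (NPC.Poly.iadd (NPC.Poly.getD e2 (NPC.Poly.const _) (NPC.Poly.const _))
    (NPC.Poly.imul (NPC.Poly.getD e2 (NPC.Poly.const _) (NPC.Poly.const _)) (NPC.Poly.natCast h3)))
    (NPC.Poly.cons (NPC.Poly.ineg (NPC.Poly.getD e2 (NPC.Poly.const _) (NPC.Poly.const _))) (NPC.Poly.const _))

/-- PP -/
theorem poly_ppos : NPC.Poly ppos := by
  unfold ppos
  refine NPC.Poly.iterLen (α := Tab) (l := fun G : Tab => G.1) (s := pinit) (F := pround)
    (NPC.Poly.fst NPC.Poly.id) ?_ ?_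
    (Polynomial.X * (Polynomial.C 8 * Polynomial.X + Polynomial.C 25) + Polynomial.C 1) ?_
  · unfold pinit
    exact NPC.Poly.map (F := fun (_ : Tab) d => if d = 0 then ([0, 1] : List ℤ) else [])
      (NPC.Poly.range_length (NPC.Poly.fst NPC.Poly.id))
      (NPC.Poly.ite (NPC.Poly.decide_eq (NPC.Poly.snd NPC.Poly.id) (NPC.Poly.const _)) (NPC.Poly.const _) (NPC.Poly.const _))
  · unfold pround
    exact NPC.Poly.map (F := fun (p : Tab × List (List ℤ)) d => pnew p.1 p.2 d)
      (NPC.Poly.range_length (NPC.Poly.fst (NPC.Poly.fst NPC.Poly.id)))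
      (poly_pnew (NPC.Poly.fst (NPC.Poly.fst NPC.Poly.id)) (NPC.Poly.snd (NPC.Poly.fst NPC.Poly.id)) (NPC.Poly.snd NPC.Poly.id))
  · intro G k hk
    have := sz_iter G k hk
    simp only [Polynomial.eval_add, Polynomial.eval_mul, Polynomial.eval_C, Polynomial.eval_X]
    exact this

end Pool.Agent.H606R2.FF
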