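import Pool.Agent.H606R2.FF.Base

/-!
# Task W: the sum over pairs of layers changes by the turnings
-/

set_option autoImplicit false

namespace Pool.Agent.H606R2.FF.TWaux

open Finset

/-- `S` without the diagonal -/
def S0 (S : ℕ → ℕ → ℤ) (i j : ℕ) : ℤ := if i = j then 0 else S i j

/-- the bilinear form -/
def B (S : ℕ → ℕ → ℤ) (n : ℕ) (u v : ℕ → ℤ) : ℤ :=
  ∑ i ∈ range n, u i * ∑ j ∈ range n, v j * S0 S i j

lemma B_self (S : ℕ → ℕ → ℤ) (hS : ∀ i j, S i j = S j i) (u : ℕ → ℤ) (n : ℕ) :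
    B S n u u = 2 * ∑ j ∈ range n, ∑ i ∈ range j, u i * u j * S i j := by
  have hS0 : ∀ i j, S0 S i j = S0 S j i := by
    intro i j
    unfold S0
    by_cases h : i = j
    · rw [if_pos h, if_pos h.symm]
    · rw [if_neg h, if_neg (fun h' => h h'.symm), hS]
  induction n with
  | zero => simp [B]
  | succ n ih =>
    have h1 : B S (n + 1) u u = B S n u u + 2 * ∑ i ∈ range n, u i * u n * S i n := by
      unfold B
      rw [sum_range_succ]
      have h2 : ∀ i, ∑ j ∈ range (n + 1), u j * S0 S i j =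
          ∑ j ∈ range n, u j * S0 S i j + u n * S0 S i n := fun i => sum_range_succ _ _
      simp only [h2, mul_add, sum_add_distrib]
      have h3 : S0 S n n = 0 := by simp [S0]
      have h4 : ∑ i ∈ range n, u i * (u n * S0 S i n) = ∑ i ∈ range n, u i * u n * S i n := by
        apply sum_congr rfl
        intro i hi
        have : i ≠ n := (mem_range.1 hi).ne
        simp only [S0, if_neg this]
        ring
      have h5 : u n * ∑ j ∈ range n, u j * S0 S n j = ∑ i ∈ range n, u i * u n * S i n := by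
        rw [mul_sum]
        apply sum_congr rfl
        intro i hi
        have : i ≠ n := (mem_range.1 hi).ne
        rw [hS0 n i]
        simp only [S0, if_neg this]
        ring
      rw [h3, h4, h5]
      ring
    rw [h1, ih, sum_range_succ, mul_add]

lemma B_add (S : ℕ → ℕ → ℤ) (n : ℕ) (u v w : ℕ → ℤ) :
    B S n (fun i => u i + v i) w = B S n u w + B S n v w := by
  unfold B
  rw [← sum_add_distrib]
  exact sum_congr rfl (fun i _ => by ring)

lemma B_symm (S : ℕ → ℕ → ℤ) (hS : ∀ i j, S i j = S j i) (n : ℕ) (u v : ℕ → ℤ) :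
    B S n u v = B S n v u := by
  unfold B
  simp only [mul_sum]
  rw [sum_comm]
  apply sum_congr rfl
  intro i _
  apply sum_congr rfl
  intro j _
  have : S0 S j i = S0 S i j := by
    unfold S0
    by_cases h : i = j
    · rw [if_pos h, if_pos h.symm]
    · rw [if_neg h, if_neg (fun h' => h h'.symm), hS]
  rw [this]
  ring

/-- sums against the difference of indicator functions -/
lemma sum_ind (m : ℕ) (K : Finset ℕ) (hK : K ⊆ Icc 1 m) (F : ℕ → ℤ) :
    ∑ i ∈ range (m + 1), ((if i + 1 ∈ K then (1 : ℤ) else 0) - (if i ∈ K then 1 else 0)) * F i =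
      ∑ k ∈ K, (F (k - 1) - F k) := by
  have h1 : ∑ i ∈ range (m + 1), (if i + 1 ∈ K then (1 : ℤ) else 0) * F i =
      ∑ k ∈ K, F (k - 1) := by
    simp only [ite_mul, one_mul, zero_mul]
    rw [← sum_filter]
    refine sum_bij' (fun i _ => i + 1) (fun k _ => k - 1) ?_ ?_ ?_ ?_ ?_
    · intro i hi
      exact (mem_filter.1 hi).2
    · intro k hk
      have := mem_Icc.1 (hK hk)
      rw [mem_filter, mem_range]
      have h2 : k - 1 + 1 = k := by omega
      rw [h2]
      exact ⟨by omega, hk⟩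
    · intro i _; simp
    · intro k hk
      have := mem_Icc.1 (hK hk)
      omega
    · intro i _; simp
  have h2 : ∑ i ∈ range (m + 1), (if i ∈ K then (1 : ℤ) else 0) * F i = ∑ k ∈ K, F k := by
    simp only [ite_mul, one_mul, zero_mul]
    rw [← sum_filter]
    apply sum_congr _ (fun _ _ => rfl)
    ext k
    rw [mem_filter, mem_range]
    constructor
    · exact fun h => h.2
    · intro hk
      have := mem_Icc.1 (hK hk)
      exact ⟨by omega, hk⟩
  rw [sum_sub_distrib, ← h1, ← h2, ← sum_sub_distrib]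
  apply sum_congr rfl
  intro i _
  ring

/-- the effect of the corners -/
lemma core (m : ℕ) (S : ℕ → ℕ → ℤ) (hS : ∀ i j, S i j = S j i) (g : ℕ → ℤ) (K : Finset ℕ)
    (hK : K ⊆ Icc 1 m) (e : ℤ) (he : e * e = 1)
    (hg : ∀ k ∈ K, ∀ j ≤ m, g j ≠ 0 → j ≠ k - 1 ∧ j ≠ k ∧ S (k - 1) j = S k j)
    (hK2 : ∀ k ∈ K, ∀ l ∈ K, k ≠ l → k - 1 ≠ l ∧ k ≠ l - 1 ∧
      S (k - 1) (l - 1) + S k l = S (k - 1) l + S k (l - 1)) (f : ℕ → ℤ)
    (hf : ∀ i ≤ m, f i = g i + e * ((if i + 1 ∈ K then (1 : ℤ) else 0) -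
      (if i ∈ K then 1 else 0))) :
    B S (m + 1) f f = B S (m + 1) g g - 2 * ∑ k ∈ K, S (k - 1) k := by
  set a : ℕ → ℤ := fun i => e * ((if i + 1 ∈ K then (1 : ℤ) else 0) -
      (if i ∈ K then 1 else 0)) with ha
  have hfa : ∀ w, B S (m + 1) f w = B S (m + 1) g w + B S (m + 1) a w := by
    intro w
    rw [← B_add]
    unfold B
    apply sum_congr rfl
    intro i hi
    rw [hf i (by rw [mem_range] at hi; omega)]
  have hBa : ∀ w, B S (m + 1) a w = e * ∑ k ∈ K, ((∑ j ∈ range (m + 1), w j * S0 S (k - 1) j) -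
      ∑ j ∈ range (m + 1), w j * S0 S k j) := by
    intro w
    rw [← sum_ind m K hK (fun i => ∑ j ∈ range (m + 1), w j * S0 S i j)]
    unfold B
    rw [mul_sum]
    apply sum_congr rfl
    intro i _
    simp only [ha]
    ring
  have hag : B S (m + 1) a g = 0 := by
    rw [hBa]
    have : ∑ k ∈ K, ((∑ j ∈ range (m + 1), g j * S0 S (k - 1) j) -
      ∑ j ∈ range (m + 1), g j * S0 S k j) = 0 := by
      apply sum_eq_zero
      intro k hk
      rw [sub_eq_zero]
      apply sum_congr rfl
      intro j hj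
      by_cases hgj : g j = 0
      · rw [hgj]; ring
      · obtain ⟨h1, h2, h3⟩ := hg k hk j (by rw [mem_range] at hj; omega) hgj
        unfold S0
        rw [if_neg (fun h => h1 h.symm), if_neg (fun h => h2 h.symm), h3]
    rw [this, mul_zero]
  have haa : B S (m + 1) a a = - 2 * ∑ k ∈ K, S (k - 1) k := by
    rw [hBa, mul_sum, mul_sum]
    apply sum_congr rfl
    intro k hk
    have hk1 := mem_Icc.1 (hK hk)
    have h1 : ∀ i, ∑ j ∈ range (m + 1), a j * S0 S i j =
        e * ∑ l ∈ K, (S0 S i (l - 1) - S0 S i l) := by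
      intro i
      rw [← sum_ind m K hK (fun j => S0 S i j), mul_sum]
      apply sum_congr rfl
      intro j _
      simp only [ha]
      ring
    rw [h1, h1, ← mul_sub, ← sum_sub_distrib, ← mul_assoc, he, one_mul]
    rw [sum_eq_single k]
    · have e1 : S0 S (k - 1) (k - 1) = 0 := by simp [S0]
      have e2 : S0 S k k = 0 := by simp [S0]
      have e3 : S0 S (k - 1) k = S (k - 1) k := by
        unfold S0; rw [if_neg (by omega)]
      have e4 : S0 S k (k - 1) = S (k - 1) k := by
        unfold S0; rw [if_neg (by omega), hS]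
      rw [e1, e2, e3, e4]
      ring
    · intro l hl hlk
      obtain ⟨h2, h3, h4⟩ := hK2 k hk l hl (fun h => hlk h.symm)
      have hl1 := mem_Icc.1 (hK hl)
      have e1 : S0 S (k - 1) (l - 1) = S (k - 1) (l - 1) := by
        unfold S0; rw [if_neg (by omega)]
      have e2 : S0 S k l = S k l := by
        unfold S0; rw [if_neg (fun h => hlk h.symm)]
      have e3 : S0 S (k - 1) l = S (k - 1) l := by
        unfold S0; rw [if_neg h2]
      have e4 : S0 S k (l - 1) = S k (l - 1) := by
        unfold S0; rw [if_neg h3]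
      rw [e1, e2, e3, e4]
      linarith
    · intro h; exact absurd hk h
  have h1 : B S (m + 1) f f = B S (m + 1) g g + B S (m + 1) a g + (B S (m + 1) a g +
      B S (m + 1) a a) := by
    rw [hfa f, B_symm S hS (m + 1) g f, hfa g, B_symm S hS (m + 1) a f, hfa a,
      B_symm S hS (m + 1) g a]
  rw [h1, hag, haa]
  ring

end Pool.Agent.H606R2.FF.TWaux

namespace Pool.Agent.H606R2.FF

open Finset TWaux

/-- W -/
theorem W_step (m : ℕ) (x : ℕ → ℤ) (S : ℕ → ℕ → ℤ) (c : ℤ)
    (hS : ∀ i j, S i j = S j i) (h0 : x 0 ≠ c) (hm : x (m + 1) ≠ c)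
    (halt : ∀ i, 1 ≤ i → i ≤ m → (x (i - 1) < x i ∧ x (i + 1) < x i) ∨
      (x i < x (i - 1) ∧ x i < x (i + 1)))
    (hcross : ∀ i, 1 ≤ i → i ≤ m → x i = c → ∀ j ≤ m, min (x j) (x (j + 1)) < c →
      c < max (x j) (x (j + 1)) → S (i - 1) j = S i j)
    (hpair : ∀ i k, 1 ≤ i → i ≤ m → 1 ≤ k → k ≤ m → i ≠ k → x i = c → x k = c →
      (x (i - 1) < c ↔ x (k - 1) < c) → S (i - 1) (k - 1) + S i k = S (i - 1) k + S i (k - 1)) :
    Wf x S m (c - 1) - Wf x S m c = ∑ i ∈ (Finset.Icc 1 m).filter (fun i => x i = c),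
      (if x (i - 1) < c then -S (i - 1) i else S (i - 1) i) := by
  classical
  set Rc : Finset ℕ := ((Icc 1 m).filter (fun i => x i = c)).filter (fun i => x (i - 1) < c)
    with hR
  set Lc : Finset ℕ := ((Icc 1 m).filter (fun i => x i = c)).filter (fun i => ¬ x (i - 1) < c)
    with hL
  have hRm : ∀ k, k ∈ Rc ↔ (1 ≤ k ∧ k ≤ m) ∧ x k = c ∧ x (k - 1) < c := by
    intro k
    rw [hR, mem_filter, mem_filter, mem_Icc, and_assoc]
  have hLm : ∀ k, k ∈ Lc ↔ (1 ≤ k ∧ k ≤ m) ∧ x k = c ∧ ¬ x (k - 1) < c := by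
    intro k
    rw [hL, mem_filter, mem_filter, mem_Icc, and_assoc]
  set g : ℕ → ℤ := fun i => fl x i (c - 1) - (1 : ℤ) * ((if i + 1 ∈ Rc then (1 : ℤ) else 0) -
      (if i ∈ Rc then 1 else 0)) with hg
  -- the crossing edges
  have hg0 : ∀ j ≤ m, g j ≠ 0 → min (x j) (x (j + 1)) < c ∧ c < max (x j) (x (j + 1)) := by
    intro j hj hgj
    have hfl : fl x j (c - 1) = (if x j < c then 1 else 0) - (if x (j + 1) < c then 1 else 0) := by
      unfold fl
      congr 1
      · congr 1
        exact propext Int.le_sub_one_iff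
      · congr 1
        exact propext Int.le_sub_one_iff
    by_cases hj0 : x j = c
    · exfalso
      apply hgj
      have hj1 : 1 ≤ j := by
        rcases Nat.eq_zero_or_pos j with h | h
        · rw [h] at hj0; exact absurd hj0 h0
        · exact h
      have hne : x (j + 1) ≠ c := by
        rcases halt j hj1 hj with h | h
        · intro h'; omega
        · intro h'; omega
      have hj1R : j + 1 ∉ Rc := fun h => hne ((hRm _).1 h).2.1
      simp only [hg, hfl]
      rw [if_neg hj1R, if_neg (show ¬ x j < c by omega)]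
      rcases halt j hj1 hj with h | h
      · have h1 : j ∈ Rc := (hRm _).2 ⟨⟨hj1, hj⟩, hj0, by omega⟩
        rw [if_pos h1, if_pos (show x (j + 1) < c by omega)]
        norm_num
      · have h1 : j ∉ Rc := fun h' => by have := ((hRm _).1 h').2.2; omega
        rw [if_neg h1, if_neg (show ¬ x (j + 1) < c by omega)]
        norm_num
    · by_cases hj1 : x (j + 1) = c
      · exfalso
        apply hgj
        have hjm : j + 1 ≤ m := by
          rcases Nat.lt_or_ge j m with h | h
          · omega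
          · have : j = m := by omega
            rw [this] at hj1; exact absurd hj1 hm
        have hjR : j ∉ Rc := fun h => hj0 ((hRm _).1 h).2.1
        simp only [hg, hfl]
        rw [if_neg hjR, if_neg (show ¬ x (j + 1) < c by omega)]
        by_cases h : x j < c
        · have h1 : j + 1 ∈ Rc := (hRm _).2 ⟨⟨by omega, hjm⟩, hj1, by simpa using h⟩
          rw [if_pos h1, if_pos h]
          norm_num
        · have h1 : j + 1 ∉ Rc := fun h' => h (by simpa using ((hRm _).1 h').2.2)
          rw [if_neg h1, if_neg h]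
          norm_num
      · have h1 : j ∉ Rc := fun h => hj0 ((hRm _).1 h).2.1
        have h2 : j + 1 ∉ Rc := fun h => hj1 ((hRm _).1 h).2.1
        simp only [hg, hfl] at hgj
        rw [if_neg h1, if_neg h2] at hgj
        rw [min_lt_iff, lt_max_iff]
        by_cases h3 : x j < c <;> by_cases h4 : x (j + 1) < c
        · rw [if_pos h3, if_pos h4] at hgj; norm_num at hgj
        · exact ⟨Or.inl h3, Or.inr (by omega)⟩
        · exact ⟨Or.inr h4, Or.inl (by omega)⟩
        · rw [if_neg h3, if_neg h4] at hgj; norm_num at hgj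
  -- endpoints at c are not crossing
  have hcr : ∀ k, 1 ≤ k → k ≤ m → x k = c → ∀ j ≤ m, g j ≠ 0 →
      j ≠ k - 1 ∧ j ≠ k ∧ S (k - 1) j = S k j := by
    intro k hk1 hkm hkc j hj hgj
    obtain ⟨h1, h2⟩ := hg0 j hj hgj
    refine ⟨?_, ?_, hcross k hk1 hkm hkc j hj h1 h2⟩
    · intro h
      have h3 : j + 1 = k := by omega
      rw [h3, hkc] at h1 h2
      rw [min_lt_iff] at h1
      rw [lt_max_iff] at h2
      omega
    · intro h
      rw [h, hkc] at h1 h2
      rw [min_lt_iff] at h1
      rw [lt_max_iff] at h2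
      omega
  have hnadj : ∀ k l, 1 ≤ k → k ≤ m → 1 ≤ l → l ≤ m → x k = c → x l = c → k - 1 ≠ l := by
    intro k l hk1 hkm hl1 hlm hk hl h
    rcases halt k hk1 hkm with h' | h'
    · rw [h, hl, hk] at h'; omega
    · rw [h, hl, hk] at h'; omega
  -- values of the flow at c
  have hflc : ∀ j ≤ m, fl x j c = g j + (-1) * ((if j + 1 ∈ Lc then (1 : ℤ) else 0) -
      (if j ∈ Lc then 1 else 0)) := by
    intro j hj
    have e1 : ∀ i, (if x i ≤ c then (1 : ℤ) else 0) = (if x i ≤ c - 1 then 1 else 0) +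
        (if x i = c then 1 else 0) := by
      intro i
      by_cases h1 : x i ≤ c - 1
      · rw [if_pos h1, if_pos (by omega), if_neg (by omega)]; norm_num
      · by_cases h2 : x i = c
        · rw [if_neg h1, if_pos (by omega), if_pos h2]; norm_num
        · rw [if_neg h1, if_neg (by omega), if_neg h2]; norm_num
    have e2 : ∀ i ≤ m + 1, (if x i = c then (1 : ℤ) else 0) = (if i ∈ Rc then 1 else 0) +
        (if i ∈ Lc then 1 else 0) := by
      intro i hi
      by_cases h1 : x i = c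
      · have hi1 : 1 ≤ i := by
          rcases Nat.eq_zero_or_pos i with h | h
          · rw [h] at h1; exact absurd h1 h0
          · exact h
        have him : i ≤ m := by
          rcases Nat.lt_or_ge i (m + 1) with h | h
          · omega
          · have : i = m + 1 := by omega
            rw [this] at h1; exact absurd h1 hm
        rw [if_pos h1]
        by_cases h2 : x (i - 1) < c
        · rw [if_pos ((hRm i).2 ⟨⟨hi1, him⟩, h1, h2⟩), if_neg (fun h => ((hLm i).1 h).2.2 h2)]
          norm_num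
        · rw [if_neg (fun h => h2 ((hRm i).1 h).2.2), if_pos ((hLm i).2 ⟨⟨hi1, him⟩, h1, h2⟩)]
          norm_num
      · rw [if_neg h1, if_neg (fun h => h1 ((hRm i).1 h).2.1),
          if_neg (fun h => h1 ((hLm i).1 h).2.1)]
        norm_num
    simp only [hg]
    unfold fl
    rw [e1 j, e1 (j + 1), e2 j (by omega), e2 (j + 1) (by omega)]
    ring
  have c1 := core m S hS g Rc (fun k hk => mem_Icc.2 ((hRm k).1 hk).1) 1 (by norm_num)
    (fun k hk => hcr k ((hRm k).1 hk).1.1 ((hRm k).1 hk).1.2 ((hRm k).1 hk).2.1)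
    (by
      intro k hk l hl hkl
      obtain ⟨⟨hk1, hkm⟩, hkc, hks⟩ := (hRm k).1 hk
      obtain ⟨⟨hl1, hlm⟩, hlc, hls⟩ := (hRm l).1 hl
      exact ⟨hnadj k l hk1 hkm hl1 hlm hkc hlc,
        fun h => hnadj l k hl1 hlm hk1 hkm hlc hkc h.symm,
        hpair k l hk1 hkm hl1 hlm hkl hkc hlc ⟨fun _ => hls, fun _ => hks⟩⟩)
    (fun i => fl x i (c - 1)) (by intro i _; simp only [hg]; ring)
  have c2 := core m S hS g Lc (fun k hk => mem_Icc.2 ((hLm k).1 hk).1) (-1) (by norm_num)
    (fun k hk => hcr k ((hLm k).1 hk).1.1 ((hLm k).1 hk).1.2 ((hLm k).1 hk).2.1)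
    (by
      intro k hk l hl hkl
      obtain ⟨⟨hk1, hkm⟩, hkc, hks⟩ := (hLm k).1 hk
      obtain ⟨⟨hl1, hlm⟩, hlc, hls⟩ := (hLm l).1 hl
      exact ⟨hnadj k l hk1 hkm hl1 hlm hkc hlc,
        fun h => hnadj l k hl1 hlm hk1 hkm hlc hkc h.symm,
        hpair k l hk1 hkm hl1 hlm hkl hkc hlc ⟨fun h => absurd h hks, fun h => absurd h hls⟩⟩)
    (fun i => fl x i c) hflc
  rw [B_self S hS] at c1 c2
  have d1 : 2 * Wf x S m (c - 1) = B S (m + 1) g g - 2 * ∑ k ∈ Rc, S (k - 1) k := c1
  have d2 : 2 * Wf x S m c = B S (m + 1) g g - 2 * ∑ k ∈ Lc, S (k - 1) k := c2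
  have d3 : ∑ i ∈ (Finset.Icc 1 m).filter (fun i => x i = c),
      (if x (i - 1) < c then -S (i - 1) i else S (i - 1) i) =
      - ∑ k ∈ Rc, S (k - 1) k + ∑ k ∈ Lc, S (k - 1) k := by
    rw [sum_ite, ← sum_neg_distrib]
  rw [d3]
  linarith

end Pool.Agent.H606R2.FF
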